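import Pool.Agent.PWL.PE

/-!
# Chains of normal subgroups of a finite `p`-group with factors of bounded order
-/

namespace Pool.PWL

open scoped commutatorElement

/-- a proper subgroup of a finite `p`-group lies in a subgroup of index `p` -/
private theorem ABBlock_index {F : Type*} [Group F] [Finite F] {p : ℕ} [Fact p.Prime]
    (hF : IsPGroup p F) (E : Subgroup F) (hE : E ≠ ⊤) : ∃ K : Subgroup F, E ≤ K ∧ K.index = p := by
  obtain ⟨N, hN⟩ := hF.exists_card_eq
  obtain ⟨n, hn⟩ := (hF.to_subgroup E).exists_card_eq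
  have hp : 1 < p := (Fact.out : p.Prime).one_lt
  have hlt : n < N := by
    have h1 : Nat.card E ≤ Nat.card F := Subgroup.card_le_card_group E
    have h2 : Nat.card E ≠ Nat.card F := fun h => hE (Subgroup.eq_top_of_card_eq E h)
    have h3 : p ^ n < p ^ N := by rw [← hn, ← hN]; omega
    exact (Nat.pow_lt_pow_iff_right hp).1 h3
  obtain ⟨K, hK, hEK⟩ := Sylow.exists_subgroup_card_pow_prime_le (G := F) p (n := n) (m := N - 1)
    (by rw [hN]; exact pow_dvd_pow p (by omega)) E hn (by omega)
  refine ⟨K, hEK, ?_⟩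
  have h4 := K.card_mul_index
  rw [hK, hN] at h4
  have h5 : p ^ N = p ^ (N - 1) * p := by rw [← pow_succ]; congr 1; omega
  rw [h5] at h4
  exact Nat.eq_of_mul_eq_mul_left (pow_pos (by omega) _) h4

/-- a proper subgroup `E` of `F` with `[F, G] ≤ E` lies in a normal subgroup of index `p` in `F` -/
private theorem ABBlock_normal {G : Type*} [Group G] [Finite G] {p : ℕ} [Fact p.Prime]
    (hG : IsPGroup p G) (E F : Subgroup G) (hEF : E ≤ F) (hne : ¬ F ≤ E)
    (hc : ⁅F, (⊤ : Subgroup G)⁆ ≤ E) :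
    ∃ E₁ : Subgroup G, E₁.Normal ∧ E ≤ E₁ ∧ E₁ ≤ F ∧ E₁.relIndex F = p := by
  obtain ⟨K, hEK, hK⟩ := ABBlock_index (hG.to_subgroup F) (E.subgroupOf F)
    (fun h => hne (Subgroup.subgroupOf_eq_top.1 h))
  have h1 : E ≤ K.map F.subtype := by
    intro g hg
    exact ⟨⟨g, hEF hg⟩, hEK (Subgroup.mem_subgroupOf.2 hg), rfl⟩
  have h2 : K.map F.subtype ≤ F := Subgroup.map_subtype_le K
  refine ⟨K.map F.subtype, ⟨fun n hn g => ?_⟩, h1, h2, ?_⟩
  · have h3 : g * n * g⁻¹ = ⁅g, n⁆ * n := by rw [commutatorElement_def]; group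
    rw [h3]
    refine Subgroup.mul_mem _ (h1 (hc ?_)) hn
    rw [Subgroup.commutator_comm]
    exact Subgroup.commutator_mem_commutator (Subgroup.mem_top g) (h2 hn)
  · rw [Subgroup.relIndex, Subgroup.subgroupOf, Subgroup.comap_map_eq_self_of_injective
      F.subtype_injective, hK]

/-- between normal subgroups `W < U` there is a normal one of index `p` in `U` -/
private theorem ABBlock_step {S : Type*} [Group S] [Finite S] {p : ℕ} [Fact p.Prime]
    (hS : IsPGroup p S) (U W : Subgroup S) (hU : U.Normal) (hW : W.Normal) (hWU : W ≤ U)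
    (hne : ¬ U ≤ W) : ∃ V : Subgroup S, V.Normal ∧ W ≤ V ∧ V ≤ U ∧ V.relIndex U = p := by
  have hnil : Group.IsNilpotent S := hS.isNilpotent
  have hE : ⁅U, (⊤ : Subgroup S)⁆ ⊔ W ≤ U :=
    sup_le (Subgroup.commutator_le_left U ⊤) hWU
  obtain ⟨V, hV, h1, h2, h3⟩ := ABBlock_normal hS (⁅U, (⊤ : Subgroup S)⁆ ⊔ W) U hE
    (fun h => hne (nil_le h)) le_sup_left
  exact ⟨V, hV, le_sup_right.trans h1, h2, h3⟩

/-- between normal subgroups `W ≤ U` there is a normal one of index `p ^ j` in `U` -/
private theorem ABBlock_pow {S : Type*} [Group S] [Finite S] {p : ℕ} [Fact p.Prime]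
    (hS : IsPGroup p S) (U W : Subgroup S) (hU : U.Normal) (hW : W.Normal) (hWU : W ≤ U) (n : ℕ)
    (hn : W.relIndex U = p ^ n) (j : ℕ) (hj : j ≤ n) :
    ∃ V : Subgroup S, V.Normal ∧ W ≤ V ∧ V ≤ U ∧ V.relIndex U = p ^ j := by
  have hp : 1 < p := (Fact.out : p.Prime).one_lt
  induction j with
  | zero => exact ⟨U, hU, hWU, le_rfl, by rw [pow_zero, Subgroup.relIndex_self]⟩
  | succ j ih =>
    obtain ⟨V, hV, h1, h2, h3⟩ := ih (by omega)
    have hne : ¬ V ≤ W := by
      intro h
      have h4 : V = W := le_antisymm h h1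
      rw [h4, hn] at h3
      have := Nat.pow_right_injective (show 2 ≤ p from hp) h3
      omega
    obtain ⟨V', hV', h4, h5, h6⟩ := ABBlock_step hS V W hV hW h1 hne
    refine ⟨V', hV', h4, h5.trans h2, ?_⟩
    rw [← Subgroup.relIndex_mul_relIndex V' V U h5 h2, h6, h3, pow_succ, mul_comm]

theorem exists_blocks {S : Type*} [Group S] [Finite S] {p : ℕ} [Fact p.Prime]
    (hS : IsPGroup p S) (a k : ℕ) (U W : Subgroup S) (hU : U.Normal) (hW : W.Normal)
    (hWU : W ≤ U) (h : W.relIndex U ≤ p ^ (a * k)) :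
    ∃ C : ℕ → Subgroup S, C 0 = W ∧ C k = U ∧ (∀ i, (C i).Normal) ∧
      ∀ i < k, C i ≤ C (i + 1) ∧ (C i).relIndex (C (i + 1)) ≤ p ^ a := by
  have hp : 1 < p := (Fact.out : p.Prime).one_lt
  induction k generalizing U with
  | zero =>
    have h1 : W.relIndex U ≠ 0 := Subgroup.index_ne_zero_of_finite
    have h2 : W.relIndex U = 1 := by
      rw [mul_zero, pow_zero] at h
      omega
    have h3 : U ≤ W := Subgroup.relIndex_eq_one.1 h2
    exact ⟨fun _ => W, rfl, le_antisymm hWU h3, fun _ => hW, fun i hi => absurd hi (by omega)⟩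
  | succ k ih =>
    obtain ⟨n, hn⟩ : ∃ n, W.relIndex U = p ^ n := (hS.to_subgroup U).index (W.subgroupOf U)
    have hnak : n ≤ a * (k + 1) := by
      rw [hn] at h
      exact (Nat.pow_le_pow_iff_right hp).1 h
    obtain ⟨V, hV, h1, h2, h3⟩ := ABBlock_pow hS U W hU hW hWU n hn (min a n) (min_le_right _ _)
    have h4 : W.relIndex V = p ^ (n - min a n) := by
      have h5 := Subgroup.relIndex_mul_relIndex W V U h1 h2
      rw [h3, hn] at h5
      have h6 : p ^ n = p ^ (n - min a n) * p ^ (min a n) := by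
        rw [← pow_add]
        congr 1
        have := min_le_right a n
        omega
      rw [h6] at h5
      exact Nat.eq_of_mul_eq_mul_right (pow_pos (by omega) _) h5
    have h5 : n - min a n ≤ a * k := by
      rw [mul_add, mul_one] at hnak
      rcases le_total a n with h6 | h6
      · rw [min_eq_left h6]
        omega
      · rw [min_eq_right h6, Nat.sub_self]
        exact Nat.zero_le _
    obtain ⟨C, c0, ck, cn, ci⟩ := ih V hV h1
      (by rw [h4]; exact Nat.pow_le_pow_right (by omega) h5)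
    refine ⟨fun i => if i ≤ k then C i else U, ?_, ?_, ?_, ?_⟩
    · simp only [Nat.zero_le, if_true, c0]
    · simp only [show ¬ (k + 1 ≤ k) by omega, if_false]
    · intro i
      by_cases hi : i ≤ k
      · simp only [hi, if_true]
        exact cn i
      · simp only [hi, if_false]
        exact hU
    · intro i hi
      by_cases hik : i < k
      · simp only [show i ≤ k by omega, show i + 1 ≤ k by omega, if_true]
        exact ci i hik
      · have hik' : i = k := by omega
        subst hik'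
        simp only [le_refl, show ¬ (i + 1 ≤ i) by omega, if_true, if_false, ck]
        refine ⟨h2, ?_⟩
        rw [h3]
        exact Nat.pow_le_pow_right (by omega) (min_le_left _ _)

end Pool.PWL
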