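import Mathlib

namespace Pool.PWL

open scoped commutatorElement

private theorem cd_card_mul {N : Type*} [Group N] {H K : Subgroup N} (h : H ≤ K) :
    Nat.card H * H.relIndex K = Nat.card K := by
  have h1 := Subgroup.relIndex_mul_relIndex (⊥ : Subgroup N) H K bot_le h
  rw [Subgroup.relIndex_bot_left, Subgroup.relIndex_bot_left] at h1
  exact h1

private theorem cd_prod {N : Type*} [Group N] [Finite N] (H K : Subgroup N) :
    Nat.card H * Nat.card K ≤ Nat.card (H ⊔ K : Subgroup N) * Nat.card (H ⊓ K : Subgroup N) := by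
  have h1 : Nat.card (H ⊓ K : Subgroup N) * K.relIndex H = Nat.card H := by
    rw [← Subgroup.inf_relIndex_left H K]
    exact cd_card_mul inf_le_left
  have h2 : Nat.card K * K.relIndex (H ⊔ K) = Nat.card (H ⊔ K : Subgroup N) :=
    cd_card_mul le_sup_right
  have h3 : K.relIndex H ≤ K.relIndex (H ⊔ K) := by
    refine Subgroup.relIndex_le_of_le_right le_sup_left ?_
    intro h0
    rw [h0, mul_zero] at h2
    exact absurd h2.symm Nat.card_pos.ne'
  calc Nat.card H * Nat.card K
      = Nat.card (H ⊓ K : Subgroup N) * K.relIndex H * Nat.card K := by rw [h1]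
    _ ≤ Nat.card (H ⊓ K : Subgroup N) * K.relIndex (H ⊔ K) * Nat.card K :=
        Nat.mul_le_mul_right _ (Nat.mul_le_mul_left _ h3)
    _ = Nat.card (H ⊔ K : Subgroup N) * Nat.card (H ⊓ K : Subgroup N) := by
        rw [← h2]; ring

private theorem cd_cen_sup {N : Type*} [Group N] (H K : Subgroup N) :
    Subgroup.centralizer ((H ⊔ K : Subgroup N) : Set N)
      = Subgroup.centralizer (H : Set N) ⊓ Subgroup.centralizer (K : Set N) := by
  apply le_antisymm
  · refine le_inf (Subgroup.centralizer_le ?_) (Subgroup.centralizer_le ?_)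
    · exact SetLike.coe_subset_coe.mpr le_sup_left
    · exact SetLike.coe_subset_coe.mpr le_sup_right
  · rw [Subgroup.le_centralizer_iff]
    refine sup_le ?_ ?_
    · rw [Subgroup.le_centralizer_iff]
      exact inf_le_left
    · rw [Subgroup.le_centralizer_iff]
      exact inf_le_right

private theorem cd_cen_inf {N : Type*} [Group N] (H K : Subgroup N) :
    Subgroup.centralizer (H : Set N) ⊔ Subgroup.centralizer (K : Set N)
      ≤ Subgroup.centralizer ((H ⊓ K : Subgroup N) : Set N) := by
  refine sup_le (Subgroup.centralizer_le ?_) (Subgroup.centralizer_le ?_)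
  · exact SetLike.coe_subset_coe.mpr inf_le_left
  · exact SetLike.coe_subset_coe.mpr inf_le_right

/-- the measure of Chermak and Delgado -/
private noncomputable def cdm {N : Type*} [Group N] (H : Subgroup N) : ℕ :=
  Nat.card H * Nat.card (Subgroup.centralizer (H : Set N))

private theorem cdm_mul {N : Type*} [Group N] [Finite N] (H K : Subgroup N) :
    cdm H * cdm K ≤ cdm (H ⊔ K) * cdm (H ⊓ K) := by
  unfold cdm
  have h1 := cd_prod H K
  have h2 := cd_prod (Subgroup.centralizer (H : Set N)) (Subgroup.centralizer (K : Set N))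
  rw [← cd_cen_sup] at h2
  have h3 : Nat.card (Subgroup.centralizer (H : Set N) ⊔ Subgroup.centralizer (K : Set N) :
      Subgroup N) ≤ Nat.card (Subgroup.centralizer ((H ⊓ K : Subgroup N) : Set N)) :=
    Nat.card_le_card_of_injective _ (Subgroup.inclusion_injective (cd_cen_inf H K))
  calc Nat.card H * Nat.card (Subgroup.centralizer (H : Set N)) *
        (Nat.card K * Nat.card (Subgroup.centralizer (K : Set N)))
      = (Nat.card H * Nat.card K) * (Nat.card (Subgroup.centralizer (H : Set N)) *
        Nat.card (Subgroup.centralizer (K : Set N))) := by ring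
    _ ≤ (Nat.card (H ⊔ K : Subgroup N) * Nat.card (H ⊓ K : Subgroup N)) *
        (Nat.card (Subgroup.centralizer (H : Set N) ⊔ Subgroup.centralizer (K : Set N) :
          Subgroup N) * Nat.card (Subgroup.centralizer ((H ⊔ K : Subgroup N) : Set N))) :=
        Nat.mul_le_mul h1 h2
    _ ≤ (Nat.card (H ⊔ K : Subgroup N) * Nat.card (H ⊓ K : Subgroup N)) *
        (Nat.card (Subgroup.centralizer ((H ⊓ K : Subgroup N) : Set N)) *
          Nat.card (Subgroup.centralizer ((H ⊔ K : Subgroup N) : Set N))) :=
        Nat.mul_le_mul_left _ (Nat.mul_le_mul_right _ h3)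
    _ = _ := by ring

private theorem cdm_comap {N : Type*} [Group N] (H : Subgroup N) (φ : N ≃* N) :
    cdm (H.comap φ.toMonoidHom) = cdm H := by
  have key : ∀ K : Subgroup N, Nat.card (K.comap φ.toMonoidHom) = Nat.card K := by
    intro K
    refine Nat.card_congr (Equiv.subtypeEquiv φ.toEquiv ?_)
    intro x
    exact Iff.rfl
  have hc : Subgroup.centralizer ((H.comap φ.toMonoidHom : Subgroup N) : Set N)
      = (Subgroup.centralizer (H : Set N)).comap φ.toMonoidHom := by
    ext x
    rw [Subgroup.mem_comap, Subgroup.mem_centralizer_iff, Subgroup.mem_centralizer_iff]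
    constructor
    · intro h y hy
      have h1 := h (φ.symm y) (by
        rw [SetLike.mem_coe, Subgroup.mem_comap]
        have : φ.toMonoidHom (φ.symm y) = y := φ.apply_symm_apply y
        rw [this]
        exact hy)
      have h2 := congrArg φ h1
      rw [map_mul, map_mul, φ.apply_symm_apply] at h2
      exact h2
    · intro h y hy
      rw [SetLike.mem_coe, Subgroup.mem_comap] at hy
      have h1 := h _ hy
      apply φ.injective
      rw [map_mul, map_mul]
      exact h1
  unfold cdm
  rw [hc, key, key]

/-! row ABCD: Chermak and Delgado -/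
theorem chermak_delgado {N : Type*} [Group N] [Finite N] (A₀ : Subgroup N)
    (hA₀ : ∀ x ∈ A₀, ∀ y ∈ A₀, x * y = y * x) :
    ∃ A : Subgroup N, A.Characteristic ∧ (∀ x ∈ A, ∀ y ∈ A, x * y = y * x) ∧
      A.index ≤ A₀.index ^ 2 := by
  have : Finite (Subgroup N) := inferInstance
  -- the largest value of the measure
  obtain ⟨M0, hM0⟩ := Finite.exists_max (cdm : Subgroup N → ℕ)
  have hpos : 0 < cdm M0 := Nat.mul_pos Nat.card_pos Nat.card_pos
  -- the closure of the set of the subgroups with the largest value
  have hinf : ∀ H K : Subgroup N, cdm H = cdm M0 → cdm K = cdm M0 → cdm (H ⊓ K) = cdm M0 := by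
    intro H K hH hK
    have h1 := cdm_mul H K
    rw [hH, hK] at h1
    have h2 := hM0 (H ⊔ K)
    have h3 := hM0 (H ⊓ K)
    refine le_antisymm h3 ?_
    by_contra hlt
    push Not at hlt
    have h4 : cdm (H ⊔ K) * cdm (H ⊓ K) < cdm M0 * cdm M0 :=
      lt_of_le_of_lt (Nat.mul_le_mul_right _ h2) (Nat.mul_lt_mul_of_pos_left hlt hpos)
    exact absurd h1 (not_le.mpr h4)
  -- the least one
  obtain ⟨M, hM, hmin⟩ := Set.exists_min_image {H : Subgroup N | cdm H = cdm M0}
    (fun H => Nat.card H) (Set.toFinite _) ⟨M0, rfl⟩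
  have hM' : cdm M = cdm M0 := hM
  have hle : ∀ K : Subgroup N, cdm K = cdm M0 → M ≤ K := by
    intro K hK
    have h1 := hmin (M ⊓ K) (hinf M K hM' hK)
    have h2 : M ⊓ K = M := by
      refine Subgroup.eq_of_le_of_card_ge inf_le_left h1
    exact inf_eq_left.mp h2
  have hchar : M.Characteristic := by
    rw [Subgroup.characteristic_iff_le_comap]
    intro φ
    refine hle _ ?_
    rw [cdm_comap, hM']
  -- the centralizer
  have hcen : cdm (Subgroup.centralizer (M : Set N)) = cdm M0 := by
    refine le_antisymm (hM0 _) ?_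
    rw [← hM']
    unfold cdm
    have h1 : M ≤ Subgroup.centralizer ((Subgroup.centralizer (M : Set N) : Subgroup N) : Set N) :=
      Subgroup.le_centralizer_iff.mp le_rfl
    have h2 : Nat.card M ≤ Nat.card (Subgroup.centralizer
        ((Subgroup.centralizer (M : Set N) : Subgroup N) : Set N)) :=
      Nat.card_le_card_of_injective _ (Subgroup.inclusion_injective h1)
    calc Nat.card M * Nat.card (Subgroup.centralizer (M : Set N))
        ≤ Nat.card (Subgroup.centralizer
          ((Subgroup.centralizer (M : Set N) : Subgroup N) : Set N)) *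
          Nat.card (Subgroup.centralizer (M : Set N)) := Nat.mul_le_mul_right _ h2
      _ = _ := mul_comm _ _
  have hMC := hle _ hcen
  refine ⟨M, hchar, ?_, ?_⟩
  · intro x hx y hy
    exact (Subgroup.mem_centralizer_iff.mp (hMC hy)) x hx
  · -- the index
    have hA : A₀ ≤ Subgroup.centralizer (A₀ : Set N) := by
      intro x hx
      rw [Subgroup.mem_centralizer_iff]
      intro y hy
      exact hA₀ y hy x hx
    have h1 : Nat.card A₀ * Nat.card A₀ ≤ cdm M := by
      rw [hM']
      refine le_trans ?_ (hM0 A₀)
      unfold cdm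
      exact Nat.mul_le_mul_left _
        (Nat.card_le_card_of_injective _ (Subgroup.inclusion_injective hA))
    have h2 : cdm M ≤ Nat.card M * Nat.card N := by
      unfold cdm
      exact Nat.mul_le_mul_left _ (Subgroup.card_le_card_group _)
    have h3 := A₀.card_mul_index
    have h4 := M.card_mul_index
    have hN : 0 < Nat.card N := Nat.card_pos
    have h5 : Nat.card A₀ * Nat.card A₀ ≤ Nat.card M * Nat.card N := h1.trans h2
    have h6 : Nat.card N * Nat.card N * M.index ≤ Nat.card N * Nat.card N * A₀.index ^ 2 := by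
      calc Nat.card N * Nat.card N * M.index
          = (Nat.card A₀ * Nat.card A₀) * (A₀.index ^ 2 * M.index) := by
            rw [← h3]; ring
        _ ≤ (Nat.card M * Nat.card N) * (A₀.index ^ 2 * M.index) := Nat.mul_le_mul_right _ h5
        _ = (Nat.card M * M.index) * Nat.card N * A₀.index ^ 2 := by ring
        _ = Nat.card N * Nat.card N * A₀.index ^ 2 := by rw [h4]
    exact Nat.le_of_mul_le_mul_left h6 (Nat.mul_pos hN hN)

end Pool.PWL
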