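import Pool.Agent.TKB.RepA

/-!
# Gaps in the degrees

If no irreducible representation of `P` has dimension in `(B, B ^ 2]`, then every irreducible
representation that is trivial on the common kernel of those of dimension at most `B` has dimension
at most `B`.
-/

namespace Pool.PWL

open CategoryTheory

/-- The right regular action on functions. -/
private noncomputable def rr (P : Type) [Group P] : Representation ℂ P (P → ℂ) :=
  { toFun := fun h =>
      { toFun := fun f g => f (g * h)
        map_add' := fun _ _ => rfl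
        map_smul' := fun _ _ => rfl }
    map_one' := by
      ext f g
      simp
    map_mul' := fun x y => by
      ext f g
      simp [mul_assoc] }

private theorem rr_apply {P : Type} [Group P] (h : P) (f : P → ℂ) (g : P) :
    rr P h f g = f (g * h) := rfl

/-- The sum of the stable subspaces of dimension at most `B`. -/
private noncomputable def sm (P : Type) [Group P] (B : ℕ) : Submodule ℂ (P → ℂ) :=
  ⨆ T ∈ {T : Submodule ℂ (P → ℂ) | (∀ g, ∀ f ∈ T, rr P g f ∈ T) ∧ Module.finrank ℂ T ≤ B}, T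

private theorem le_sm {P : Type} [Group P] {B : ℕ} (T : Submodule ℂ (P → ℂ))
    (hT : ∀ g, ∀ f ∈ T, rr P g f ∈ T) (h : Module.finrank ℂ T ≤ B) : T ≤ sm P B :=
  le_biSup (f := fun T : Submodule ℂ (P → ℂ) => T)
    (show T ∈ {T : Submodule ℂ (P → ℂ) | (∀ g, ∀ f ∈ T, rr P g f ∈ T) ∧
      Module.finrank ℂ T ≤ B} from ⟨hT, h⟩)

private theorem le_sm_sq {P : Type} [Group P] [Finite P] {B : ℕ}
    (hgap : ∀ V : FDRep ℂ P, Simple V → Module.finrank ℂ V ≤ B ^ 2 → Module.finrank ℂ V ≤ B) :
    ∀ (n : ℕ) (W : Submodule ℂ (P → ℂ)), Module.finrank ℂ W = n → n ≤ B ^ 2 →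
      (∀ g, ∀ w ∈ W, rr P g w ∈ W) → W ≤ sm P B := by
  classical
  have := Fintype.ofFinite P
  intro n
  induction n using Nat.strong_induction_on with
  | _ n ih =>
    intro W hWn hn hW
    by_cases hW0 : W = ⊥
    · rw [hW0]
      exact bot_le
    · have hex : ∃ m, ∃ U : Submodule ℂ (P → ℂ), Module.finrank ℂ U = m ∧ U ≤ W ∧ U ≠ ⊥ ∧
          (∀ g, ∀ w ∈ U, rr P g w ∈ U) := ⟨_, W, rfl, le_rfl, hW0, hW⟩
      obtain ⟨U, hUn, hUW, hU0, hUinv⟩ := Nat.find_spec hex
      have hmin : ∀ U' : Submodule ℂ (P → ℂ), U' < U → (∀ g, ∀ w ∈ U', rr P g w ∈ U') →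
          U' = ⊥ := by
        intro U' hlt hinv
        by_contra hU'
        have h1 := Submodule.finrank_lt_finrank_of_lt hlt
        rw [hUn] at h1
        exact Nat.find_min hex h1 ⟨U', rfl, hlt.le.trans hUW, hU', hinv⟩
      let ρU : Representation ℂ P U :=
        { toFun := fun g => (rr P g).restrict (hUinv g)
          map_one' := by ext; simp
          map_mul' := fun x y => by ext; simp }
      have hnt : Nontrivial U := (Submodule.nontrivial_iff_ne_bot).2 hU0
      have hsimple : Simple (FDRep.of ρU) := by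
        apply TKB.simple_of
        intro Y hY
        by_cases hYt : Y.map U.subtype = U
        · right
          rw [Submodule.eq_top_iff']
          intro z
          have hz : (z : P → ℂ) ∈ Y.map U.subtype := by rw [hYt]; exact z.2
          obtain ⟨y, hy, hyz⟩ := hz
          have h3 : y = z := Subtype.ext hyz
          rwa [← h3]
        · left
          have hle : Y.map U.subtype ≤ U := by
            rintro z ⟨y, _, rfl⟩
            exact y.2
          have h1 := hmin (Y.map U.subtype) (lt_of_le_of_ne hle hYt) (by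
            rintro g z ⟨y, hy, rfl⟩
            exact ⟨ρU g y, hY g y hy, rfl⟩)
          rw [Submodule.eq_bot_iff]
          intro z hz
          have hz' : (z : P → ℂ) ∈ Y.map U.subtype := ⟨z, hz, rfl⟩
          rw [h1, Submodule.mem_bot] at hz'
          exact Subtype.ext hz'
      have hUW' : Module.finrank ℂ U ≤ n := by
        rw [← hWn]
        exact Submodule.finrank_mono hUW
      have hUB : Module.finrank ℂ U ≤ B :=
        hgap (FDRep.of ρU) hsimple (hUW'.trans hn)
      have hU1 : U ≤ sm P B := le_sm U hUinv hUB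
      -- a complement
      let Us : Subrepresentation (rr P) := ⟨U, fun g v hv => hUinv g v hv⟩
      obtain ⟨Cs, hCs⟩ := exists_isCompl Us
      have hinf : U ⊓ Cs.toSubmodule = ⊥ := by
        have := hCs.inf_eq_bot
        exact congrArg Subrepresentation.toSubmodule this
      have hsup : U ⊔ Cs.toSubmodule = ⊤ := by
        have := hCs.sup_eq_top
        exact congrArg Subrepresentation.toSubmodule this
      have hC1 : Cs.toSubmodule ⊓ W < W := by
        refine lt_of_le_of_ne inf_le_right ?_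
        intro h
        have h1 : W ≤ Cs.toSubmodule := by
          rw [← h]
          exact inf_le_left
        apply hU0
        rw [← le_bot_iff, ← hinf]
        exact le_inf le_rfl (hUW.trans h1)
      have hs : U ⊔ (Cs.toSubmodule ⊓ W) = W := by
        rw [← sup_inf_assoc_of_le _ hUW, hsup, top_inf_eq]
      have h2 := Submodule.finrank_lt_finrank_of_lt hC1
      rw [hWn] at h2
      have h3 := ih _ h2 (Cs.toSubmodule ⊓ W) rfl (h2.le.trans hn) (fun g w hw =>
        ⟨Cs.apply_mem_toSubmodule g hw.1, hW g w hw.2⟩)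
      rw [← hs]
      exact sup_le hU1 h3

private theorem sm_induction {P : Type} [Group P] {B : ℕ} {p : (P → ℂ) → Prop}
    (hmem : ∀ T : Submodule ℂ (P → ℂ), (∀ g, ∀ f ∈ T, rr P g f ∈ T) → Module.finrank ℂ T ≤ B →
      ∀ f ∈ T, p f) (h0 : p 0) (hadd : ∀ f g, p f → p g → p (f + g)) :
    ∀ f ∈ sm P B, p f := by
  intro f hf
  have hf' : f ∈ ⨆ T : {T : Submodule ℂ (P → ℂ) | (∀ g, ∀ f ∈ T, rr P g f ∈ T) ∧
      Module.finrank ℂ T ≤ B}, (T : Submodule ℂ (P → ℂ)) := by
    rw [iSup_subtype]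
    exact hf
  exact Submodule.iSup_induction (fun T : {T : Submodule ℂ (P → ℂ) |
      (∀ g, ∀ f ∈ T, rr P g f ∈ T) ∧ Module.finrank ℂ T ≤ B} => (T : Submodule ℂ (P → ℂ)))
      (motive := p) hf' (fun T x hx => hmem T.1 T.2.1 T.2.2 x hx) h0 hadd

/-- `sm` is closed under multiplication. -/
private theorem mul_mem_sm {P : Type} [Group P] [Finite P] {B : ℕ}
    (hgap : ∀ V : FDRep ℂ P, Simple V → Module.finrank ℂ V ≤ B ^ 2 → Module.finrank ℂ V ≤ B) :
    ∀ f ∈ sm P B, ∀ g ∈ sm P B, f * g ∈ sm P B := by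
  classical
  have := Fintype.ofFinite P
  have key : ∀ T₁ : Submodule ℂ (P → ℂ), (∀ g, ∀ f ∈ T₁, rr P g f ∈ T₁) →
      Module.finrank ℂ T₁ ≤ B → ∀ T₂ : Submodule ℂ (P → ℂ), (∀ g, ∀ f ∈ T₂, rr P g f ∈ T₂) →
      Module.finrank ℂ T₂ ≤ B → T₁ * T₂ ≤ sm P B := by
    intro T₁ h1 h1B T₂ h2 h2B
    refine le_sm_sq hgap _ (T₁ * T₂) rfl ?_ ?_
    · rw [← Submodule.mulMap_range]
      refine (LinearMap.finrank_range_le _).trans ?_
      rw [Module.finrank_tensorProduct, pow_two]
      exact Nat.mul_le_mul h1B h2B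
    · intro g w hw
      induction hw using Submodule.mul_induction_on' with
      | mem_mul_mem m hm n hn =>
        have : rr P g (m * n) = rr P g m * rr P g n := rfl
        rw [this]
        exact Submodule.mul_mem_mul (h1 g m hm) (h2 g n hn)
      | add x hx y hy hx' hy' =>
        rw [map_add]
        exact add_mem hx' hy'
  intro f hf
  refine sm_induction (p := fun f => ∀ g ∈ sm P B, f * g ∈ sm P B) ?_ ?_ ?_ f hf
  · intro T₁ h1 h1B f hf
    intro g hg
    refine sm_induction (p := fun g => f * g ∈ sm P B) ?_ ?_ ?_ g hg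
    · intro T₂ h2 h2B g hg
      exact key T₁ h1 h1B T₂ h2 h2B (Submodule.mul_mem_mul hf hg)
    · simp
    · intro a b ha hb
      rw [mul_add]
      exact add_mem ha hb
  · intro g _
    simp
  · intro a b ha hb g hg
    rw [add_mul]
    exact add_mem (ha g hg) (hb g hg)

private theorem one_mem_sm {P : Type} [Group P] [Finite P] {B : ℕ} (hB : 1 ≤ B) :
    (1 : P → ℂ) ∈ sm P B := by
  refine le_sm (Submodule.span ℂ {1}) ?_ ?_ (Submodule.subset_span rfl)
  · intro g f hf
    rw [Submodule.mem_span_singleton] at hf ⊢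
    obtain ⟨c, rfl⟩ := hf
    exact ⟨c, rfl⟩
  · have h := finrank_span_le_card (R := ℂ) ({1} : Set (P → ℂ))
    simp only [Set.toFinset_singleton, Finset.card_singleton] at h
    exact h.trans hB

private theorem coef_mem_sm {P : Type} [Group P] [Finite P] {B : ℕ} (V : FDRep ℂ P)
    (hV : Module.finrank ℂ V ≤ B) (φ : V →ₗ[ℂ] ℂ) (v : V) :
    (fun g => φ (V.ρ g v)) ∈ sm P B := by
  let c : V →ₗ[ℂ] (P → ℂ) :=
    { toFun := fun v g => φ (V.ρ g v)
      map_add' := fun a b => by ext g; simp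
      map_smul' := fun a b => by ext g; simp }
  refine le_sm (LinearMap.range c) ?_ ((LinearMap.finrank_range_le c).trans hV) ⟨v, rfl⟩
  rintro h _ ⟨w, rfl⟩
  refine ⟨V.ρ h w, ?_⟩
  ext g
  show φ (V.ρ g (V.ρ h w)) = φ (V.ρ (g * h) w)
  rw [map_mul]
  rfl

private theorem orth_sm {P : Type} [Group P] [Fintype P] {B : ℕ} (U : FDRep ℂ P) [Simple U]
    (hU : B < Module.finrank ℂ U) (ψ : U →ₗ[ℂ] ℂ) (u : U) :
    ∀ f ∈ sm P B, ∑ x, ψ (U.ρ x⁻¹ u) * f x = 0 := by
  refine sm_induction ?_ ?_ ?_
  · intro T hT hTB f hf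
    let F : U →ₗ[ℂ] T :=
      { toFun := fun w => ∑ x, ψ (U.ρ x⁻¹ w) • (⟨rr P x f, hT x f hf⟩ : T)
        map_add' := fun a b => by
          simp only [map_add, add_smul, Finset.sum_add_distrib]
        map_smul' := fun a b => by
          simp [Finset.smul_sum, mul_smul] }
    have hF : ∀ g w, ((F (U.ρ g w) : T) : P → ℂ) = rr P g (F w : T) := by
      intro g w
      show ((∑ x, ψ (U.ρ x⁻¹ (U.ρ g w)) • (⟨rr P x f, hT x f hf⟩ : T) : T) : P → ℂ) =
        rr P g ((∑ x, ψ (U.ρ x⁻¹ w) • (⟨rr P x f, hT x f hf⟩ : T) : T) : P → ℂ)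
      rw [Submodule.coe_sum, Submodule.coe_sum, map_sum]
      refine (Fintype.sum_equiv (Equiv.mulLeft g) _ _ ?_).symm
      intro x
      show rr P g (ψ (U.ρ x⁻¹ w) • rr P x f) = ψ (U.ρ (g * x)⁻¹ (U.ρ g w)) • rr P (g * x) f
      have h1 : U.ρ (g * x)⁻¹ (U.ρ g w) = U.ρ x⁻¹ w := by
        rw [← Module.End.mul_apply, ← map_mul]
        congr 2
        group
      rw [h1, map_smul, map_mul]
      rfl
    have hker : LinearMap.ker F = ⊤ := by
      refine (Pool.TKB.simple_inv U (LinearMap.ker F) ?_).resolve_left ?_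
      · intro g w hw
        rw [LinearMap.mem_ker] at hw ⊢
        apply Subtype.ext
        rw [hF, hw]
        exact map_zero (rr P g)
      · intro h
        have h1 := LinearMap.finrank_le_finrank_of_injective (LinearMap.ker_eq_bot.1 h)
        omega
    have hu : F u = 0 := by
      have : u ∈ LinearMap.ker F := hker ▸ Submodule.mem_top
      exact this
    have h2 := congrFun (congrArg (Subtype.val : T → P → ℂ) hu) 1
    have h3 : ((F u : T) : P → ℂ) 1 = ∑ x, ψ (U.ρ x⁻¹ u) * f x := by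
      show ((∑ x, ψ (U.ρ x⁻¹ u) • (⟨rr P x f, hT x f hf⟩ : T) : T) : P → ℂ) 1 = _
      rw [Submodule.coe_sum, Finset.sum_apply]
      refine Finset.sum_congr rfl fun x _ => ?_
      show ψ (U.ρ x⁻¹ u) * f (1 * x) = _
      rw [one_mul]
    rw [← h3]
    exact h2
  · simp
  · intro f g hf hg
    have : ∀ x, ψ (U.ρ x⁻¹ u) * (f + g) x = ψ (U.ρ x⁻¹ u) * f x + ψ (U.ρ x⁻¹ u) * g x :=
      fun x => mul_add _ _ _
    rw [Finset.sum_congr rfl fun x _ => this x, Finset.sum_add_distrib, hf, hg, add_zero]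

/-- If no irreducible representation has dimension in `(B, B ^ 2]`, then every irreducible
representation that is trivial on the common kernel of those of dimension at most `B` has dimension
at most `B`. -/
theorem gap_closed {P : Type} [Group P] [Finite P] {B : ℕ} (hB : 1 ≤ B)
    (hgap : ∀ V : FDRep ℂ P, Simple V → Module.finrank ℂ V ≤ B ^ 2 → Module.finrank ℂ V ≤ B)
    (U : FDRep ℂ P) (hU : Simple U)
    (hker : ∀ x : P, (∀ V : FDRep ℂ P, Simple V → Module.finrank ℂ V ≤ B →
      ∀ v : V, V.ρ x v = v) → ∀ u : U, U.ρ x u = u) : Module.finrank ℂ U ≤ B := by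
  classical
  have := Fintype.ofFinite P
  by_contra hcon
  rw [not_le] at hcon
  have hnt : Nontrivial U := Pool.TKB.simple_nontrivial U
  obtain ⟨u, hu⟩ := exists_ne (0 : U)
  obtain ⟨ψ, hψ⟩ : ∃ ψ : U →ₗ[ℂ] ℂ, ψ u ≠ 0 := by
    by_contra h
    push Not at h
    exact hu ((Module.forall_dual_apply_eq_zero_iff ℂ u).1 h)
  -- elements on which all functions in `sm` take the value at `1`
  have hM : ∀ x : P, (∀ f ∈ sm P B, f x = f 1) → U.ρ x u = u := by
    intro x hx
    refine hker x (fun V hV hVB v => ?_) u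
    rw [← sub_eq_zero]
    refine (Module.forall_dual_apply_eq_zero_iff ℂ _).1 fun φ => ?_
    have h1 := hx _ (coef_mem_sm V hVB φ v)
    have h2 : φ (V.ρ x v) = φ (V.ρ 1 v) := h1
    rw [map_one, Module.End.one_apply] at h2
    rw [map_sub, h2, sub_self]
  have he : ∀ s : Finset P, (∀ y ∈ s, ¬ ∀ f ∈ sm P B, f y = f 1) →
      ∃ e ∈ sm P B, e 1 = 1 ∧ ∀ y ∈ s, e y = 0 := by
    intro s
    induction s using Finset.induction_on with
    | empty =>
      intro _
      exact ⟨1, one_mem_sm hB, rfl, by simp⟩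
    | insert a s ha ih =>
      intro hs
      obtain ⟨e, hem, he1, he0⟩ := ih fun y hy => hs y (Finset.mem_insert_of_mem hy)
      have h1 := hs a (Finset.mem_insert_self a s)
      push Not at h1
      obtain ⟨f, hf, hfa⟩ := h1
      have hne : f 1 - f a ≠ 0 := sub_ne_zero.2 (Ne.symm hfa)
      have hgm : (f 1 - f a)⁻¹ • (f - f a • (1 : P → ℂ)) ∈ sm P B :=
        Submodule.smul_mem _ _ (sub_mem hf (Submodule.smul_mem _ _ (one_mem_sm hB)))
      refine ⟨e * ((f 1 - f a)⁻¹ • (f - f a • (1 : P → ℂ))), mul_mem_sm hgap e hem _ hgm,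
        ?_, ?_⟩
      · show e 1 * ((f 1 - f a)⁻¹ * (f 1 - f a * 1)) = 1
        rw [he1, one_mul, mul_one, inv_mul_cancel₀ hne]
      · intro y hy
        show e y * ((f 1 - f a)⁻¹ * (f y - f a * 1)) = 0
        rcases Finset.mem_insert.1 hy with rfl | hy
        · rw [mul_one, sub_self, mul_zero, mul_zero]
        · rw [he0 y hy, zero_mul]
  obtain ⟨e, hem, he1, he0⟩ := he (Finset.univ.filter fun y => ¬ ∀ f ∈ sm P B, f y = f 1)
    (fun y hy => (Finset.mem_filter.1 hy).2)
  have h1 := orth_sm U hcon ψ u e hem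
  have h2 : ∀ x : P, ψ (U.ρ x⁻¹ u) * e x =
      if ∀ f ∈ sm P B, f x = f 1 then ψ u else 0 := by
    intro x
    split_ifs with hx
    · have h3 : U.ρ x⁻¹ u = u := by
        have h4 := congrArg (U.ρ x⁻¹) (hM x hx)
        rw [← Module.End.mul_apply, ← map_mul, inv_mul_cancel, map_one] at h4
        exact h4.symm
      rw [h3, hx e hem, he1, mul_one]
    · rw [he0 x (Finset.mem_filter.2 ⟨Finset.mem_univ x, hx⟩), mul_zero]
  rw [Finset.sum_congr rfl fun x _ => h2 x, ← Finset.sum_filter, Finset.sum_const,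
    nsmul_eq_mul] at h1
  rcases mul_eq_zero.1 h1 with h3 | h3
  · rw [Nat.cast_eq_zero, Finset.card_eq_zero] at h3
    have : (1 : P) ∈ Finset.univ.filter fun x : P => ∀ f ∈ sm P B, f x = f 1 :=
      Finset.mem_filter.2 ⟨Finset.mem_univ _, fun _ _ => rfl⟩
    rw [h3] at this
    exact absurd this (Finset.notMem_empty _)
  · exact hψ h3

end Pool.PWL
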