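import Pool.Agent.PWL.ABFin
import Pool.Agent.PWL.ABGap

/-!
# Degrees with gaps: the derived length of a nilpotent normal subgroup
-/

namespace Pool.PWL

open scoped commutatorElement
open Pool.TKB CategoryTheory

/-- The inflation of a simple representation is simple. -/
theorem simple_comp {G H : Type} [Group G] [Finite G] [Group H] (f : G →* H)
    (hf : Function.Surjective f) (V : FDRep ℂ H) (hV : Simple V) :
    Simple (FDRep.of (V.ρ.comp f : Representation ℂ G V)) := by
  have hnt : Nontrivial V := simple_nontrivial V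
  apply simple_of
  intro W hW
  refine simple_inv V W fun h w hw => ?_
  obtain ⟨g, rfl⟩ := hf h
  exact hW g w hw

theorem dser_map_hom {G H : Type*} [Group G] [Group H] (f : G →* H) (N : Subgroup G) (i : ℕ) :
    dser (N.map f) i = (dser N i).map f := by
  induction i with
  | zero => rw [dser_zero, dser_zero]
  | succ i ih => rw [dser_succ, dser_succ, ih, Subgroup.map_commutator]

/-- The degrees of a normal `p`-subgroup and the `p`-parts of the degrees of `G`. -/
theorem finrank_normal_pgroup {G : Type} [Group G] [Finite G] {p : ℕ} [hp : Fact p.Prime]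
    (N : Subgroup G) [N.Normal] (hN : IsPGroup p N) (Θ : FDRep ℂ N) (hΘ : Simple Θ) :
    ∃ c, Module.finrank ℂ Θ = p ^ c ∧
      ∃ e ∈ padicValNat p '' cd G, c ≤ e ∧ e ≤ c + padicValNat p N.index := by
  obtain ⟨c, hc⟩ := finrank_simple_pgroup hN Θ hΘ
  have hidx : N.index ≠ 0 := Subgroup.index_ne_zero_of_finite
  obtain ⟨U, hU, hUd, f, hf, hfr⟩ := exists_ind N Θ hΘ (p ^ (padicValNat p N.index + 1 + c)) (by
    rw [hc, pow_add]
    intro h
    exact pow_succ_padicValNat_not_dvd hidx
      (Nat.dvd_of_mul_dvd_mul_right (pow_pos hp.out.pos c) h))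
  have hntU : Nontrivial U := simple_nontrivial U
  have hU0 : Module.finrank ℂ U ≠ 0 := Module.finrank_pos.ne'
  have hUv : padicValNat p (Module.finrank ℂ U) ≤ c + padicValNat p N.index := by
    by_contra h
    apply hUd
    exact (pow_dvd_pow p (by omega)).trans pow_padicValNat_dvd
  obtain ⟨Θ', hΘ', hΘd, i, hi, hir⟩ := exists_res N U
    (p ^ (padicValNat p (Module.finrank ℂ U) + 1)) (pow_succ_padicValNat_not_dvd hU0)
  have h1 := clifford_dim N U hU Θ Θ' hΘ hΘ' i hi hir f hf hfr
  rw [h1, hc] at hΘd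
  have h2 : c ≤ padicValNat p (Module.finrank ℂ U) := by
    by_contra h
    apply hΘd
    exact pow_dvd_pow p (by omega)
  exact ⟨c, hc, padicValNat p (Module.finrank ℂ U), ⟨_, ⟨U, hU, rfl⟩, rfl⟩, h2, hUv⟩

/-- The logarithmic step, below a gap in the degrees. -/
theorem log_step {G : Type} [Group G] [Finite G] {p : ℕ} [hp : Fact p.Prime]
    (N : Subgroup G) [N.Normal] (hN : IsPGroup p N) (a b s t : ℕ)
    (hD : ∀ V : FDRep ℂ G, Simple V → padicValNat p (Module.finrank ℂ V) < a →
      ∀ k ∈ dser N s, ∀ v : V, V.ρ k v = v)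
    (hgap : ∀ e ∈ padicValNat p '' cd G, e ≤ 2 * b + padicValNat p N.index → e ≤ b)
    (ht : 8 * b ≤ a * 2 ^ t) (V : FDRep ℂ G) (hV : Simple V)
    (hVb : padicValNat p (Module.finrank ℂ V) ≤ b) :
    ∀ k ∈ dser N (s + t + 2), ∀ v : V, V.ρ k v = v := by
  -- the common kernel of the small irreducible representations of `N`
  let K : Subgroup N :=
    { carrier := {x | ∀ Θ : FDRep ℂ N, Simple Θ → Module.finrank ℂ Θ ≤ p ^ b →
        ∀ v : Θ, Θ.ρ x v = v}
      one_mem' := fun Θ _ _ v => by rw [map_one]; rfl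
      mul_mem' := fun {x y} hx hy Θ hΘ hΘb v => by
        rw [map_mul, Module.End.mul_apply, hy Θ hΘ hΘb, hx Θ hΘ hΘb]
      inv_mem' := fun {x} hx Θ hΘ hΘb v => by
        have h1 := congrArg (Θ.ρ x⁻¹) (hx Θ hΘ hΘb v)
        rw [← Module.End.mul_apply, ← map_mul, inv_mul_cancel, map_one] at h1
        exact h1.symm }
  have hKc : K.Characteristic := by
    rw [Subgroup.characteristic_iff_le_comap]
    intro φ x hx Θ hΘ hΘb v
    have hx' : ∀ Θ : FDRep ℂ N, Simple Θ → Module.finrank ℂ Θ ≤ p ^ b →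
      ∀ v : Θ, Θ.ρ x v = v := hx
    exact hx' (FDRep.of (Θ.ρ.comp φ.toMonoidHom : Representation ℂ N Θ))
      (simple_comp φ.toMonoidHom φ.surjective Θ hΘ) hΘb v
  have hMn : (K.map N.subtype).Normal := inferInstance
  have hπ := QuotientGroup.mk'_surjective (K.map N.subtype)
  have hNn : (N.map (QuotientGroup.mk' (K.map N.subtype))).Normal :=
    Subgroup.Normal.map inferInstance _ hπ
  have hKq : ∀ x ∈ K, (QuotientGroup.mk' (K.map N.subtype)).subgroupMap N x = 1 := by
    intro x hx
    apply Subtype.ext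
    exact (QuotientGroup.eq_one_iff (x : G)).2 ⟨x, hx, rfl⟩
  -- the degrees of the image of `N` are small
  have hQ : ∀ Ξ : FDRep ℂ (N.map (QuotientGroup.mk' (K.map N.subtype))), Simple Ξ →
      Module.finrank ℂ Ξ ≤ p ^ b := by
    intro Ξ hΞ
    refine gap_closed (B := p ^ b) (Nat.one_le_pow _ _ hp.out.pos) ?_
      (FDRep.of (Ξ.ρ.comp ((QuotientGroup.mk' (K.map N.subtype)).subgroupMap N) :
        Representation ℂ N Ξ))
      (simple_comp _ (MonoidHom.subgroupMap_surjective _ N) Ξ hΞ) ?_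
    · intro Θ hΘ h
      obtain ⟨c, hc, e, he, hce, hec⟩ := finrank_normal_pgroup N hN Θ hΘ
      rw [hc, ← pow_mul] at h
      have h1 : c ≤ b * 2 := (Nat.pow_le_pow_iff_right hp.out.one_lt).1 h
      have h2 := hgap e he (by omega)
      rw [hc]
      exact Nat.pow_le_pow_right hp.out.pos (by omega)
    · intro x hx u
      have hxK : x ∈ K := hx
      show Ξ.ρ ((QuotientGroup.mk' (K.map N.subtype)).subgroupMap N x) u = u
      rw [hKq x hxK, map_one]
      rfl
  have h1 : derivedSeries (N.map (QuotientGroup.mk' (K.map N.subtype))) (s + t + 2) = ⊥ := by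
    refine range_core (p := p) _ (hN.map _) a b s t ?_ hQ ht
    intro U hU hUa k hk u
    rw [dser_map_hom] at hk
    obtain ⟨x, hx, rfl⟩ := hk
    exact hD (FDRep.of (U.ρ.comp (QuotientGroup.mk' (K.map N.subtype)) :
      Representation ℂ G U)) (simple_comp _ hπ U hU) hUa x hx u
  have hle : dser N (s + t + 2) ≤ K.map N.subtype := by
    intro k hk
    have h2 : (QuotientGroup.mk' (K.map N.subtype)) k ∈
        dser (N.map (QuotientGroup.mk' (K.map N.subtype))) (s + t + 2) := by
      rw [dser_map_hom]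
      exact ⟨k, hk, rfl⟩
    rw [(dser_eq_bot_iff _ _).2 h1, Subgroup.mem_bot] at h2
    exact (QuotientGroup.eq_one_iff k).1 h2
  have hnt : Nontrivial V := simple_nontrivial V
  have hV0 : Module.finrank ℂ V ≠ 0 := Module.finrank_pos.ne'
  obtain ⟨Θ, hΘ, hΘd, i, hi, hir⟩ := exists_res N V
    (p ^ (padicValNat p (Module.finrank ℂ V) + 1)) (pow_succ_padicValNat_not_dvd hV0)
  obtain ⟨c, hc⟩ := finrank_simple_pgroup hN Θ hΘ
  have hcb : c ≤ b := by
    by_contra h
    apply hΘd
    rw [hc]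
    exact pow_dvd_pow p (by omega)
  have hntΘ : Nontrivial Θ := simple_nontrivial Θ
  obtain ⟨y, hy⟩ := exists_ne (0 : Θ)
  have hn2 : (dser N (s + t + 2)).Normal := dser_normal N _
  refine trivial_of_fixed V hV (dser N (s + t + 2)) (i y) ?_ ?_
  · intro h
    exact hy (hi (by rw [h, map_zero]))
  · intro k hk
    obtain ⟨x, hx, rfl⟩ := hle hk
    have hx' : ∀ Θ : FDRep ℂ N, Simple Θ → Module.finrank ℂ Θ ≤ p ^ b →
      ∀ v : Θ, Θ.ρ x v = v := hx
    show V.ρ (x : G) (i y) = i y
    rw [← hir, hx' Θ hΘ (by rw [hc]; exact Nat.pow_le_pow_right hp.out.pos hcb)]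

private theorem parts_step {G : Type} [Group G] [Finite G] {p : ℕ} [hp : Fact p.Prime]
    (N : Subgroup G) [N.Normal] (hN : IsPGroup p N) (j : ℕ) (V : FDRep ℂ G)
    (hV : Simple V)
    (hK : ∀ U : FDRep ℂ G, Simple U →
      padicValNat p (Module.finrank ℂ U) < padicValNat p (Module.finrank ℂ V) →
      ∀ k ∈ dser N j, ∀ u : U, U.ρ k u = u) :
    ∀ k ∈ dser N (j + 1), ∀ v : V, V.ρ k v = v := by
  obtain ⟨S⟩ : Nonempty (Sylow p G) := inferInstance
  have hNS : N ≤ S := normal_le_sylow S N hN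
  have hd : ∀ i, dser N i ≤ S := fun i =>
    ((dser_anti N (Nat.zero_le i)).trans (dser_zero N).le).trans hNS
  have hn1 : (dser N j).Normal := dser_normal N j
  have hn2 : (dser N (j + 1)).Normal := dser_normal N (j + 1)
  refine transfer_step S (dser N j) (dser N (j + 1)) (hd j) (hd (j + 1)) ?_ V hV hK
  intro Θ hΘ hK' k hk
  have hk1 : k ∈ ⁅(dser N j).subgroupOf (S : Subgroup G),
      (dser N j).subgroupOf (S : Subgroup G)⁆ := by
    have h1 : (k : G) ∈ (⁅(dser N j).subgroupOf (S : Subgroup G),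
        (dser N j).subgroupOf (S : Subgroup G)⁆).map (S : Subgroup G).subtype := by
      rw [map_subgroupOf_commutator (S : Subgroup G) _ _ (hd j) (hd j), ← dser_succ]
      exact Subgroup.mem_subgroupOf.1 hk
    obtain ⟨k', hk', hkk⟩ := h1
    have h2 : k' = k := Subtype.ext hkk
    rwa [← h2]
  have hnt : Nontrivial Θ := simple_nontrivial Θ
  have hpos : 0 < Module.finrank ℂ Θ := Module.finrank_pos
  have hn3 : ((dser N j).subgroupOf (S : Subgroup G)).Normal := inferInstance
  rcases Nat.lt_or_ge 1 (Module.finrank ℂ Θ) with h1 | h1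
  · exact taketa_step (S.isPGroup') ((dser N j).subgroupOf (S : Subgroup G)) Θ hΘ h1 hK' k hk1
  · intro u
    exact comm_trivial_of_one Θ (by omega) (Subgroup.commutator_mono le_top le_top hk1) u

/-- The counting step (Taketa). -/
theorem count_step {G : Type} [Group G] [Finite G] {p : ℕ} [hp : Fact p.Prime]
    (N : Subgroup G) [N.Normal] (hN : IsPGroup p N) (m s : ℕ)
    (hD : ∀ V : FDRep ℂ G, Simple V → padicValNat p (Module.finrank ℂ V) ≤ m →
      ∀ k ∈ dser N s, ∀ v : V, V.ρ k v = v) (e : ℕ) :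
    ∀ V : FDRep ℂ G, Simple V → padicValNat p (Module.finrank ℂ V) = e →
      ∀ k ∈ dser N (s + (padicValNat p '' cd G ∩ Set.Ioc m e).ncard), ∀ v : V, V.ρ k v = v := by
  induction e using Nat.strong_induction_on with
  | _ e ih =>
    intro V hV hVe k hk v
    have hfin : ∀ n, (padicValNat p '' cd G ∩ Set.Ioc m n).Finite := fun n =>
      (Set.finite_Ioc m n).subset Set.inter_subset_right
    rcases Nat.lt_or_ge m e with hea | hea
    · have heE : e ∈ padicValNat p '' cd G := ⟨_, ⟨V, hV, rfl⟩, hVe⟩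
      have hpos : 1 ≤ (padicValNat p '' cd G ∩ Set.Ioc m e).ncard := by
        rw [Nat.one_le_iff_ne_zero, Ne, Set.ncard_eq_zero (hfin e)]
        exact Set.Nonempty.ne_empty ⟨e, heE, hea, le_rfl⟩
      obtain ⟨j, hj⟩ : ∃ j, s + (padicValNat p '' cd G ∩ Set.Ioc m e).ncard = j + 1 :=
        ⟨_, (Nat.succ_pred_eq_of_pos (by omega)).symm⟩
      rw [hj] at hk
      refine parts_step N hN j V hV ?_ k hk v
      intro U hU hlt k' hk' u
      rw [hVe] at hlt
      refine ih _ hlt U hU rfl k' (dser_anti N ?_ hk') u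
      have h4 : insert e (padicValNat p '' cd G ∩
          Set.Ioc m (padicValNat p (Module.finrank ℂ U))) ⊆
          padicValNat p '' cd G ∩ Set.Ioc m e := by
        intro d hd
        rcases hd with rfl | hd
        · exact ⟨heE, hea, le_rfl⟩
        · exact ⟨hd.1, hd.2.1, hd.2.2.trans hlt.le⟩
      have h5 := Set.ncard_le_ncard h4 (hfin e)
      rw [Set.ncard_insert_of_notMem (fun h => absurd h.2.2 (by omega)) (hfin _)] at h5
      omega
    · exact hD V hV (by omega) k (dser_anti N (Nat.le_add_right _ _) hk) v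

/-- Degrees with gaps, for normal `p`-subgroups. -/
theorem levels_any {G : Type} [Group G] [Finite G] {p : ℕ} [hp : Fact p.Prime]
    (N : Subgroup G) [N.Normal] (hN : IsPGroup p N) (K : ℕ) (m c : ℕ → ℕ) (hm0 : m 0 = 0)
    (hmK : ∀ e ∈ padicValNat p '' cd G, e ≤ m K)
    (h : ∀ k < K, (padicValNat p '' cd G ∩ Set.Ioc (m k) (m (k + 1))).ncard ≤ c k ∨
      ((∀ e ∈ padicValNat p '' cd G, e ≤ 2 * m (k + 1) + padicValNat p N.index →
        e ≤ m (k + 1)) ∧ ∃ t, 8 * m (k + 1) ≤ (m k + 1) * 2 ^ t ∧ t + 2 ≤ c k)) :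
    derivedSeries N (1 + ∑ k ∈ Finset.range K, c k) = ⊥ := by
  have key : ∀ n ≤ K, ∀ V : FDRep ℂ G, Simple V → padicValNat p (Module.finrank ℂ V) ≤ m n →
      ∀ x ∈ dser N (1 + ∑ k ∈ Finset.range n, c k), ∀ v : V, V.ρ x v = v := by
    intro n
    induction n with
    | zero =>
      intro _ V hV hVm
      rw [Finset.sum_range_zero, Nat.add_zero]
      refine taketa_parts N hN 1 1 ?_ V hV (by omega)
      have h1 : padicValNat p '' cd G ∩ Set.Iio 1 ⊆ {0} := by
        intro e he
        have h2 : e < 1 := he.2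
        exact Set.mem_singleton_iff.2 (by omega)
      have h2 := Set.ncard_le_ncard h1 (Set.finite_singleton 0)
      rwa [Set.ncard_singleton] at h2
    | succ n ih =>
      intro hn V hV hVm x hx v
      have ih' := ih (by omega)
      rw [Finset.sum_range_succ] at hx
      rcases h n (by omega) with h1 | ⟨h1, t, ht, htc⟩
      · refine count_step N hN (m n) _ ih' _ V hV rfl x (dser_anti N ?_ hx) v
        have h2 : (padicValNat p '' cd G ∩
            Set.Ioc (m n) (padicValNat p (Module.finrank ℂ V))).ncard ≤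
            (padicValNat p '' cd G ∩ Set.Ioc (m n) (m (n + 1))).ncard :=
          Set.ncard_le_ncard (Set.inter_subset_inter_right _ (Set.Ioc_subset_Ioc_right hVm))
            ((Set.finite_Ioc _ _).subset Set.inter_subset_right)
        omega
      · refine log_step N hN (m n + 1) (m (n + 1)) (1 + ∑ k ∈ Finset.range n, c k) t
          (fun U hU hlt => ih' U hU (by omega)) h1 ht V hV hVm x (dser_anti N ?_ hx) v
        omega
  rw [← dser_eq_bot_iff, eq_bot_iff]
  intro x hx
  by_contra hx1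
  obtain ⟨V, hV, -, v, hv⟩ := exists_simple (⊥ : Subgroup G) x hx1
  exact hv (key K le_rfl V hV (hmK _ ⟨_, ⟨V, hV, rfl⟩, rfl⟩) x hx v)

/-- Degrees with gaps, for nilpotent normal subgroups. -/
theorem fit_levels {G : Type} [Group G] [Finite G] (F : Subgroup G) [F.Normal]
    (hF : Group.IsNilpotent F) (n : ℕ)
    (h : ∀ p : ℕ, p.Prime → p ∣ Nat.card F → ∃ (K : ℕ) (m c : ℕ → ℕ), m 0 = 0 ∧
      (∀ e ∈ padicValNat p '' cd G, e ≤ m K) ∧ 1 + ∑ k ∈ Finset.range K, c k ≤ n ∧
      ∀ k < K, (padicValNat p '' cd G ∩ Set.Ioc (m k) (m (k + 1))).ncard ≤ c k ∨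
        ((∀ e ∈ padicValNat p '' cd G, e ≤ 2 * m (k + 1) + padicValNat p F.index →
          e ≤ m (k + 1)) ∧ ∃ t, 8 * m (k + 1) ≤ (m k + 1) * 2 ^ t ∧ t + 2 ≤ c k)) :
    derivedSeries F n = ⊥ := by
  refine fit_sylow F hF _ fun p hp hdvd S hNn => ?_
  have hSp : IsPGroup p ((S : Subgroup F).map F.subtype) := S.2.map _
  obtain ⟨K, m, c, hm0, hmK, hn, hlev⟩ := h p hp.out hdvd
  have hidx : padicValNat p ((S : Subgroup F).map F.subtype).index = padicValNat p F.index := by
    rw [Subgroup.index_map_subtype, padicValNat.mul Subgroup.index_ne_zero_of_finite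
      Subgroup.index_ne_zero_of_finite, padicValNat.eq_zero_of_not_dvd S.not_dvd_index, zero_add]
  have h1 := levels_any ((S : Subgroup F).map F.subtype) hSp K m c hm0 hmK (by
    rw [hidx]
    exact hlev)
  rw [eq_bot_iff, ← h1]
  exact derivedSeries_antitone _ hn

end Pool.PWL
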