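import Mathlib

/-!
# A critical character of a nonabelian group of prime power order
-/

set_option autoImplicit false

namespace Pool.PWL
open scoped commutatorElement

/-! row ABCrit -/
theorem exists_crit {P : Type*} [Group P] [Finite P] {p : ℕ} [Fact p.Prime] (hP : IsPGroup p P)
    (hna : ⁅(⊤ : Subgroup P), (⊤ : Subgroup P)⁆ ≠ ⊥) :
    ∃ (Z : Subgroup P) (hZ : Z.Normal) (hc : ∀ x y : P, ⁅x, y⁆ ∈ Z) (ζ : Z →* ℂˣ), Z ≠ ⊤ ∧
      (∀ (g : P) (z : Z), ζ ⟨g * z * g⁻¹, hZ.conj_mem z z.2 g⟩ = ζ z) ∧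
      ∀ x ∉ Z, ∃ y, ζ ⟨⁅x, y⁆, hc x y⟩ ≠ 1 := by
  classical
  obtain ⟨K, hK⟩ := (Set.toFinite {K : Subgroup P | K.Normal ∧
    ¬ ⁅(⊤ : Subgroup P), (⊤ : Subgroup P)⁆ ≤ K}).exists_maximal
    ⟨⊥, inferInstance, fun h => hna (le_bot_iff.mp h)⟩
  have hKN : K.Normal := hK.prop.1
  have hKn : ¬ ⁅(⊤ : Subgroup P), (⊤ : Subgroup P)⁆ ≤ K := hK.prop.2
  have hQ : IsPGroup p (P ⧸ K) := hP.to_quotient K
  have key : ∀ c : P ⧸ K, c ≠ 1 → c ∈ Subgroup.center (P ⧸ K) →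
      ∀ x y : P ⧸ K, ⁅x, y⁆ ∈ Subgroup.zpowers c := by
    intro c hc1 hc2
    have hn : (Subgroup.zpowers c).Normal := ⟨by
      intro n hn g
      have h1 : n ∈ Subgroup.center (P ⧸ K) := (Subgroup.zpowers_le.mpr hc2) hn
      rw [Subgroup.mem_center_iff] at h1
      rw [h1 g, mul_inv_cancel_right]
      exact hn⟩
    by_contra hcon
    have h2 : (Subgroup.zpowers c).comap (QuotientGroup.mk' K) ≤ K := by
      refine hK.le_of_ge ⟨inferInstance, fun h3 => hcon ?_⟩ ?_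
      · intro x y
        obtain ⟨x, rfl⟩ := QuotientGroup.mk_surjective x
        obtain ⟨y, rfl⟩ := QuotientGroup.mk_surjective y
        exact h3 (Subgroup.commutator_mem_commutator (Subgroup.mem_top x) (Subgroup.mem_top y))
      · intro x hx
        rw [Subgroup.mem_comap, QuotientGroup.mk'_apply, (QuotientGroup.eq_one_iff x).mpr hx]
        exact one_mem _
    obtain ⟨x, rfl⟩ := QuotientGroup.mk_surjective c
    exact hc1 ((QuotientGroup.eq_one_iff x).mpr (h2 (Subgroup.mem_zpowers _)))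
  -- a nontrivial commutator
  obtain ⟨x0, y0, h0⟩ : ∃ x y : P, ⁅x, y⁆ ∉ K := by
    by_contra hcon
    push Not at hcon
    exact hKn (Subgroup.commutator_le.mpr fun x _ y _ => hcon x y)
  have h01 : ⁅(x0 : P ⧸ K), (y0 : P ⧸ K)⁆ ≠ 1 := by
    intro h
    exact h0 ((QuotientGroup.eq_one_iff _).mp h)
  have : Nontrivial (P ⧸ K) := ⟨⟨_, _, h01⟩⟩
  have := hQ.center_nontrivial
  obtain ⟨c, hc⟩ := exists_ne (1 : Subgroup.center (P ⧸ K))
  have hcen : ∀ x y : P ⧸ K, ⁅x, y⁆ ∈ Subgroup.center (P ⧸ K) := fun x y =>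
    (Subgroup.zpowers_le.mpr c.2) (key c (fun h => hc (Subtype.ext h)) c.2 x y)
  let hcg : CommGroup (Subgroup.center (P ⧸ K)) :=
    { (inferInstance : Group (Subgroup.center (P ⧸ K))) with
      mul_comm := fun a b => Subtype.ext (Subgroup.mem_center_iff.mp b.2 a.1) }
  obtain ⟨φ, hφ⟩ := CommGroup.exists_apply_ne_one_of_hasEnoughRootsOfUnity
    (Subgroup.center (P ⧸ K)) ℂ
    (a := ⟨⁅(x0 : P ⧸ K), (y0 : P ⧸ K)⁆, hcen _ _⟩) (fun h => h01 (congrArg Subtype.val h))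
  have hφ1 : ∀ (x y : P ⧸ K) (h : ⁅x, y⁆ ≠ 1), φ ⟨⁅x, y⁆, hcen x y⟩ ≠ 1 := by
    intro x y h h1
    obtain ⟨n, hn⟩ := Subgroup.mem_zpowers_iff.mp (key ⁅x, y⁆ h (hcen x y) x0 y0)
    apply hφ
    have h2 : (⟨⁅(x0 : P ⧸ K), (y0 : P ⧸ K)⁆, hcen _ _⟩ : Subgroup.center (P ⧸ K))
        = ⟨⁅x, y⁆, hcen x y⟩ ^ n := Subtype.ext hn.symm
    rw [h2, map_zpow, h1, one_zpow]
  refine ⟨(Subgroup.center (P ⧸ K)).comap (QuotientGroup.mk' K), inferInstance,
    fun x y => hcen x y,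
    φ.comp ((QuotientGroup.mk' K).subgroupComap (Subgroup.center (P ⧸ K))), ?_, ?_, ?_⟩
  · intro htop
    apply h01
    have h1 : x0 ∈ (Subgroup.center (P ⧸ K)).comap (QuotientGroup.mk' K) := by
      rw [htop]
      exact Subgroup.mem_top _
    have h2 := Subgroup.mem_center_iff.mp (Subgroup.mem_comap.mp h1) (y0 : P ⧸ K)
    rw [commutatorElement_eq_one_iff_mul_comm]
    exact h2.symm
  · intro g z
    rw [MonoidHom.comp_apply, MonoidHom.comp_apply]
    congr 1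
    apply Subtype.ext
    have h2 := Subgroup.mem_center_iff.mp (Subgroup.mem_comap.mp z.2) (g : P ⧸ K)
    show QuotientGroup.mk' K (g * z * g⁻¹) = QuotientGroup.mk' K z
    rw [map_mul, map_mul, map_inv]
    have h3 : QuotientGroup.mk' K g * QuotientGroup.mk' K z
        = QuotientGroup.mk' K z * QuotientGroup.mk' K g := h2
    rw [h3, mul_inv_cancel_right]
  · intro x hx
    have h1 : ∃ y : P ⧸ K, ⁅(x : P ⧸ K), y⁆ ≠ 1 := by
      by_contra hcon
      push Not at hcon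
      apply hx
      rw [Subgroup.mem_comap, Subgroup.mem_center_iff]
      intro g
      exact (commutatorElement_eq_one_iff_mul_comm.mp (hcon g)).symm
    obtain ⟨y, hy⟩ := h1
    obtain ⟨y, rfl⟩ := QuotientGroup.mk_surjective y
    exact ⟨y, hφ1 _ _ hy⟩

end Pool.PWL
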