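import Pool.Agent.PWL.NSyl

/-!
# Degrees of a normal `p`-subgroup and the `p`-parts of the degrees of the group
-/

namespace Pool.PWL

open Pool.TKB

theorem finrank_le_of_parts {G : Type} [Group G] [Finite G] {p : ℕ} [Fact p.Prime]
    (N : Subgroup G) [N.Normal] (hN : IsPGroup p N) (b : ℕ)
    (hb : ∀ d ∈ Pool.TKB.cd G, padicValNat p d ≤ b) (Θ : FDRep ℂ N)
    (hΘ : CategoryTheory.Simple Θ) : Module.finrank ℂ Θ ≤ p ^ b := by
  have hp : p.Prime := Fact.out
  obtain ⟨b', hb'⟩ := finrank_simple_pgroup hN Θ hΘ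
  have hnt : Nontrivial Θ := Pool.TKB.simple_nontrivial Θ
  have hpos : 0 < N.index * Module.finrank ℂ Θ :=
    Nat.mul_pos (Nat.pos_of_ne_zero N.index_ne_zero_of_finite) Module.finrank_pos
  obtain ⟨U, hU, -, f, hf, hfr⟩ := exists_ind N Θ hΘ (N.index * Module.finrank ℂ Θ + 1)
    (fun h => absurd (Nat.le_of_dvd hpos h) (by omega))
  have hntU : Nontrivial U := Pool.TKB.simple_nontrivial U
  have hU0 : Module.finrank ℂ U ≠ 0 := Module.finrank_pos.ne'
  obtain ⟨Θ', hΘ', hΘd, i, hi, hir⟩ := exists_res N U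
    (p ^ (padicValNat p (Module.finrank ℂ U) + 1)) (pow_succ_padicValNat_not_dvd hU0)
  have h1 := clifford_dim N U hU Θ Θ' hΘ hΘ' i hi hir f hf hfr
  rw [h1, hb'] at hΘd
  have h2 : b' ≤ padicValNat p (Module.finrank ℂ U) := by
    by_contra h
    apply hΘd
    exact pow_dvd_pow p (by omega)
  have h3 : padicValNat p (Module.finrank ℂ U) ≤ b := hb _ ⟨U, hU, rfl⟩
  rw [hb']
  exact Nat.pow_le_pow_right hp.pos (h2.trans h3)

end Pool.PWL
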