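import Pool.Agent.PWL.ABPerm

/-!
# Row ABFix: small sections are centralised
-/

set_option autoImplicit false

namespace Pool.PWL

open scoped commutatorElement
open CategoryTheory

/-- the action of a group on the nontrivial elements of a normal section by conjugation -/
@[instance_reducible] private def abfAct {S : Type} [Group S] (U W : Subgroup S) [U.Normal] [W.Normal] :
    MulAction S {x : S ⧸ W // x ∈ U.map (QuotientGroup.mk' W) ∧ x ≠ 1} where
  smul g x := ⟨QuotientGroup.mk' W g * x.1 * (QuotientGroup.mk' W g)⁻¹, by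
    have hn : (U.map (QuotientGroup.mk' W)).Normal :=
      Subgroup.Normal.map inferInstance _ (QuotientGroup.mk'_surjective W)
    refine ⟨hn.conj_mem _ x.2.1 _, ?_⟩
    intro h
    apply x.2.2
    rwa [conj_eq_one_iff] at h⟩
  one_smul x := by
    apply Subtype.ext
    show QuotientGroup.mk' W 1 * x.1 * (QuotientGroup.mk' W 1)⁻¹ = x.1
    rw [map_one, one_mul, inv_one, mul_one]
  mul_smul g h x := by
    apply Subtype.ext
    show QuotientGroup.mk' W (g * h) * x.1 * (QuotientGroup.mk' W (g * h))⁻¹ =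
      QuotientGroup.mk' W g * (QuotientGroup.mk' W h * x.1 * (QuotientGroup.mk' W h)⁻¹) *
        (QuotientGroup.mk' W g)⁻¹
    rw [map_mul, mul_inv_rev]
    group

theorem comm_le_of_small {S : Type} [Group S] [Finite S] (D : Subgroup S) (q : ℕ)
    (hD : ∀ Θ : FDRep ℂ S, CategoryTheory.Simple Θ → Module.finrank ℂ Θ < q →
      ∀ k ∈ D, ∀ u : Θ, Θ.ρ k u = u)
    (U W : Subgroup S) [U.Normal] [W.Normal] (hWU : W ≤ U) (h : W.relIndex U ≤ q) :
    ⁅U, D⁆ ≤ W := by
  classical
  have _ := hWU
  let Ω := {x : S ⧸ W // x ∈ U.map (QuotientGroup.mk' W) ∧ x ≠ 1}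
  letI : MulAction S Ω := abfAct U W
  haveI : Fintype (S ⧸ W) := Fintype.ofFinite _
  have hcard : Fintype.card Ω < q := by
    have h1 : W.relIndex U = Nat.card (U.map (QuotientGroup.mk' W)) := by
      rw [← Subgroup.relIndex_ker, QuotientGroup.ker_mk']
    rw [h1, Nat.card_eq_fintype_card] at h
    refine lt_of_lt_of_le ?_ h
    refine Fintype.card_lt_of_injective_of_notMem
      (fun x : Ω => (⟨x.1, x.2.1⟩ : U.map (QuotientGroup.mk' W))) ?_ (b := 1) ?_
    · intro x y hxy
      have h2 : x.1 = y.1 := congrArg (fun z : U.map (QuotientGroup.mk' W) => z.1) hxy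
      exact Subtype.ext h2
    · rintro ⟨x, hx⟩
      exact x.2.2 (Subtype.ext_iff.1 hx)
  let ρ : Representation ℂ S (Ω → ℂ) :=
    { toFun := fun g => LinearMap.funLeft ℂ ℂ (fun x : Ω => g⁻¹ • x)
      map_one' := by
        apply LinearMap.ext
        intro φ
        funext x
        show φ ((1 : S)⁻¹ • x) = φ x
        rw [inv_one, one_smul]
      map_mul' := by
        intro g g'
        apply LinearMap.ext
        intro φ
        funext x
        show φ ((g * g')⁻¹ • x) = φ (g'⁻¹ • g⁻¹ • x)
        rw [mul_inv_rev, mul_smul] }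
  have hfix : ∀ k ∈ D, ∀ x : Ω, k • x = x := by
    intro k hk x
    have h1 := trivial_of_small D q hD ρ
      (by rw [Module.finrank_fintype_fun_eq_card]; exact hcard) k hk (Pi.single x 1)
    have h2 : (Pi.single x 1 : Ω → ℂ) (k⁻¹ • k • x) = (Pi.single x 1 : Ω → ℂ) (k • x) :=
      congrFun h1 (k • x)
    rw [inv_smul_smul, Pi.single_eq_same] at h2
    by_contra hne
    rw [Pi.single_eq_of_ne hne] at h2
    exact one_ne_zero h2
  rw [Subgroup.commutator_le]
  intro u hu k hk
  have key : QuotientGroup.mk' W k * QuotientGroup.mk' W u * (QuotientGroup.mk' W k)⁻¹ =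
      QuotientGroup.mk' W u := by
    by_cases h1 : QuotientGroup.mk' W u = 1
    · rw [h1, mul_one, mul_inv_cancel]
    · exact congrArg Subtype.val (hfix k hk ⟨QuotientGroup.mk' W u, ⟨u, hu, rfl⟩, h1⟩)
  have h2 : QuotientGroup.mk' W k * QuotientGroup.mk' W u =
      QuotientGroup.mk' W u * QuotientGroup.mk' W k := by
    rw [mul_inv_eq_iff_eq_mul] at key
    exact key
  have h3 : QuotientGroup.mk' W ⁅u, k⁆ = 1 := by
    rw [map_commutatorElement, commutatorElement_eq_one_iff_mul_comm]
    exact h2.symm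
  have h4 : ⁅u, k⁆ ∈ (QuotientGroup.mk' W).ker := h3
  rwa [QuotientGroup.ker_mk'] at h4

end Pool.PWL
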