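import Pool.Agent.PWL.DefsM
import Pool.Agent.TKB.Gam

set_option autoImplicit false

namespace Pool.PWL

open scoped commutatorElement

private theorem abst_zero {G : Type*} [Group G] (N : Subgroup G) : dser N 0 = N := by
  unfold dser
  rw [derivedSeries_zero, ← MonoidHom.range_eq_map, Subgroup.range_subtype]

private theorem abst_succ {G : Type*} [Group G] (N : Subgroup G) (i : ℕ) :
    dser N (i + 1) = ⁅dser N i, dser N i⁆ := by
  unfold dser
  rw [derivedSeries_succ, Subgroup.map_commutator]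

private theorem abst_normal {G : Type*} [Group G] (N : Subgroup G) [N.Normal] (i : ℕ) :
    (dser N i).Normal := by
  unfold dser
  infer_instance

/-! row ABStab -/
theorem stab_chain {S : Type*} [Group S] (D : Subgroup S) [D.Normal] (k t : ℕ)
    (C : ℕ → Subgroup S) (hC : ∀ i, (C i).Normal) (h : ∀ i < k, ⁅C (i + 1), D⁆ ≤ C i)
    (ht : k ≤ 2 ^ t) : ⁅C k, dser D t⁆ ≤ C 0 := by
  have key : ∀ t : ℕ, ∀ i j : ℕ, j ≤ 2 ^ t → i + j ≤ k → ⁅C (i + j), dser D t⁆ ≤ C i := by
    intro t
    induction t with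
    | zero =>
      intro i j hj hij
      rcases Nat.le_one_iff_eq_zero_or_eq_one.1 (by simpa using hj) with rfl | rfl
      · have := hC i
        exact Subgroup.commutator_le_left _ _
      · rw [abst_zero]
        exact h i (by omega)
    | succ t ih =>
      intro i j hj hij
      have h2 : 2 ^ (t + 1) = 2 ^ t + 2 ^ t := by ring
      obtain ⟨j1, j2, rfl, h1, h3⟩ : ∃ j1 j2, j = j1 + j2 ∧ j1 ≤ 2 ^ t ∧ j2 ≤ 2 ^ t :=
        ⟨min j (2 ^ t), j - min j (2 ^ t), by omega, by omega, by omega⟩
      have hn := hC i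
      have h4 : ⁅C (i + (j1 + j2)), dser D t⁆ ≤ C (i + j1) := by
        rw [← add_assoc]
        exact ih (i + j1) j2 h3 (by omega)
      have h5 : ⁅C (i + j1), dser D t⁆ ≤ C i := ih i j1 h1 (by omega)
      have h6 : ⁅⁅C (i + (j1 + j2)), dser D t⁆, dser D t⁆ ≤ C i :=
        (Subgroup.commutator_mono h4 le_rfl).trans h5
      have h7 : ⁅⁅dser D t, dser D t⁆, C (i + (j1 + j2))⁆ ≤ C i :=
        Pool.TKB.three (by rw [Subgroup.commutator_comm (dser D t)]; exact h6) h6
      rw [abst_succ, Subgroup.commutator_comm]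
      exact h7
  have := key t 0 k ht (by omega)
  rwa [zero_add] at this

end Pool.PWL
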