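import Mathlib

set_option autoImplicit false

namespace Pool.PWL

section

variable {Z : Type*} [Group Z] [Finite Z] {V W : Type*} [AddCommGroup V]
    [Module ℂ V] [FiniteDimensional ℂ V] [AddCommGroup W] [Module ℂ W] [FiniteDimensional ℂ W]

/-- an equivariant projection to a stable subspace -/
private theorem abhom_proj (ρ : Representation ℂ Z V) (U : Submodule ℂ V)
    (hU : ∀ z, ∀ u ∈ U, ρ z u ∈ U) :
    ∃ e : V →ₗ[ℂ] V, (∀ z v, e (ρ z v) = ρ z (e v)) ∧ (∀ v, e v ∈ U) ∧ ∀ u ∈ U, e u = u := by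
  classical
  obtain ⟨g, hg⟩ := LinearMap.exists_leftInverse_of_injective U.subtype
    (LinearMap.ker_eq_bot.2 U.injective_subtype)
  have hg' : ∀ u : U, g (u : V) = u := fun u => LinearMap.congr_fun hg u
  haveI : Fintype Z := Fintype.ofFinite Z
  have hc : ((Fintype.card Z : ℕ) : ℂ) ≠ 0 := Nat.cast_ne_zero.2 Fintype.card_ne_zero
  let e : V →ₗ[ℂ] V := ((Fintype.card Z : ℕ) : ℂ)⁻¹ •
    ∑ z : Z, (ρ z) ∘ₗ (U.subtype ∘ₗ g) ∘ₗ (ρ z⁻¹)
  have he : ∀ v, e v = ((Fintype.card Z : ℕ) : ℂ)⁻¹ • ∑ z : Z, ρ z (g (ρ z⁻¹ v) : V) := by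
    intro v
    simp only [e, LinearMap.smul_apply, LinearMap.sum_apply, LinearMap.comp_apply,
      Submodule.subtype_apply]
  refine ⟨e, ?_, ?_, ?_⟩
  · intro t v
    rw [he, he, map_smul, map_sum]
    congr 1
    rw [← Equiv.sum_comp (Equiv.mulLeft t)]
    refine Finset.sum_congr rfl fun s _ => ?_
    rw [Equiv.coe_mulLeft, ← Module.End.mul_apply (ρ (t * s)⁻¹), ← map_mul, mul_inv_rev, mul_assoc,
      inv_mul_cancel, mul_one, map_mul, Module.End.mul_apply]
  · intro v
    rw [he]
    exact U.smul_mem _ (U.sum_mem fun z _ => hU z _ (g _).2)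
  · intro u hu
    rw [he]
    have h1 : ∀ z : Z, ρ z (g (ρ z⁻¹ u) : V) = u := by
      intro z
      have h2 := hg' ⟨ρ z⁻¹ u, hU z⁻¹ u hu⟩
      rw [show g (ρ z⁻¹ u) = ⟨ρ z⁻¹ u, hU z⁻¹ u hu⟩ from h2, ← Module.End.mul_apply, ← map_mul,
        mul_inv_cancel, map_one, Module.End.one_apply]
    rw [Finset.sum_congr rfl fun s _ => h1 s, Finset.sum_const, Finset.card_univ,
      ← Nat.cast_smul_eq_nsmul ℂ, smul_smul, inv_mul_cancel₀ hc, one_smul]

/-- Schur's lemma for a minimal stable subspace -/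
private theorem abhom_schur (ρ : Representation ℂ Z V) (σ : Representation ℂ Z W)
    (U : Submodule ℂ V) (hU : ∀ z, ∀ u ∈ U, ρ z u ∈ U)
    (hmin : ∀ U' ≤ U, U' ≠ ⊥ → (∀ z, ∀ u ∈ U', ρ z u ∈ U') → U' = U) (hU0 : U ≠ ⊥)
    (F0 F : V →ₗ[ℂ] W) (h0 : ∀ (z : Z) (v : V), F0 (ρ z v) = σ z (F0 v))
    (h1 : ∀ (z : Z) (v : V), F (ρ z v) = σ z (F v)) (hinj : ∀ u ∈ U, F0 u = 0 → u = 0)
    (hr : ∀ u ∈ U, ∃ u' ∈ U, F0 u' = F u) : ∃ c : ℂ, ∀ u ∈ U, F u = c • F0 u := by
  have hnt : Nontrivial U := (Submodule.nontrivial_iff_ne_bot).2 hU0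
  have hi : Function.Injective (F0.domRestrict U) := by
    rw [← LinearMap.ker_eq_bot, LinearMap.ker_eq_bot']
    intro u hu
    exact Subtype.ext (hinj u u.2 hu)
  have hmem : ∀ u : U, F.domRestrict U u ∈ LinearMap.range (F0.domRestrict U) := by
    intro u
    obtain ⟨u', hu', h⟩ := hr u u.2
    exact ⟨⟨u', hu'⟩, h⟩
  let T : U →ₗ[ℂ] U := (LinearEquiv.ofInjective (F0.domRestrict U) hi).symm.toLinearMap ∘ₗ
    (F.domRestrict U).codRestrict (LinearMap.range (F0.domRestrict U)) hmem
  have hT : ∀ u : U, F0 (T u : V) = F (u : V) := by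
    intro u
    have h2 : (LinearEquiv.ofInjective (F0.domRestrict U) hi) (T u) =
        (F.domRestrict U).codRestrict (LinearMap.range (F0.domRestrict U)) hmem u := by
      simp only [T, LinearMap.comp_apply, LinearEquiv.coe_coe, LinearEquiv.apply_symm_apply]
    have h3 := congrArg Subtype.val h2
    exact h3
  obtain ⟨c, hc⟩ := Module.End.exists_eigenvalue T
  obtain ⟨u, hu⟩ := hc.exists_hasEigenvector
  have hu1 : F (u : V) = c • F0 (u : V) := by
    rw [← hT u, hu.apply_eq_smul, Submodule.coe_smul, map_smul]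
  have hu2 : (u : V) ≠ 0 := fun h => hu.2 (Subtype.ext h)
  have hE : U ⊓ LinearMap.ker (F - c • F0) = U := by
    apply hmin _ inf_le_left
    · intro h
      have h2 : (u : V) ∈ U ⊓ LinearMap.ker (F - c • F0) := by
        refine ⟨u.2, ?_⟩
        rw [SetLike.mem_coe, LinearMap.mem_ker, LinearMap.sub_apply, LinearMap.smul_apply, hu1,
          sub_self]
      rw [h] at h2
      exact hu2 ((Submodule.mem_bot ℂ).1 h2)
    · intro z w hw
      refine ⟨hU z w hw.1, ?_⟩
      have h3 : (F - c • F0) w = 0 := hw.2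
      rw [LinearMap.sub_apply, LinearMap.smul_apply] at h3
      rw [SetLike.mem_coe, LinearMap.mem_ker, LinearMap.sub_apply, LinearMap.smul_apply, h0, h1,
        ← map_smul, ← map_sub, h3, map_zero]
  refine ⟨c, fun w hw => ?_⟩
  rw [← hE] at hw
  have h3 : (F - c • F0) w = 0 := hw.2
  rwa [LinearMap.sub_apply, LinearMap.smul_apply, sub_eq_zero] at h3

/-- the multiplicity of a minimal stable subspace -/
private theorem abhom_irr (ρ : Representation ℂ Z V) (σ : Representation ℂ Z W)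
    (U : Submodule ℂ V) (hU : ∀ z, ∀ u ∈ U, ρ z u ∈ U)
    (hmin : ∀ U' ≤ U, U' ≠ ⊥ → (∀ z, ∀ u ∈ U', ρ z u ∈ U') → U' = U) (hU0 : U ≠ ⊥)
    (e1 : V →ₗ[ℂ] V) (he1 : ∀ v, e1 v ∈ U) :
    ∀ (n : ℕ) (W1 : Submodule ℂ W), Module.finrank ℂ W1 ≤ n → (∀ z, ∀ w ∈ W1, σ z w ∈ W1) →
      ∀ K : Submodule ℂ (V →ₗ[ℂ] W), (∀ F ∈ K, ∀ (z : Z) (v : V), F (ρ z v) = σ z (F v)) →
        (∀ F ∈ K, ∀ v, F v = F (e1 v)) → (∀ F ∈ K, ∀ v, F v ∈ W1) →
        Module.finrank ℂ U * Module.finrank ℂ K ≤ Module.finrank ℂ W1 := by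
  intro n
  induction n with
  | zero =>
    intro W1 hn hW1 K hK hKe hKW
    have hW0 : W1 = ⊥ := Submodule.finrank_eq_zero.1 (Nat.le_zero.1 hn)
    have hK0 : K = ⊥ := by
      rw [Submodule.eq_bot_iff]
      intro F hF
      ext v
      have := hKW F hF v
      rw [hW0] at this
      exact (Submodule.mem_bot ℂ).1 this
    rw [hK0, finrank_bot, mul_zero]
    exact Nat.zero_le _
  | succ n ih =>
    intro W1 hn hW1 K hK hKe hKW
    by_cases hK0 : K = ⊥
    · rw [hK0, finrank_bot, mul_zero]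
      exact Nat.zero_le _
    obtain ⟨F0, hF0, hF00⟩ := (Submodule.ne_bot_iff K).1 hK0
    -- `F0` is injective on `U`
    have hinj : ∀ u ∈ U, F0 u = 0 → u = 0 := by
      by_contra hne
      push Not at hne
      obtain ⟨u, hu, hFu, hu0⟩ := hne
      have h1 : U ⊓ LinearMap.ker F0 = U := by
        apply hmin _ inf_le_left
        · intro h
          have h2 : u ∈ U ⊓ LinearMap.ker F0 := ⟨hu, hFu⟩
          rw [h] at h2
          exact hu0 ((Submodule.mem_bot ℂ).1 h2)
        · intro z w hw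
          refine ⟨hU z w hw.1, ?_⟩
          have h3 : F0 w = 0 := hw.2
          show F0 (ρ z w) = 0
          rw [hK F0 hF0, h3, map_zero]
      apply hF00
      ext v
      rw [hKe F0 hF0 v]
      have h2 := he1 v
      rw [← h1] at h2
      exact h2.2
    set R : Submodule ℂ W := U.map F0 with hR
    have hRfin : Module.finrank ℂ R = Module.finrank ℂ U := by
      have hi : Function.Injective (F0.domRestrict U) := by
        rw [← LinearMap.ker_eq_bot, LinearMap.ker_eq_bot']
        intro u hu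
        exact Subtype.ext (hinj u u.2 hu)
      have h1 := LinearMap.finrank_range_of_inj hi
      rw [LinearMap.range_domRestrict] at h1
      exact h1
    have hRst : ∀ z, ∀ w ∈ R, σ z w ∈ R := by
      rintro z w ⟨u, hu, rfl⟩
      exact ⟨ρ z u, hU z u hu, hK F0 hF0 z u⟩
    have hRW : R ≤ W1 := by
      rintro w ⟨u, hu, rfl⟩
      exact hKW F0 hF0 u
    obtain ⟨e, he, heR, heid⟩ := abhom_proj σ R hRst
    set W2 : Submodule ℂ W := W1 ⊓ LinearMap.ker e with hW2
    have hW2st : ∀ z, ∀ w ∈ W2, σ z w ∈ W2 := by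
      intro z w hw
      refine ⟨hW1 z w hw.1, ?_⟩
      have h3 : e w = 0 := hw.2
      show e (σ z w) = 0
      rw [he, h3, map_zero]
    have hdim : Module.finrank ℂ W1 = Module.finrank ℂ R + Module.finrank ℂ W2 := by
      have h1 := Submodule.finrank_sup_add_finrank_inf_eq R W2
      have h2 : R ⊔ W2 = W1 := by
        apply le_antisymm (sup_le hRW inf_le_left)
        intro w hw
        rw [Submodule.mem_sup]
        refine ⟨e w, heR w, w - e w, ⟨W1.sub_mem hw (hRW (heR w)), ?_⟩, by abel⟩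
        show e (w - e w) = 0
        rw [map_sub, heid _ (heR w), sub_self]
      have h3 : R ⊓ W2 = ⊥ := by
        rw [Submodule.eq_bot_iff]
        intro w hw
        have h4 : e w = 0 := hw.2.2
        rw [← heid w hw.1, h4]
      rw [h2, h3, finrank_bot, add_zero] at h1
      exact h1
    have hUpos : 0 < Module.finrank ℂ U := by
      have hnt : Nontrivial U := (Submodule.nontrivial_iff_ne_bot).2 hU0
      exact Module.finrank_pos
    -- the second part
    let L : (V →ₗ[ℂ] W) →ₗ[ℂ] (V →ₗ[ℂ] W) :=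
      { toFun := fun F => (LinearMap.id - e) ∘ₗ F
        map_add' := fun F G => LinearMap.comp_add _ _ _
        map_smul' := fun c F => LinearMap.comp_smul _ _ _ }
    have hL : ∀ F v, L F v = F v - e (F v) := fun F v => rfl
    have h1 : Module.finrank ℂ U * Module.finrank ℂ (K.map L) ≤ Module.finrank ℂ W2 := by
      apply ih W2 (by omega) hW2st
      · rintro _ ⟨F, hF, rfl⟩ z v
        rw [hL, hL, hK F hF, he, map_sub]
      · rintro _ ⟨F, hF, rfl⟩ v
        rw [hL, hL, hKe F hF v]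
      · rintro _ ⟨F, hF, rfl⟩ v
        refine ⟨?_, ?_⟩
        · rw [SetLike.mem_coe, hL]
          exact W1.sub_mem (hKW F hF v) (hRW (heR _))
        · show e (L F v) = 0
          rw [hL, map_sub, heid _ (heR _), sub_self]
    have h2 : Module.finrank ℂ K ≤ Module.finrank ℂ (K.map L) + 1 := by
      have h3 := LinearMap.finrank_range_add_finrank_ker (L.domRestrict K)
      rw [LinearMap.range_domRestrict] at h3
      have hL0 : L F0 = 0 := by
        ext v
        rw [hL, LinearMap.zero_apply]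
        have h4 : F0 v ∈ R := by
          rw [hKe F0 hF0 v]
          exact ⟨e1 v, he1 v, rfl⟩
        rw [heid _ h4, sub_self]
      have h4 : Module.finrank ℂ (LinearMap.ker (L.domRestrict K)) ≤ 1 := by
        refine finrank_le_one (⟨⟨F0, hF0⟩, hL0⟩ : LinearMap.ker (L.domRestrict K)) ?_
        rintro ⟨⟨F, hF⟩, hLF⟩
        have hLF' : L F = 0 := hLF
        obtain ⟨c, hc⟩ := abhom_schur ρ σ U hU hmin hU0 F0 F (hK F0 hF0) (hK F hF) hinj (by
          intro u hu
          have h5 : F u = e (F u) := by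
            have h6 := LinearMap.congr_fun hLF' u
            rw [hL, LinearMap.zero_apply, sub_eq_zero] at h6
            exact h6
          have h6 := heR (F u)
          rw [← h5] at h6
          exact h6)
        refine ⟨c, ?_⟩
        apply Subtype.ext
        apply Subtype.ext
        show c • F0 = F
        ext v
        rw [LinearMap.smul_apply, hKe F hF v, hKe F0 hF0 v, hc _ (he1 v)]
      omega
    calc Module.finrank ℂ U * Module.finrank ℂ K
        ≤ Module.finrank ℂ U * (Module.finrank ℂ (K.map L) + 1) := Nat.mul_le_mul_left _ h2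
      _ = Module.finrank ℂ U * Module.finrank ℂ (K.map L) + Module.finrank ℂ U := by ring
      _ ≤ Module.finrank ℂ W2 + Module.finrank ℂ R := by rw [hRfin]; omega
      _ = Module.finrank ℂ W1 := by rw [hdim]; ring

/-- right multiplication -/
private def abhomR (W : Type*) [AddCommGroup W] [Module ℂ W] (e : V →ₗ[ℂ] V) :
    (V →ₗ[ℂ] W) →ₗ[ℂ] (V →ₗ[ℂ] W) where
  toFun F := F ∘ₗ e
  map_add' F G := LinearMap.add_comp _ _ _
  map_smul' c F := LinearMap.smul_comp _ _ _

private theorem abhom_main (ρ : Representation ℂ Z V) (σ : Representation ℂ Z W) (h : ℕ)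
    (hρ : ∀ U : Submodule ℂ V, U ≠ ⊥ → (∀ z, ∀ u ∈ U, ρ z u ∈ U) → h ≤ Module.finrank ℂ U)
    (H : Submodule ℂ (V →ₗ[ℂ] W)) (hH : ∀ F ∈ H, ∀ (z : Z) (v : V), F (ρ z v) = σ z (F v)) :
    ∀ (n : ℕ) (e : V →ₗ[ℂ] V), (∀ z v, e (ρ z v) = ρ z (e v)) → (∀ v, e (e v) = e v) →
      Module.finrank ℂ (LinearMap.range e) ≤ n →
      h ^ 2 * Module.finrank ℂ (H.map (abhomR W e)) ≤
        Module.finrank ℂ (LinearMap.range e) * Module.finrank ℂ W := by
  intro n
  induction n with
  | zero =>
    intro e he hee hn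
    have h0 : LinearMap.range e = ⊥ := Submodule.finrank_eq_zero.1 (Nat.le_zero.1 hn)
    have h1 : H.map (abhomR W e) = ⊥ := by
      rw [Submodule.eq_bot_iff]
      rintro _ ⟨F, hF, rfl⟩
      ext v
      show F (e v) = 0
      have h2 : e v ∈ LinearMap.range e := ⟨v, rfl⟩
      rw [h0] at h2
      rw [(Submodule.mem_bot ℂ).1 h2, map_zero]
    rw [h1, finrank_bot, mul_zero]
    exact Nat.zero_le _
  | succ n ih =>
    intro e he hee hn
    by_cases h0 : LinearMap.range e = ⊥
    · have h1 : H.map (abhomR W e) = ⊥ := by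
        rw [Submodule.eq_bot_iff]
        rintro _ ⟨F, hF, rfl⟩
        ext v
        show F (e v) = 0
        have h2 : e v ∈ LinearMap.range e := ⟨v, rfl⟩
        rw [h0] at h2
        rw [(Submodule.mem_bot ℂ).1 h2, map_zero]
      rw [h1, finrank_bot, mul_zero]
      exact Nat.zero_le _
    -- a minimal stable subspace
    have hex : ∃ d, ∃ U : Submodule ℂ V, U ≤ LinearMap.range e ∧ U ≠ ⊥ ∧
        (∀ z, ∀ u ∈ U, ρ z u ∈ U) ∧ Module.finrank ℂ U = d := by
      refine ⟨_, LinearMap.range e, le_rfl, h0, ?_, rfl⟩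
      rintro z _ ⟨v, rfl⟩
      exact ⟨ρ z v, he z v⟩
    classical
    obtain ⟨U, hUe, hU0, hUst, hUd⟩ := Nat.find_spec hex
    have hmin : ∀ U' ≤ U, U' ≠ ⊥ → (∀ z, ∀ u ∈ U', ρ z u ∈ U') → U' = U := by
      intro U' hU' hU'0 hU'st
      apply Submodule.eq_of_le_of_finrank_le hU'
      rw [hUd]
      exact Nat.find_min' hex ⟨U', hU'.trans hUe, hU'0, hU'st, rfl⟩
    obtain ⟨q, hq, hqU, hqid⟩ := abhom_proj ρ U hUst
    have heU : ∀ u ∈ U, e u = u := by
      intro u hu
      obtain ⟨v, hv⟩ := hUe hu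
      rw [← hv, hee]
    set e1 : V →ₗ[ℂ] V := q ∘ₗ e with he1
    set e2 : V →ₗ[ℂ] V := e - e1 with he2
    have h11 : ∀ v, e1 (e1 v) = e1 v := by
      intro v
      show q (e (q (e v))) = q (e v)
      rw [heU _ (hqU _), hqid _ (hqU _)]
    have h1e : ∀ v, e1 (e v) = e1 v := by
      intro v
      show q (e (e v)) = q (e v)
      rw [hee]
    have he1' : ∀ v, e (e1 v) = e1 v := fun v => heU _ (hqU _)
    have h2v : ∀ v, e2 v = e v - e1 v := fun v => rfl
    have h12 : ∀ v, e1 (e2 v) = 0 := by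
      intro v
      rw [h2v, map_sub, h1e, h11, sub_self]
    have h22 : ∀ v, e2 (e2 v) = e2 v := by
      intro v
      rw [h2v (e2 v), h12, sub_zero, h2v, map_sub, hee, he1']
    have h1ρ : ∀ z v, e1 (ρ z v) = ρ z (e1 v) := by
      intro z v
      show q (e (ρ z v)) = ρ z (q (e v))
      rw [he, hq]
    have h2ρ : ∀ z v, e2 (ρ z v) = ρ z (e2 v) := by
      intro z v
      rw [h2v, h2v, he, h1ρ, map_sub]
    have hr1 : LinearMap.range e1 = U := by
      apply le_antisymm
      · rintro _ ⟨v, rfl⟩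
        exact hqU _
      · intro u hu
        refine ⟨u, ?_⟩
        show q (e u) = u
        rw [heU u hu, hqid u hu]
    have hdim : Module.finrank ℂ (LinearMap.range e) =
        Module.finrank ℂ U + Module.finrank ℂ (LinearMap.range e2) := by
      have h1 := Submodule.finrank_sup_add_finrank_inf_eq U (LinearMap.range e2)
      have h2 : U ⊔ LinearMap.range e2 = LinearMap.range e := by
        apply le_antisymm
        · apply sup_le hUe
          rintro _ ⟨v, rfl⟩
          refine ⟨e2 v, ?_⟩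
          rw [h2v, map_sub, hee, he1']
        · rintro _ ⟨v, rfl⟩
          rw [Submodule.mem_sup]
          exact ⟨e1 v, hqU _, e2 v, ⟨v, rfl⟩, by rw [h2v]; abel⟩
      have h3 : U ⊓ LinearMap.range e2 = ⊥ := by
        rw [Submodule.eq_bot_iff]
        rintro w ⟨hw1, v, hv⟩
        have h4 : e1 w = w := by
          show q (e w) = w
          rw [heU w hw1, hqid w hw1]
        rw [← h4, ← hv, h12]
      rw [h2, h3, finrank_bot, add_zero] at h1
      exact h1
    have hUpos : 0 < Module.finrank ℂ U := by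
      have hnt : Nontrivial U := (Submodule.nontrivial_iff_ne_bot).2 hU0
      exact Module.finrank_pos
    have hsum : H.map (abhomR W e) ≤ H.map (abhomR W e1) ⊔ H.map (abhomR W e2) := by
      rintro _ ⟨F, hF, rfl⟩
      rw [Submodule.mem_sup]
      refine ⟨abhomR W e1 F, ⟨F, hF, rfl⟩, abhomR W e2 F, ⟨F, hF, rfl⟩, ?_⟩
      ext v
      show F (e1 v) + F (e2 v) = F (e v)
      rw [← map_add, h2v]
      congr 1
      abel
    have hfin : Module.finrank ℂ (H.map (abhomR W e)) ≤
        Module.finrank ℂ (H.map (abhomR W e1)) + Module.finrank ℂ (H.map (abhomR W e2)) :=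
      (Submodule.finrank_mono hsum).trans (Submodule.finrank_add_le_finrank_add_finrank _ _)
    have hA : Module.finrank ℂ U * Module.finrank ℂ (H.map (abhomR W e1)) ≤
        Module.finrank ℂ W := by
      have h1 := abhom_irr ρ σ U hUst hmin hU0 e1 (fun v => hqU _) _ ⊤ le_rfl
        (fun z w _ => Submodule.mem_top) (H.map (abhomR W e1)) (by
          rintro _ ⟨F, hF, rfl⟩ z v
          show F (e1 (ρ z v)) = σ z (F (e1 v))
          rw [h1ρ, hH F hF]) (by
          rintro _ ⟨F, hF, rfl⟩ v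
          show F (e1 v) = F (e1 (e1 v))
          rw [h11]) (fun _ _ _ => Submodule.mem_top)
      rwa [finrank_top] at h1
    have hB := ih e2 h2ρ h22 (by omega)
    have hh := hρ U hU0 hUst
    have hC : h ^ 2 * Module.finrank ℂ (H.map (abhomR W e1)) ≤
        Module.finrank ℂ U * Module.finrank ℂ W := by
      calc h ^ 2 * Module.finrank ℂ (H.map (abhomR W e1))
          = h * (h * Module.finrank ℂ (H.map (abhomR W e1))) := by ring
        _ ≤ Module.finrank ℂ U * (Module.finrank ℂ U *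
            Module.finrank ℂ (H.map (abhomR W e1))) :=
          Nat.mul_le_mul hh (Nat.mul_le_mul_right _ hh)
        _ ≤ Module.finrank ℂ U * Module.finrank ℂ W := Nat.mul_le_mul_left _ hA
    calc h ^ 2 * Module.finrank ℂ (H.map (abhomR W e))
        ≤ h ^ 2 * (Module.finrank ℂ (H.map (abhomR W e1)) +
          Module.finrank ℂ (H.map (abhomR W e2))) := Nat.mul_le_mul_left _ hfin
      _ = h ^ 2 * Module.finrank ℂ (H.map (abhomR W e1)) +
          h ^ 2 * Module.finrank ℂ (H.map (abhomR W e2)) := by ring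
      _ ≤ Module.finrank ℂ U * Module.finrank ℂ W +
          Module.finrank ℂ (LinearMap.range e2) * Module.finrank ℂ W := Nat.add_le_add hC hB
      _ = Module.finrank ℂ (LinearMap.range e) * Module.finrank ℂ W := by rw [hdim]; ring

end

/-! row ABHom -/
theorem finrank_equivariant_le {Z : Type*} [Group Z] [Finite Z] {V W : Type*} [AddCommGroup V]
    [Module ℂ V] [FiniteDimensional ℂ V] [AddCommGroup W] [Module ℂ W] [FiniteDimensional ℂ W]
    (ρ : Representation ℂ Z V) (σ : Representation ℂ Z W) (h : ℕ)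
    (hρ : ∀ U : Submodule ℂ V, U ≠ ⊥ → (∀ z, ∀ u ∈ U, ρ z u ∈ U) → h ≤ Module.finrank ℂ U)
    (H : Submodule ℂ (V →ₗ[ℂ] W)) (hH : ∀ F ∈ H, ∀ (z : Z) (v : V), F (ρ z v) = σ z (F v)) :
    h ^ 2 * Module.finrank ℂ H ≤ Module.finrank ℂ V * Module.finrank ℂ W := by
  have h1 := abhom_main ρ σ h hρ H hH _ LinearMap.id (fun _ _ => rfl) (fun _ => rfl) le_rfl
  have h2 : H.map (abhomR W (LinearMap.id : V →ₗ[ℂ] V)) = H := by
    have h3 : abhomR W (LinearMap.id : V →ₗ[ℂ] V) = LinearMap.id := by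
      ext F v
      rfl
    rw [h3, Submodule.map_id]
  rw [h2, LinearMap.range_id, finrank_top] at h1
  exact h1

end Pool.PWL
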