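import Mathlib

/-!
Stage 6, row ABNon: the index of the subgroup acting by a nondegenerate character is at most the
square of the degree.
-/

set_option autoImplicit false

namespace Pool.PWL

open scoped commutatorElement

private theorem ABNon_scal {P : Type*} [Group P] (Z : Subgroup P)
    {X : Type*} [AddCommGroup X] [Module ℂ X]
    (ρ : Representation ℂ P X) (ζ : Z →* ℂˣ)
    (hz : ∀ (z : Z) (x : X), ρ (z : P) x = (ζ z : ℂ) • x) (z : Z) :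
    ρ (z : P) = (ζ z : ℂ) • (1 : Module.End ℂ X) := by
  apply LinearMap.ext
  intro x
  rw [hz z x]
  rfl

private theorem ABNon_conj {P : Type*} [Group P] (Z : Subgroup P)
    {X : Type*} [AddCommGroup X] [Module ℂ X]
    (ρ : Representation ℂ P X) (ζ : Z →* ℂˣ)
    (hz : ∀ (z : Z) (x : X), ρ (z : P) x = (ζ z : ℂ) • x) (hc : ∀ x y : P, ⁅x, y⁆ ∈ Z)
    (x y : P) : ρ y * ρ x * ρ y⁻¹ = (ζ ⟨⁅y, x⁆, hc y x⟩ : ℂ) • ρ x := by
  have h1 : y * x * y⁻¹ = ⁅y, x⁆ * x := by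
    rw [commutatorElement_def]
    group
  rw [← map_mul, ← map_mul, h1, map_mul]
  have h2 := ABNon_scal Z ρ ζ hz ⟨⁅y, x⁆, hc y x⟩
  have h3 : ρ ⁅y, x⁆ = (ζ ⟨⁅y, x⁆, hc y x⟩ : ℂ) • (1 : Module.End ℂ X) := h2
  rw [h3, smul_mul_assoc, one_mul]

/-! row ABNon -/
theorem index_le_finrank_sq {P : Type*} [Group P] [Finite P] (Z : Subgroup P) [Z.Normal]
    {X : Type*} [AddCommGroup X] [Module ℂ X] [FiniteDimensional ℂ X] [Nontrivial X]
    (ρ : Representation ℂ P X) (ζ : Z →* ℂˣ)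
    (hz : ∀ (z : Z) (x : X), ρ (z : P) x = (ζ z : ℂ) • x) (hc : ∀ x y : P, ⁅x, y⁆ ∈ Z)
    (hnd : ∀ x ∉ Z, ∃ y, ζ ⟨⁅x, y⁆, hc x y⟩ ≠ 1) :
    Z.index ≤ Module.finrank ℂ X ^ 2 := by
  classical
  letI := Fintype.ofFinite P
  have hne : ∀ x : P, ρ x ≠ 0 := by
    intro x h0
    have h1 : ρ x * ρ x⁻¹ = 1 := by rw [← map_mul, mul_inv_cancel, map_one]
    rw [h0, zero_mul] at h1
    exact zero_ne_one h1
  -- the sum over the conjugates
  have hsum : ∀ x ∉ Z, ∑ y : P, (ζ ⟨⁅y, x⁆, hc y x⟩ : ℂ) = 0 := by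
    intro x hx
    obtain ⟨y0, hy0⟩ := hnd x hx
    have hy1 : (ζ ⟨⁅y0, x⁆, hc y0 x⟩ : ℂ) ≠ 1 := by
      intro h
      apply hy0
      have e1 : (⟨⁅x, y0⁆, hc x y0⟩ : Z) = ⟨⁅y0, x⁆, hc y0 x⟩⁻¹ := by
        apply Subtype.ext
        show ⁅x, y0⁆ = (⁅y0, x⁆)⁻¹
        rw [commutatorElement_inv]
      rw [e1, map_inv]
      have e2 : ζ ⟨⁅y0, x⁆, hc y0 x⟩ = 1 := Units.ext h
      rw [e2, inv_one]
    have hmul : ∀ y : P, (ζ ⟨⁅y0 * y, x⁆, hc (y0 * y) x⟩ : ℂ)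
        = (ζ ⟨⁅y0, x⁆, hc y0 x⟩ : ℂ) * (ζ ⟨⁅y, x⁆, hc y x⟩ : ℂ) := by
      intro y
      have h1 := ABNon_conj Z ρ ζ hz hc x (y0 * y)
      have h2 := ABNon_conj Z ρ ζ hz hc x y
      have h3 := ABNon_conj Z ρ ζ hz hc x y0
      have h4 : ρ (y0 * y) * ρ x * ρ (y0 * y)⁻¹
          = ρ y0 * (ρ y * ρ x * ρ y⁻¹) * ρ y0⁻¹ := by
        rw [mul_inv_rev, map_mul, map_mul]
        simp only [mul_assoc]
      rw [h4, h2, mul_smul_comm, smul_mul_assoc, h3, smul_smul] at h1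
      have h5 : ((ζ ⟨⁅y, x⁆, hc y x⟩ : ℂ) * (ζ ⟨⁅y0, x⁆, hc y0 x⟩ : ℂ)
          - (ζ ⟨⁅y0 * y, x⁆, hc (y0 * y) x⟩ : ℂ)) • ρ x = 0 := by
        rw [sub_smul, h1, sub_self]
      rcases smul_eq_zero.1 h5 with h6 | h6
      · rw [mul_comm]
        exact (sub_eq_zero.1 h6).symm
      · exact absurd h6 (hne x)
    have hS : (ζ ⟨⁅y0, x⁆, hc y0 x⟩ : ℂ) * ∑ y : P, (ζ ⟨⁅y, x⁆, hc y x⟩ : ℂ)
        = ∑ y : P, (ζ ⟨⁅y, x⁆, hc y x⟩ : ℂ) := by
      rw [Finset.mul_sum]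
      rw [← Equiv.sum_comp (Equiv.mulLeft y0) (fun y => (ζ ⟨⁅y, x⁆, hc y x⟩ : ℂ))]
      apply Finset.sum_congr rfl
      intro y _
      exact (hmul y).symm
    have h7 : ((ζ ⟨⁅y0, x⁆, hc y0 x⟩ : ℂ) - 1) * ∑ y : P, (ζ ⟨⁅y, x⁆, hc y x⟩ : ℂ) = 0 := by
      rw [sub_mul, one_mul, hS, sub_self]
    rcases mul_eq_zero.1 h7 with h8 | h8
    · exact absurd (sub_eq_zero.1 h8) hy1
    · exact h8
  -- the averaging maps
  let Λ : P ⧸ Z → Module.End ℂ X →ₗ[ℂ] Module.End ℂ X := fun q0 =>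
    ∑ y : P, (LinearMap.mulRight ℂ (ρ (q0.out⁻¹ * y⁻¹))).comp (LinearMap.mulLeft ℂ (ρ y))
  have hΛ : ∀ (q0 : P ⧸ Z) (g : P), Λ q0 (ρ g)
      = (∑ y : P, (ζ ⟨⁅y, g * q0.out⁻¹⁆, hc y (g * q0.out⁻¹)⟩ : ℂ)) • ρ (g * q0.out⁻¹) := by
    intro q0 g
    show (∑ y : P, (LinearMap.mulRight ℂ (ρ (q0.out⁻¹ * y⁻¹))).comp
      (LinearMap.mulLeft ℂ (ρ y))) (ρ g) = _
    rw [LinearMap.sum_apply, Finset.sum_smul]
    apply Finset.sum_congr rfl
    intro y _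
    rw [LinearMap.comp_apply, LinearMap.mulLeft_apply, LinearMap.mulRight_apply,
      ← ABNon_conj Z ρ ζ hz hc (g * q0.out⁻¹) y, map_mul, map_mul]
    simp only [mul_assoc]
  have hli : LinearIndependent ℂ (fun q : P ⧸ Z => (ρ q.out : Module.End ℂ X)) := by
    rw [linearIndependent_iff']
    intro s c hsum0 q0 hq0
    have h1 : Λ q0 (∑ q ∈ s, c q • ρ q.out) = 0 := by
      rw [hsum0, map_zero]
    rw [map_sum] at h1
    rw [Finset.sum_eq_single q0] at h1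
    · rw [map_smul, hΛ] at h1
      have h2 : ∀ y : P, (ζ ⟨⁅y, q0.out * q0.out⁻¹⁆, hc y (q0.out * q0.out⁻¹)⟩ : ℂ) = 1 := by
        intro y
        have e1 : (⟨⁅y, q0.out * q0.out⁻¹⁆, hc y (q0.out * q0.out⁻¹)⟩ : Z) = 1 := by
          apply Subtype.ext
          show ⁅y, q0.out * q0.out⁻¹⁆ = 1
          rw [mul_inv_cancel, commutatorElement_one_right]
        rw [e1, map_one]
        rfl
      rw [Finset.sum_congr rfl (fun y _ => h2 y), smul_smul] at h1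
      rcases smul_eq_zero.1 h1 with h3 | h3
      · rcases mul_eq_zero.1 h3 with h4 | h4
        · exact h4
        · exfalso
          rw [Finset.sum_const, nsmul_eq_mul, mul_one] at h4
          have h5 : (Finset.univ : Finset P).card ≠ 0 := by
            rw [Finset.card_univ]
            exact Fintype.card_ne_zero
          exact h5 (by exact_mod_cast h4)
      · exact absurd h3 (hne _)
    · intro q hq hqq
      rw [map_smul, hΛ, hsum, zero_smul, smul_zero]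
      intro hmem
      apply hqq
      have h2 : (QuotientGroup.mk q.out : P ⧸ Z) = QuotientGroup.mk q0.out := by
        rw [QuotientGroup.eq]
        have h3 : q0.out * q.out⁻¹ ∈ Z := by
          have := Z.inv_mem hmem
          rwa [mul_inv_rev, inv_inv] at this
        have h4 := (inferInstance : Z.Normal).conj_mem _ h3 q.out⁻¹
        have h5 : q.out⁻¹ * (q0.out * q.out⁻¹) * q.out⁻¹⁻¹ = q.out⁻¹ * q0.out := by
          group
        rwa [h5] at h4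
      rw [← QuotientGroup.out_eq' q, ← QuotientGroup.out_eq' q0]
      exact h2
    · intro h
      exact absurd hq0 h
  letI : Fintype (P ⧸ Z) := Fintype.ofFinite _
  have h1 := hli.fintype_card_le_finrank
  have h2 : Module.finrank ℂ (Module.End ℂ X) = Module.finrank ℂ X ^ 2 := by
    rw [sq]
    exact Module.finrank_linearMap ℂ ℂ X X
  rw [h2] at h1
  rw [Subgroup.index, Nat.card_eq_fintype_card]
  exact h1

end Pool.PWL
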