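import Pool.Agent.PWL.ABSec
import Pool.Agent.PWL.ABHom
import Pool.Agent.PWL.ABNon

/-!
Row ABStep (MP_d8bc21_al, stage 6): the induction step for the theorem of Isaacs and Passman.
-/

set_option autoImplicit false

namespace Pool.PWL
open scoped commutatorElement
open CategoryTheory

/-- the twist of a representation by a linear character -/
private noncomputable def abTwist {Z : Type*} [Group Z] {X : Type*} [AddCommGroup X] [Module ℂ X]
    (ζ : Z →* ℂˣ) (ρ : Representation ℂ Z X) : Representation ℂ Z X :=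
  { toFun := fun z => (ζ z : ℂ) • ρ z
    map_one' := by rw [map_one, map_one, Units.val_one, one_smul]
    map_mul' := fun x y => by
      rw [map_mul, map_mul, Units.val_mul, smul_mul_smul_comm] }

/-- nonzero stable subspaces have at least the dimension of a constituent -/
private theorem ab_min {P : Type} [Group P] [Finite P] (Z : Subgroup P) [Z.Normal]
    (ψ : FDRep ℂ P) (hψ : Simple ψ) (Θ : FDRep ℂ Z) (hΘ : Simple Θ) (f : ψ →ₗ[ℂ] Θ)
    (hf : Function.Surjective f)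
    (hfr : ∀ (s : Z) (x : ψ), f (ψ.ρ (s : P) x) = Θ.ρ s (f x)) (U : Submodule ℂ ψ) (hU : U ≠ ⊥)
    (hUs : ∀ z : Z, ∀ u ∈ U, ψ.ρ (z : P) u ∈ U) :
    Module.finrank ℂ Θ ≤ Module.finrank ℂ U := by
  classical
  let ρU : Representation ℂ Z U :=
    { toFun := fun z => (ψ.ρ (z : P)).restrict (hUs z)
      map_one' := by ext; simp
      map_mul' := fun x y => by ext; simp }
  have hnt : Nontrivial U := (Submodule.nontrivial_iff_ne_bot).2 hU
  have hpos : 0 < Module.finrank ℂ U := Module.finrank_pos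
  obtain ⟨W, hW0, hWs, hWirr, -⟩ := exists_irr_not_dvd ρU (Module.finrank ℂ U + 1)
    (Nat.not_dvd_of_pos_of_lt hpos (Nat.lt_succ_self _))
  let ρW : Representation ℂ Z W :=
    { toFun := fun z => (ρU z).restrict (hWs z)
      map_one' := by ext; simp
      map_mul' := fun x y => by ext; simp }
  have hntW : Nontrivial W := (Submodule.nontrivial_iff_ne_bot).2 hW0
  have hs : Simple (FDRep.of ρW) := by
    apply TKB.simple_of
    intro T hT
    have h1 := hWirr (T.map W.subtype) (by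
      rintro x ⟨y, _, rfl⟩
      exact y.2) (by
      rintro g x ⟨y, hy, rfl⟩
      exact ⟨ρW g y, hT g y hy, rfl⟩)
    rcases h1 with h2 | h2
    · left
      rw [Submodule.eq_bot_iff]
      intro x hx
      have hx' : (x : U) ∈ T.map W.subtype := ⟨x, hx, rfl⟩
      rw [h2, Submodule.mem_bot] at hx'
      exact Subtype.ext hx'
    · right
      rw [Submodule.eq_top_iff']
      intro x
      have hx : (x : U) ∈ T.map W.subtype := by rw [h2]; exact x.2
      obtain ⟨y, hy, hyx⟩ := hx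
      have h3 : y = x := Subtype.ext hyx
      rwa [← h3]
  let i : W →ₗ[ℂ] ψ := U.subtype ∘ₗ W.subtype
  have hi : Function.Injective i := fun x y hxy => Subtype.ext (Subtype.ext hxy)
  have h4 := clifford_dim Z ψ hψ Θ (FDRep.of ρW) hΘ hs i hi (fun s x => rfl) f hf hfr
  have h5 : Module.finrank ℂ W = Module.finrank ℂ Θ := h4
  rw [← h5]
  exact Submodule.finrank_le W

theorem ip_step {P : Type} [Group P] [Finite P] (Z : Subgroup P) (hZ : Z.Normal)
    (hc : ∀ x y : P, ⁅x, y⁆ ∈ Z) (ζ : Z →* ℂˣ)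
    (hinv : ∀ (g : P) (z : Z), ζ ⟨g * z * g⁻¹, hZ.conj_mem z z.2 g⟩ = ζ z)
    (hnd : ∀ x ∉ Z, ∃ y, ζ ⟨⁅x, y⁆, hc x y⟩ ≠ 1) (B : ℕ)
    (hB : ∀ V : FDRep ℂ P, CategoryTheory.Simple V → Module.finrank ℂ V ≤ B)
    (Θ : FDRep ℂ Z) (hΘ : CategoryTheory.Simple Θ) :
    Z.index * Module.finrank ℂ Θ ^ 4 ≤ B ^ 4 := by
  classical
  have hntΘ : Nontrivial Θ := Pool.TKB.simple_nontrivial Θ
  have hposΘ : 0 < Module.finrank ℂ Θ := Module.finrank_pos
  have hidx : 0 < Z.index := Nat.pos_of_ne_zero Subgroup.index_ne_zero_of_finite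
  obtain ⟨ψ, hψ, -, f, hf, hfr⟩ := exists_ind Z Θ hΘ (Z.index * Module.finrank ℂ Θ + 1)
    (Nat.not_dvd_of_pos_of_lt (Nat.mul_pos hidx hposΘ) (Nat.lt_succ_self _))
  -- the twist of `Θ`
  have hτ : CategoryTheory.Simple (FDRep.of (abTwist ζ Θ.ρ)) := by
    apply TKB.simple_of
    intro W hW
    refine TKB.simple_inv Θ W (fun z w hw => ?_)
    have h2 := W.smul_mem ((ζ z : ℂ)⁻¹) (hW z w hw)
    have h3 : (ζ z : ℂ)⁻¹ • (abTwist ζ Θ.ρ z w) = Θ.ρ z w := by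
      show (ζ z : ℂ)⁻¹ • ((ζ z : ℂ) • Θ.ρ z w) = Θ.ρ z w
      rw [smul_smul, inv_mul_cancel₀ (Units.ne_zero _), one_smul]
    rwa [h3] at h2
  obtain ⟨σ, hσ, i0, hi0, hir0⟩ := exists_over Z (FDRep.of (abTwist ζ Θ.ρ)) hτ
  let i : Θ →ₗ[ℂ] σ := i0
  have hi : Function.Injective i := hi0
  have hir : ∀ (z : Z) (x : Θ), i ((ζ z : ℂ) • Θ.ρ z x) = σ.ρ (z : P) (i x) :=
    fun z x => hir0 z x
  -- the space of twisted equivariant maps
  let H : Submodule ℂ (ψ →ₗ[ℂ] σ) :=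
    { carrier := {F | ∀ (z : Z) (v : ψ), F (ψ.ρ (z : P) v) = (ζ z : ℂ)⁻¹ • σ.ρ (z : P) (F v)}
      add_mem' := fun {F F'} hF hF' z v => by
        rw [LinearMap.add_apply, LinearMap.add_apply, hF z v, hF' z v, map_add, smul_add]
      zero_mem' := fun z v => by
        rw [LinearMap.zero_apply, LinearMap.zero_apply, map_zero, smul_zero]
      smul_mem' := fun c F hF z v => by
        rw [LinearMap.smul_apply, LinearMap.smul_apply, hF z v, map_smul, smul_comm] }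
  have hmemH : ∀ F : ψ →ₗ[ℂ] σ, F ∈ H ↔
      ∀ (z : Z) (v : ψ), F (ψ.ρ (z : P) v) = (ζ z : ℂ)⁻¹ • σ.ρ (z : P) (F v) := fun _ => Iff.rfl
  have hif : i ∘ₗ f ∈ H := by
    rw [hmemH]
    intro z v
    rw [LinearMap.comp_apply, LinearMap.comp_apply, hfr, ← hir z (f v), map_smul, smul_smul,
      inv_mul_cancel₀ (Units.ne_zero _), one_smul]
  have hntH : Nontrivial H := by
    refine (Submodule.nontrivial_iff_ne_bot).2 (fun hbot => ?_)
    rw [hbot, Submodule.mem_bot] at hif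
    obtain ⟨y, hy⟩ := exists_ne (0 : Θ)
    obtain ⟨x, rfl⟩ := hf y
    have h1 : i (f x) = 0 := by
      have := LinearMap.congr_fun hif x
      exact this
    exact hy (hi (by rw [h1, map_zero]))
  have hHs : ∀ g : P, ∀ F ∈ H, Representation.linHom ψ.ρ σ.ρ g F ∈ H := by
    intro g F hF
    rw [hmemH] at hF ⊢
    intro z v
    have hmem : g⁻¹ * z * g ∈ Z := by
      have := hZ.conj_mem z z.2 g⁻¹
      rwa [inv_inv] at this
    have hζ : ζ ⟨g⁻¹ * z * g, hmem⟩ = ζ z := by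
      have := hinv g⁻¹ z
      rw [← this]
      congr 1
      apply Subtype.ext
      show g⁻¹ * (z : P) * g = g⁻¹ * z * (g⁻¹)⁻¹
      rw [inv_inv]
    have h1 : ψ.ρ g⁻¹ (ψ.ρ (z : P) v) = ψ.ρ (g⁻¹ * z * g) (ψ.ρ g⁻¹ v) := by
      have e1 : ψ.ρ g⁻¹ (ψ.ρ (z : P) v) = ψ.ρ (g⁻¹ * z) v := by rw [map_mul]; rfl
      have e2 : ψ.ρ (g⁻¹ * z * g) (ψ.ρ g⁻¹ v) = ψ.ρ (g⁻¹ * z * g * g⁻¹) v := by
        rw [map_mul _ (g⁻¹ * (z : P) * g) g⁻¹]; rfl
      rw [e1, e2, mul_inv_cancel_right]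
    have h2 : ∀ w : σ, σ.ρ g (σ.ρ (g⁻¹ * z * g) w) = σ.ρ (z : P) (σ.ρ g w) := by
      intro w
      have e1 : σ.ρ g (σ.ρ (g⁻¹ * z * g) w) = σ.ρ (g * (g⁻¹ * z * g)) w := by
        rw [map_mul _ g (g⁻¹ * (z : P) * g)]; rfl
      have e2 : σ.ρ (z : P) (σ.ρ g w) = σ.ρ (z * g) w := by rw [map_mul]; rfl
      rw [e1, e2]
      congr 2
      group
    have h3 := hF ⟨g⁻¹ * z * g, hmem⟩ (ψ.ρ g⁻¹ v)
    show σ.ρ g (F (ψ.ρ g⁻¹ (ψ.ρ (z : P) v))) = (ζ z : ℂ)⁻¹ • σ.ρ (z : P) (σ.ρ g (F (ψ.ρ g⁻¹ v)))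
    rw [h1, ← h2, ← hζ, ← map_smul]
    exact congrArg _ h3
  let R : Representation ℂ P H :=
    { toFun := fun g => (Representation.linHom ψ.ρ σ.ρ g).restrict (hHs g)
      map_one' := by
        apply LinearMap.ext
        intro F
        apply Subtype.ext
        show Representation.linHom ψ.ρ σ.ρ 1 F.1 = F.1
        rw [map_one]; rfl
      map_mul' := fun x y => by
        apply LinearMap.ext
        intro F
        apply Subtype.ext
        show Representation.linHom ψ.ρ σ.ρ (x * y) F.1 =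
          Representation.linHom ψ.ρ σ.ρ x (Representation.linHom ψ.ρ σ.ρ y F.1)
        rw [map_mul]; rfl }
  have hRz : ∀ (z : Z) (x : H), R (z : P) x = (ζ z : ℂ) • x := by
    intro z F
    apply Subtype.ext
    apply LinearMap.ext
    intro v
    have h1 := F.2 z⁻¹ v
    show σ.ρ (z : P) (F.1 (ψ.ρ (z : P)⁻¹ v)) = (ζ z : ℂ) • F.1 v
    have h2 : F.1 (ψ.ρ (z : P)⁻¹ v) = (ζ z⁻¹ : ℂ)⁻¹ • σ.ρ (z : P)⁻¹ (F.1 v) := h1
    have h3 : σ.ρ (z : P) (σ.ρ (z : P)⁻¹ (F.1 v)) = F.1 v := by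
      have e1 : σ.ρ (z : P) (σ.ρ (z : P)⁻¹ (F.1 v)) = σ.ρ ((z : P) * (z : P)⁻¹) (F.1 v) := by
        rw [map_mul]; rfl
      rw [e1, mul_inv_cancel, map_one]; rfl
    rw [h2, map_smul, h3, map_inv, Units.val_inv_eq_inv_val, inv_inv]
  have hN : Z.index ≤ Module.finrank ℂ H ^ 2 := index_le_finrank_sq Z R ζ hRz hc hnd
  -- the count
  let ρ1 : Representation ℂ Z ψ := ψ.ρ.comp Z.subtype
  let σ1 : Representation ℂ Z σ := abTwist ζ⁻¹ (σ.ρ.comp Z.subtype)
  have hH2 := finrank_equivariant_le ρ1 σ1 (Module.finrank ℂ Θ)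
    (fun U hU hUs => ab_min Z ψ hψ Θ hΘ f hf hfr U hU hUs) H (fun F hF z v => by
      have h1 := (hmemH F).1 hF z v
      show F (ψ.ρ (z : P) v) = ((ζ⁻¹ z : ℂˣ) : ℂ) • σ.ρ (z : P) (F v)
      rw [h1, MonoidHom.inv_apply, Units.val_inv_eq_inv_val])
  have hle : Module.finrank ℂ Θ ^ 2 * Module.finrank ℂ H ≤ B * B :=
    hH2.trans (Nat.mul_le_mul (hB ψ hψ) (hB σ hσ))
  calc Z.index * Module.finrank ℂ Θ ^ 4
      ≤ Module.finrank ℂ H ^ 2 * Module.finrank ℂ Θ ^ 4 := Nat.mul_le_mul_right _ hN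
    _ = (Module.finrank ℂ Θ ^ 2 * Module.finrank ℂ H) ^ 2 := by ring
    _ ≤ (B * B) ^ 2 := Nat.pow_le_pow_left hle 2
    _ = B ^ 4 := by ring

end Pool.PWL
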