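import Pool.Agent.PWL.ABCrit
import Pool.Agent.PWL.ABStep
import Pool.Agent.TKB.Main

/-!
# Abelian subgroups of bounded index in groups of prime power order
-/

namespace Pool.PWL
open scoped commutatorElement
open CategoryTheory

private theorem abt1_aux {p : ℕ} [Fact p.Prime] (n : ℕ) :
    ∀ (P : Type) [Group P] [Finite P], Nat.card P = n → IsPGroup p P → ∀ B : ℕ,
      (∀ V : FDRep ℂ P, CategoryTheory.Simple V → Module.finrank ℂ V ≤ B) →
      ∃ A : Subgroup P, (∀ x ∈ A, ∀ y ∈ A, x * y = y * x) ∧ A.index ≤ B ^ 4 := by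
  induction n using Nat.strong_induction_on with
  | _ n ih =>
    intro P _ _ hn hP B hB
    by_cases hna : ⁅(⊤ : Subgroup P), (⊤ : Subgroup P)⁆ = ⊥
    · refine ⟨⊤, ?_, ?_⟩
      · intro x _ y _
        have h1 : ⁅x, y⁆ ∈ ⁅(⊤ : Subgroup P), (⊤ : Subgroup P)⁆ :=
          Subgroup.commutator_mem_commutator (Subgroup.mem_top x) (Subgroup.mem_top y)
        rw [hna, Subgroup.mem_bot] at h1
        exact commutatorElement_eq_one_iff_mul_comm.1 h1
      · rw [Subgroup.index_top]
        obtain ⟨V, hV, h1⟩ := (Pool.TKB.one_mem_cd : 1 ∈ Pool.TKB.cd P)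
        have h2 := hB V hV
        rw [h1] at h2
        exact Nat.one_le_pow _ _ h2
    · obtain ⟨Z, hZ, hc, ζ, hZt, hinv, hnd⟩ := exists_crit hP hna
      have hcard : Nat.card Z < n := by
        rw [← hn]
        refine lt_of_le_of_ne (Subgroup.card_le_card_group Z) fun h => hZt ?_
        exact Subgroup.card_eq_iff_eq_top Z |>.1 h
      -- the largest degree of `Z`
      have hfin : (Pool.TKB.cd Z).Finite := Pool.TKB.cd_finite
      obtain ⟨h, hh, hmax⟩ := Set.exists_max_image (Pool.TKB.cd Z) id hfin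
        ⟨1, Pool.TKB.one_mem_cd⟩
      obtain ⟨Θ, hΘ, hΘh⟩ := hh
      obtain ⟨A, hA, hAi⟩ := ih (Nat.card Z) hcard Z rfl (hP.to_subgroup Z) h
        (fun V hV => hmax _ ⟨V, hV, rfl⟩)
      refine ⟨A.map Z.subtype, ?_, ?_⟩
      · rintro x ⟨a, ha, rfl⟩ y ⟨b, hb, rfl⟩
        rw [← map_mul, ← map_mul, hA a ha b hb]
      · have h1 : (A.map Z.subtype).index = A.index * Z.index := by
          rw [Subgroup.index_map, Subgroup.ker_subtype, sup_bot_eq, Subgroup.range_subtype]
        have h2 := ip_step Z hZ hc ζ hinv hnd B hB Θ hΘ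
        rw [hΘh] at h2
        rw [h1]
        calc A.index * Z.index ≤ h ^ 4 * Z.index := Nat.mul_le_mul_right _ hAi
          _ = Z.index * h ^ 4 := Nat.mul_comm _ _
          _ ≤ B ^ 4 := h2

/-- ROW ABT1: the theorem of Isaacs and Passman for groups of prime power order. -/
theorem exists_abelian {P : Type} [Group P] [Finite P] {p : ℕ} [Fact p.Prime]
    (hP : IsPGroup p P) (B : ℕ)
    (hB : ∀ V : FDRep ℂ P, CategoryTheory.Simple V → Module.finrank ℂ V ≤ B) :
    ∃ A : Subgroup P, (∀ x ∈ A, ∀ y ∈ A, x * y = y * x) ∧ A.index ≤ B ^ 4 :=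
  abt1_aux (p := p) (Nat.card P) P rfl hP B hB

end Pool.PWL
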