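import Pool.Agent.PWL.Basic
import Pool.Agent.TKB.RepB
/-!
# The representation induced from an invariant character is reducible
-/
namespace Pool.PWL

open CategoryTheory

variable {G : Type} [Group G]

/-- Left translation on the functions on `G`. -/
noncomputable def leftRep (G : Type) [Group G] : Representation ℂ G (G → ℂ) :=
  { toFun := fun g =>
      { toFun := fun f y => f (g⁻¹ * y)
        map_add' := fun _ _ => rfl
        map_smul' := fun _ _ => rfl }
    map_one' := by
      apply LinearMap.ext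
      intro f
      funext y
      show f ((1 : G)⁻¹ * y) = f y
      rw [inv_one, one_mul]
    map_mul' := by
      intro a b
      apply LinearMap.ext
      intro f
      funext y
      show f ((a * b)⁻¹ * y) = f (b⁻¹ * (a⁻¹ * y))
      rw [mul_inv_rev, mul_assoc] }

lemma leftRep_apply (g : G) (f : G → ℂ) (y : G) : leftRep G g f y = f (g⁻¹ * y) := rfl

/-- The functions which transform by a character of `H` on the right. -/
def indSub (H : Subgroup G) (ω : H →* ℂˣ) : Submodule ℂ (G → ℂ) where
  carrier := {f | ∀ (g : G) (h : H), f (g * h) = ((ω h)⁻¹ : ℂˣ) * f g}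
  add_mem' := by
    intro a b ha hb g h
    show a (g * h) + b (g * h) = _ * (a g + b g)
    rw [ha, hb, mul_add]
  zero_mem' := by
    intro g h
    show (0 : ℂ) = _ * (0 : ℂ)
    rw [mul_zero]
  smul_mem' := by
    intro z a ha g h
    show z * a (g * h) = _ * (z * a g)
    rw [ha]
    ring

lemma indSub_inv (H : Subgroup G) (ω : H →* ℂˣ) (g : G) :
    ∀ f ∈ indSub H ω, leftRep G g f ∈ indSub H ω := by
  intro f hf y h
  rw [leftRep_apply, leftRep_apply, ← mul_assoc]
  exact hf _ h

lemma indSub_finrank [Finite G] (H : Subgroup G) (ω : H →* ℂˣ) :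
    Module.finrank ℂ (indSub H ω) ≤ H.index := by
  classical
  have hfin : Finite (G ⧸ H) := inferInstance
  have := Fintype.ofFinite (G ⧸ H)
  let e : indSub H ω →ₗ[ℂ] ((G ⧸ H) → ℂ) :=
    { toFun := fun f q => (f : G → ℂ) q.out
      map_add' := fun _ _ => rfl
      map_smul' := fun _ _ => rfl }
  have he : Function.Injective e := by
    intro a b hab
    apply Subtype.ext
    funext g
    have ha : ((g : G ⧸ H).out)⁻¹ * g ∈ H := by
      rw [← QuotientGroup.eq, QuotientGroup.out_eq']
    have h1 := a.2 ((g : G ⧸ H).out) ⟨_, ha⟩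
    have h2 := b.2 ((g : G ⧸ H).out) ⟨_, ha⟩
    have h3 : (a : G → ℂ) ((g : G ⧸ H).out) = (b : G → ℂ) ((g : G ⧸ H).out) :=
      congrFun hab (g : G ⧸ H)
    rw [h3, ← h2] at h1
    simpa only [mul_inv_cancel_left] using h1
  have h1 := LinearMap.finrank_le_finrank_of_injective he
  rw [Module.finrank_fintype_fun_eq_card] at h1
  rw [Subgroup.index, Nat.card_eq_fintype_card]
  exact h1

open Classical in
/-- The function supported on `H`. -/
noncomputable def baseFun (H : Subgroup G) (ω : H →* ℂˣ) : G → ℂ :=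
  fun y => if h : y ∈ H then (((ω ⟨y, h⟩)⁻¹ : ℂˣ) : ℂ) else 0

lemma baseFun_mem (H : Subgroup G) (ω : H →* ℂˣ) : baseFun H ω ∈ indSub H ω := by
  intro g h
  by_cases hg : g ∈ H
  · have hgh : g * h ∈ H := H.mul_mem hg h.2
    have e : (⟨g * h, hgh⟩ : H) = ⟨g, hg⟩ * h := rfl
    simp only [baseFun, dif_pos hg, dif_pos hgh]
    rw [e, map_mul, mul_inv_rev, Units.val_mul]
  · have hgh : g * h ∉ H := fun h1 => hg ((H.mul_mem_cancel_right h.2).1 h1)
    simp only [baseFun, dif_neg hg, dif_neg hgh, mul_zero]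

/-- Right translation by an element which normalizes `H` and fixes the character. -/
def rightMap (x : G) : (G → ℂ) →ₗ[ℂ] (G → ℂ) where
  toFun f := fun y => f (y * x)
  map_add' := fun _ _ => rfl
  map_smul' := fun _ _ => rfl

lemma rightMap_apply (x : G) (f : G → ℂ) (y : G) : rightMap x f y = f (y * x) := rfl

lemma rightMap_mem (H : Subgroup G) (ω : H →* ℂˣ) (x : G)
    (hxH : ∀ h : G, h ∈ H ↔ x⁻¹ * h * x ∈ H)
    (hω : ∀ h h' : H, (h' : G) = x⁻¹ * h * x → ω h' = ω h) :
    ∀ f ∈ indSub H ω, rightMap x f ∈ indSub H ω := by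
  intro f hf g h
  rw [rightMap_apply, rightMap_apply]
  have h1 : x⁻¹ * h * x ∈ H := (hxH h).1 h.2
  have e : g * h * x = (g * x) * ((⟨x⁻¹ * h * x, h1⟩ : H) : G) := by
    show g * h * x = (g * x) * (x⁻¹ * h * x)
    group
  rw [e, hf, hω h ⟨x⁻¹ * h * x, h1⟩ rfl]

/-- If `k` acts trivially on all irreducible representations of degree less than the index of `H`
then it is in the kernel of every character of `H` which is invariant under an element outside `H`
that normalizes `H`. -/
theorem trivial_on_ind {G : Type} [Group G] [Finite G] (H : Subgroup G) (ω : H →* ℂˣ) (x : G)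
    (hx : x ∉ H) (hxH : ∀ h : G, h ∈ H ↔ x⁻¹ * h * x ∈ H)
    (hω : ∀ h h' : H, (h' : G) = x⁻¹ * h * x → ω h' = ω h) (k : G)
    (hk : ∀ V : FDRep ℂ G, CategoryTheory.Simple V → Module.finrank ℂ V < H.index →
      ∀ v : V, V.ρ k v = v) :
    ∃ h : k ∈ H, ω ⟨k, h⟩ = 1 := by
  classical
  let W : Submodule ℂ (G → ℂ) := indSub H ω
  have hWinv : ∀ g, ∀ w ∈ W, leftRep G g w ∈ W := indSub_inv H ω
  let ρW : Representation ℂ G W :=
    { toFun := fun g => (leftRep G g).restrict (hWinv g)
      map_one' := by ext; simp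
      map_mul' := fun x y => by ext; simp }
  have hρW : ∀ g (w : W), ((ρW g w : W) : G → ℂ) = leftRep G g (w : G → ℂ) := fun _ _ => rfl
  let f0 : W := ⟨baseFun H ω, baseFun_mem H ω⟩
  have hf1 : (f0 : G → ℂ) 1 = 1 := by
    show baseFun H ω 1 = 1
    have e : (⟨1, H.one_mem⟩ : H) = 1 := rfl
    simp only [baseFun, dif_pos H.one_mem]
    rw [e, map_one, inv_one, Units.val_one]
  let R : W →ₗ[ℂ] W := (rightMap x).restrict (rightMap_mem H ω x hxH hω)
  have hR : ∀ (w : W), ((R w : W) : G → ℂ) = rightMap x (w : G → ℂ) := fun _ => rfl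
  have hRcomm : ∀ g (w : W), R (ρW g w) = ρW g (R w) := by
    intro g w
    apply Subtype.ext
    rw [hR, hρW, hρW, hR]
    funext y
    rw [rightMap_apply, leftRep_apply, leftRep_apply, rightMap_apply, mul_assoc]
  -- `R` is not a scalar
  have hRns : ∀ μ : ℂ, ¬ ∀ w : W, R w = μ • w := by
    intro μ h
    have h1 := h f0
    have h2 : (R f0 : G → ℂ) 1 = μ * (f0 : G → ℂ) 1 := by rw [h1]; rfl
    have h3 : (R f0 : G → ℂ) x⁻¹ = μ * (f0 : G → ℂ) x⁻¹ := by rw [h1]; rfl
    rw [hR, rightMap_apply, one_mul, hf1, mul_one] at h2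
    rw [hR, rightMap_apply, inv_mul_cancel, hf1] at h3
    have h4 : (f0 : G → ℂ) x = 0 := by
      show baseFun H ω x = 0
      simp only [baseFun, dif_neg hx]
    rw [h4] at h2
    rw [← h2, zero_mul] at h3
    exact one_ne_zero h3
  -- `k` acts trivially
  have hkW : ∀ w : W, ρW k w = w := by
    by_contra hcon
    push Not at hcon
    obtain ⟨U, hUinv, ⟨w, hw, hwne⟩, hUirr⟩ := TKB.exists_irr ρW k hcon
    let ρU : Representation ℂ G U :=
      { toFun := fun g => (ρW g).restrict (hUinv g)
        map_one' := by ext; simp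
        map_mul' := fun x y => by ext; simp }
    have hnt : Nontrivial U := by
      refine ⟨⟨⟨w, hw⟩, 0, ?_⟩⟩
      intro h
      have h1 : w = 0 := congrArg Subtype.val h
      apply hwne
      rw [h1, map_zero]
    have hUlt : Module.finrank ℂ U < H.index := by
      refine lt_of_lt_of_le ?_ (indSub_finrank H ω)
      rcases eq_or_ne U ⊤ with hU | hU
      · exfalso
        have hntW : Nontrivial W := ⟨⟨f0, 0, fun h => by
          have h1 : (f0 : G → ℂ) 1 = 0 := by rw [h]; rfl
          rw [hf1] at h1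
          exact one_ne_zero h1⟩⟩
        obtain ⟨μ, hμ⟩ := Module.End.exists_eigenvalue R
        have hE : Module.End.eigenspace R μ = ⊤ := by
          have h1 := hUirr (Module.End.eigenspace R μ) (by rw [hU]; exact le_top) (by
            intro g v hv
            rw [Module.End.mem_eigenspace_iff] at hv ⊢
            rw [hRcomm, hv, map_smul])
          rcases h1 with h1 | h1
          · exact absurd h1 hμ
          · rw [h1, hU]
        refine hRns μ fun v => ?_
        have hv : v ∈ Module.End.eigenspace R μ := by rw [hE]; exact Submodule.mem_top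
        exact Module.End.mem_eigenspace_iff.1 hv
      · have h1 := Submodule.finrank_lt hU
        exact h1
    have hs : Simple (FDRep.of (V := U) ρU) := by
      apply TKB.simple_of
      intro U' hU'
      have := hUirr (U'.map U.subtype) (by
        rintro y ⟨z, _, rfl⟩
        exact z.2) (by
        rintro g y ⟨z, hz, rfl⟩
        exact ⟨ρU g z, hU' g z hz, rfl⟩)
      rcases this with h | h
      · left
        rw [Submodule.eq_bot_iff]
        intro y hy
        have hy' : (y : W) ∈ U'.map U.subtype := ⟨y, hy, rfl⟩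
        rw [h, Submodule.mem_bot] at hy'
        exact Subtype.ext hy'
      · right
        rw [Submodule.eq_top_iff']
        intro y
        have hy : (y : W) ∈ U'.map U.subtype := by rw [h]; exact y.2
        obtain ⟨z, hz, hzy⟩ := hy
        have : z = y := Subtype.ext hzy
        rwa [← this]
    have h1 := hk (FDRep.of (V := U) ρU) hs hUlt (⟨w, hw⟩ : U)
    exact hwne (congrArg Subtype.val h1)
  have h1 : (ρW k f0 : G → ℂ) 1 = (f0 : G → ℂ) 1 := by rw [hkW]
  rw [hρW, leftRep_apply, mul_one, hf1] at h1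
  have hkH : k⁻¹ ∈ H := by
    by_contra hn
    have h2 : (f0 : G → ℂ) k⁻¹ = 0 := by
      show baseFun H ω k⁻¹ = 0
      simp only [baseFun, dif_neg hn]
    rw [h2] at h1
    exact zero_ne_one h1
  have h3 : k ∈ H := H.inv_mem_iff.1 hkH
  refine ⟨h3, ?_⟩
  have h4 : (f0 : G → ℂ) k⁻¹ = (((ω ⟨k⁻¹, hkH⟩)⁻¹ : ℂˣ) : ℂ) := by
    show baseFun H ω k⁻¹ = _
    simp only [baseFun, dif_pos hkH]
  have e : (⟨k⁻¹, hkH⟩ : H) = (⟨k, h3⟩ : H)⁻¹ := rfl
  rw [h4, e, map_inv, inv_inv] at h1
  exact Units.ext h1

end Pool.PWL
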