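import Pool.Agent.PWL.Setup
import Pool.Agent.PWL.Ind

/-!
# The Taketa step for a normal subgroup
-/

set_option autoImplicit false

namespace Pool.PWL

open scoped commutatorElement

theorem taketa_step {G : Type} [Group G] [Finite G] {p : ℕ} [Fact p.Prime] (hG : IsPGroup p G)
    (Q : Subgroup G) [Q.Normal] (V : FDRep ℂ G) (hV : CategoryTheory.Simple V)
    (h1 : 1 < Module.finrank ℂ V)
    (hK : ∀ U : FDRep ℂ G, CategoryTheory.Simple U → Module.finrank ℂ U < Module.finrank ℂ V →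
      ∀ k ∈ Q, ∀ u : U, U.ρ k u = u) : ∀ k ∈ ⁅Q, Q⁆, ∀ v : V, V.ρ k v = v := by
  obtain ⟨H, v, ν, x, hv, hidx, hνv, hxH, hconj, _⟩ := exists_setup hG V hV h1
  have hQH : Q ≤ H := by
    intro k hk
    obtain ⟨h, _⟩ := trivial_on_ind H (1 : H →* ℂˣ) x hxH hconj (fun _ _ _ => rfl) k
      (fun U hU hlt u => hK U hU (lt_of_lt_of_le hlt hidx) k hk u)
    exact h
  have hle : ⁅Q, Q⁆ ≤ (ν.ker).map H.subtype := by
    rw [Subgroup.commutator_le]
    intro a ha b hb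
    refine ⟨⁅(⟨a, hQH ha⟩ : H), (⟨b, hQH hb⟩ : H)⁆, ?_, ?_⟩
    · show ν ⁅(⟨a, hQH ha⟩ : H), (⟨b, hQH hb⟩ : H)⁆ = 1
      rw [map_commutatorElement]
      exact commutatorElement_eq_one_iff_mul_comm.2 (mul_comm _ _)
    · rw [map_commutatorElement]
      rfl
  refine trivial_of_fixed V hV ⁅Q, Q⁆ v hv ?_
  intro n hn
  obtain ⟨h, hh, hhn⟩ := hle hn
  have h2 : ν h = 1 := hh
  have h3 := hνv h
  rw [h2] at h3
  have h4 : (h : G) = n := hhn
  rw [h4] at h3
  rw [h3, Units.val_one, one_smul]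

end Pool.PWL
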