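import Pool.Agent.PWL.NSyl
import Pool.Agent.PWL.TaketaW

/-!
# Taketa's argument for the `p`-parts of the degrees
-/

namespace Pool.PWL
open scoped commutatorElement
open CategoryTheory

private theorem abtak_step {G : Type} [Group G] [Finite G] {p : ℕ} [hp : Fact p.Prime]
    (N : Subgroup G) [N.Normal] (hN : IsPGroup p N) (j : ℕ) (V : FDRep ℂ G)
    (hV : CategoryTheory.Simple V)
    (hK : ∀ U : FDRep ℂ G, CategoryTheory.Simple U →
      padicValNat p (Module.finrank ℂ U) < padicValNat p (Module.finrank ℂ V) →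
      ∀ k ∈ dser N j, ∀ u : U, U.ρ k u = u) :
    ∀ k ∈ dser N (j + 1), ∀ v : V, V.ρ k v = v := by
  obtain ⟨S⟩ : Nonempty (Sylow p G) := inferInstance
  have hNS : N ≤ S := normal_le_sylow S N hN
  have hd : ∀ i, dser N i ≤ S := fun i =>
    ((dser_anti N (Nat.zero_le i)).trans (dser_zero N).le).trans hNS
  have hn1 : (dser N j).Normal := dser_normal N j
  have hn2 : (dser N (j + 1)).Normal := dser_normal N (j + 1)
  refine transfer_step S (dser N j) (dser N (j + 1)) (hd j) (hd (j + 1)) ?_ V hV hK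
  intro Θ hΘ hK' k hk
  have hk1 : k ∈ ⁅(dser N j).subgroupOf (S : Subgroup G),
      (dser N j).subgroupOf (S : Subgroup G)⁆ := by
    have h1 : (k : G) ∈ (⁅(dser N j).subgroupOf (S : Subgroup G),
        (dser N j).subgroupOf (S : Subgroup G)⁆).map (S : Subgroup G).subtype := by
      rw [map_subgroupOf_commutator (S : Subgroup G) _ _ (hd j) (hd j), ← dser_succ]
      exact Subgroup.mem_subgroupOf.1 hk
    obtain ⟨k', hk', hkk⟩ := h1
    have h2 : k' = k := Subtype.ext hkk
    rwa [← h2]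
  have hnt : Nontrivial Θ := Pool.TKB.simple_nontrivial Θ
  have hpos : 0 < Module.finrank ℂ Θ := Module.finrank_pos
  have hn3 : ((dser N j).subgroupOf (S : Subgroup G)).Normal := inferInstance
  rcases Nat.lt_or_ge 1 (Module.finrank ℂ Θ) with h1 | h1
  · exact taketa_step (S.isPGroup') ((dser N j).subgroupOf (S : Subgroup G)) Θ hΘ h1 hK' k hk1
  · intro u
    exact comm_trivial_of_one Θ (by omega) (Subgroup.commutator_mono le_top le_top hk1) u

theorem taketa_parts {G : Type} [Group G] [Finite G] {p : ℕ} [Fact p.Prime] (N : Subgroup G)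
    [N.Normal] (hN : IsPGroup p N) (a i : ℕ)
    (hi : (padicValNat p '' Pool.TKB.cd G ∩ Set.Iio a).ncard ≤ i) (V : FDRep ℂ G)
    (hV : CategoryTheory.Simple V) (hva : padicValNat p (Module.finrank ℂ V) < a) :
    ∀ k ∈ dser N i, ∀ v : V, V.ρ k v = v := by
  classical
  let A : Set ℕ := padicValNat p '' Pool.TKB.cd G
  have hfin : A.Finite := Pool.TKB.cd_finite.image _
  let r : ℕ → ℕ := fun n => {d ∈ A | d < n}.ncard
  have hrfin : ∀ n, {d ∈ A | d < n}.Finite := fun n => hfin.subset fun d hd => hd.1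
  have key : ∀ n : ℕ, ∀ V : FDRep ℂ G, Simple V → padicValNat p (Module.finrank ℂ V) = n →
      ∀ i, r n + 1 ≤ i → ∀ k ∈ dser N i, ∀ v : V, V.ρ k v = v := by
    intro n
    induction n using Nat.strong_induction_on with
    | _ n ih =>
    intro V hV hn i hi k hk v
    obtain ⟨j, rfl⟩ : ∃ j, i = j + 1 := ⟨i - 1, by omega⟩
    refine abtak_step N hN j V hV ?_ k hk v
    intro U hU hlt k' hk' u
    refine ih (padicValNat p (Module.finrank ℂ U)) (by omega) U hU rfl j ?_ k' hk' u
    have h4 : insert (padicValNat p (Module.finrank ℂ U))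
        {d ∈ A | d < padicValNat p (Module.finrank ℂ U)} ⊆ {d ∈ A | d < n} := by
      intro d hd
      rcases hd with rfl | hd
      · exact ⟨⟨Module.finrank ℂ U, ⟨U, hU, rfl⟩, rfl⟩, by omega⟩
      · exact ⟨hd.1, by have := hd.2; omega⟩
    have h5 := Set.ncard_le_ncard h4 (hrfin n)
    rw [Set.ncard_insert_of_notMem (fun h => lt_irrefl _ h.2) (hrfin _)] at h5
    have h6 : r n + 1 ≤ j + 1 := hi
    have h7 : r (padicValNat p (Module.finrank ℂ U)) + 1 ≤ r n := h5
    omega
  refine key _ V hV rfl i ?_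
  have h4 : insert (padicValNat p (Module.finrank ℂ V))
      {d ∈ A | d < padicValNat p (Module.finrank ℂ V)} ⊆ A ∩ Set.Iio a := by
    intro d hd
    rcases hd with rfl | hd
    · exact ⟨⟨Module.finrank ℂ V, ⟨V, hV, rfl⟩, rfl⟩, hva⟩
    · exact ⟨hd.1, lt_trans hd.2 hva⟩
  have h5 := Set.ncard_le_ncard h4 (hfin.subset Set.inter_subset_left)
  rw [Set.ncard_insert_of_notMem (fun h => lt_irrefl _ h.2) (hrfin _)] at h5
  exact h5.trans hi

end Pool.PWL
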