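import Pool.Agent.TKB.RepB
import Pool.Agent.TKB.Defs

/-!
# Character degrees of a quotient group
-/

namespace Pool.PWL

open CategoryTheory Pool.TKB

variable {G : Type} [Group G]

private theorem cq_equi {Y W : FDRep ℂ G} (φ : Y ⟶ W) (a : G) (y : Y) :
    (φ.hom.hom.hom : Y →ₗ[ℂ] W) (Y.ρ a y) = W.ρ a ((φ.hom.hom.hom : Y →ₗ[ℂ] W) y) := by
  have h := congrArg (fun ψ => (ψ.hom.hom : Y → W) y) (φ.comm a)
  exact h

private theorem cq_inj {Y W : FDRep ℂ G} (φ : Y ⟶ W) [Mono φ] :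
    Function.Injective (φ.hom.hom.hom : Y →ₗ[ℂ] W) := by
  rw [← LinearMap.ker_eq_bot]
  set g : Y →ₗ[ℂ] W := φ.hom.hom.hom with hg
  have hinv : ∀ (a : G), ∀ y ∈ LinearMap.ker g, Y.ρ a y ∈ LinearMap.ker g := by
    intro a y hy
    rw [LinearMap.mem_ker] at hy ⊢
    rw [hg, cq_equi, ← hg, hy, map_zero]
  let ρK : Representation ℂ G (LinearMap.ker g) :=
    { toFun := fun a => (Y.ρ a).restrict (hinv a)
      map_one' := by ext; simp
      map_mul' := fun x y => by ext; simp }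
  let K : FDRep ℂ G := FDRep.of ρK
  have hf : ∀ a (v : K), (LinearMap.ker g).subtype (K.ρ a v) = Y.ρ a ((LinearMap.ker g).subtype v) :=
    fun a v => rfl
  have h0 : mkHom (V := K) (W := Y) (LinearMap.ker g).subtype hf ≫ φ = 0 := by
    ext v
    exact v.2
  have h1 : mkHom (V := K) (W := Y) (LinearMap.ker g).subtype hf = 0 :=
    Limits.zero_of_comp_mono φ h0
  rw [Submodule.eq_bot_iff]
  intro x hx
  have h2 := congrArg (fun (φ : K ⟶ Y) => (φ.hom.hom.hom : K → Y) ⟨x, hx⟩) h1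
  exact h2

private theorem cq_iso {Y W : FDRep ℂ G} (φ : Y ⟶ W)
    (h : Function.Bijective (φ.hom.hom.hom : Y →ₗ[ℂ] W)) : IsIso φ := by
  let e : Y ≃ₗ[ℂ] W := LinearEquiv.ofBijective (φ.hom.hom.hom : Y →ₗ[ℂ] W) h
  have he : ∀ y, e y = (φ.hom.hom.hom : Y →ₗ[ℂ] W) y := fun _ => rfl
  refine ⟨⟨mkHom (V := W) (W := Y) e.symm.toLinearMap ?_, ?_, ?_⟩⟩
  · intro a w
    apply e.injective
    show e (e.symm (W.ρ a w)) = e (Y.ρ a (e.symm w))
    rw [e.apply_symm_apply, he, cq_equi, ← he, e.apply_symm_apply]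
  · ext y
    exact e.symm_apply_apply y
  · ext w
    exact e.apply_symm_apply w

theorem cd_subset_of_surjective {G H : Type} [Group G] [Group H] (f : G →* H)
    (hf : Function.Surjective f) : Pool.TKB.cd H ⊆ Pool.TKB.cd G := by
  rintro d ⟨V, hV, hd⟩
  let ρ' : Representation ℂ G V := V.ρ.comp f
  let W : FDRep ℂ G := FDRep.of ρ'
  have hW : ∀ (a : G) (v : W), W.ρ a v = V.ρ (f a) v := fun _ _ => rfl
  have hnt : Nontrivial V := simple_nontrivial V
  refine ⟨W, ⟨?_⟩, hd⟩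
  intro Y φ hφ
  constructor
  · intro hi h0
    obtain ⟨x, hx⟩ := exists_ne (0 : V)
    apply hx
    obtain ⟨ψ₀, -, h1⟩ := hi.out
    rw [h0, Limits.comp_zero] at h1
    have h2 := congrArg (fun (ψ : W ⟶ W) => (ψ.hom.hom.hom : W → W) x) h1
    exact h2.symm
  · intro hne
    apply cq_iso
    refine ⟨cq_inj φ, ?_⟩
    rw [← LinearMap.range_eq_top]
    have hinv : ∀ g, ∀ w ∈ LinearMap.range (φ.hom.hom.hom : Y →ₗ[ℂ] W),
        V.ρ g w ∈ LinearMap.range (φ.hom.hom.hom : Y →ₗ[ℂ] W) := by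
      rintro g _ ⟨y, rfl⟩
      obtain ⟨a, rfl⟩ := hf g
      exact ⟨Y.ρ a y, cq_equi φ a y⟩
    rcases simple_inv V _ hinv with h | h
    · exfalso
      apply hne
      ext y
      have : (φ.hom.hom.hom : Y →ₗ[ℂ] W) y ∈ LinearMap.range (φ.hom.hom.hom : Y →ₗ[ℂ] W) :=
        ⟨y, rfl⟩
      rw [h] at this
      exact this
    · exact h

end Pool.PWL
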