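import Pool.Agent.PWL.Defs

/-!
# Basic facts on the subgroups generated by powers
-/

namespace Pool.PWL

open scoped commutatorElement

variable {G : Type*} [Group G]

lemma pow_mem_pw {n : ℕ} {H : Subgroup G} {h : G} (hh : h ∈ H) : h ^ n ∈ pw n H :=
  Subgroup.subset_closure ⟨h, hh, rfl⟩

lemma pw_le {n : ℕ} {H K : Subgroup G} (h : ∀ x ∈ H, x ^ n ∈ K) : pw n H ≤ K := by
  rw [pw, Subgroup.closure_le]
  rintro g ⟨x, hx, rfl⟩
  exact h x hx

lemma pw_le_self (n : ℕ) (H : Subgroup G) : pw n H ≤ H := pw_le fun _ hx => H.pow_mem hx n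

lemma pw_mono {n : ℕ} {H K : Subgroup G} (h : H ≤ K) : pw n H ≤ pw n K :=
  pw_le fun _ hx => pow_mem_pw (h hx)

instance pw_normal (n : ℕ) (H : Subgroup G) [hH : H.Normal] : (pw n H).Normal := by
  refine ⟨fun x hx g => ?_⟩
  have h1 : pw n H ≤ (pw n H).comap (MulAut.conj g).toMonoidHom := by
    refine pw_le fun y hy => ?_
    rw [Subgroup.mem_comap]
    have : (MulAut.conj g).toMonoidHom (y ^ n) = (g * y * g⁻¹) ^ n := by
      rw [map_pow]; rfl
    rw [this]
    exact pow_mem_pw (hH.conj_mem y hy g)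
  exact h1 hx

instance chain_normal (p : ℕ) (N : Subgroup G) [N.Normal] (i : ℕ) : (chain p N i).Normal := by
  induction i with
  | zero => exact ‹N.Normal›
  | succ i ih => exact @pw_normal _ _ p _ ih

lemma map_pw {H : Type*} [Group H] (f : G →* H) (n : ℕ) (N : Subgroup G) :
    (pw n N).map f = pw n (N.map f) := by
  rw [pw, MonoidHom.map_closure]
  congr 1
  ext y
  constructor
  · rintro ⟨x, ⟨h, hh, rfl⟩, rfl⟩
    exact ⟨f h, ⟨h, hh, rfl⟩, (map_pow f h n).symm⟩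
  · rintro ⟨z, ⟨h, hh, rfl⟩, rfl⟩
    exact ⟨h ^ n, ⟨h, hh, rfl⟩, map_pow f h n⟩

end Pool.PWL
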