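import Pool.Agent.TKB.Main
import Pool.Agent.PWL.Basic

/-!
# From the step to the exponent
-/

namespace Pool.PWL

open CategoryTheory Subgroup
open scoped commutatorElement

/-- On a one dimensional representation the commutator subgroup acts trivially. -/
lemma comm_trivial_of_one {G : Type} [Group G] (V : FDRep ℂ G) (h1 : Module.finrank ℂ V = 1)
    {k : G} (hk : k ∈ ⁅(⊤ : Subgroup G), (⊤ : Subgroup G)⁆) (v : V) : V.ρ k v = v := by
  obtain ⟨e, he0, he⟩ := finrank_eq_one_iff'.mp h1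
  have hcomm : ∀ (a b : G) (x : V), V.ρ a (V.ρ b x) = V.ρ b (V.ρ a x) := by
    intro a b x
    obtain ⟨α, hα⟩ := he (V.ρ a e)
    obtain ⟨β, hβ⟩ := he (V.ρ b e)
    obtain ⟨z, rfl⟩ := he x
    rw [map_smul, map_smul, map_smul, map_smul, ← hα, ← hβ, map_smul, map_smul, ← hα, ← hβ,
      smul_comm α β e]
  let Ker : Subgroup G := (V.ρ : G →* (V →ₗ[ℂ] V)).ker
  have hle : ⁅(⊤ : Subgroup G), (⊤ : Subgroup G)⁆ ≤ Ker := by
    rw [commutator_le]
    intro a _ b _
    rw [MonoidHom.mem_ker]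
    apply LinearMap.ext
    intro x
    show V.ρ ⁅a, b⁆ x = x
    have e1 : ⁅a, b⁆ * (b * a) = a * b := by simp [commutatorElement_def, mul_assoc]
    have h2 : V.ρ ⁅a, b⁆ (V.ρ b (V.ρ a (V.ρ a⁻¹ (V.ρ b⁻¹ x)))) = x := by
      rw [← Module.End.mul_apply, ← Module.End.mul_apply, ← map_mul, ← map_mul,
        mul_assoc, e1, map_mul, Module.End.mul_apply, hcomm a b,
        ← Module.End.mul_apply (V.ρ a), ← map_mul, mul_inv_cancel, map_one,
        Module.End.one_apply, ← Module.End.mul_apply (V.ρ b), ← map_mul, mul_inv_cancel, map_one,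
        Module.End.one_apply]
    have h3 : V.ρ b (V.ρ a (V.ρ a⁻¹ (V.ρ b⁻¹ x))) = x := by
      rw [← Module.End.mul_apply (V.ρ a), ← map_mul, mul_inv_cancel, map_one,
        Module.End.one_apply, ← Module.End.mul_apply (V.ρ b), ← map_mul, mul_inv_cancel, map_one,
        Module.End.one_apply]
    rwa [h3] at h2
  have h4 := hle hk
  rw [MonoidHom.mem_ker] at h4
  rw [h4]
  rfl

theorem chain_trivial {G : Type} [Group G] [Finite G] {p : ℕ} (Q : ℕ → Subgroup G)
    (hQ0 : Q 0 = ⁅(⊤ : Subgroup G), (⊤ : Subgroup G)⁆) (hanti : Antitone Q)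
    (hstep : ∀ (i : ℕ) (V : FDRep ℂ G), CategoryTheory.Simple V → 1 < Module.finrank ℂ V →
      (∀ U : FDRep ℂ G, CategoryTheory.Simple U → Module.finrank ℂ U < Module.finrank ℂ V →
        ∀ k ∈ Q i, ∀ u : U, U.ρ k u = u) → ∀ k ∈ Q (i + 1), ∀ v : V, V.ρ k v = v) :
    Q ((Pool.TKB.cd G).ncard - 1) = ⊥ := by
  classical
  have hfin : (Pool.TKB.cd G).Finite := Pool.TKB.cd_finite
  -- the number of degrees below `n`
  let r : ℕ → ℕ := fun n => {d ∈ Pool.TKB.cd G | d < n}.ncard
  have hrfin : ∀ n, {d ∈ Pool.TKB.cd G | d < n}.Finite := fun n => hfin.subset fun d hd => hd.1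
  have key : ∀ n : ℕ, ∀ V : FDRep ℂ G, Simple V → Module.finrank ℂ V = n →
      ∀ i, r n ≤ i → ∀ k ∈ Q i, ∀ v : V, V.ρ k v = v := by
    intro n
    induction n using Nat.strong_induction_on with
    | _ n ih =>
    intro V hV hn i hi k hk v
    have hpos : 0 < Module.finrank ℂ V := by
      have := Pool.TKB.simple_nontrivial V
      exact Module.finrank_pos
    rcases Nat.lt_or_ge 1 n with h1 | h1
    · -- `1` is a degree below `n`
      have hr1 : 1 ≤ r n := by
        have h2 : ({1} : Set ℕ) ⊆ {d ∈ Pool.TKB.cd G | d < n} := by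
          intro d hd
          rw [Set.mem_singleton_iff] at hd
          subst hd
          exact ⟨Pool.TKB.one_mem_cd, h1⟩
        have h3 := Set.ncard_le_ncard h2 (hrfin n)
        rwa [Set.ncard_singleton] at h3
      obtain ⟨j, rfl⟩ : ∃ j, i = j + 1 := ⟨i - 1, by omega⟩
      refine hstep j V hV (by omega) ?_ k hk v
      intro U hU hlt k' hk' u
      refine ih (Module.finrank ℂ U) (by omega) U hU rfl j ?_ k' hk' u
      have h4 : insert (Module.finrank ℂ U) {d ∈ Pool.TKB.cd G | d < Module.finrank ℂ U} ⊆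
          {d ∈ Pool.TKB.cd G | d < n} := by
        intro d hd
        rcases hd with rfl | hd
        · exact ⟨⟨U, hU, rfl⟩, by omega⟩
        · exact ⟨hd.1, by have := hd.2; omega⟩
      have h5 := Set.ncard_le_ncard h4 (hrfin n)
      rw [Set.ncard_insert_of_notMem (fun h => lt_irrefl _ h.2) (hrfin _)] at h5
      have h6 : r n ≤ j + 1 := hi
      have h7 : r (Module.finrank ℂ U) + 1 ≤ r n := h5
      omega
    · have hone : Module.finrank ℂ V = 1 := by omega
      refine comm_trivial_of_one V hone ?_ v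
      rw [← hQ0]
      exact hanti (Nat.zero_le i) hk
  rw [eq_bot_iff]
  intro g hg
  by_contra hg1
  obtain ⟨V, hV, _, v, hv⟩ := Pool.TKB.exists_simple (⊥ : Subgroup G) g hg1
  apply hv
  refine key _ V hV rfl _ ?_ g hg v
  have h4 : insert (Module.finrank ℂ V) {d ∈ Pool.TKB.cd G | d < Module.finrank ℂ V} ⊆
      Pool.TKB.cd G := by
    intro d hd
    rcases hd with rfl | hd
    · exact ⟨V, hV, rfl⟩
    · exact hd.1
  have h5 := Set.ncard_le_ncard h4 hfin
  rw [Set.ncard_insert_of_notMem (fun h => lt_irrefl _ h.2) (hrfin _)] at h5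
  have h6 : r (Module.finrank ℂ V) + 1 ≤ (Pool.TKB.cd G).ncard := h5
  omega

end Pool.PWL
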