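import Pool.Agent.TKB.Main

/-!
# From the step to the exponent: characters ordered by the `p`-part of the degree
-/

namespace Pool.PWL

open CategoryTheory Subgroup
open scoped commutatorElement

theorem chain_trivialP {G : Type} [Group G] [Finite G] (p : ℕ) [Fact p.Prime]
    (Q : ℕ → Subgroup G) (hanti : Antitone Q)
    (h0 : ∀ V : FDRep ℂ G, CategoryTheory.Simple V → ¬ p ∣ Module.finrank ℂ V →
      ∀ k ∈ Q 0, ∀ v : V, V.ρ k v = v)
    (hstep : ∀ (i : ℕ) (V : FDRep ℂ G), CategoryTheory.Simple V → p ∣ Module.finrank ℂ V →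
      (∀ U : FDRep ℂ G, CategoryTheory.Simple U →
        padicValNat p (Module.finrank ℂ U) < padicValNat p (Module.finrank ℂ V) →
        ∀ k ∈ Q i, ∀ u : U, U.ρ k u = u) → ∀ k ∈ Q (i + 1), ∀ v : V, V.ρ k v = v) :
    Q ((padicValNat p '' Pool.TKB.cd G).ncard - 1) = ⊥ := by
  classical
  let A : Set ℕ := padicValNat p '' Pool.TKB.cd G
  have hfin : A.Finite := Pool.TKB.cd_finite.image _
  -- the number of exponents below `n`
  let r : ℕ → ℕ := fun n => {d ∈ A | d < n}.ncard
  have hrfin : ∀ n, {d ∈ A | d < n}.Finite := fun n => hfin.subset fun d hd => hd.1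
  have key : ∀ n : ℕ, ∀ V : FDRep ℂ G, Simple V → padicValNat p (Module.finrank ℂ V) = n →
      ∀ i, r n ≤ i → ∀ k ∈ Q i, ∀ v : V, V.ρ k v = v := by
    intro n
    induction n using Nat.strong_induction_on with
    | _ n ih =>
    intro V hV hn i hi k hk v
    have hpos : 0 < Module.finrank ℂ V := by
      have := Pool.TKB.simple_nontrivial V
      exact Module.finrank_pos
    rcases Nat.eq_zero_or_pos n with h1 | h1
    · refine h0 V hV ?_ k (hanti (Nat.zero_le i) hk) v
      intro hd
      have := one_le_padicValNat_of_dvd hpos.ne' hd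
      omega
    · -- `0` is an exponent below `n`
      have hr1 : 1 ≤ r n := by
        have h2 : ({0} : Set ℕ) ⊆ {d ∈ A | d < n} := by
          intro d hd
          rw [Set.mem_singleton_iff] at hd
          subst hd
          exact ⟨⟨1, Pool.TKB.one_mem_cd, by simp⟩, h1⟩
        have h3 := Set.ncard_le_ncard h2 (hrfin n)
        rwa [Set.ncard_singleton] at h3
      obtain ⟨j, rfl⟩ : ∃ j, i = j + 1 := ⟨i - 1, by omega⟩
      refine hstep j V hV (dvd_of_one_le_padicValNat (by omega)) ?_ k hk v
      intro U hU hlt k' hk' u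
      refine ih (padicValNat p (Module.finrank ℂ U)) (by omega) U hU rfl j ?_ k' hk' u
      have h4 : insert (padicValNat p (Module.finrank ℂ U))
          {d ∈ A | d < padicValNat p (Module.finrank ℂ U)} ⊆ {d ∈ A | d < n} := by
        intro d hd
        rcases hd with rfl | hd
        · exact ⟨⟨Module.finrank ℂ U, ⟨U, hU, rfl⟩, rfl⟩, by omega⟩
        · exact ⟨hd.1, by have := hd.2; omega⟩
      have h5 := Set.ncard_le_ncard h4 (hrfin n)
      rw [Set.ncard_insert_of_notMem (fun h => lt_irrefl _ h.2) (hrfin _)] at h5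
      have h6 : r n ≤ j + 1 := hi
      have h7 : r (padicValNat p (Module.finrank ℂ U)) + 1 ≤ r n := h5
      omega
  rw [eq_bot_iff]
  intro g hg
  by_contra hg1
  obtain ⟨V, hV, _, v, hv⟩ := Pool.TKB.exists_simple (⊥ : Subgroup G) g hg1
  apply hv
  refine key _ V hV rfl _ ?_ g hg v
  have h4 : insert (padicValNat p (Module.finrank ℂ V))
      {d ∈ A | d < padicValNat p (Module.finrank ℂ V)} ⊆ A := by
    intro d hd
    rcases hd with rfl | hd
    · exact ⟨Module.finrank ℂ V, ⟨V, hV, rfl⟩, rfl⟩
    · exact hd.1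
  have h5 := Set.ncard_le_ncard h4 hfin
  rw [Set.ncard_insert_of_notMem (fun h => lt_irrefl _ h.2) (hrfin _)] at h5
  have h6 : r (padicValNat p (Module.finrank ℂ V)) + 1 ≤ A.ncard := h5
  show r (padicValNat p (Module.finrank ℂ V)) ≤ A.ncard - 1
  omega

end Pool.PWL
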