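import Pool.Agent.PWL.NilExt

/-!
# The derived length of a normal nilpotent subgroup is seen on its normal `p`-subgroups,
which are quotients of it
-/

namespace Pool.PWL

theorem fit_reduce2 {G : Type} [Group G] [Finite G] (F : Subgroup G) [F.Normal]
    (hF : Group.IsNilpotent F) (n : ℕ)
    (h : ∀ p : ℕ, p.Prime → p ∣ Nat.card F → ∀ N : Subgroup G, N.Normal → N ≤ F →
      IsPGroup p N → (∃ f : F →* N, Function.Surjective f) → derivedSeries N n = ⊥) :
    derivedSeries F n = ⊥ := by
  classical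
  rw [eq_bot_iff]
  intro x hx
  by_contra hx1
  have hx1' : x ≠ 1 := fun h0 => hx1 (by rw [h0]; exact Subgroup.one_mem _)
  obtain ⟨p, hp, P, f, hPp, hfs, hfx⟩ := nil_ext x hx1'
  haveI : Fact p.Prime := ⟨hp⟩
  obtain ⟨S, hS⟩ := hPp.exists_le_sylow
  have hall : ∀ (q : ℕ) (_ : Fact q.Prime) (R : Sylow q F), (R : Subgroup F).Normal :=
    ((Group.isNilpotent_of_finite_tfae (G := F)).out 0 3).mp hF
  have hSn : (S : Subgroup F).Normal := hall p ⟨hp⟩ S
  haveI hchar : (S : Subgroup F).Characteristic := Sylow.characteristic_of_normal S hSn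
  have hN : ((S : Subgroup F).map F.subtype).Normal := inferInstance
  have hPne : Nat.card P ≠ 1 := by
    intro hc
    haveI := (Nat.card_eq_one_iff_unique.mp hc).1
    exact hfx (Subsingleton.elim _ _)
  have hdvd : p ∣ Nat.card F := by
    obtain ⟨k, hk⟩ := (IsPGroup.iff_card (p := p) (G := P)).mp hPp
    have hk0 : k ≠ 0 := by
      rintro rfl
      exact hPne (by simpa using hk)
    exact (hk ▸ dvd_pow_self p hk0 : p ∣ Nat.card P).trans (Subgroup.card_subgroup_dvd_card P)
  -- the retraction onto the Sylow subgroup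
  obtain ⟨e0⟩ := ((Group.isNilpotent_of_finite_tfae (G := F)).out 0 4).mp hF
  have hmem : p ∈ (Nat.card F).primeFactors :=
    Nat.mem_primeFactors.mpr ⟨hp, hdvd, Nat.card_pos.ne'⟩
  let pr : F →* (S : Subgroup F) :=
    ((Pi.evalMonoidHom (fun Q : Sylow p F => (Q : Subgroup F)) S).comp
      (Pi.evalMonoidHom (fun q : (Nat.card F).primeFactors => ∀ Q : Sylow q F, (Q : Subgroup F))
        ⟨p, hmem⟩)).comp e0.symm.toMonoidHom
  have hpr : Function.Surjective pr := by
    intro y
    refine ⟨e0 (Function.update 1 ⟨p, hmem⟩ (Function.update 1 S y)), ?_⟩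
    show (e0.symm (e0 _)) ⟨p, hmem⟩ S = y
    rw [MulEquiv.symm_apply_apply, Function.update_self, Function.update_self]
  let eq0 : (S : Subgroup F) ≃* ((S : Subgroup F).map F.subtype) :=
    (S : Subgroup F).equivMapOfInjective F.subtype F.subtype_injective
  have hd := h p hp hdvd ((S : Subgroup F).map F.subtype) hN (Subgroup.map_subtype_le _)
    (S.2.map _) ⟨eq0.toMonoidHom.comp pr, eq0.surjective.comp hpr⟩
  let e : P →* ((S : Subgroup F).map F.subtype) :=
    (F.subtype.comp P.subtype).codRestrict _ (fun y => ⟨y, hS y.2, rfl⟩)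
  have he : e (f x) ∈ derivedSeries ((S : Subgroup F).map F.subtype) n :=
    map_derivedSeries_le_derivedSeries (e.comp f) n ⟨x, hx, rfl⟩
  rw [hd, Subgroup.mem_bot] at he
  apply hfx
  have h2 : ((e (f x) : ((S : Subgroup F).map F.subtype)) : G) = 1 := by rw [he]; rfl
  have h3 : (((f x : P) : F) : G) = 1 := h2
  exact Subtype.ext (Subtype.ext h3)

end Pool.PWL
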