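import Mathlib

/-!
# The Fitting subgroup of a finite group is nilpotent
-/

namespace Pool.PWL

/-- normal `p`-subgroups lie in the core of every Sylow `p`-subgroup -/
private theorem le_core {G : Type*} [Group G] [Finite G] (p : ℕ) [Fact p.Prime] (P : Sylow p G)
    (N : Subgroup G) (hN : N.Normal) (hp : IsPGroup p N) : N ≤ (P : Subgroup G).normalCore := by
  haveI := hN
  refine Subgroup.normal_le_normalCore.mpr ?_
  obtain ⟨Q, hQ⟩ := hp.exists_le_sylow
  obtain ⟨g, hg⟩ := MulAction.exists_smul_eq G Q P
  intro x hx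
  rw [← hg]
  have h1 : g⁻¹ * x * g ∈ (Q : Subgroup G) := by
    have := hN.conj_mem x hx g⁻¹
    rw [inv_inv] at this
    exact hQ this
  have h2 : g * (g⁻¹ * x * g) * g⁻¹ = x := by group
  rw [← h2]
  exact Subgroup.smul_mem_pointwise_smul (g⁻¹ * x * g) (MulAut.conj g) _ h1

theorem fitting_isNilpotent {G : Type*} [Group G] [Finite G] :
    Group.IsNilpotent ↥(sSup {N : Subgroup G | N.Normal ∧ Group.IsNilpotent ↥N}) := by
  classical
  let ι := {p // p ∈ (Nat.card G).primeFactors}
  haveI hpf : ∀ p : ι, Fact (p : ℕ).Prime := fun p => ⟨Nat.prime_of_mem_primeFactors p.2⟩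
  let P : ∀ p : ι, Sylow (p : ℕ) G := fun p => default
  let O : ι → Subgroup G := fun p => (P p : Subgroup G).normalCore
  have hOn : ∀ p, (O p).Normal := fun p => Subgroup.normalCore_normal _
  have hOp : ∀ p : ι, IsPGroup (p : ℕ) (O p) := fun p =>
    (P p).isPGroup'.to_le (Subgroup.normalCore_le _)
  have hOnil : ∀ p : ι, Group.IsNilpotent (O p) := fun p => (hOp p).isNilpotent
  have hcomm : Pairwise fun i j : ι => ∀ x y : G, x ∈ O i → y ∈ O j → Commute x y := by
    intro i j hij
    refine Subgroup.commute_of_normal_of_disjoint _ _ (hOn i) (hOn j) ?_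
    exact IsPGroup.disjoint_of_ne (i : ℕ) (j : ℕ) (fun h => hij (Subtype.ext h)) _ _
      (hOp i) (hOp j)
  have hK : Group.IsNilpotent ↥(⨆ p, O p) := by
    rw [← Subgroup.noncommPiCoprod_range (hcomm := hcomm)]
    exact Group.nilpotent_of_surjective (Subgroup.noncommPiCoprod hcomm).rangeRestrict
      (Subgroup.noncommPiCoprod hcomm).rangeRestrict_surjective
  have heq : sSup {N : Subgroup G | N.Normal ∧ Group.IsNilpotent ↥N} = ⨆ p, O p := by
    apply le_antisymm
    · refine sSup_le ?_
      rintro N ⟨hN, hnil⟩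
      have hall : ∀ (q : ℕ) (_ : Fact q.Prime) (R : Sylow q N), (R : Subgroup N).Normal :=
        ((Group.isNilpotent_of_finite_tfae (G := N)).out 0 3).mp hnil
      have hidx : ((⨆ p, O p).subgroupOf N).index = 1 := by
        by_contra hne
        obtain ⟨p, hp, hdvd⟩ := Nat.exists_prime_and_dvd hne
        haveI : Fact p.Prime := ⟨hp⟩
        have hpG : p ∈ (Nat.card G).primeFactors := by
          rw [Nat.mem_primeFactors]
          refine ⟨hp, ?_, Nat.card_pos.ne'⟩
          exact hdvd.trans ((Subgroup.index_dvd_card _).trans (Subgroup.card_subgroup_dvd_card N))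
        let S : Sylow p N := default
        haveI : (S : Subgroup N).Characteristic := Sylow.characteristic_of_normal S (hall p ⟨hp⟩ S)
        have hSn : ((S : Subgroup N).map N.subtype).Normal := inferInstance
        have hle : (S : Subgroup N).map N.subtype ≤ O ⟨p, hpG⟩ :=
          le_core p (P ⟨p, hpG⟩) _ hSn (S.2.map _)
        have hle2 : (S : Subgroup N) ≤ (⨆ p, O p).subgroupOf N := by
          intro x hx
          rw [Subgroup.mem_subgroupOf]
          exact (hle.trans (le_iSup O ⟨p, hpG⟩)) ⟨x, hx, rfl⟩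
        exact S.not_dvd_index (hdvd.trans (Subgroup.index_dvd_of_le hle2))
      rw [Subgroup.index_eq_one, Subgroup.subgroupOf_eq_top] at hidx
      exact hidx
    · exact iSup_le fun p => le_sSup ⟨hOn p, hOnil p⟩
  rw [heq]
  exact hK

end Pool.PWL
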