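import Pool.Agent.PWL.DefsW

/-!
# Monomial representations, M-groups, supersolvable groups, products over cosets
-/

namespace Pool.PWL

open scoped commutatorElement

/-- `V` is monomial: some line of `V` is stable under a subgroup `T` of `G` whose index is the
dimension of `V`. For an irreducible `V` this says that `V` is induced from a one-dimensional
representation of `T`. -/
def IsMonomial {G : Type} [Group G] (V : FDRep ℂ G) : Prop :=
  ∃ (T : Subgroup G) (v : V), v ≠ 0 ∧ T.index = Module.finrank ℂ V ∧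
    ∀ t ∈ T, ∃ z : ℂ, V.ρ t v = z • v

/-- `G` is an M-group: every irreducible complex representation of `G` is monomial. -/
def IsMGroup (G : Type) [Group G] : Prop :=
  ∀ V : FDRep ℂ G, CategoryTheory.Simple V → IsMonomial V

/-- `G` is supersolvable: it has a finite series of normal subgroups of `G` with cyclic factors. -/
def IsSupersolvable (G : Type) [Group G] : Prop :=
  ∃ (n : ℕ) (S : ℕ → Subgroup G), S 0 = ⊥ ∧ S n = ⊤ ∧
    ∀ i, (S i).Normal ∧ ∃ x : G, S (i + 1) = S i ⊔ Subgroup.zpowers x

/-- A stable subspace `U` for a subgroup `T`, of small dimension, on which the normal subgroups of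
`T` that act by commuting operators act by scalars. -/
structure GoodPair {G : Type} [Group G] (V : FDRep ℂ G) (T : Subgroup G)
    (U : Submodule ℂ V) : Prop where
  ne_bot : U ≠ ⊥
  stable : ∀ t ∈ T, ∀ u ∈ U, V.ρ t u ∈ U
  dim_le : T.index * Module.finrank ℂ U ≤ Module.finrank ℂ V
  scal : ∀ A : Subgroup G, A ≤ T → (∀ t ∈ T, ∀ a ∈ A, t * a * t⁻¹ ∈ A) →
    (∀ a ∈ A, ∀ b ∈ A, ∀ u ∈ U, V.ρ (a * b) u = V.ρ (b * a) u) →
    ∀ a ∈ A, ∃ z : ℂ, ∀ u ∈ U, V.ρ a u = z • u

/-- The product of `F` over representatives of the cosets `x (T ∩ X)`, `x ∈ X`. -/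
noncomputable def cprod {G A : Type*} [Group G] [CommMonoid A] (T X : Subgroup G) (F : G → A) :
    A :=
  ∏ᶠ q : X ⧸ T.subgroupOf X, F ((q.out : X) : G)

open Classical in
/-- `cch τ k g` is `τ (g⁻¹ k g)`, and `1` if `g⁻¹ k g` is not in `T`. -/
noncomputable def cch {G A : Type*} [Group G] [CommGroup A] {T : Subgroup G} (τ : T →* A)
    (k g : G) : A :=
  if h : g⁻¹ * k * g ∈ T then τ ⟨g⁻¹ * k * g, h⟩ else 1

/-- The terms of the derived series of `N` as subgroups of `G`. -/
def dser {G : Type*} [Group G] (N : Subgroup G) (i : ℕ) : Subgroup G :=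
  (derivedSeries N i).map N.subtype

end Pool.PWL
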