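import Pool.Agent.PWL.Basic

/-!
# Subgroups that are powerfully embedded relative to a normal subgroup
-/

namespace Pool.PWL

open scoped commutatorElement

/-- `[P, W] ≤ P^p` if `p` is odd and `[P, W] ≤ (P^2)^2` if `p = 2`. -/
def PE {G : Type*} [Group G] (p : ℕ) (P W : Subgroup G) : Prop :=
  ⁅P, W⁆ ≤ if p = 2 then pw 2 (pw 2 P) else pw p P

lemma PE.le {G : Type*} [Group G] {p : ℕ} {P W : Subgroup G} (h : PE p P W) : ⁅P, W⁆ ≤ pw p P := by
  unfold PE at h
  split_ifs at h with h2
  · subst h2; exact h.trans (pw_le_self 2 _)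
  · exact h

lemma PE.mono {G : Type*} [Group G] {p : ℕ} {P W W' : Subgroup G} (h : PE p P W) (hW : W' ≤ W) :
    PE p P W' :=
  (Subgroup.commutator_mono le_rfl hW).trans h

end Pool.PWL
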