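import Pool.Agent.PWL.ChainGen
import Pool.Agent.PWL.DefsW

/-!
# Commutators in the chain of iterated powers, relative version
-/

namespace Pool.PWL

open scoped commutatorElement

variable {G : Type*} [Group G]

lemma chain_le (p : ℕ) (N : Subgroup G) (i : ℕ) : chain p N i ≤ N := chain_anti p N (Nat.zero_le i)

theorem chain_comm_W {p : ℕ} (N W : Subgroup G) [N.Normal] (hNW : N ≤ W)
    (h : ∀ i, ⁅chain p N i, W⁆ ≤ chain p N (i + 1)) (i j : ℕ) :
    ⁅chain p N i, chain p N j⁆ ≤ chain p N (i + j + 1) := by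
  induction j generalizing i with
  | zero => exact (Subgroup.commutator_mono le_rfl hNW).trans (h i)
  | succ j ih =>
    set M := chain p N (i + (j + 1) + 1) with hM
    -- the elements commuting with `chain i` modulo `M`
    let S : Subgroup G :=
      { carrier := {b | ∀ a ∈ chain p N i, ⁅a, b⁆ ∈ M}
        one_mem' := by intro a _; rw [commutatorElement_one_right]; exact M.one_mem
        mul_mem' := by
          intro b c hb hc a ha
          have e : ⁅a, b * c⁆ = ⁅a, b⁆ * (b * ⁅a, c⁆ * b⁻¹) := by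
            simp only [commutatorElement_def]; group
          rw [e]
          exact M.mul_mem (hb a ha) ((inferInstance : M.Normal).conj_mem _ (hc a ha) b)
        inv_mem' := by
          intro b hb a ha
          have e : ⁅a, b⁻¹⁆ = b⁻¹ * ⁅a, b⁆⁻¹ * b⁻¹⁻¹ := by
            simp only [commutatorElement_def]; group
          rw [e]
          exact (inferInstance : M.Normal).conj_mem _ (M.inv_mem (hb a ha)) b⁻¹ }
    have hle : chain p N (j + 1) ≤ S := by
      show pw p (chain p N j) ≤ S
      refine pw_le fun b hb a ha => ?_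
      have h1 : ⁅a, b⁆ ∈ chain p N (i + j + 1) := ih i (Subgroup.commutator_mem_commutator ha hb)
      have h2 : ⁅⁅a, b⁆, b⁆ ∈ M := by
        have := h (i + j + 1) (Subgroup.commutator_mem_commutator h1 (hNW (chain_le p N j hb)))
        exact this
      have h3 : ⁅a, b⁆ ^ p ∈ M := by
        show _ ∈ chain p N (i + (j + 1) + 1)
        exact pow_mem_pw h1
      rw [← QuotientGroup.eq_one_iff] at h2 h3 ⊢
      have hc : Commute ⁅(a : G ⧸ M), (b : G ⧸ M)⁆ (b : G ⧸ M) := by
        have h4 : ⁅⁅(a : G ⧸ M), (b : G ⧸ M)⁆, (b : G ⧸ M)⁆ = 1 := h2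
        exact commutatorElement_eq_one_iff_commute.mp h4
      have h5 : ⁅(a : G ⧸ M), (b : G ⧸ M)⁆ ^ p = 1 := h3
      show ⁅(a : G ⧸ M), (b : G ⧸ M) ^ p⁆ = 1
      have h6 : (a : G ⧸ M) * (b : G ⧸ M) * (a : G ⧸ M)⁻¹
          = ⁅(a : G ⧸ M), (b : G ⧸ M)⁆ * (b : G ⧸ M) := by
        rw [commutatorElement_def]; group
      have h7 : (a : G ⧸ M) * (b : G ⧸ M) ^ p * (a : G ⧸ M)⁻¹ = (b : G ⧸ M) ^ p := by
        rw [← conj_pow, h6, hc.mul_pow, h5, one_mul]
      rw [commutatorElement_def, h7, mul_inv_cancel]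
    rw [Subgroup.commutator_le]
    intro a ha b hb
    exact hle hb a ha

/-- The derived series along the chain. -/
theorem derived_le_chain_W {p : ℕ} (t : ℕ) (W : Subgroup G) (hNW : derivedSeries G t ≤ W)
    (h : ∀ i, ⁅chain p (derivedSeries G t) i, W⁆ ≤ chain p (derivedSeries G t) (i + 1)) (s : ℕ) :
    derivedSeries G (t + s) ≤ chain p (derivedSeries G t) (2 ^ s - 1) := by
  induction s with
  | zero => exact le_rfl
  | succ s ih =>
    rw [← add_assoc, derivedSeries_succ]
    refine (Subgroup.commutator_mono ih ih).trans ((chain_comm_W _ W hNW h _ _).trans ?_)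
    apply chain_anti
    have : 1 ≤ 2 ^ s := Nat.one_le_two_pow
    rw [pow_succ]; omega

end Pool.PWL
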