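import Pool.Agent.PWL.Basic

/-!
# Powerfully embedded subgroups
-/

namespace Pool.PWL

open scoped commutatorElement

theorem nil_le {G : Type*} [Group G] [Group.IsNilpotent G] {C D : Subgroup G} [D.Normal]
    (h : C ≤ ⁅C, (⊤ : Subgroup G)⁆ ⊔ D) : C ≤ D := by
  have h1 : C.map (QuotientGroup.mk' D) ≤ ⁅C.map (QuotientGroup.mk' D), ⊤⁆ := by
    have h2 := Subgroup.map_mono (f := QuotientGroup.mk' D) h
    rw [Subgroup.map_sup, Subgroup.map_commutator] at h2
    have h3 : D.map (QuotientGroup.mk' D) = ⊥ := by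
      rw [Subgroup.map_eq_bot_iff, QuotientGroup.ker_mk']
    rw [h3, sup_bot_eq] at h2
    exact h2.trans (Subgroup.commutator_mono le_rfl le_top)
  have h4 : ∀ k, C.map (QuotientGroup.mk' D) ≤ (⊤ : Subgroup (G ⧸ D)).lowerCentralSeries k := by
    intro k
    induction k with
    | zero => exact le_top
    | succ k ih => exact h1.trans (Subgroup.commutator_mono ih le_rfl)
  obtain ⟨n, hn⟩ := Subgroup.nilpotent_iff_lowerCentralSeries.1
    (inferInstance : Group.IsNilpotent (G ⧸ D))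
  have h5 := h4 n
  rw [hn, le_bot_iff, Subgroup.map_eq_bot_iff, QuotientGroup.ker_mk'] at h5
  exact h5

private theorem mul_pow_of_central {H : Type*} [Group H] (A B c : H) (hBA : B * A = c * (A * B))
    (hc : ∀ g : H, c * g = g * c) (n : ℕ) :
    (A * B) ^ n = c ^ (n * (n - 1) / 2) * (A ^ n * B ^ n) := by
  have hc' : ∀ (k : ℕ) (g : H), c ^ k * g = g * c ^ k := fun k g =>
    ((show Commute c g from hc g).pow_left k)
  have h1 : ∀ n : ℕ, B ^ n * A = c ^ n * (A * B ^ n) := by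
    intro n
    induction n with
    | zero => simp
    | succ n ih =>
      rw [pow_succ' B, mul_assoc, ih, ← mul_assoc, ← hc' n B, mul_assoc, ← mul_assoc B A, hBA,
        pow_succ c]
      simp only [mul_assoc]
  induction n with
  | zero => simp
  | succ n ih =>
    have h2 : (n + 1) * (n + 1 - 1) / 2 = n * (n - 1) / 2 + n := by
      have h3 : (n + 1) * (n + 1 - 1) = n * (n - 1) + n * 2 := by
        cases n with
        | zero => rfl
        | succ m => simp only [Nat.add_sub_cancel]; ring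
      rw [h3, Nat.add_mul_div_right _ _ (by norm_num)]
    rw [pow_succ (A * B), ih, h2, pow_add]
    calc c ^ (n * (n - 1) / 2) * (A ^ n * B ^ n) * (A * B)
        = c ^ (n * (n - 1) / 2) * (A ^ n * (B ^ n * A) * B) := by simp only [mul_assoc]
      _ = c ^ (n * (n - 1) / 2) * (A ^ n * (c ^ n * (A * B ^ n)) * B) := by rw [h1]
      _ = c ^ (n * (n - 1) / 2) * ((A ^ n * c ^ n) * (A * B ^ n) * B) := by
          simp only [mul_assoc]
      _ = c ^ (n * (n - 1) / 2) * ((c ^ n * A ^ n) * (A * B ^ n) * B) := by rw [hc' n]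
      _ = c ^ (n * (n - 1) / 2) * c ^ n * (A ^ (n + 1) * B ^ (n + 1)) := by
          rw [pow_succ A, pow_succ B]; simp only [mul_assoc]

private theorem commute_pow_of_central {H : Type*} [Group H] {p : ℕ} (hp : p.Prime) (hp2 : p ≠ 2)
    (X Y : H) (hZ : ⁅Y, X⁆ ^ p = 1) (hc : ∀ g : H, Commute ⁅⁅Y, X⁆, X⁆ g)
    (hcp : ⁅⁅Y, X⁆, X⁆ ^ p = 1) : Commute (X ^ p) Y := by
  set Z := ⁅Y, X⁆ with hZdef
  have h1 : Y * X * Y⁻¹ = Z * X := by rw [hZdef, commutatorElement_def]; group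
  have h2 : X * Z = ⁅Z, X⁆⁻¹ * (Z * X) := by rw [commutatorElement_def]; group
  have h3 : ∀ g, ⁅Z, X⁆⁻¹ * g = g * ⁅Z, X⁆⁻¹ := fun g => (hc g).inv_left
  have h4 := mul_pow_of_central Z X (⁅Z, X⁆⁻¹) h2 h3 p
  have hodd : Odd p := hp.odd_of_ne_two hp2
  have h5 : (⁅Z, X⁆⁻¹) ^ (p * (p - 1) / 2) = 1 := by
    obtain ⟨m, hm⟩ := hodd
    have h6 : p * (p - 1) / 2 = p * m := by
      have : p - 1 = 2 * m := by omega
      rw [this, mul_left_comm]
      exact Nat.mul_div_cancel_left _ (by norm_num)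
    rw [h6, pow_mul, inv_pow, hcp, inv_one, one_pow]
  rw [h5, one_mul, hZ, one_mul, ← h1, conj_pow] at h4
  show X ^ p * Y = Y * X ^ p
  calc X ^ p * Y = (Y * X ^ p * Y⁻¹) * Y := by rw [h4]
    _ = Y * X ^ p := by group

private theorem pe_aux {G : Type*} [Group G] {p : ℕ} (hp : p.Prime) (hp2 : p ≠ 2)
    (N K M : Subgroup G) [K.Normal] [M.Normal]
    (h1 : ⁅N, (⊤ : Subgroup G)⁆ ≤ K) (h2 : pw p K ≤ M)
    (h3 : ⁅⁅K, (⊤ : Subgroup G)⁆, (⊤ : Subgroup G)⁆ ≤ M) : ⁅pw p N, (⊤ : Subgroup G)⁆ ≤ M := by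
  have key : pw p N ≤ (Subgroup.center (G ⧸ M)).comap (QuotientGroup.mk' M) := by
    refine pw_le (fun x hx => ?_)
    rw [Subgroup.mem_comap, Subgroup.mem_center_iff]
    intro g
    obtain ⟨g, rfl⟩ := QuotientGroup.mk'_surjective M g
    have hz : ⁅g, x⁆ ∈ K := by
      rw [← commutatorElement_inv]
      exact K.inv_mem (h1 (Subgroup.commutator_mem_commutator hx (Subgroup.mem_top g)))
    have hzx : ⁅⁅g, x⁆, x⁆ ∈ ⁅K, (⊤ : Subgroup G)⁆ :=
      Subgroup.commutator_mem_commutator hz (Subgroup.mem_top x)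
    have hzK : ⁅⁅g, x⁆, x⁆ ∈ K := Subgroup.commutator_le_left K _ hzx
    have h5 : Commute ((QuotientGroup.mk' M x) ^ p) (QuotientGroup.mk' M g) := by
      refine commute_pow_of_central hp hp2 _ _ ?_ ?_ ?_
      · rw [← map_commutatorElement, ← map_pow]
        exact (QuotientGroup.eq_one_iff _).2 (h2 (pow_mem_pw hz))
      · intro k
        obtain ⟨k, rfl⟩ := QuotientGroup.mk'_surjective M k
        rw [← map_commutatorElement, ← map_commutatorElement,
          ← commutatorElement_eq_one_iff_commute, ← map_commutatorElement]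
        exact (QuotientGroup.eq_one_iff _).2
          (h3 (Subgroup.commutator_mem_commutator hzx (Subgroup.mem_top k)))
      · rw [← map_commutatorElement, ← map_commutatorElement, ← map_pow]
        exact (QuotientGroup.eq_one_iff _).2 (h2 (pow_mem_pw hzK))
    rw [map_pow]
    exact h5.eq.symm
  rw [Subgroup.commutator_le]
  intro y hy g _
  have h4 := key hy
  rw [Subgroup.mem_comap, Subgroup.mem_center_iff] at h4
  have h5 : Commute (QuotientGroup.mk' M y) (QuotientGroup.mk' M g) :=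
    (h4 (QuotientGroup.mk' M g)).symm
  rw [← commutatorElement_eq_one_iff_commute, ← map_commutatorElement] at h5
  exact (QuotientGroup.eq_one_iff _).1 h5

/-! module PE -/
theorem pe_pw {G : Type*} [Group G] [Group.IsNilpotent G] {p : ℕ} [Fact p.Prime] (hp2 : p ≠ 2)
    (N : Subgroup G) [N.Normal] (hN : ⁅N, (⊤ : Subgroup G)⁆ ≤ pw p N) :
    ⁅pw p N, (⊤ : Subgroup G)⁆ ≤ pw p (pw p N) := by
  refine nil_le ?_
  exact pe_aux Fact.out hp2 N (pw p N) _ hN le_sup_right le_sup_left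

theorem pe_comm {G : Type*} [Group G] [Group.IsNilpotent G] {p : ℕ} [Fact p.Prime] (hp2 : p ≠ 2)
    (N : Subgroup G) [N.Normal] (hN : ⁅N, (⊤ : Subgroup G)⁆ ≤ pw p N) :
    ⁅⁅N, (⊤ : Subgroup G)⁆, (⊤ : Subgroup G)⁆ ≤ pw p ⁅N, (⊤ : Subgroup G)⁆ := by
  refine nil_le ?_
  refine (Subgroup.commutator_mono hN le_rfl).trans ?_
  exact pe_aux Fact.out hp2 N ⁅N, (⊤ : Subgroup G)⁆ _ le_rfl le_sup_right le_sup_left

end Pool.PWL
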