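import Pool.Agent.PWL.Basic

/-!
# Powerfully embedded subgroups of 2-groups
-/

namespace Pool.PWL

open scoped commutatorElement

variable {G : Type*} [Group G]

lemma comm_sq (x g : G) : ⁅x ^ 2, g⁆ = ⁅x, ⁅x, g⁆⁆ * ⁅x, g⁆ ^ 2 := by
  simp only [commutatorElement_def, pow_two, mul_assoc, mul_inv_rev, inv_mul_cancel_left,
    inv_inv, mul_inv_cancel_left]

/-- Elements commuting with everything modulo `M`. -/
lemma comm_closure_le {S : Set G} {M : Subgroup G} [hM : M.Normal]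
    (h : ∀ x ∈ S, ∀ g : G, ⁅x, g⁆ ∈ M) : ⁅Subgroup.closure S, (⊤ : Subgroup G)⁆ ≤ M := by
  rw [Subgroup.commutator_le]
  intro x hx g hg
  clear hg
  induction hx using Subgroup.closure_induction generalizing g with
  | mem x hx => exact h x hx g
  | one => rw [commutatorElement_one_left]; exact M.one_mem
  | mul x y _ _ hx hy =>
    have e : ⁅x * y, g⁆ = x * ⁅y, g⁆ * x⁻¹ * ⁅x, g⁆ := by
      simp only [commutatorElement_def]; group
    rw [e]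
    exact M.mul_mem (hM.conj_mem _ (hy g) x) (hx g)
  | inv x _ hx =>
    have e : ⁅x⁻¹, g⁆ = x⁻¹ * ⁅x, g⁆⁻¹ * x⁻¹⁻¹ := by
      simp only [commutatorElement_def]; group
    rw [e]
    exact hM.conj_mem _ (M.inv_mem (hx g)) x⁻¹

lemma comm_pw_le {n : ℕ} {H M : Subgroup G} [M.Normal]
    (h : ∀ x ∈ H, ∀ g : G, ⁅x ^ n, g⁆ ∈ M) : ⁅pw n H, (⊤ : Subgroup G)⁆ ≤ M := by
  apply comm_closure_le
  rintro x ⟨y, hy, rfl⟩ g
  exact h y hy g

lemma pw_four_le (N : Subgroup G) : pw 4 N ≤ pw 2 (pw 2 N) :=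
  pw_le fun x hx => by
    have : x ^ 4 = (x ^ 2) ^ 2 := by rw [← pow_mul]
    rw [this]
    exact pow_mem_pw (pow_mem_pw hx)

lemma comm_left {x g : G} {H : Subgroup G} (hx : x ∈ H) : ⁅x, g⁆ ∈ ⁅H, (⊤ : Subgroup G)⁆ :=
  Subgroup.commutator_mem_commutator hx (Subgroup.mem_top g)

lemma comm_right {x g : G} {H : Subgroup G} (hx : x ∈ H) : ⁅g, x⁆ ∈ ⁅H, (⊤ : Subgroup G)⁆ := by
  rw [Subgroup.commutator_comm]
  exact Subgroup.commutator_mem_commutator (Subgroup.mem_top g) hx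

/-- The squares: `[N^2, G] ≤ ((N^2)^2)^2` if `[N, G] ≤ (N^2)^2`. -/
theorem two_pw (hnil : ∀ {C D : Subgroup G}, D.Normal → C ≤ ⁅C, (⊤ : Subgroup G)⁆ ⊔ D → C ≤ D)
    (N : Subgroup G) [N.Normal] (hN : ⁅N, (⊤ : Subgroup G)⁆ ≤ pw 2 (pw 2 N)) :
    ⁅pw 2 N, (⊤ : Subgroup G)⁆ ≤ pw 2 (pw 2 (pw 2 N)) := by
  apply hnil inferInstance
  set C := ⁅pw 2 N, (⊤ : Subgroup G)⁆ with hC
  set D := pw 2 (pw 2 (pw 2 N)) with hD
  have hCN : C ≤ pw 2 (pw 2 N) := (Subgroup.commutator_mono (pw_le_self 2 N) le_rfl).trans hN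
  have h1 : ⁅pw 2 (pw 2 N), (⊤ : Subgroup G)⁆ ≤ ⁅C, (⊤ : Subgroup G)⁆ ⊔ D := by
    apply comm_pw_le
    intro y hy g
    rw [comm_sq]
    have hb : ⁅y, g⁆ ∈ C := comm_left hy
    refine Subgroup.mul_mem _ ?_ ?_
    · exact Subgroup.mem_sup_left (comm_right hb)
    · exact Subgroup.mem_sup_right (pow_mem_pw (hCN hb))
  apply comm_pw_le
  intro x hx g
  rw [comm_sq]
  have ha : ⁅x, g⁆ ∈ pw 2 (pw 2 N) := hN (comm_left hx)
  refine Subgroup.mul_mem _ (h1 (comm_right ha)) ?_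
  exact Subgroup.mem_sup_right (pow_mem_pw ha)

/-- In a finite `p`-group, `C ≤ [C, G] C^p D` implies `C ≤ D`. -/
theorem nil_le_pow (hnil : ∀ {C D : Subgroup G}, D.Normal → C ≤ ⁅C, (⊤ : Subgroup G)⁆ ⊔ D → C ≤ D)
    [Finite G] {p : ℕ} [Fact p.Prime] (hG : IsPGroup p G) {C D : Subgroup G} [C.Normal] [D.Normal]
    (h : C ≤ ⁅C, (⊤ : Subgroup G)⁆ ⊔ pw p C ⊔ D) : C ≤ D := by
  apply hnil inferInstance
  set E := ⁅C, (⊤ : Subgroup G)⁆ ⊔ D with hE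
  -- modulo `E` the group `C` is central
  have hstep : ∀ c ∈ C, ∃ d ∈ C, c * (d ^ p)⁻¹ ∈ E := by
    intro c hc
    have h1 : c ∈ pw p C ⊔ E := by
      have := h hc
      have e : ⁅C, (⊤ : Subgroup G)⁆ ⊔ pw p C ⊔ D = pw p C ⊔ E := by
        rw [hE, sup_comm ⁅C, (⊤ : Subgroup G)⁆ (pw p C), sup_assoc]
      rwa [e] at this
    have h2 : ∀ w ∈ pw p C, ∃ d ∈ C, w * (d ^ p)⁻¹ ∈ E := by
      intro w hw
      induction hw using Subgroup.closure_induction with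
      | mem w hw =>
        obtain ⟨d, hd, rfl⟩ := hw
        exact ⟨d, hd, by rw [mul_inv_cancel]; exact E.one_mem⟩
      | one => exact ⟨1, C.one_mem, by rw [one_pow, inv_one, mul_one]; exact E.one_mem⟩
      | mul x y _ _ hx hy =>
        obtain ⟨d, hd, hd'⟩ := hx
        obtain ⟨f, hf, hf'⟩ := hy
        refine ⟨d * f, C.mul_mem hd hf, ?_⟩
        rw [← QuotientGroup.eq_one_iff] at hd' hf' ⊢
        have hcomm : Commute (d : G ⧸ E) (f : G ⧸ E) := by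
          have h3 : ⁅d, f⁆ ∈ E := Subgroup.mem_sup_left (comm_left hd)
          rw [← QuotientGroup.eq_one_iff] at h3
          have h4 : ⁅(d : G ⧸ E), (f : G ⧸ E)⁆ = 1 := h3
          exact commutatorElement_eq_one_iff_commute.mp h4
        have e1 : (x : G ⧸ E) = (d : G ⧸ E) ^ p := by
          have : (x : G ⧸ E) * ((d : G ⧸ E) ^ p)⁻¹ = 1 := hd'
          exact mul_inv_eq_one.mp this
        have e2 : (y : G ⧸ E) = (f : G ⧸ E) ^ p := by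
          have : (y : G ⧸ E) * ((f : G ⧸ E) ^ p)⁻¹ = 1 := hf'
          exact mul_inv_eq_one.mp this
        show (x : G ⧸ E) * (y : G ⧸ E) * (((d : G ⧸ E) * (f : G ⧸ E)) ^ p)⁻¹ = 1
        rw [hcomm.mul_pow, e1, e2, mul_inv_cancel]
      | inv x _ hx =>
        obtain ⟨d, hd, hd'⟩ := hx
        refine ⟨d⁻¹, C.inv_mem hd, ?_⟩
        rw [← QuotientGroup.eq_one_iff] at hd' ⊢
        have e1 : (x : G ⧸ E) = (d : G ⧸ E) ^ p := by
          have : (x : G ⧸ E) * ((d : G ⧸ E) ^ p)⁻¹ = 1 := hd'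
          exact mul_inv_eq_one.mp this
        show (x : G ⧸ E)⁻¹ * (((d : G ⧸ E)⁻¹) ^ p)⁻¹ = 1
        rw [e1, inv_pow, inv_inv, inv_mul_cancel]
    rw [Subgroup.mem_sup_of_normal_right] at h1
    obtain ⟨w, hw, e, he, rfl⟩ := h1
    obtain ⟨d, hd, hd'⟩ := h2 w hw
    refine ⟨d, hd, ?_⟩
    have : w * e * (d ^ p)⁻¹ = (w * (d ^ p)⁻¹) * ((d ^ p) * e * (d ^ p)⁻¹) := by group
    rw [this]
    exact E.mul_mem hd' ((inferInstance : E.Normal).conj_mem e he (d ^ p))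
  have hiter : ∀ n : ℕ, ∀ c ∈ C, ∃ d ∈ C, c * (d ^ p ^ n)⁻¹ ∈ E := by
    intro n
    induction n with
    | zero => intro c hc; exact ⟨c, hc, by rw [pow_zero, pow_one, mul_inv_cancel]; exact E.one_mem⟩
    | succ n ih =>
      intro c hc
      obtain ⟨d, hd, hd'⟩ := ih c hc
      obtain ⟨f, hf, hf'⟩ := hstep d hd
      refine ⟨f, hf, ?_⟩
      rw [← QuotientGroup.eq_one_iff] at hd' hf' ⊢
      have e1 : (c : G ⧸ E) = (d : G ⧸ E) ^ p ^ n := by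
        have : (c : G ⧸ E) * ((d : G ⧸ E) ^ p ^ n)⁻¹ = 1 := hd'
        exact mul_inv_eq_one.mp this
      have e2 : (d : G ⧸ E) = (f : G ⧸ E) ^ p := by
        have : (d : G ⧸ E) * ((f : G ⧸ E) ^ p)⁻¹ = 1 := hf'
        exact mul_inv_eq_one.mp this
      show (c : G ⧸ E) * ((f : G ⧸ E) ^ p ^ (n + 1))⁻¹ = 1
      rw [e1, e2, ← pow_mul, ← pow_succ', mul_inv_cancel]
  intro c hc
  obtain ⟨k, hk⟩ := IsPGroup.iff_card.mp hG
  obtain ⟨d, hd, hd'⟩ := hiter k c hc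
  have : d ^ p ^ k = 1 := by
    rw [← hk]; exact pow_card_eq_one'
  rw [this, inv_one, mul_one] at hd'
  exact hd'

/-- `[N, G]` is powerfully embedded if `N` is (`p = 2`). -/
theorem two_comm (hnil : ∀ {C D : Subgroup G}, D.Normal → C ≤ ⁅C, (⊤ : Subgroup G)⁆ ⊔ D → C ≤ D)
    [Finite G] (hG : IsPGroup 2 G)
    (N : Subgroup G) [N.Normal] (hN : ⁅N, (⊤ : Subgroup G)⁆ ≤ pw 2 (pw 2 N)) :
    ⁅⁅N, (⊤ : Subgroup G)⁆, (⊤ : Subgroup G)⁆ ≤ pw 2 (pw 2 ⁅N, (⊤ : Subgroup G)⁆) := by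
  have : Fact (Nat.Prime 2) := ⟨Nat.prime_two⟩
  apply nil_le_pow hnil hG
  set L := ⁅N, (⊤ : Subgroup G)⁆ with hL
  set C := ⁅L, (⊤ : Subgroup G)⁆ with hC
  set M := ⁅C, (⊤ : Subgroup G)⁆ ⊔ pw 2 C ⊔ pw 2 (pw 2 L) with hM
  have hCM : ⁅C, (⊤ : Subgroup G)⁆ ≤ M := le_sup_left.trans le_sup_left
  have hsq : pw 2 C ≤ M := le_sup_right.trans le_sup_left
  have hLM : pw 2 (pw 2 L) ≤ M := le_sup_right
  have h1 : ⁅pw 2 L, (⊤ : Subgroup G)⁆ ≤ M := by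
    apply comm_pw_le
    intro l hl g
    rw [comm_sq]
    have hc : ⁅l, g⁆ ∈ C := comm_left hl
    exact M.mul_mem (hCM (comm_right hc)) (hsq (pow_mem_pw hc))
  have h2 : ⁅pw 2 N, (⊤ : Subgroup G)⁆ ≤ C ⊔ pw 2 L := by
    apply comm_pw_le
    intro x hx g
    rw [comm_sq]
    have ha : ⁅x, g⁆ ∈ L := comm_left hx
    exact Subgroup.mul_mem _ (Subgroup.mem_sup_left (comm_right ha))
      (Subgroup.mem_sup_right (pow_mem_pw ha))
  have h3 : ⁅C ⊔ pw 2 L, (⊤ : Subgroup G)⁆ ≤ M := by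
    rw [Subgroup.sup_eq_closure C (pw 2 L)]
    apply comm_closure_le
    rintro x (hx | hx) g
    · exact hCM (comm_left hx)
    · exact h1 (comm_left hx)
  have h4 : ⁅pw 2 (pw 2 N), (⊤ : Subgroup G)⁆ ≤ M := by
    apply comm_pw_le
    intro y hy g
    rw [comm_sq]
    have hb : ⁅y, g⁆ ∈ C ⊔ pw 2 L := h2 (comm_left hy)
    refine M.mul_mem (h3 (comm_right hb)) ?_
    rw [Subgroup.mem_sup_of_normal_right] at hb
    obtain ⟨c, hc, l, hl, hcl⟩ := hb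
    rw [← hcl]
    have e : (c * l) ^ 2 = c ^ 2 * (⁅c⁻¹, l⁆ * l ^ 2) := by
      simp only [commutatorElement_def, pow_two, mul_assoc, inv_inv]
      group
    rw [e]
    refine M.mul_mem (hsq (pow_mem_pw hc)) (M.mul_mem ?_ (hLM (pow_mem_pw hl)))
    exact hCM (comm_left (C.inv_mem hc))
  exact (Subgroup.commutator_mono hN le_rfl).trans h4

end Pool.PWL
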