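import Pool.Agent.PWL.DefsW
import Pool.Agent.PWL.PE
import Pool.Agent.PWL.Two
/-!
# Relative powerful embedding passes to the subgroup of powers
-/
namespace Pool.PWL

open scoped commutatorElement

/-- If `N ≤ W` is powerfully embedded relative to `W` then so is the subgroup generated by the
`p`-th powers of `N`. -/
theorem PE.pow {G : Type*} [Group G] [Group.IsNilpotent G] {p : ℕ} [Fact p.Prime]
    {N W : Subgroup G} [N.Normal] [W.Normal] (hNW : N ≤ W) (hN : PE p N W) : PE p (pw p N) W := by
  have hinj : Function.Injective W.subtype := W.subtype_injective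
  have e1 : (N.subgroupOf W).map W.subtype = N := Subgroup.map_subgroupOf_eq_of_le hNW
  have e2 : (⊤ : Subgroup W).map W.subtype = W := by
    rw [← MonoidHom.range_eq_map, Subgroup.range_subtype]
  have hcomm : ∀ A : Subgroup W, (⁅A, (⊤ : Subgroup W)⁆).map W.subtype =
      ⁅A.map W.subtype, W⁆ := by
    intro A
    rw [Subgroup.map_commutator, e2]
  unfold PE at hN ⊢
  by_cases hp : p = 2
  · subst hp
    rw [if_pos rfl] at hN ⊢
    have h1 : ⁅N.subgroupOf W, (⊤ : Subgroup W)⁆ ≤ pw 2 (pw 2 (N.subgroupOf W)) := by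
      rw [← Subgroup.map_le_map_iff_of_injective hinj, hcomm, map_pw, map_pw, e1]
      exact hN
    have h2 := two_pw (fun {C D} hD h => @nil_le _ _ _ C D hD h) (N.subgroupOf W) h1
    have h3 := Subgroup.map_mono (f := W.subtype) h2
    rw [hcomm, map_pw, map_pw, map_pw, map_pw, e1] at h3
    exact h3
  · rw [if_neg hp] at hN ⊢
    have h1 : ⁅N.subgroupOf W, (⊤ : Subgroup W)⁆ ≤ pw p (N.subgroupOf W) := by
      rw [← Subgroup.map_le_map_iff_of_injective hinj, hcomm, map_pw, e1]
      exact hN
    have h2 := pe_pw hp (N.subgroupOf W) h1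
    have h3 := Subgroup.map_mono (f := W.subtype) h2
    rw [hcomm, map_pw, map_pw, map_pw, e1] at h3
    exact h3

end Pool.PWL
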