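import Mathlib

/-!
# Commutators of small sections with the derived series
-/

namespace Pool.PWL

open scoped commutatorElement
open Subgroup

section
variable {G : Type*} [Group G]

/-- The three subgroups lemma modulo a normal subgroup. -/
theorem three_mod (A B C Z : Subgroup G) [Z.Normal] (h1 : ⁅⁅B, C⁆, A⁆ ≤ Z)
    (h2 : ⁅⁅C, A⁆, B⁆ ≤ Z) : ⁅⁅A, B⁆, C⁆ ≤ Z := by
  have key : ∀ U : Subgroup G, U ≤ Z ↔ U.map (QuotientGroup.mk' Z) = ⊥ := by
    intro U
    rw [Subgroup.map_eq_bot_iff, QuotientGroup.ker_mk']
  rw [key, map_commutator, map_commutator] at *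
  exact commutator_commutator_eq_bot_of_rotate h1 h2

/-- The chain `X Y`, `[X_j, G] Y`. -/
def secChain (X Y : Subgroup G) : ℕ → Subgroup G
  | 0 => X ⊔ Y
  | j + 1 => ⁅secChain X Y j, (⊤ : Subgroup G)⁆ ⊔ Y

variable (X Y : Subgroup G) [X.Normal] [hYn : Y.Normal]

theorem secChain_normal (j : ℕ) : (secChain X Y j).Normal := by
  induction j with
  | zero => exact (inferInstance : (X ⊔ Y).Normal)
  | succ j ih =>
    have := ih
    exact (inferInstance : (⁅secChain X Y j, (⊤ : Subgroup G)⁆ ⊔ Y).Normal)

omit [X.Normal] hYn in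
theorem le_secChain (j : ℕ) : Y ≤ secChain X Y j := by
  cases j with
  | zero => exact le_sup_right
  | succ j => exact le_sup_right

theorem secChain_succ_le (j : ℕ) : secChain X Y (j + 1) ≤ secChain X Y j := by
  have := secChain_normal X Y j
  exact sup_le (commutator_le_left _ _) (le_secChain X Y j)

theorem secChain_anti : Antitone (secChain X Y) :=
  antitone_nat_of_succ_le (secChain_succ_le X Y)

theorem secChain_comm (k : ℕ) : ∀ j, ⁅secChain X Y j, derivedSeries G k⁆ ≤
    secChain X Y (j + 2 ^ k) := by
  induction k with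
  | zero =>
    intro j
    rw [derivedSeries_zero, pow_zero]
    exact le_sup_left
  | succ k ih =>
    intro j
    rw [derivedSeries_succ, commutator_comm]
    have hn := secChain_normal X Y (j + 2 ^ (k + 1))
    have e : j + 2 ^ k + 2 ^ k = j + 2 ^ (k + 1) := by rw [pow_succ]; omega
    have h0 : ⁅⁅secChain X Y j, derivedSeries G k⁆, derivedSeries G k⁆ ≤
        secChain X Y (j + 2 ^ (k + 1)) := by
      refine (commutator_mono (ih j) le_rfl).trans ?_
      rw [← e]
      exact ih _
    exact three_mod _ _ _ _ (by rw [commutator_comm (derivedSeries G k)]; exact h0) h0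

/-- In a nilpotent group the chain drops strictly until it reaches `Y`. -/
theorem secChain_eq [Group.IsNilpotent G] (j : ℕ)
    (h : secChain X Y (j + 1) = secChain X Y j) : secChain X Y j = Y := by
  set M := secChain X Y j with hM
  have h1 : M = ⁅M, (⊤ : Subgroup G)⁆ ⊔ Y := h.symm
  have h2 : M.map (QuotientGroup.mk' Y) = ⁅M.map (QuotientGroup.mk' Y), (⊤ : Subgroup (G ⧸ Y))⁆ := by
    conv_lhs => rw [h1]
    rw [Subgroup.map_sup, map_commutator, Subgroup.map_top_of_surjective _
      (QuotientGroup.mk'_surjective Y)]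
    have h3 : Y.map (QuotientGroup.mk' Y) = ⊥ := by
      rw [Subgroup.map_eq_bot_iff, QuotientGroup.ker_mk']
    rw [h3, sup_bot_eq]
  have h3 : ∀ n, M.map (QuotientGroup.mk' Y) ≤ (⊤ : Subgroup (G ⧸ Y)).lowerCentralSeries n := by
    intro n
    induction n with
    | zero => exact le_top
    | succ n ih =>
      rw [h2, Subgroup.lowerCentralSeries_succ]
      exact commutator_mono ih le_rfl
  obtain ⟨n, hn⟩ := Subgroup.nilpotent_iff_lowerCentralSeries.1 (inferInstance : Group.IsNilpotent (G ⧸ Y))
  have h4 : M.map (QuotientGroup.mk' Y) = ⊥ := by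
    rw [eq_bot_iff, ← hn]
    exact h3 n
  rw [Subgroup.map_eq_bot_iff, QuotientGroup.ker_mk'] at h4
  exact le_antisymm h4 (le_secChain X Y j)

end

/-! row SectionW -/
theorem section_le {G : Type*} [Group G] [Finite G] {p : ℕ} [Fact p.Prime] (hG : IsPGroup p G)
    (X Y : Subgroup G) [X.Normal] [Y.Normal] (s k : ℕ) (hidx : Y.relIndex X ≤ p ^ s)
    (hk : s ≤ 2 ^ k) : ⁅X, derivedSeries G k⁆ ≤ Y := by
  have hnil : Group.IsNilpotent G := hG.isNilpotent
  have hp : 0 < p := (Fact.out : p.Prime).pos
  have key : ∀ j, secChain X Y j = Y ∨ p ^ j * Y.relIndex (secChain X Y j) ≤ p ^ s := by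
    intro j
    induction j with
    | zero =>
      right
      rw [pow_zero, one_mul]
      show Y.relIndex (X ⊔ Y) ≤ p ^ s
      rwa [relIndex_sup_right]
    | succ j ih =>
      by_cases h1 : secChain X Y (j + 1) = Y
      · exact Or.inl h1
      right
      have h2 : secChain X Y j ≠ Y := by
        intro h2
        apply h1
        exact le_antisymm ((secChain_succ_le X Y j).trans h2.le) (le_secChain X Y _)
      have h3 := ih.resolve_left h2
      have h4 : secChain X Y (j + 1) ≠ secChain X Y j := fun h => h2 (secChain_eq X Y j h)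
      have h5 : (secChain X Y (j + 1)).relIndex (secChain X Y j) ≠ 1 := by
        intro h5
        exact h4 (le_antisymm (secChain_succ_le X Y j) (relIndex_eq_one.1 h5))
      have h6 : p ∣ (secChain X Y (j + 1)).relIndex (secChain X Y j) := by
        have h7 : IsPGroup p (secChain X Y j) := hG.to_subgroup _
        have h8 : (secChain X Y (j + 1)).relIndex (secChain X Y j) ∣
            Nat.card (secChain X Y j) := relIndex_dvd_card _ _
        obtain ⟨n, hn⟩ := h7.exists_card_eq
        rw [hn] at h8
        obtain ⟨i, _, hi⟩ := (Nat.dvd_prime_pow (Fact.out : p.Prime)).1 h8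
        rw [hi] at h5 ⊢
        rcases Nat.eq_zero_or_pos i with rfl | hi0
        · exact absurd (pow_zero p) h5
        · exact dvd_pow_self p hi0.ne'
      have h9 : Y.relIndex (secChain X Y (j + 1)) *
          (secChain X Y (j + 1)).relIndex (secChain X Y j) = Y.relIndex (secChain X Y j) :=
        relIndex_mul_relIndex _ _ _ (le_secChain X Y _) (secChain_succ_le X Y j)
      have h10 : 0 < (secChain X Y (j + 1)).relIndex (secChain X Y j) := by
        refine Nat.pos_of_ne_zero ?_
        show ((secChain X Y (j + 1)).subgroupOf (secChain X Y j)).index ≠ 0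
        exact index_ne_zero_of_finite
      have h11 := Nat.le_of_dvd h10 h6
      calc p ^ (j + 1) * Y.relIndex (secChain X Y (j + 1))
          = p ^ j * (Y.relIndex (secChain X Y (j + 1)) * p) := by rw [pow_succ]; ring
        _ ≤ p ^ j * (Y.relIndex (secChain X Y (j + 1)) *
            (secChain X Y (j + 1)).relIndex (secChain X Y j)) :=
          Nat.mul_le_mul_left _ (Nat.mul_le_mul_left _ h11)
        _ = p ^ j * Y.relIndex (secChain X Y j) := by rw [h9]
        _ ≤ p ^ s := h3
  have hs : secChain X Y s ≤ Y := by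
    rcases key s with h | h
    · exact h.le
    · have h1 : Y.relIndex (secChain X Y s) ≤ 1 := by
        by_contra h2
        push Not at h2
        have h3 : p ^ s * 1 < p ^ s * Y.relIndex (secChain X Y s) :=
          Nat.mul_lt_mul_of_pos_left h2 (pow_pos hp s)
        omega
      have h2 : Y.relIndex (secChain X Y s) ≠ 0 := by
        show (Y.subgroupOf (secChain X Y s)).index ≠ 0
        exact index_ne_zero_of_finite
      exact relIndex_eq_one.1 (by omega)
  calc ⁅X, derivedSeries G k⁆ ≤ ⁅secChain X Y 0, derivedSeries G k⁆ :=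
        commutator_mono le_sup_left le_rfl
    _ ≤ secChain X Y (0 + 2 ^ k) := secChain_comm X Y k 0
    _ ≤ secChain X Y s := secChain_anti X Y (by omega)
    _ ≤ Y := hs

end Pool.PWL
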