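import Pool.Agent.PWL.DefsW
import Pool.Agent.PWL.PE
import Pool.Agent.PWL.Two
import Pool.Agent.PWL.RankIdx
import Pool.Agent.PWL.SectionW

/-!
# Bounded rank: a term of the derived series is powerfully embedded
-/

namespace Pool.PWL

open scoped commutatorElement

/-- a proper subgroup of a finite `p`-group lies in a subgroup of index `p` -/
private theorem rank_exists_index {F : Type*} [Group F] [Finite F] {p : ℕ} [Fact p.Prime]
    (hF : IsPGroup p F) (E : Subgroup F) (hE : E ≠ ⊤) : ∃ K : Subgroup F, E ≤ K ∧ K.index = p := by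
  obtain ⟨N, hN⟩ := hF.exists_card_eq
  obtain ⟨n, hn⟩ := (hF.to_subgroup E).exists_card_eq
  have hp : 1 < p := (Fact.out : p.Prime).one_lt
  have hlt : n < N := by
    have h1 : Nat.card E ≤ Nat.card F := Subgroup.card_le_card_group E
    have h2 : Nat.card E ≠ Nat.card F := fun h => hE (Subgroup.eq_top_of_card_eq E h)
    have h3 : p ^ n < p ^ N := by rw [← hn, ← hN]; omega
    exact (Nat.pow_lt_pow_iff_right hp).1 h3
  obtain ⟨K, hK, hEK⟩ := Sylow.exists_subgroup_card_pow_prime_le (G := F) p (n := n) (m := N - 1)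
    (by rw [hN]; exact pow_dvd_pow p (by omega)) E hn (by omega)
  refine ⟨K, hEK, ?_⟩
  have h4 := K.card_mul_index
  rw [hK, hN] at h4
  have h5 : p ^ N = p ^ (N - 1) * p := by rw [← pow_succ]; congr 1; omega
  rw [h5] at h4
  exact Nat.eq_of_mul_eq_mul_left (pow_pos (by omega) _) h4

/-- a proper normal subgroup `E` of `F` with `[F, G] ≤ E` lies in a normal subgroup of index `p`
in `F` -/
private theorem rank_exists_normal {G : Type*} [Group G] [Finite G] {p : ℕ} [Fact p.Prime]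
    (hG : IsPGroup p G) (E F : Subgroup G) (hEF : E ≤ F) (hne : ¬ F ≤ E)
    (hc : ⁅F, (⊤ : Subgroup G)⁆ ≤ E) :
    ∃ E₁ : Subgroup G, E₁.Normal ∧ E ≤ E₁ ∧ E₁ ≤ F ∧ E₁.relIndex F = p := by
  obtain ⟨K, hEK, hK⟩ := rank_exists_index (hG.to_subgroup F) (E.subgroupOf F)
    (fun h => hne (Subgroup.subgroupOf_eq_top.1 h))
  have h1 : E ≤ K.map F.subtype := by
    intro g hg
    exact ⟨⟨g, hEF hg⟩, hEK (Subgroup.mem_subgroupOf.2 hg), rfl⟩
  have h2 : K.map F.subtype ≤ F := Subgroup.map_subtype_le K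
  refine ⟨K.map F.subtype, ⟨fun n hn g => ?_⟩, h1, h2, ?_⟩
  · have h3 : g * n * g⁻¹ = ⁅g, n⁆ * n := by rw [commutatorElement_def]; group
    rw [h3]
    refine Subgroup.mul_mem _ (h1 (hc ?_)) hn
    rw [Subgroup.commutator_comm]
    exact Subgroup.commutator_mem_commutator (Subgroup.mem_top g) (h2 hn)
  · rw [Subgroup.relIndex, Subgroup.subgroupOf, Subgroup.comap_map_eq_self_of_injective
      F.subtype_injective, hK]

theorem PE_of_rank {G : Type*} [Group G] [Finite G] {p : ℕ} [Fact p.Prime] (hG : IsPGroup p G)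
    (r k : ℕ) (hk : 2 * r + 1 ≤ 2 ^ k) (S : Finset G) (hS : S.card ≤ r)
    (hN : Subgroup.closure (S : Set G) = derivedSeries G (k + 1)) :
    PE p (derivedSeries G (k + 1)) (derivedSeries G k) := by
  have hnil : Group.IsNilpotent G := hG.isNilpotent
  have hp : p.Prime := Fact.out
  set N := derivedSeries G (k + 1) with hNdef
  set W := derivedSeries G k with hWdef
  have hNn : N.Normal := derivedSeries_normal G (k + 1)
  have hWn : W.Normal := derivedSeries_normal G k
  have hNW : N ≤ W := derivedSeries_antitone G (by omega)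
  have hNWc : N = ⁅W, W⁆ := derivedSeries_succ G k
  -- the target
  obtain ⟨D, hD, hDn, hDN, q, hq0, hq, hqD⟩ : ∃ D : Subgroup G,
      D = (if p = 2 then pw 2 (pw 2 N) else pw p N) ∧ D.Normal ∧ D ≤ N ∧
        ∃ q : ℕ, 0 < q ∧ q ≤ p ^ 2 ∧ pw q N ≤ D := by
    by_cases h2 : p = 2
    · refine ⟨pw 2 (pw 2 N), by rw [if_pos h2], inferInstance,
        (pw_le_self _ _).trans (pw_le_self _ _), 4, by norm_num, by rw [h2]; norm_num, pw_four_le N⟩
    · refine ⟨pw p N, by rw [if_neg h2], inferInstance, pw_le_self _ _, p, hp.pos, ?_, le_rfl⟩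
      nlinarith [hp.pos]
  unfold PE
  rw [← hD]
  apply nil_le
  by_contra hcon
  set C := ⁅N, W⁆ with hC
  have hCn : C.Normal := Subgroup.commutator_normal N W
  have hCN : C ≤ N := Subgroup.commutator_le_left N W
  set E := ⁅C, (⊤ : Subgroup G)⁆ ⊔ D with hE
  have hEn : E.Normal := by
    rw [hE]
    infer_instance
  have hF : ⁅C ⊔ E, (⊤ : Subgroup G)⁆ ≤ E := by
    rw [Subgroup.commutator_le]
    intro x hx g _
    rw [Subgroup.mem_sup_of_normal_right] at hx
    obtain ⟨c, hc, e, he, rfl⟩ := hx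
    have h1 : ⁅c * e, g⁆ = c * ⁅e, g⁆ * c⁻¹ * ⁅c, g⁆ := by
      simp only [commutatorElement_def]; group
    rw [h1]
    refine E.mul_mem (hEn.conj_mem _ ?_ _) ((le_sup_left : _ ≤ E)
      (Subgroup.commutator_mem_commutator hc (Subgroup.mem_top g)))
    have h2 : ⁅e, g⁆ = e * (g * e⁻¹ * g⁻¹) := by simp only [commutatorElement_def]; group
    rw [h2]
    exact E.mul_mem he (hEn.conj_mem _ (E.inv_mem he) _)
  obtain ⟨E₁, hE₁n, h1, h2, h3⟩ := rank_exists_normal hG E (C ⊔ E) le_sup_right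
    (fun h => hcon (le_sup_left.trans h)) hF
  have hFN : C ⊔ E ≤ N := by
    refine sup_le hCN (sup_le ?_ hDN)
    exact (Subgroup.commutator_le_left C ⊤).trans hCN
  have hidx : E₁.relIndex N ≤ p ^ (2 * r + 1) := by
    rw [← Subgroup.relIndex_mul_relIndex E₁ (C ⊔ E) N h2 hFN, h3]
    have h4 : (C ⊔ E).relIndex N ≤ (pw q N ⊔ ⁅N, N⁆).relIndex N := by
      refine Subgroup.relIndex_le_of_le_left (sup_le ?_ ?_) ?_
      · exact hqD.trans ((le_sup_right : _ ≤ E).trans le_sup_right)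
      · exact (Subgroup.commutator_mono le_rfl hNW).trans le_sup_left
      · exact Subgroup.index_ne_zero_of_finite
    have h5 := relIndex_pw_le q hq0 N S hN
    have h6 : q ^ S.card ≤ (p ^ 2) ^ r :=
      (Nat.pow_le_pow_left hq _).trans (Nat.pow_le_pow_right (pow_pos hp.pos 2) hS)
    have h7 : p ^ (2 * r + 1) = p * (p ^ 2) ^ r := by rw [pow_succ, pow_mul]; ring
    rw [h7]
    exact Nat.mul_le_mul le_rfl ((h4.trans h5).trans h6)
  have h8 : C ≤ E₁ := section_le hG N E₁ (2 * r + 1) k hidx hk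
  have h9 : E₁ = C ⊔ E := le_antisymm h2 (sup_le h8 h1)
  rw [h9, Subgroup.relIndex_self] at h3
  exact hp.one_lt.ne h3

end Pool.PWL
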