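import Pool.Agent.PWL.DefsM
import Pool.Agent.PWL.PowW
import Pool.Agent.PWL.ChainW
import Pool.Agent.PWL.RankPE

/-!
# Powerful embedding relative to a nilpotent normal subgroup, and the derived series of a subgroup
-/

namespace Pool.PWL

open scoped commutatorElement

section

variable {G : Type*} [Group G]

theorem PE.powN {p : ℕ} [Fact p.Prime] {N W : Subgroup G} [N.Normal] [W.Normal]
    [Group.IsNilpotent W] (hNW : N ≤ W) (hN : PE p N W) : PE p (pw p N) W := by
  have hinj : Function.Injective W.subtype := W.subtype_injective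
  have e1 : (N.subgroupOf W).map W.subtype = N := Subgroup.map_subgroupOf_eq_of_le hNW
  have e2 : (⊤ : Subgroup W).map W.subtype = W := by
    rw [← MonoidHom.range_eq_map, Subgroup.range_subtype]
  have hcomm : ∀ A : Subgroup W, (⁅A, (⊤ : Subgroup W)⁆).map W.subtype =
      ⁅A.map W.subtype, W⁆ := by
    intro A
    rw [Subgroup.map_commutator, e2]
  unfold PE at hN ⊢
  by_cases hp : p = 2
  · subst hp
    rw [if_pos rfl] at hN ⊢
    have h1 : ⁅N.subgroupOf W, (⊤ : Subgroup W)⁆ ≤ pw 2 (pw 2 (N.subgroupOf W)) := by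
      rw [← Subgroup.map_le_map_iff_of_injective hinj, hcomm, map_pw, map_pw, e1]
      exact hN
    have h2 := two_pw (fun {C D} hD h => @nil_le _ _ _ C D hD h) (N.subgroupOf W) h1
    have h3 := Subgroup.map_mono (f := W.subtype) h2
    rw [hcomm, map_pw, map_pw, map_pw, map_pw, e1] at h3
    exact h3
  · rw [if_neg hp] at hN ⊢
    have h1 : ⁅N.subgroupOf W, (⊤ : Subgroup W)⁆ ≤ pw p (N.subgroupOf W) := by
      rw [← Subgroup.map_le_map_iff_of_injective hinj, hcomm, map_pw, e1]
      exact hN
    have h2 := pe_pw hp (N.subgroupOf W) h1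
    have h3 := Subgroup.map_mono (f := W.subtype) h2
    rw [hcomm, map_pw, map_pw, map_pw, e1] at h3
    exact h3

theorem PE.chainN {p : ℕ} [Fact p.Prime] {N W : Subgroup G} [N.Normal] [W.Normal]
    [Group.IsNilpotent W] (hNW : N ≤ W) (hN : PE p N W) (i : ℕ) : PE p (chain p N i) W := by
  induction i with
  | zero => exact hN
  | succ i ih => exact PE.powN ((chain_le p N i).trans hNW) ih

theorem dser_normal (N : Subgroup G) [N.Normal] (i : ℕ) : (dser N i).Normal := by
  unfold dser
  infer_instance

theorem dser_zero (N : Subgroup G) : dser N 0 = N := by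
  unfold dser
  rw [derivedSeries_zero, ← MonoidHom.range_eq_map, Subgroup.range_subtype]

theorem dser_succ (N : Subgroup G) (i : ℕ) : dser N (i + 1) = ⁅dser N i, dser N i⁆ := by
  unfold dser
  rw [derivedSeries_succ, Subgroup.map_commutator]

theorem dser_anti (N : Subgroup G) {i j : ℕ} (h : i ≤ j) : dser N j ≤ dser N i :=
  Subgroup.map_mono (derivedSeries_antitone N h)

theorem dser_eq_bot_iff (N : Subgroup G) (i : ℕ) : dser N i = ⊥ ↔ derivedSeries N i = ⊥ := by
  unfold dser
  exact Subgroup.map_eq_bot_iff_of_injective _ N.subtype_injective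

theorem dser_le_chain {p : ℕ} (N : Subgroup G) [N.Normal] (t : ℕ)
    (h : ∀ i, PE p (chain p (dser N (t + 1)) i) (dser N t)) (s : ℕ) :
    dser N (t + 1 + s) ≤ chain p (dser N (t + 1)) (2 ^ s - 1) := by
  have : (dser N (t + 1)).Normal := dser_normal N (t + 1)
  have h' : ∀ i, ⁅chain p (dser N (t + 1)) i, dser N t⁆ ≤ chain p (dser N (t + 1)) (i + 1) :=
    fun i => (h i).le
  induction s with
  | zero => exact le_rfl
  | succ s ih =>
    rw [← add_assoc, dser_succ]
    refine (Subgroup.commutator_mono ih ih).trans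
      ((chain_comm_W _ _ (dser_anti N (Nat.le_succ t)) h' _ _).trans ?_)
    apply chain_anti
    have : 1 ≤ 2 ^ s := Nat.one_le_two_pow
    rw [pow_succ]; omega

theorem PE_dser_of_rank [Finite G] {p : ℕ} [Fact p.Prime] (N : Subgroup G) (hN : IsPGroup p N)
    (r k : ℕ) (hk : 2 * r + 1 ≤ 2 ^ k)
    (hr : ∀ H : Subgroup G, H ≤ N → ∃ S : Finset G, S.card ≤ r ∧
      Subgroup.closure (S : Set G) = H) :
    PE p (dser N (k + 1)) (dser N k) := by
  classical
  obtain ⟨S, hS, hcl⟩ := hr (dser N (k + 1)) (Subgroup.map_subtype_le _)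
  have hSN : ∀ s ∈ S, s ∈ N := by
    intro s hs
    have h1 : s ∈ Subgroup.closure (S : Set G) := Subgroup.subset_closure hs
    rw [hcl] at h1
    exact Subgroup.map_subtype_le _ h1
  set S' : Finset N := S.subtype (fun g => g ∈ N) with hS'
  have hcard : S'.card ≤ r := by
    rw [hS', Finset.card_subtype]
    exact (Finset.card_filter_le _ _).trans hS
  have himg : N.subtype '' (S' : Set N) = (S : Set G) := by
    ext g
    constructor
    · rintro ⟨x, hx, rfl⟩
      rw [hS', Finset.mem_coe, Finset.mem_subtype] at hx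
      exact hx
    · intro hg
      refine ⟨⟨g, hSN g hg⟩, ?_, rfl⟩
      rw [hS', Finset.mem_coe, Finset.mem_subtype]
      exact hg
  have hcl' : Subgroup.closure (S' : Set N) = derivedSeries N (k + 1) := by
    apply Subgroup.map_injective N.subtype_injective
    rw [MonoidHom.map_closure, himg, hcl]
    rfl
  have key := PE_of_rank hN r k hk S' hcard hcl'
  unfold PE at key ⊢
  have h3 := Subgroup.map_mono (f := N.subtype) key
  rw [Subgroup.map_commutator] at h3
  by_cases hp : p = 2
  · rw [if_pos hp] at h3 ⊢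
    rw [map_pw, map_pw] at h3
    exact h3
  · rw [if_neg hp] at h3 ⊢
    rw [map_pw] at h3
    exact h3

end

end Pool.PWL
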