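import Pool.Agent.PWL.Div
import Pool.Agent.PWL.DefsM
import Pool.Agent.TKB.RepA

/-!
# A representation over a given one of a subgroup, of degree not divisible by `n`
-/

namespace Pool.PWL

section
variable {G : Type} [Group G]

/-- The functions on `G` with values in `Θ` which transform by `Θ` on the right. -/
def indSSub (S : Subgroup G) (Θ : FDRep ℂ S) : Submodule ℂ (G → Θ) where
  carrier := {f | ∀ (g : G) (s : S), f (g * s) = Θ.ρ s⁻¹ (f g)}
  add_mem' := by
    intro a b ha hb g s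
    show a (g * s) + b (g * s) = Θ.ρ s⁻¹ (a g + b g)
    rw [ha, hb, map_add]
  zero_mem' := by
    intro g s
    show (0 : Θ) = Θ.ρ s⁻¹ (0 : Θ)
    rw [map_zero]
  smul_mem' := by
    intro z a ha g s
    show z • a (g * s) = Θ.ρ s⁻¹ (z • a g)
    rw [ha, map_smul]

/-- Left translation on these functions. -/
def indSRep (S : Subgroup G) (Θ : FDRep ℂ S) : Representation ℂ G (indSSub S Θ) where
  toFun := fun g =>
    { toFun := fun f => ⟨fun y => f.1 (g⁻¹ * y), fun y s => by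
        show f.1 (g⁻¹ * (y * s)) = Θ.ρ s⁻¹ (f.1 (g⁻¹ * y))
        rw [← mul_assoc]
        exact f.2 _ s⟩
      map_add' := fun _ _ => rfl
      map_smul' := fun _ _ => rfl }
  map_one' := by
    apply LinearMap.ext
    intro f
    apply Subtype.ext
    funext y
    show f.1 ((1 : G)⁻¹ * y) = f.1 y
    rw [inv_one, one_mul]
  map_mul' := by
    intro a b
    apply LinearMap.ext
    intro f
    apply Subtype.ext
    funext y
    show f.1 ((a * b)⁻¹ * y) = f.1 (b⁻¹ * (a⁻¹ * y))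
    rw [mul_inv_rev, mul_assoc]

lemma indSRep_apply (S : Subgroup G) (Θ : FDRep ℂ S) (g : G) (f : indSSub S Θ) (y : G) :
    (indSRep S Θ g f).1 y = f.1 (g⁻¹ * y) := rfl

lemma indS_mem (S : Subgroup G) (g : G) : ((g : G ⧸ S).out)⁻¹ * g ∈ S := by
  rw [← QuotientGroup.eq, QuotientGroup.out_eq']

/-- Such a function is given by its values on representatives. -/
noncomputable def indSEquiv (S : Subgroup G) (Θ : FDRep ℂ S) :
    indSSub S Θ ≃ₗ[ℂ] ((G ⧸ S) → Θ) where
  toFun := fun f q => f.1 q.out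
  map_add' := fun _ _ => rfl
  map_smul' := fun _ _ => rfl
  invFun := fun φ => ⟨fun g => Θ.ρ (⟨_, indS_mem S g⟩ : S)⁻¹ (φ (g : G ⧸ S)), fun g s => by
    have e1 : ((g * s : G) : G ⧸ S) = (g : G ⧸ S) := by
      rw [QuotientGroup.eq]
      have : (g * (s : G))⁻¹ * g = ((s : G))⁻¹ := by group
      rw [this]
      exact S.inv_mem s.2
    have e2 : (⟨_, indS_mem S (g * s)⟩ : S) = ⟨_, indS_mem S g⟩ * s := by
      apply Subtype.ext
      show (((g * s : G) : G ⧸ S).out)⁻¹ * (g * s) = ((g : G ⧸ S).out)⁻¹ * g * s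
      rw [e1, mul_assoc]
    show Θ.ρ (⟨_, indS_mem S (g * s)⟩ : S)⁻¹ (φ ((g * s : G) : G ⧸ S)) =
      Θ.ρ s⁻¹ (Θ.ρ (⟨_, indS_mem S g⟩ : S)⁻¹ (φ (g : G ⧸ S)))
    rw [e2, e1, mul_inv_rev, map_mul]
    rfl⟩
  left_inv := by
    intro f
    apply Subtype.ext
    funext g
    show Θ.ρ (⟨_, indS_mem S g⟩ : S)⁻¹ (f.1 (g : G ⧸ S).out) = f.1 g
    have h1 := f.2 ((g : G ⧸ S).out) ⟨_, indS_mem S g⟩
    rw [← h1]
    show f.1 ((g : G ⧸ S).out * (((g : G ⧸ S).out)⁻¹ * g)) = f.1 g
    rw [mul_inv_cancel_left]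
  right_inv := by
    intro φ
    funext q
    have e1 : ((q.out : G) : G ⧸ S) = q := QuotientGroup.out_eq' q
    have e2 : (⟨_, indS_mem S q.out⟩ : S) = 1 := by
      apply Subtype.ext
      show (((q.out : G) : G ⧸ S).out)⁻¹ * q.out = 1
      rw [e1, inv_mul_cancel]
    show Θ.ρ (⟨_, indS_mem S q.out⟩ : S)⁻¹ (φ ((q.out : G) : G ⧸ S)) = φ q
    rw [e2, e1, inv_one, map_one]
    rfl

lemma indS_finrank [Finite G] (S : Subgroup G) (Θ : FDRep ℂ S) :
    Module.finrank ℂ (indSSub S Θ) = S.index * Module.finrank ℂ Θ := by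
  classical
  have hfin : Finite (G ⧸ S) := inferInstance
  have := Fintype.ofFinite (G ⧸ S)
  rw [LinearEquiv.finrank_eq (indSEquiv S Θ), Module.finrank_pi_fintype]
  rw [Finset.sum_const, Subgroup.index, Nat.card_eq_fintype_card, smul_eq_mul,
    Finset.card_univ]

end

theorem exists_ind {G : Type} [Group G] [Finite G] (S : Subgroup G) (Θ : FDRep ℂ S)
    (hΘ : CategoryTheory.Simple Θ) (n : ℕ) (h : ¬ n ∣ S.index * Module.finrank ℂ Θ) :
    ∃ V : FDRep ℂ G, CategoryTheory.Simple V ∧ ¬ n ∣ Module.finrank ℂ V ∧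
      ∃ f : V →ₗ[ℂ] Θ, Function.Surjective f ∧
        ∀ (s : S) (x : V), f (V.ρ (s : G) x) = Θ.ρ s (f x) := by
  classical
  have hfd : FiniteDimensional ℂ (indSSub S Θ) :=
    Module.Finite.equiv (indSEquiv S Θ).symm
  rw [← indS_finrank] at h
  obtain ⟨W, hW0, hWs, hWirr, hWn⟩ := exists_irr_not_dvd (indSRep S Θ) n h
  let ρW : Representation ℂ G W :=
    { toFun := fun g => (indSRep S Θ g).restrict (hWs g)
      map_one' := by ext; simp
      map_mul' := fun x y => by ext; simp }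
  have hnt : Nontrivial W := (Submodule.nontrivial_iff_ne_bot).2 hW0
  let f : W →ₗ[ℂ] Θ :=
    { toFun := fun w => w.1.1 1
      map_add' := fun _ _ => rfl
      map_smul' := fun _ _ => rfl }
  have hfs : ∀ (s : S) (w : W), f (ρW (s : G) w) = Θ.ρ s (f w) := by
    intro s w
    show w.1.1 ((s : G)⁻¹ * 1) = Θ.ρ s (w.1.1 1)
    have h1 := w.1.2 1 s⁻¹
    rw [inv_inv, one_mul] at h1
    rw [mul_one, ← h1]
    rfl
  refine ⟨FDRep.of ρW, ?_, hWn, f, ?_, fun s w => hfs s w⟩
  · apply TKB.simple_of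
    intro U hU
    have h1 := hWirr (U.map W.subtype) (by
      rintro x ⟨y, _, rfl⟩
      exact y.2) (by
      rintro g x ⟨y, hy, rfl⟩
      exact ⟨ρW g y, hU g y hy, rfl⟩)
    rcases h1 with h2 | h2
    · left
      rw [Submodule.eq_bot_iff]
      intro x hx
      have hx' : (x : indSSub S Θ) ∈ U.map W.subtype := ⟨x, hx, rfl⟩
      rw [h2, Submodule.mem_bot] at hx'
      exact Subtype.ext hx'
    · right
      rw [Submodule.eq_top_iff']
      intro x
      have hx : (x : indSSub S Θ) ∈ U.map W.subtype := by rw [h2]; exact x.2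
      obtain ⟨y, hy, hyx⟩ := hx
      have h3 : y = x := Subtype.ext hyx
      rwa [← h3]
  · -- the range is stable and not zero
    obtain ⟨w, hw⟩ := exists_ne (0 : W)
    have hg : ∃ g : G, w.1.1 g ≠ 0 := by
      by_contra hcon
      push Not at hcon
      apply hw
      apply Subtype.ext
      apply Subtype.ext
      funext g
      exact hcon g
    obtain ⟨g, hg⟩ := hg
    have hrange := TKB.simple_inv Θ (LinearMap.range f) (by
      rintro s _ ⟨w, rfl⟩
      exact ⟨ρW (s : G) w, hfs s w⟩)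
    rcases hrange with h2 | h2
    · exfalso
      apply hg
      have h3 : f (ρW g⁻¹ w) ∈ LinearMap.range f := ⟨_, rfl⟩
      rw [h2, Submodule.mem_bot] at h3
      have h4 : f (ρW g⁻¹ w) = w.1.1 (g⁻¹⁻¹ * 1) := rfl
      rw [h4, inv_inv, mul_one] at h3
      exact h3
    · exact LinearMap.range_eq_top.1 h2

end Pool.PWL
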