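import Pool.Agent.PWL.DefsW
import Pool.Agent.PWL.PE
import Pool.Agent.PWL.Two
/-!
# The commutator subgroup of a powerful group is powerfully embedded
-/
namespace Pool.PWL

open scoped commutatorElement

/-- The commutator subgroup of a powerful `p`-group is powerfully embedded. -/
theorem PE_derived {G : Type*} [Group G] [Finite G] {p : ℕ} [Fact p.Prime] (hG : IsPGroup p G)
    (h : ⁅(⊤ : Subgroup G), (⊤ : Subgroup G)⁆ ≤ pw (if p = 2 then 4 else p) ⊤) :
    PE p ⁅(⊤ : Subgroup G), (⊤ : Subgroup G)⁆ ⊤ := by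
  have hnil : Group.IsNilpotent G := hG.isNilpotent
  unfold PE
  by_cases hp : p = 2
  · subst hp
    rw [if_pos rfl] at h ⊢
    exact two_comm (fun {C D} hD h => @nil_le _ _ _ C D hD h) hG ⊤ (h.trans (pw_four_le ⊤))
  · rw [if_neg hp] at h ⊢
    exact pe_comm hp ⊤ h

end Pool.PWL
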