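import Pool.Agent.PWL.DefsM
import Pool.Agent.PWL.PEN
import Pool.Agent.PWL.RankPE
import Pool.Agent.PWL.PowDerived

/-!
# Powerful embedding of terms of the derived series of a subgroup
-/

namespace Pool.PWL

open scoped commutatorElement

private theorem ped_transfer {G : Type*} [Group G] (p : ℕ) (N : Subgroup G) (A B : Subgroup N)
    (h : PE p A B) : PE p (A.map N.subtype) (B.map N.subtype) := by
  unfold PE at h ⊢
  have h3 := Subgroup.map_mono (f := N.subtype) h
  rw [Subgroup.map_commutator] at h3
  by_cases hp : p = 2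
  · rw [if_pos hp] at h3 ⊢
    rw [map_pw, map_pw] at h3
    exact h3
  · rw [if_neg hp] at h3 ⊢
    rw [map_pw] at h3
    exact h3

/-! row PED (from RankPE): only the subgroup dser N (k+1) has to be generated by r elements -/
theorem PE_dser_of_gen {G : Type*} [Group G] [Finite G] {p : ℕ} [Fact p.Prime]
    (N : Subgroup G) (hN : IsPGroup p N) (r k : ℕ) (hk : 2 * r + 1 ≤ 2 ^ k) (S : Finset G)
    (hS : S.card ≤ r) (hgen : Subgroup.closure (S : Set G) = dser N (k + 1)) :
    PE p (dser N (k + 1)) (dser N k) := by
  classical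
  have hSN : ∀ s ∈ S, s ∈ N := by
    intro s hs
    have h1 : s ∈ Subgroup.closure (S : Set G) := Subgroup.subset_closure hs
    rw [hgen] at h1
    exact Subgroup.map_subtype_le _ h1
  set S' : Finset N := S.subtype (fun g => g ∈ N) with hS'
  have hcard : S'.card ≤ r := by
    rw [hS', Finset.card_subtype]
    exact (Finset.card_filter_le _ _).trans hS
  have himg : N.subtype '' (S' : Set N) = (S : Set G) := by
    ext g
    constructor
    · rintro ⟨x, hx, rfl⟩
      rw [hS', Finset.mem_coe, Finset.mem_subtype] at hx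
      exact hx
    · intro hg
      refine ⟨⟨g, hSN g hg⟩, ?_, rfl⟩
      rw [hS', Finset.mem_coe, Finset.mem_subtype]
      exact hg
  have hcl' : Subgroup.closure (S' : Set N) = derivedSeries N (k + 1) := by
    apply Subgroup.map_injective N.subtype_injective
    rw [MonoidHom.map_closure, himg, hgen]
    rfl
  exact ped_transfer p N _ _ (PE_of_rank hN r k hk S' hcard hcl')

/-! row PED (second part) -/
theorem PE_dser_of_powerful {G : Type*} [Group G] [Finite G] {p : ℕ} [Fact p.Prime]
    (N : Subgroup G) (hN : IsPGroup p N)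
    (h : ⁅N, N⁆ ≤ pw (if p = 2 then 4 else p) N) : PE p (dser N 1) (dser N 0) := by
  have e2 : (⊤ : Subgroup N).map N.subtype = N := by
    rw [← MonoidHom.range_eq_map, Subgroup.range_subtype]
  have h1 : ⁅(⊤ : Subgroup N), (⊤ : Subgroup N)⁆ ≤ pw (if p = 2 then 4 else p) ⊤ := by
    rw [← Subgroup.map_le_map_iff_of_injective N.subtype_injective, Subgroup.map_commutator,
      map_pw, e2]
    exact h
  have h2 := ped_transfer p N _ _ (PE_derived hN h1)
  have h3 : dser N 1 = (⁅(⊤ : Subgroup N), (⊤ : Subgroup N)⁆).map N.subtype := by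
    unfold dser
    rw [derivedSeries_succ, derivedSeries_zero]
  have h4 : dser N 0 = (⊤ : Subgroup N).map N.subtype := by
    unfold dser
    rw [derivedSeries_zero]
  rw [h3, h4]
  exact h2

end Pool.PWL
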