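import Pool.Agent.PWL.Div
import Pool.Agent.PWL.DefsM
import Pool.Agent.TKB.RepA

/-!
# A constituent of the restriction to a subgroup whose degree is not divisible by `n`
-/

namespace Pool.PWL

theorem exists_res {G : Type} [Group G] [Finite G] (S : Subgroup G) (V : FDRep ℂ G) (n : ℕ)
    (h : ¬ n ∣ Module.finrank ℂ V) :
    ∃ Θ : FDRep ℂ S, CategoryTheory.Simple Θ ∧ ¬ n ∣ Module.finrank ℂ Θ ∧
      ∃ i : Θ →ₗ[ℂ] V, Function.Injective i ∧
        ∀ (s : S) (x : Θ), i (Θ.ρ s x) = V.ρ (s : G) (i x) := by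
  let ρS : Representation ℂ S V := V.ρ.comp S.subtype
  obtain ⟨W, hW0, hWs, hWirr, hWn⟩ := exists_irr_not_dvd ρS n h
  let ρW : Representation ℂ S W :=
    { toFun := fun g => (ρS g).restrict (hWs g)
      map_one' := by ext; simp
      map_mul' := fun x y => by ext; simp }
  have hnt : Nontrivial W := (Submodule.nontrivial_iff_ne_bot).2 hW0
  refine ⟨FDRep.of ρW, ?_, hWn, W.subtype, W.injective_subtype, fun s x => rfl⟩
  apply TKB.simple_of
  intro U hU
  have h1 := hWirr (U.map W.subtype) (by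
    rintro x ⟨y, _, rfl⟩
    exact y.2) (by
    rintro g x ⟨y, hy, rfl⟩
    exact ⟨ρW g y, hU g y hy, rfl⟩)
  rcases h1 with h2 | h2
  · left
    rw [Submodule.eq_bot_iff]
    intro x hx
    have hx' : (x : V) ∈ U.map W.subtype := ⟨x, hx, rfl⟩
    rw [h2, Submodule.mem_bot] at hx'
    exact Subtype.ext hx'
  · right
    rw [Submodule.eq_top_iff']
    intro x
    have hx : (x : V) ∈ U.map W.subtype := by rw [h2]; exact x.2
    obtain ⟨y, hy, hyx⟩ := hx
    have h3 : y = x := Subtype.ext hyx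
    rwa [← h3]

end Pool.PWL
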