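import Pool.Agent.PWL.Basic

/-!
# The norm trick in a finite abelian `p`-group, `p` odd
-/

namespace Pool.PWL

private theorem alg_iter {A : Type*} [CommGroup A] {p : ℕ} (φ : A →* A)
    (hφ : ∀ a, ∃ b, φ a = a * b ^ p) {a b : A} (hab : φ a = a * b ^ p) (j : ℕ) :
    ∃ e : A, φ^[j] a = a * (b ^ p) ^ j * e ^ (p ^ 2) := by
  induction j with
  | zero => exact ⟨1, by simp⟩
  | succ j ih =>
    obtain ⟨e, he⟩ := ih
    obtain ⟨b', hb'⟩ := hφ b
    refine ⟨b' ^ j * φ e, ?_⟩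
    rw [Function.iterate_succ_apply', he, map_mul, map_mul, map_pow, map_pow, map_pow, hab, hb']
    simp only [mul_pow, ← pow_mul]
    rw [show p * p * j = j * p ^ 2 by ring, show p * (j + 1) = p + p * j by ring, pow_add]
    simp only [mul_assoc]

private theorem alg_step {A M : Type*} [CommGroup A] [CommGroup M] {p q : ℕ}
    (hq : p = 2 * q + 1) (φ : A →* A) (hφ : ∀ a, ∃ b, φ a = a * b ^ p) (μ : A →* M)
    (hμ : ∀ a, μ (∏ j ∈ Finset.range p, (φ^[j]) a) = 1) (a : A) :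
    ∃ c : A, μ (a ^ p) = μ (c ^ p) ^ p := by
  obtain ⟨b, hab⟩ := hφ a
  choose e he using alg_iter φ hφ hab
  have h1 := hμ a
  rw [Finset.prod_congr rfl (fun j _ => he j), Finset.prod_mul_distrib, Finset.prod_mul_distrib,
    Finset.prod_const, Finset.card_range, Finset.prod_pow, Finset.prod_pow_eq_pow_sum,
    Finset.sum_range_id] at h1
  have h2 : p * (p - 1) / 2 = p * q := by
    rw [hq, Nat.add_sub_cancel, show (2 * q + 1) * (2 * q) = 2 * ((2 * q + 1) * q) by ring,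
      Nat.mul_div_cancel_left _ (by norm_num)]
  rw [h2, map_mul, map_mul] at h1
  refine ⟨(b ^ q * ∏ j ∈ Finset.range p, e j)⁻¹, ?_⟩
  rw [← map_pow, ← pow_mul, inv_pow, map_inv, eq_inv_iff_mul_eq_one, mul_pow, map_mul,
    ← mul_assoc, ← pow_mul, show q * (p * p) = p * (p * q) by ring, pow_mul, ← pow_two]
  exact h1

theorem norm_trick {A M : Type*} [CommGroup A] [Finite A] [CommGroup M] {p : ℕ} [Fact p.Prime]
    (hp2 : p ≠ 2) (hA : IsPGroup p A) (φ : A →* A) (hφ : ∀ a, ∃ b, φ a = a * b ^ p) (μ : A →* M)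
    (hμ : ∀ a, μ (∏ j ∈ Finset.range p, (φ^[j]) a) = 1) (a : A) : μ (a ^ p) = 1 := by
  obtain ⟨q, hq⟩ : Odd p := (Fact.out : p.Prime).odd_of_ne_two hp2
  have h1 : ∀ n : ℕ, ∀ a : A, ∃ c : A, μ (a ^ p) = μ (c ^ p) ^ (p ^ n) := by
    intro n
    induction n with
    | zero => exact fun a => ⟨a, by simp⟩
    | succ n ih =>
      intro a
      obtain ⟨c, hc⟩ := ih a
      obtain ⟨d, hd⟩ := alg_step hq φ hφ μ hμ c
      exact ⟨d, by rw [hc, hd, ← pow_mul, ← pow_succ']⟩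
  obtain ⟨n, hn⟩ := (IsPGroup.iff_card.1 hA)
  obtain ⟨c, hc⟩ := h1 n a
  rw [hc, ← map_pow, ← pow_mul, mul_comm, pow_mul, ← hn, pow_card_eq_one', one_pow, map_one]

end Pool.PWL
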