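import Pool.Agent.PWL.Mono
import Pool.Agent.TKB.RepB

/-!
# The eigenvalue character and the element `x`
-/

set_option autoImplicit false

namespace Pool.PWL

open scoped commutatorElement

/-- The element `x` for a proper subgroup of a finite `p`-group. -/
theorem exists_setup_x {G : Type} [Group G] [Finite G] {p : ℕ} [Fact p.Prime]
    (hG : IsPGroup p G) (H : Subgroup G) (hH : H ≠ ⊤) :
    ∃ x : G, x ∉ H ∧ (∀ h : G, h ∈ H ↔ x⁻¹ * h * x ∈ H) ∧ x ^ p ∈ H := by
  classical
  have hnil : Group.IsNilpotent G := hG.isNilpotent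
  have hlt := Group.normalizerCondition_of_isNilpotent (G := G) H (lt_top_iff_ne_top.2 hH)
  obtain ⟨g, hgN, hgH⟩ := Set.exists_of_ssubset hlt
  obtain ⟨n, hn⟩ := hG g
  have hex : ∃ k, g ^ p ^ k ∈ H := ⟨n, by rw [hn]; exact H.one_mem⟩
  set k := Nat.find hex with hk
  have hkH : g ^ p ^ k ∈ H := Nat.find_spec hex
  have hk0 : k ≠ 0 := by
    intro h0
    rw [h0, pow_zero, pow_one] at hkH
    exact hgH hkH
  obtain ⟨j, hj⟩ := Nat.exists_eq_succ_of_ne_zero hk0
  have hjH : g ^ p ^ j ∉ H := Nat.find_min hex (by omega)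
  refine ⟨g ^ p ^ j, hjH, ?_, ?_⟩
  · intro h
    have hx : (g ^ p ^ j)⁻¹ ∈ Subgroup.normalizer (H : Set G) :=
      inv_mem (pow_mem hgN _)
    have h2 := Subgroup.mem_normalizer_iff.1 hx h
    rw [inv_inv] at h2
    exact h2
  · rw [← pow_mul, ← pow_succ]
    rw [hj] at hkH
    exact hkH

/-! module Setup: the eigenvalue character and the element x -/
theorem exists_setup {G : Type} [Group G] [Finite G] {p : ℕ} [Fact p.Prime] (hG : IsPGroup p G)
    (V : FDRep ℂ G) (hV : CategoryTheory.Simple V) (h1 : 1 < Module.finrank ℂ V) :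
    ∃ (H : Subgroup G) (v : V) (ν : H →* ℂˣ) (x : G), v ≠ 0 ∧ H.index ≤ Module.finrank ℂ V ∧
      (∀ h : H, V.ρ (h : G) v = (ν h : ℂ) • v) ∧ x ∉ H ∧ (∀ h : G, h ∈ H ↔ x⁻¹ * h * x ∈ H) ∧
      x ^ p ∈ H := by
  have hnt : Nontrivial V := Pool.TKB.simple_nontrivial V
  obtain ⟨H, v, hv, hidx, hz⟩ := exists_line hG (X := V) V.ρ
  choose! z hz using hz
  have hinj : Function.Injective (fun c : ℂ => c • v) := smul_left_injective ℂ hv
  let f : H →* ℂ :=
    { toFun := fun h => z h
      map_one' := by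
        apply hinj
        show z ((1 : H) : G) • v = (1 : ℂ) • v
        rw [← hz _ (1 : H).2, one_smul, Subgroup.coe_one, map_one]
        rfl
      map_mul' := fun a b => by
        apply hinj
        show z ((a * b : H) : G) • v = (z a * z b) • v
        rw [← hz _ (a * b).2, Subgroup.coe_mul, map_mul]
        show V.ρ a (V.ρ b v) = (z a * z b) • v
        rw [hz _ b.2, map_smul, hz _ a.2, smul_smul, mul_comm] }
  have hHtop : H ≠ ⊤ := by
    intro ht
    have hst : ∀ g, ∀ w ∈ Submodule.span ℂ {v}, V.ρ g w ∈ Submodule.span ℂ {v} := by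
      intro g w hw
      obtain ⟨c, rfl⟩ := Submodule.mem_span_singleton.1 hw
      rw [map_smul, hz g (ht ▸ Subgroup.mem_top g), smul_smul]
      exact Submodule.mem_span_singleton.2 ⟨_, rfl⟩
    rcases Pool.TKB.simple_inv V _ hst with hb | hb
    · rw [Submodule.span_singleton_eq_bot] at hb
      exact hv hb
    · have h2 : Module.finrank ℂ (Submodule.span ℂ {v} : Submodule ℂ V) = 1 :=
        finrank_span_singleton hv
      rw [hb, finrank_top] at h2
      omega
  obtain ⟨x, hx1, hx2, hx3⟩ := exists_setup_x hG H hHtop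
  refine ⟨H, v, f.toHomUnits, x, hv, hidx, ?_, hx1, hx2, hx3⟩
  intro h
  rw [MonoidHom.coe_toHomUnits]
  exact hz _ h.2

/-! module Fixed -/
theorem trivial_of_fixed {G : Type} [Group G] (V : FDRep ℂ G) (hV : CategoryTheory.Simple V)
    (N : Subgroup G) [N.Normal] (v : V) (hv : v ≠ 0) (h : ∀ n ∈ N, V.ρ n v = v) :
    ∀ n ∈ N, ∀ w : V, V.ρ n w = w := by
  let W : Submodule ℂ V :=
    { carrier := {w | ∀ n ∈ N, V.ρ n w = w}
      add_mem' := fun {a b} ha hb n hn => by rw [map_add, ha n hn, hb n hn]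
      zero_mem' := fun n _ => map_zero _
      smul_mem' := fun c a ha n hn => by rw [map_smul, ha n hn] }
  have hst : ∀ g, ∀ w ∈ W, V.ρ g w ∈ W := by
    intro g w hw n hn
    have hw' : ∀ n ∈ N, V.ρ n w = w := hw
    have h2 : g⁻¹ * n * g ∈ N := by
      have := Subgroup.Normal.conj_mem (inferInstance : N.Normal) n hn g⁻¹
      rwa [inv_inv] at this
    have h3 : V.ρ n (V.ρ g w) = V.ρ g (V.ρ (g⁻¹ * n * g) w) := by
      rw [← Module.End.mul_apply, ← Module.End.mul_apply, ← map_mul, ← map_mul]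
      congr 2
      group
    rw [h3, hw' _ h2]
  rcases Pool.TKB.simple_inv V W hst with hb | hb
  · exact absurd ((Submodule.mem_bot ℂ).1 (hb ▸ (show v ∈ W from h))) hv
  · intro n hn w
    have hw : w ∈ W := hb ▸ Submodule.mem_top
    exact hw n hn

end Pool.PWL
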