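import Pool.Agent.PWL.Setup

/-!
# The eigenvalue character and the element `x` inside a normal subgroup `W`
-/

set_option autoImplicit false

namespace Pool.PWL

open scoped commutatorElement

/-- an element of `W` which normalises `H` and is not in `H` -/
private theorem SetupW_elt {G : Type} [Group G] [Finite G] {p : ℕ} [Fact p.Prime]
    (hG : IsPGroup p G) (H W : Subgroup G) [W.Normal] (hW : ¬ W ≤ H) :
    ∃ w ∈ W, w ∉ H ∧ w ∈ Subgroup.normalizer (H : Set G) := by
  classical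
  set K : Subgroup G := H ⊔ W with hK
  have hHK : H ≤ K := le_sup_left
  have hWK : W ≤ K := le_sup_right
  have hnil : Group.IsNilpotent K := (hG.to_subgroup K).isNilpotent
  have hne : H.subgroupOf K ≠ ⊤ := by
    intro h
    rw [Subgroup.subgroupOf_eq_top] at h
    exact hW (hWK.trans h)
  have hlt := Group.normalizerCondition_of_isNilpotent (G := K) (H.subgroupOf K)
    (lt_top_iff_ne_top.2 hne)
  obtain ⟨n, hnN, hnH⟩ := Set.exists_of_ssubset hlt
  have hnH' : (n : G) ∉ H := fun h => hnH (Subgroup.mem_subgroupOf.2 h)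
  have hnorm : (n : G) ∈ Subgroup.normalizer (H : Set G) := by
    rw [Subgroup.mem_normalizer_iff]
    intro h
    have hh := Subgroup.mem_normalizer_iff.1 hnN
    constructor
    · intro hh1
      have h2 := (hh ⟨h, hHK hh1⟩).1 (Subgroup.mem_subgroupOf.2 hh1)
      exact Subgroup.mem_subgroupOf.1 h2
    · intro hh1
      have hhK : h ∈ K := by
        have h3 : (n : G)⁻¹ * ((n : G) * h * (n : G)⁻¹) * n ∈ K :=
          K.mul_mem (K.mul_mem (K.inv_mem n.2) (hHK hh1)) n.2
        have h4 : (n : G)⁻¹ * ((n : G) * h * (n : G)⁻¹) * n = h := by group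
        rwa [h4] at h3
      have h2 := (hh ⟨h, hhK⟩).2 (Subgroup.mem_subgroupOf.2 hh1)
      exact Subgroup.mem_subgroupOf.1 h2
  have hmem : (n : G) ∈ ((H ⊔ W : Subgroup G) : Set G) := n.2
  rw [Subgroup.mul_normal] at hmem
  obtain ⟨h, hh, w, hw, hhw⟩ := Set.mem_mul.1 hmem
  have hwe : w = h⁻¹ * (n : G) := by rw [← hhw]; group
  refine ⟨w, hw, ?_, ?_⟩
  · intro hwH
    apply hnH'
    rw [← hhw]
    exact H.mul_mem hh hwH
  · rw [hwe]
    exact mul_mem (inv_mem (Subgroup.le_normalizer hh)) hnorm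

/-- The element `x` of `W`. -/
private theorem SetupW_x {G : Type} [Group G] [Finite G] {p : ℕ} [Fact p.Prime]
    (hG : IsPGroup p G) (H W : Subgroup G) [W.Normal] (hW : ¬ W ≤ H) :
    ∃ x ∈ W, x ∉ H ∧ (∀ h : G, h ∈ H ↔ x⁻¹ * h * x ∈ H) ∧ x ^ p ∈ H := by
  classical
  obtain ⟨g, hgW, hgH, hgN⟩ := SetupW_elt hG H W hW
  obtain ⟨n, hn⟩ := hG g
  have hex : ∃ k, g ^ p ^ k ∈ H := ⟨n, by rw [hn]; exact H.one_mem⟩
  set k := Nat.find hex with hk
  have hkH : g ^ p ^ k ∈ H := Nat.find_spec hex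
  have hk0 : k ≠ 0 := by
    intro h0
    rw [h0, pow_zero, pow_one] at hkH
    exact hgH hkH
  obtain ⟨j, hj⟩ := Nat.exists_eq_succ_of_ne_zero hk0
  have hjH : g ^ p ^ j ∉ H := Nat.find_min hex (by omega)
  refine ⟨g ^ p ^ j, W.pow_mem hgW _, hjH, ?_, ?_⟩
  · intro h
    have hx : (g ^ p ^ j)⁻¹ ∈ Subgroup.normalizer (H : Set G) :=
      inv_mem (pow_mem hgN _)
    have h2 := Subgroup.mem_normalizer_iff.1 hx h
    rw [inv_inv] at h2
    exact h2
  · rw [← pow_mul, ← pow_succ]
    rw [hj] at hkH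
    exact hkH

/-! row SetupW (from Mono as in Setup, but the element x is taken in the normal subgroup W) -/
theorem exists_setupW {G : Type} [Group G] [Finite G] {p : ℕ} [Fact p.Prime] (hG : IsPGroup p G)
    (W : Subgroup G) [W.Normal] (V : FDRep ℂ G) (hV : CategoryTheory.Simple V) :
    ∃ (H : Subgroup G) (v : V) (ν : H →* ℂˣ), v ≠ 0 ∧ H.index ≤ Module.finrank ℂ V ∧
      (∀ h : H, V.ρ (h : G) v = (ν h : ℂ) • v) ∧
      (W ≤ H ∨ ∃ x ∈ W, x ∉ H ∧ (∀ h : G, h ∈ H ↔ x⁻¹ * h * x ∈ H) ∧ x ^ p ∈ H) := by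
  have hnt : Nontrivial V := Pool.TKB.simple_nontrivial V
  obtain ⟨H, v, hv, hidx, hz⟩ := exists_line hG (X := V) V.ρ
  choose! z hz using hz
  have hinj : Function.Injective (fun c : ℂ => c • v) := smul_left_injective ℂ hv
  let f : H →* ℂ :=
    { toFun := fun h => z h
      map_one' := by
        apply hinj
        show z ((1 : H) : G) • v = (1 : ℂ) • v
        rw [← hz _ (1 : H).2, one_smul, Subgroup.coe_one, map_one]
        rfl
      map_mul' := fun a b => by
        apply hinj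
        show z ((a * b : H) : G) • v = (z a * z b) • v
        rw [← hz _ (a * b).2, Subgroup.coe_mul, map_mul]
        show V.ρ a (V.ρ b v) = (z a * z b) • v
        rw [hz _ b.2, map_smul, hz _ a.2, smul_smul, mul_comm] }
  refine ⟨H, v, f.toHomUnits, hv, hidx, ?_, ?_⟩
  · intro h
    rw [MonoidHom.coe_toHomUnits]
    exact hz _ h.2
  · by_cases hW : W ≤ H
    · exact Or.inl hW
    · exact Or.inr (SetupW_x hG H W hW)

end Pool.PWL
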