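import Pool.Agent.PWL.Basic
import Pool.Agent.PWL.DefsW
import Pool.Agent.PWL.Ind
import Pool.Agent.PWL.Setup
import Pool.Agent.PWL.SetupW
import Pool.Agent.PWL.Alg
import Pool.Agent.TKB.RepB
import Pool.Agent.TKB.Defs

/-!
# The step for subgroups powerfully embedded relative to a normal subgroup `W`
-/

namespace Pool.PWL

open scoped commutatorElement

section StepW

private theorem swp_conj_mem {G : Type} [Group G] {H : Subgroup G} {x : G}
    (hxH : ∀ h : G, h ∈ H ↔ x⁻¹ * h * x ∈ H) (j : ℕ) (h : G) :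
    h ∈ H ↔ (x ^ j)⁻¹ * h * x ^ j ∈ H := by
  induction j with
  | zero => simp
  | succ j ih =>
    rw [ih, hxH]
    have : x⁻¹ * ((x ^ j)⁻¹ * h * x ^ j) * x = (x ^ (j + 1))⁻¹ * h * x ^ (j + 1) := by
      rw [pow_succ]; group
    rw [this]

private def swc {G : Type} [Group G] {H : Subgroup G} {x : G}
    (hxH : ∀ h : G, h ∈ H ↔ x⁻¹ * h * x ∈ H) (j : ℕ) : H →* H where
  toFun h := ⟨(x ^ j)⁻¹ * h * x ^ j, (swp_conj_mem hxH j h).1 h.2⟩
  map_one' := by
    apply Subtype.ext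
    simp
  map_mul' a b := by
    apply Subtype.ext
    show (x ^ j)⁻¹ * (↑(a * b) : G) * x ^ j =
      ((x ^ j)⁻¹ * (a : G) * x ^ j) * ((x ^ j)⁻¹ * (b : G) * x ^ j)
    rw [Subgroup.coe_mul]
    group

private theorem swc_coe {G : Type} [Group G] {H : Subgroup G} {x : G}
    (hxH : ∀ h : G, h ∈ H ↔ x⁻¹ * h * x ∈ H) (j : ℕ) (h : H) :
    ((swc hxH j h : H) : G) = (x ^ j)⁻¹ * h * x ^ j := rfl

private theorem sw_omega {G : Type} [Group G] {H : Subgroup G} {x : G} (p : ℕ)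
    (hxH : ∀ h : G, h ∈ H ↔ x⁻¹ * h * x ∈ H) (hxp : x ^ p ∈ H) (ν : H →* ℂˣ) (h h' : H)
    (hh : (h' : G) = x⁻¹ * h * x) :
    (∏ j ∈ Finset.range p, ν (swc hxH j h')) = ∏ j ∈ Finset.range p, ν (swc hxH j h) := by
  have h1 : ∀ j, swc hxH j h' = swc hxH (j + 1) h := by
    intro j
    apply Subtype.ext
    rw [swc_coe, swc_coe, hh, pow_succ']
    group
  have h2 : ν (swc hxH p h) = ν (swc hxH 0 h) := by
    have e1 : swc hxH p h = (⟨x ^ p, hxp⟩ : H)⁻¹ * h * ⟨x ^ p, hxp⟩ := by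
      apply Subtype.ext
      rw [swc_coe]
      rfl
    have e2 : swc hxH 0 h = h := by
      apply Subtype.ext
      rw [swc_coe]
      simp
    rw [e1, e2, map_mul, map_mul, map_inv, mul_comm, ← mul_assoc, mul_inv_cancel, one_mul]
  have h3 := Finset.prod_range_succ' (fun j => ν (swc hxH j h)) p
  have h4 := Finset.prod_range_succ (fun j => ν (swc hxH j h)) p
  rw [h4, h2] at h3
  have h5 := mul_right_cancel h3
  rw [h5]
  exact Finset.prod_congr rfl (fun j _ => by rw [h1])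

/-- conjugation by `x` on a normal subgroup -/
private def swpsi {G : Type} [Group G] (P : Subgroup G) [hPn : P.Normal] (x : G) : P →* P where
  toFun g := ⟨x⁻¹ * g * x, by
    have := hPn.conj_mem g g.2 x⁻¹
    rwa [inv_inv] at this⟩
  map_one' := by
    apply Subtype.ext
    simp
  map_mul' a b := by
    apply Subtype.ext
    show x⁻¹ * (↑(a * b) : G) * x = (x⁻¹ * (a : G) * x) * (x⁻¹ * (b : G) * x)
    rw [Subgroup.coe_mul]
    group

private theorem swpsi_iter {G : Type} [Group G] (P : Subgroup G) [P.Normal] (x : G) (j : ℕ)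
    (g : P) : (((swpsi P x)^[j] g : P) : G) = (x ^ j)⁻¹ * g * x ^ j := by
  induction j with
  | zero => simp
  | succ j ih =>
    rw [Function.iterate_succ_apply']
    show x⁻¹ * (((swpsi P x)^[j] g : P) : G) * x = _
    rw [ih, pow_succ]
    group

private theorem sw_pow_ab {G : Type} [Group G] (P : Subgroup G) (n : ℕ) (c : P)
    (hc : (c : G) ∈ pw n P) : ∃ b : Abelianization P, Abelianization.of c = b ^ n := by
  have key : ∀ y : G, y ∈ pw n P → ∀ hy : y ∈ P, ∃ b : Abelianization P,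
      Abelianization.of (⟨y, hy⟩ : P) = b ^ n := by
    intro y hy
    unfold pw at hy
    induction hy using Subgroup.closure_induction with
    | mem y hy =>
      obtain ⟨h, hh, rfl⟩ := hy
      intro hy'
      refine ⟨Abelianization.of (⟨h, hh⟩ : P), ?_⟩
      rw [← map_pow]
      rfl
    | one =>
      intro hy'
      refine ⟨1, ?_⟩
      rw [one_pow]
      exact map_one _
    | mul a b ha hb iha ihb =>
      intro hy'
      have ha' : a ∈ P := pw_le_self n P ha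
      have hb' : b ∈ P := pw_le_self n P hb
      obtain ⟨u, hu⟩ := iha ha'
      obtain ⟨v, hv⟩ := ihb hb'
      refine ⟨u * v, ?_⟩
      have : (⟨a * b, hy'⟩ : P) = ⟨a, ha'⟩ * ⟨b, hb'⟩ := rfl
      rw [this, map_mul, hu, hv, mul_pow]
    | inv a ha iha =>
      intro hy'
      have ha' : a ∈ P := pw_le_self n P ha
      obtain ⟨u, hu⟩ := iha ha'
      refine ⟨u⁻¹, ?_⟩
      have : (⟨a⁻¹, hy'⟩ : P) = (⟨a, ha'⟩ : P)⁻¹ := rfl
      rw [this, map_inv, hu, inv_pow]
  exact key c hc c.2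


private theorem sw_odd {G : Type} [Group G] [Finite G] {p : ℕ} [Fact p.Prime] (hp2 : p ≠ 2)
    (hG : IsPGroup p G) (W P : Subgroup G) [P.Normal] (hP : ⁅P, W⁆ ≤ pw p P)
    (V : FDRep ℂ G) (hV : CategoryTheory.Simple V)
    (hK : ∀ U : FDRep ℂ G, CategoryTheory.Simple U → Module.finrank ℂ U < Module.finrank ℂ V →
      ∀ k ∈ P, ∀ u : U, U.ρ k u = u) (H : Subgroup G) (v : V) (ν : H →* ℂˣ) (x : G)
    (hv : v ≠ 0) (hHi : H.index ≤ Module.finrank ℂ V)
    (hHv : ∀ h : H, V.ρ (h : G) v = (ν h : ℂ) • v) (hxW : x ∈ W) (hx : x ∉ H)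
    (hxH : ∀ h : G, h ∈ H ↔ x⁻¹ * h * x ∈ H) (hxp : x ^ p ∈ H) :
    ∀ k ∈ pw p P, ∀ v : V, V.ρ k v = v := by
  let ω : H →* ℂˣ := ∏ j ∈ Finset.range p, ν.comp (swc hxH j)
  have hωa : ∀ h : H, ω h = ∏ j ∈ Finset.range p, ν (swc hxH j h) := by
    intro h
    simp only [ω, MonoidHom.finsetProd_apply, MonoidHom.comp_apply]
  have hω : ∀ h h' : H, (h' : G) = x⁻¹ * h * x → ω h' = ω h := by
    intro h h' hh
    rw [hωa, hωa]
    exact sw_omega p hxH hxp ν h h' hh
  have hPk : ∀ k ∈ P, ∃ h : k ∈ H, ω ⟨k, h⟩ = 1 := by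
    intro k hk
    exact trivial_on_ind H ω x hx hxH hω k
      (fun U hU hd u => hK U hU (lt_of_lt_of_le hd hHi) k hk u)
  have hPH : P ≤ H := fun k hk => (hPk k hk).1
  -- the abelian group
  have hsurj : Function.Surjective (Abelianization.of : P →* Abelianization P) :=
    QuotientGroup.mk_surjective
  have hfin : Finite (Abelianization P) := Finite.of_surjective _ hsurj
  have hA : IsPGroup p (Abelianization P) := (hG.to_subgroup P).of_surjective _ hsurj
  let φ : Abelianization P →* Abelianization P := Abelianization.map (swpsi P x)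
  let μ : Abelianization P →* ℂˣ := Abelianization.lift (ν.comp (Subgroup.inclusion hPH))
  have hφof : ∀ g : P, φ (Abelianization.of g) = Abelianization.of (swpsi P x g) := by
    intro g
    exact Abelianization.map_of _ _
  have hφit : ∀ (j : ℕ) (g : P), φ^[j] (Abelianization.of g) =
      Abelianization.of ((swpsi P x)^[j] g) := by
    intro j g
    induction j with
    | zero => rfl
    | succ j ih => rw [Function.iterate_succ_apply', Function.iterate_succ_apply', ih, hφof]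
  have hμof : ∀ g : P, μ (Abelianization.of g) = ν (Subgroup.inclusion hPH g) := by
    intro g
    exact Abelianization.lift_apply_of _ _
  have hφ : ∀ a, ∃ b, φ a = a * b ^ p := by
    intro a
    obtain ⟨g, rfl⟩ := hsurj a
    have hc : ⁅(g : G)⁻¹, x⁻¹⁆ ∈ pw p P :=
      hP (Subgroup.commutator_mem_commutator (P.inv_mem g.2) (inv_mem hxW))
    obtain ⟨b, hb⟩ := sw_pow_ab P p ⟨⁅(g : G)⁻¹, x⁻¹⁆, pw_le_self p P hc⟩ hc
    refine ⟨b, ?_⟩
    rw [hφof, ← hb, ← map_mul]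
    congr 1
    apply Subtype.ext
    show x⁻¹ * (g : G) * x = (g : G) * ⁅(g : G)⁻¹, x⁻¹⁆
    rw [commutatorElement_def]
    group
  have hμ : ∀ a, μ (∏ j ∈ Finset.range p, (φ^[j]) a) = 1 := by
    intro a
    obtain ⟨g, rfl⟩ := hsurj a
    obtain ⟨hgH, hg1⟩ := hPk g g.2
    rw [map_prod, ← hg1, hωa]
    refine Finset.prod_congr rfl (fun j _ => ?_)
    rw [hφit, hμof]
    congr 1
    apply Subtype.ext
    rw [swc_coe, Subgroup.coe_inclusion, swpsi_iter]
  have hnorm := norm_trick hp2 hA φ hφ μ hμ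
  -- the powers fix the vector
  let S : Subgroup G :=
    { carrier := {g | V.ρ g v = v}
      mul_mem' := by
        intro a b ha hb
        show V.ρ (a * b) v = v
        rw [map_mul, Module.End.mul_apply, hb, ha]
      one_mem' := by
        show V.ρ 1 v = v
        rw [map_one, Module.End.one_apply]
      inv_mem' := by
        intro a ha
        show V.ρ a⁻¹ v = v
        have h2 : V.ρ a v = v := ha
        calc V.ρ a⁻¹ v = V.ρ a⁻¹ (V.ρ a v) := by rw [h2]
          _ = (V.ρ a⁻¹ * V.ρ a) v := rfl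
          _ = v := by rw [← map_mul, inv_mul_cancel, map_one, Module.End.one_apply] }
  have hS : pw p P ≤ S := by
    refine pw_le (fun g hg => ?_)
    show V.ρ (g ^ p) v = v
    have h2 := hnorm (Abelianization.of (⟨g, hg⟩ : P))
    rw [← map_pow, hμof] at h2
    have h3 := hHv (Subgroup.inclusion hPH ((⟨g, hg⟩ : P) ^ p))
    rw [h2] at h3
    simpa using h3
  exact trivial_of_fixed V hV (pw p P) v hv (fun n hn => hS hn)


private theorem sw_two {G : Type} [Group G] [Finite G] (hG : IsPGroup 2 G)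
    (W P : Subgroup G) [hPn : P.Normal] (hP : ⁅P, W⁆ ≤ pw 2 (pw 2 P))
    (V : FDRep ℂ G) (hV : CategoryTheory.Simple V)
    (hK : ∀ U : FDRep ℂ G, CategoryTheory.Simple U → Module.finrank ℂ U < Module.finrank ℂ V →
      ∀ k ∈ P, ∀ u : U, U.ρ k u = u) (H : Subgroup G) (v : V) (ν : H →* ℂˣ) (x : G)
    (hv0 : v ≠ 0) (hidx : H.index ≤ Module.finrank ℂ V)
    (hν : ∀ h : H, V.ρ (h : G) v = (ν h : ℂ) • v) (hxW : x ∈ W) (hx : x ∉ H)
    (hxH : ∀ h : G, h ∈ H ↔ x⁻¹ * h * x ∈ H) (hxp : x ^ 2 ∈ H) :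
    ∀ k ∈ pw 2 P, ∀ v : V, V.ρ k v = v := by
  -- the norm character
  have hmem : ∀ h : H, x⁻¹ * (h : G) * x ∈ H := fun h => (hxH h).mp h.2
  let cj : H →* H :=
    { toFun := fun h => ⟨x⁻¹ * h * x, hmem h⟩
      map_one' := by ext; simp
      map_mul' := fun a b => by ext; simp [mul_assoc] }
  let ω : H →* ℂˣ := ν * ν.comp cj
  have hω : ∀ h : H, ω h = ν h * ν (cj h) := fun _ => rfl
  have hinner : ∀ h : H, ν (cj (cj h)) = ν h := by
    intro h
    have e : cj (cj h) = (⟨x ^ 2, hxp⟩ : H)⁻¹ * h * ⟨x ^ 2, hxp⟩ := by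
      ext
      show x⁻¹ * (x⁻¹ * (h : G) * x) * x = (x ^ 2)⁻¹ * h * x ^ 2
      rw [pow_two, mul_inv_rev]; simp only [mul_assoc]
    rw [e, map_mul, map_mul, map_inv, mul_comm, ← mul_assoc, mul_inv_cancel, one_mul]
  have key : ∀ k ∈ P, ∃ h : k ∈ H, ω ⟨k, h⟩ = 1 := by
    intro k hk
    refine trivial_on_ind H ω x hx hxH ?_ k ?_
    · intro h h' hh
      have e : h' = cj h := Subtype.ext hh
      rw [e, hω, hω, hinner, mul_comm]
    · intro U hU hlt
      exact hK U hU (lt_of_lt_of_le hlt hidx) k hk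
  have hPH : P ≤ H := fun k hk => (key k hk).1
  let μ : P →* ℂˣ := ν.comp (Subgroup.inclusion hPH)
  have hμ : ∀ (k : G) (hk : k ∈ P), μ ⟨k, hk⟩ = ν ⟨k, hPH hk⟩ := fun _ _ => rfl
  -- values on powers
  have hpw1 : ∀ w, w ∈ pw 2 P → ∃ (hw : w ∈ P) (a : P), μ ⟨w, hw⟩ = μ a ^ 2 := by
    intro w hw
    have hwP := pw_le_self 2 P hw
    refine ⟨hwP, ?_⟩
    have : ∀ (w : G) (hw : w ∈ pw 2 P), ∃ a : P, μ ⟨w, pw_le_self 2 P hw⟩ = μ a ^ 2 := by
      intro w hw
      induction hw using Subgroup.closure_induction with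
      | mem w hw =>
        obtain ⟨a, ha, rfl⟩ := hw
        exact ⟨⟨a, ha⟩, by rw [← map_pow]; rfl⟩
      | one => exact ⟨1, by rw [map_one, one_pow]; exact map_one μ⟩
      | mul a b ha hb iha ihb =>
        obtain ⟨c, hc⟩ := iha
        obtain ⟨d, hd⟩ := ihb
        refine ⟨c * d, ?_⟩
        rw [map_mul, mul_pow, ← hc, ← hd, ← map_mul]; rfl
      | inv a ha iha =>
        obtain ⟨c, hc⟩ := iha
        refine ⟨c⁻¹, ?_⟩
        rw [map_inv, inv_pow, ← hc, ← map_inv]; rfl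
    exact this w hw
  have hpw2 : ∀ w, w ∈ pw 2 (pw 2 P) → ∃ (hw : w ∈ P) (a : P), μ ⟨w, hw⟩ = (μ a ^ 2) ^ 2 := by
    have : ∀ (w : G) (hw : w ∈ pw 2 (pw 2 P)),
        ∃ a : P, μ ⟨w, pw_le_self 2 P (pw_le_self 2 _ hw)⟩ = (μ a ^ 2) ^ 2 := by
      intro w hw
      induction hw using Subgroup.closure_induction with
      | mem w hw =>
        obtain ⟨b, hb, rfl⟩ := hw
        obtain ⟨hbP, a, ha⟩ := hpw1 b hb
        refine ⟨a, ?_⟩
        rw [← ha, ← map_pow]; rfl
      | one => exact ⟨1, by rw [map_one, one_pow, one_pow]; exact map_one μ⟩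
      | mul a b ha hb iha ihb =>
        obtain ⟨c, hc⟩ := iha
        obtain ⟨d, hd⟩ := ihb
        refine ⟨c * d, ?_⟩
        rw [map_mul, mul_pow, mul_pow, ← hc, ← hd, ← map_mul]; rfl
      | inv a ha iha =>
        obtain ⟨c, hc⟩ := iha
        refine ⟨c⁻¹, ?_⟩
        rw [map_inv, inv_pow, inv_pow, ← hc, ← map_inv]; rfl
    intro w hw
    exact ⟨pw_le_self 2 P (pw_le_self 2 _ hw), this w hw⟩
  have hstep : ∀ k : P, ∃ a : P, μ k ^ 2 = (μ a ^ 2) ^ 2 := by
    intro k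
    obtain ⟨hkH, hk1⟩ := key k k.2
    have hc : ⁅(k : G)⁻¹, x⁻¹⁆ ∈ pw 2 (pw 2 P) :=
      hP (Subgroup.commutator_mem_commutator (P.inv_mem k.2) (inv_mem hxW))
    obtain ⟨hcP, a, ha⟩ := hpw2 _ hc
    refine ⟨a⁻¹, ?_⟩
    have e1 : ν (cj ⟨k, hkH⟩) = μ k * μ ⟨_, hcP⟩ := by
      rw [← map_mul]
      show ν _ = ν _
      congr 1
      apply Subtype.ext
      show x⁻¹ * (k : G) * x = (k : G) * ⁅(k : G)⁻¹, x⁻¹⁆
      rw [commutatorElement_def]; group
    rw [hω, e1, ha] at hk1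
    have e2 : ν ⟨(k : G), hkH⟩ = μ k := rfl
    rw [e2, ← mul_assoc, ← pow_two] at hk1
    rw [map_inv, inv_pow, inv_pow]
    exact eq_inv_of_mul_eq_one_left hk1
  have hiter : ∀ n : ℕ, ∀ k : P, ∃ a : P, μ k ^ 2 = (μ a ^ 2) ^ 2 ^ n := by
    intro n
    induction n with
    | zero => intro k; exact ⟨k, by rw [pow_zero, pow_one]⟩
    | succ n ih =>
      intro k
      obtain ⟨a, ha⟩ := ih k
      obtain ⟨b, hb⟩ := hstep a
      refine ⟨b, ?_⟩
      rw [ha, hb, ← pow_mul, ← pow_succ']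
  have hone : ∀ k : P, μ k ^ 2 = 1 := by
    intro k
    obtain ⟨m, hm⟩ := IsPGroup.iff_card.mp hG
    obtain ⟨a, ha⟩ := hiter m k
    rw [ha, ← pow_mul, mul_comm, pow_mul, ← map_pow]
    have : a ^ 2 ^ m = 1 := by
      apply Subtype.ext
      show (a : G) ^ 2 ^ m = 1
      rw [← hm]; exact pow_card_eq_one'
    rw [this, map_one, one_pow]
  refine trivial_of_fixed V hV (pw 2 P) v hv0 ?_
  intro w hw
  obtain ⟨hwP, a, ha⟩ := hpw1 w hw
  have h2 := hν ⟨w, hPH hwP⟩
  have e : ν ⟨w, hPH hwP⟩ = 1 := by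
    have : ν ⟨w, hPH hwP⟩ = μ ⟨w, hwP⟩ := rfl
    rw [this, ha, hone]
  rw [e, Units.val_one, one_smul] at h2
  exact h2


/-! row StepW -/
theorem stepW {G : Type} [Group G] [Finite G] {p : ℕ} [Fact p.Prime]
    (hG : IsPGroup p G) (W P : Subgroup G) [W.Normal] [P.Normal] (hPW : P ≤ ⁅W, W⁆)
    (hP : PE p P W) (V : FDRep ℂ G) (hV : CategoryTheory.Simple V)
    (hK : ∀ U : FDRep ℂ G, CategoryTheory.Simple U → Module.finrank ℂ U < Module.finrank ℂ V →
      ∀ k ∈ P, ∀ u : U, U.ρ k u = u) : ∀ k ∈ pw p P, ∀ v : V, V.ρ k v = v := by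
  obtain ⟨H, v, ν, hv, hHi, hHv, hWH | ⟨x, hxW, hx, hxH, hxp⟩⟩ := exists_setupW hG W V hV
  · let S : Subgroup G :=
      { carrier := {g | V.ρ g v = v}
        mul_mem' := by
          intro a b ha hb
          show V.ρ (a * b) v = v
          rw [map_mul, Module.End.mul_apply, hb, ha]
        one_mem' := by
          show V.ρ 1 v = v
          rw [map_one, Module.End.one_apply]
        inv_mem' := by
          intro a ha
          show V.ρ a⁻¹ v = v
          have h2 : V.ρ a v = v := ha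
          calc V.ρ a⁻¹ v = V.ρ a⁻¹ (V.ρ a v) := by rw [h2]
            _ = (V.ρ a⁻¹ * V.ρ a) v := rfl
            _ = v := by rw [← map_mul, inv_mul_cancel, map_one, Module.End.one_apply] }
    have hS : ⁅W, W⁆ ≤ S := by
      rw [Subgroup.commutator_le]
      intro a ha b hb
      show V.ρ ⁅a, b⁆ v = v
      have h2 := hHv ⁅(⟨a, hWH ha⟩ : H), (⟨b, hWH hb⟩ : H)⁆
      have h3 : ν ⁅(⟨a, hWH ha⟩ : H), (⟨b, hWH hb⟩ : H)⁆ = 1 := by
        rw [map_commutatorElement]
        exact commutatorElement_eq_one_iff_mul_comm.2 (mul_comm _ _)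
      rw [h3, Units.val_one, one_smul] at h2
      exact h2
    intro k hk
    exact trivial_of_fixed V hV P v hv (fun n hn => hS (hPW hn)) k (pw_le_self p P hk)
  · unfold PE at hP
    by_cases h2 : p = 2
    · subst h2
      rw [if_pos rfl] at hP
      exact sw_two hG W P hP V hV hK H v ν x hv hHi hHv hxW hx hxH hxp
    · rw [if_neg h2] at hP
      exact sw_odd h2 hG W P hP V hV hK H v ν x hv hHi hHv hxW hx hxH hxp

end StepW

end Pool.PWL
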