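import Pool.Agent.PWL.DimP
import Pool.Agent.PWL.ResS
import Pool.Agent.PWL.IndS
import Pool.Agent.PWL.CountP
import Pool.Agent.PWL.Fit2
import Pool.Agent.PWL.FitNil
import Pool.Agent.PWL.FitSyl
import Pool.Agent.PWL.PED
import Pool.Agent.PWL.PEN
import Pool.Agent.PWL.StepW
import Pool.Agent.PWL.Count
import Pool.Agent.PWL.CdQuot
import Pool.Agent.PWL.PowDerived

/-!
# Transfer from the Sylow subgroup to an arbitrary finite group
-/

namespace Pool.PWL

open scoped commutatorElement
open Pool.TKB

theorem map_subgroupOf_commutator {G : Type*} [Group G] (S A B : Subgroup G) (hA : A ≤ S)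
    (hB : B ≤ S) : (⁅A.subgroupOf S, B.subgroupOf S⁆).map S.subtype = ⁅A, B⁆ := by
  rw [Subgroup.map_commutator, Subgroup.map_subgroupOf_eq_of_le hA,
    Subgroup.map_subgroupOf_eq_of_le hB]

theorem PE.subgroupOf {G : Type*} [Group G] {p : ℕ} {P W : Subgroup G} (h : PE p P W)
    (S : Subgroup G) (hP : P ≤ S) (hW : W ≤ S) : PE p (P.subgroupOf S) (W.subgroupOf S) := by
  unfold PE at h ⊢
  rw [← Subgroup.map_le_map_iff_of_injective S.subtype_injective,
    map_subgroupOf_commutator S P W hP hW]
  split_ifs at h ⊢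
  · rw [map_pw, map_pw, Subgroup.map_subgroupOf_eq_of_le hP]
    exact h
  · rw [map_pw, Subgroup.map_subgroupOf_eq_of_le hP]
    exact h

/-- The transfer principle: a step for the irreducible representations of a Sylow subgroup `S`
ordered by their degree gives a step for the irreducible representations of `G` ordered by the
`p`-part of their degree. -/
theorem transfer_step {G : Type} [Group G] [Finite G] {p : ℕ} [hp : Fact p.Prime] (S : Sylow p G)
    (P Q : Subgroup G) [Q.Normal] (hPS : P ≤ S) (hQS : Q ≤ S)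
    (hstep : ∀ Θ : FDRep ℂ (S : Subgroup G), CategoryTheory.Simple Θ →
      (∀ Θ' : FDRep ℂ (S : Subgroup G), CategoryTheory.Simple Θ' →
        Module.finrank ℂ Θ' < Module.finrank ℂ Θ →
        ∀ k ∈ P.subgroupOf (S : Subgroup G), ∀ u : Θ', Θ'.ρ k u = u) →
      ∀ k ∈ Q.subgroupOf (S : Subgroup G), ∀ u : Θ, Θ.ρ k u = u)
    (V : FDRep ℂ G) (hV : CategoryTheory.Simple V)
    (hK : ∀ U : FDRep ℂ G, CategoryTheory.Simple U →
      padicValNat p (Module.finrank ℂ U) < padicValNat p (Module.finrank ℂ V) →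
      ∀ k ∈ P, ∀ u : U, U.ρ k u = u) :
    ∀ k ∈ Q, ∀ v : V, V.ρ k v = v := by
  have hnt : Nontrivial V := Pool.TKB.simple_nontrivial V
  have hd0 : Module.finrank ℂ V ≠ 0 := Module.finrank_pos.ne'
  have hSp : IsPGroup p (S : Subgroup G) := S.isPGroup'
  have hidx : ¬ p ∣ (S : Subgroup G).index := S.not_dvd_index
  obtain ⟨Θ, hΘ, hΘd, i, hi, hir⟩ := exists_res (S : Subgroup G) V
    (p ^ (padicValNat p (Module.finrank ℂ V) + 1))
    (pow_succ_padicValNat_not_dvd hd0)
  obtain ⟨b, hb⟩ := finrank_simple_pgroup hSp Θ hΘ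
  have hbv : b ≤ padicValNat p (Module.finrank ℂ V) := by
    by_contra h
    apply hΘd
    rw [hb]
    exact pow_dvd_pow p (by omega)
  have h1 := hstep Θ hΘ (by
    intro Θ' hΘ' hlt k hk u
    obtain ⟨b', hb'⟩ := finrank_simple_pgroup hSp Θ' hΘ'
    rw [hb, hb'] at hlt
    have hbb : b' < b := (Nat.pow_lt_pow_iff_right hp.out.one_lt).1 hlt
    obtain ⟨U, hU, hUd, f, hf, hfr⟩ := exists_ind (S : Subgroup G) Θ' hΘ' (p ^ (b' + 1)) (by
      rw [hb', pow_succ']
      intro h
      exact hidx (Nat.dvd_of_mul_dvd_mul_right (pow_pos hp.out.pos b') h))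
    have hntU : Nontrivial U := Pool.TKB.simple_nontrivial U
    have hU0 : Module.finrank ℂ U ≠ 0 := Module.finrank_pos.ne'
    have hUv : padicValNat p (Module.finrank ℂ U) ≤ b' := by
      by_contra h
      apply hUd
      exact (pow_dvd_pow p (by omega)).trans pow_padicValNat_dvd
    have h2 := hK U hU (by omega) (k : G) (Subgroup.mem_subgroupOf.1 hk)
    obtain ⟨x, rfl⟩ := hf u
    rw [← hfr, h2])
  have hntΘ : Nontrivial Θ := Pool.TKB.simple_nontrivial Θ
  obtain ⟨x, hx⟩ := exists_ne (0 : Θ)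
  refine trivial_of_fixed V hV Q (i x) (fun h => hx (hi (by rw [h, map_zero]))) fun n hn => ?_
  have h2 := h1 ⟨n, hQS hn⟩ (Subgroup.mem_subgroupOf.2 hn) x
  have h3 := hir ⟨n, hQS hn⟩ x
  rw [h2] at h3
  exact h3.symm

/-- The base of the transfer principle. -/
theorem transfer_base {G : Type} [Group G] [Finite G] {p : ℕ} [hp : Fact p.Prime] (S : Sylow p G)
    (Q : Subgroup G) [Q.Normal] (hQ : Q ≤ ⁅(S : Subgroup G), (S : Subgroup G)⁆)
    (V : FDRep ℂ G) (hV : CategoryTheory.Simple V) (hd : ¬ p ∣ Module.finrank ℂ V) :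
    ∀ k ∈ Q, ∀ v : V, V.ρ k v = v := by
  have hSp : IsPGroup p (S : Subgroup G) := S.isPGroup'
  obtain ⟨Θ, hΘ, hΘd, i, hi, hir⟩ := exists_res (S : Subgroup G) V p hd
  obtain ⟨b, hb⟩ := finrank_simple_pgroup hSp Θ hΘ
  have hb0 : b = 0 := by
    by_contra h
    apply hΘd
    rw [hb]
    exact dvd_pow_self p h
  rw [hb0, pow_zero] at hb
  have hntΘ : Nontrivial Θ := Pool.TKB.simple_nontrivial Θ
  obtain ⟨x, hx⟩ := exists_ne (0 : Θ)
  refine trivial_of_fixed V hV Q (i x) (fun h => hx (hi (by rw [h, map_zero]))) fun n hn => ?_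
  have hn1 := hQ hn
  rw [← map_subgroupOf_commutator (S : Subgroup G) S S le_rfl le_rfl] at hn1
  obtain ⟨s, hs, rfl⟩ := hn1
  have hs' : s ∈ ⁅(⊤ : Subgroup (S : Subgroup G)), (⊤ : Subgroup (S : Subgroup G))⁆ := by
    rw [Subgroup.subgroupOf_self] at hs
    exact hs
  have h2 := comm_trivial_of_one Θ hb hs' x
  have h3 := hir s x
  rw [h2] at h3
  exact h3.symm

/-- A normal `p`-subgroup lies in every Sylow `p`-subgroup. -/
theorem normal_le_sylow {G : Type} [Group G] [Finite G] {p : ℕ} [hp : Fact p.Prime] (S : Sylow p G)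
    (N : Subgroup G) [N.Normal] (hN : IsPGroup p N) : N ≤ S := hN.le_sylow_of_normal S

/-- The step in an arbitrary finite group. -/
theorem stepAny {G : Type} [Group G] [Finite G] {p : ℕ} [hp : Fact p.Prime]
    (W P : Subgroup G) [W.Normal] [P.Normal] (hW : IsPGroup p W) (hPW : P ≤ ⁅W, W⁆)
    (hP : PE p P W) (V : FDRep ℂ G) (hV : CategoryTheory.Simple V)
    (hK : ∀ U : FDRep ℂ G, CategoryTheory.Simple U →
      padicValNat p (Module.finrank ℂ U) < padicValNat p (Module.finrank ℂ V) →
      ∀ k ∈ P, ∀ u : U, U.ρ k u = u) :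
    ∀ k ∈ pw p P, ∀ v : V, V.ρ k v = v := by
  obtain ⟨S⟩ : Nonempty (Sylow p G) := inferInstance
  have hWS : W ≤ S := normal_le_sylow S W hW
  have hPW' : P ≤ W := hPW.trans (Subgroup.commutator_le_left W W)
  have hPS : P ≤ S := hPW'.trans hWS
  have hWn : (W.subgroupOf (S : Subgroup G)).Normal := inferInstance
  have hPn : (P.subgroupOf (S : Subgroup G)).Normal := inferInstance
  refine transfer_step S P (pw p P) hPS ((pw_le_self p P).trans hPS) ?_ V hV hK
  intro Θ hΘ hK' k hk
  refine stepW (S.isPGroup') (W.subgroupOf (S : Subgroup G)) (P.subgroupOf (S : Subgroup G)) ?_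
    (hP.subgroupOf S hPS hWS) Θ hΘ hK' k ?_
  · rw [← Subgroup.map_le_map_iff_of_injective (S : Subgroup G).subtype_injective,
      map_subgroupOf_commutator _ W W hWS hWS, Subgroup.map_subgroupOf_eq_of_le hPS]
    exact hPW
  · have h1 : (k : G) ∈ (pw p (P.subgroupOf (S : Subgroup G))).map (S : Subgroup G).subtype := by
      rw [map_pw, Subgroup.map_subgroupOf_eq_of_le hPS]
      exact Subgroup.mem_subgroupOf.1 hk
    obtain ⟨k', hk', hkk⟩ := h1
    have h2 : k' = k := Subtype.ext hkk
    rwa [← h2]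

/-- The number of `p`-parts of the character degrees is at most the number of character
degrees. -/
theorem ncard_parts_le {G : Type} [Group G] [Finite G] (p : ℕ) :
    (padicValNat p '' cd G).ncard ≤ (cd G).ncard := Set.ncard_image_le cd_finite

theorem one_le_parts {G : Type} [Group G] [Finite G] (p : ℕ) :
    1 ≤ (padicValNat p '' cd G).ncard :=
  (Set.ncard_pos (cd_finite.image _)).mpr ⟨_, 1, one_mem_cd, rfl⟩

/-- The end of the chain. -/
theorem chain_bot_any {G : Type} [Group G] [Finite G] {p : ℕ} [hp : Fact p.Prime]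
    (W P : Subgroup G) [W.Normal] [P.Normal] (hW : IsPGroup p W) (hPW : P ≤ ⁅W, W⁆)
    (hPE : PE p P W) :
    chain p P ((padicValNat p '' cd G).ncard - 1) = ⊥ := by
  have hWnil : Group.IsNilpotent W := hW.isNilpotent
  have hPW' : P ≤ W := hPW.trans (Subgroup.commutator_le_left W W)
  obtain ⟨S⟩ : Nonempty (Sylow p G) := inferInstance
  have hWS : W ≤ S := normal_le_sylow S W hW
  refine chain_trivialP p (chain p P) (chain_anti p P) ?_ ?_
  · intro V hV hd k hk
    exact transfer_base S P (hPW.trans (Subgroup.commutator_mono hWS hWS)) V hV hd k hk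
  · intro i V hV _ hK k hk
    exact stepAny W (chain p P i) hW ((chain_anti p P (Nat.zero_le i)).trans hPW)
      (PE.chainN hPW' hPE i) V hV hK k hk

/-- The exponent. -/
theorem exponent_any {G : Type} [Group G] [Finite G] {p : ℕ} [hp : Fact p.Prime]
    (N : Subgroup G) [N.Normal] (hN : IsPGroup p N) (h : PE p ⁅N, N⁆ N) :
    ∀ g ∈ ⁅N, N⁆, g ^ p ^ ((padicValNat p '' cd G).ncard - 1) = 1 := by
  have hbot := chain_bot_any N ⁅N, N⁆ hN le_rfl h
  have hpow : ∀ i, ∀ g ∈ ⁅N, N⁆, g ^ p ^ i ∈ chain p ⁅N, N⁆ i := by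
    intro i
    induction i with
    | zero => intro g hg; rw [pow_zero, pow_one]; exact hg
    | succ i ih =>
      intro g hg
      rw [pow_succ, pow_mul]
      exact pow_mem_pw (ih g hg)
  intro g hg
  have := hpow ((padicValNat p '' cd G).ncard - 1) g hg
  rw [hbot, Subgroup.mem_bot] at this
  exact this

/-- The main theorem for a normal `p`-subgroup of an arbitrary finite group. -/
theorem main_any {G : Type} [Group G] [Finite G] {p : ℕ} [hp : Fact p.Prime]
    (N : Subgroup G) [N.Normal] (hN : IsPGroup p N) (k : ℕ)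
    (hPE : PE p (dser N (k + 1)) (dser N k)) :
    derivedSeries N (k + 1 + Nat.clog 2 (padicValNat p '' cd G).ncard) = ⊥ := by
  have hWn : (dser N k).Normal := dser_normal N k
  have hPn : (dser N (k + 1)).Normal := dser_normal N (k + 1)
  have hWN : dser N k ≤ N := (dser_anti N (Nat.zero_le k)).trans (dser_zero N).le
  have hWp : IsPGroup p (dser N k) := hN.to_le hWN
  have hWnil : Group.IsNilpotent (dser N k) := hWp.isNilpotent
  have hbot := chain_bot_any (dser N k) (dser N (k + 1)) hWp (dser_succ N k).le hPE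
  rw [← dser_eq_bot_iff, eq_bot_iff, ← hbot]
  refine (dser_le_chain N k (fun i => PE.chainN (dser_anti N (Nat.le_succ k)) hPE i) _).trans
    (chain_anti p _ ?_)
  have h2 : (padicValNat p '' cd G).ncard ≤ 2 ^ Nat.clog 2 (padicValNat p '' cd G).ncard :=
    Nat.le_pow_clog (by norm_num) _
  omega

theorem derivedSeries_bot_mono {G : Type*} [Group G] {a b : ℕ} (hab : a ≤ b)
    (h : derivedSeries G a = ⊥) : derivedSeries G b = ⊥ := by
  rw [eq_bot_iff, ← h]
  exact derivedSeries_antitone G hab

/-- Nilpotent normal subgroups whose Sylow subgroups have a powerfully embedded term of the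
derived series. -/
theorem fit_PE {G : Type} [Group G] [Finite G] (F : Subgroup G) [F.Normal]
    (hF : Group.IsNilpotent F) (k m : ℕ)
    (hm : ∀ p, p.Prime → p ∣ Nat.card F → (padicValNat p '' cd G).ncard ≤ m)
    (h : ∀ (p : ℕ) (_ : Fact p.Prime), p ∣ Nat.card F → ∀ S : Sylow p F,
      PE p (dser (S : Subgroup F) (k + 1)) (dser (S : Subgroup F) k)) :
    derivedSeries F (k + 1 + Nat.clog 2 m) = ⊥ := by
  refine fit_sylow F hF _ fun p hp hdvd S hN => ?_
  have hSp : IsPGroup p ((S : Subgroup F).map F.subtype) := S.2.map _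
  have h1 : PE p (dser ((S : Subgroup F).map F.subtype) (k + 1))
      (dser ((S : Subgroup F).map F.subtype) k) := by
    rw [dser_map, dser_map]
    exact (h p hp hdvd S).map _
  refine derivedSeries_bot_mono ?_ (main_any _ hSp k h1)
  have := Nat.clog_mono_right 2 (hm p hp.out hdvd)
  omega

/-- The same, for powerful Sylow subgroups or in terms of the Sylow subgroups as groups. -/
theorem fit_powerful {G : Type} [Group G] [Finite G] (F : Subgroup G) [F.Normal]
    (hF : Group.IsNilpotent F) (k m : ℕ)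
    (hm : ∀ p, p.Prime → p ∣ Nat.card F → (padicValNat p '' cd G).ncard ≤ m)
    (h : ∀ (p : ℕ) (_ : Fact p.Prime), p ∣ Nat.card F → ∀ S : Sylow p F,
      ⁅(⊤ : Subgroup S), (⊤ : Subgroup S)⁆ ≤ pw (if p = 2 then 4 else p) (⊤ : Subgroup S) ∨
      PE p (derivedSeries S (k + 1)) (derivedSeries S k)) :
    derivedSeries F (k + 1 + Nat.clog 2 m) = ⊥ := by
  refine fit_sylow F hF _ fun p hp hdvd S hN => ?_
  have hSp : IsPGroup p ((S : Subgroup F).map F.subtype) := S.2.map _
  have hmap : ∀ i, dser ((S : Subgroup F).map F.subtype) i =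
      (derivedSeries (S : Subgroup F) i).map (F.subtype.comp (S : Subgroup F).subtype) := by
    intro i
    rw [dser_map]
    exact Subgroup.map_map _ _ _
  have key : ∀ j, PE p (derivedSeries (S : Subgroup F) (j + 1)) (derivedSeries (S : Subgroup F) j) →
      derivedSeries ((S : Subgroup F).map F.subtype)
        (j + 1 + Nat.clog 2 (padicValNat p '' cd G).ncard) = ⊥ := by
    intro j hj
    refine main_any _ hSp j ?_
    rw [hmap, hmap]
    exact hj.map _
  have hmon := Nat.clog_mono_right 2 (hm p hp.out hdvd)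
  rcases h p hp hdvd S with h1 | h1
  · have h2 : PE p (derivedSeries (S : Subgroup F) (0 + 1)) (derivedSeries (S : Subgroup F) 0) :=
      PE_derived S.isPGroup' h1
    exact derivedSeries_bot_mono (by omega) (key 0 h2)
  · exact derivedSeries_bot_mono (by omega) (key k h1)

/-- Nilpotent normal subgroups with a term of the derived series generated by few elements. -/
theorem fit_any {G : Type} [Group G] [Finite G] (F : Subgroup G) [F.Normal]
    (hF : Group.IsNilpotent F) (r k m : ℕ) (hk : 2 * r + 1 ≤ 2 ^ k)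
    (hm : ∀ p, p.Prime → p ∣ Nat.card F → (padicValNat p '' cd G).ncard ≤ m) (S : Finset F)
    (hS : S.card ≤ r) (hgen : Subgroup.closure (S : Set F) = derivedSeries F (k + 1)) :
    derivedSeries F (k + 1 + Nat.clog 2 m) = ⊥ := by
  classical
  refine fit_reduce2 F hF _ fun p hpp hdvd N hNn hNF hN hf => ?_
  obtain ⟨f, hf⟩ := hf
  have : Fact p.Prime := ⟨hpp⟩
  have h1 : (derivedSeries F (k + 1)).map f = derivedSeries N (k + 1) := map_derivedSeries_eq hf _
  have h2 : Subgroup.closure (((S.image f).image N.subtype : Finset G) : Set G) =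
      dser N (k + 1) := by
    unfold dser
    rw [← h1, ← hgen, Finset.coe_image, Finset.coe_image, MonoidHom.map_closure,
      MonoidHom.map_closure]
  have h3 := main_any N hN k (PE_dser_of_gen N hN r k hk _
    (Finset.card_image_le.trans (Finset.card_image_le.trans hS)) h2)
  refine derivedSeries_bot_mono ?_ h3
  have := Nat.clog_mono_right 2 (hm p hpp hdvd)
  omega

theorem sSup_normal {G : Type*} [Group G] (A : Set (Subgroup G))
    (hA : ∀ N ∈ A, N.Normal) : (sSup A).Normal := by
  constructor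
  intro x hx g
  have h1 : sSup A ≤ (sSup A).comap (MulAut.conj g).toMonoidHom := by
    refine sSup_le fun N hN y hy => ?_
    exact Subgroup.mem_comap.2 (le_sSup hN ((hA N hN).conj_mem y hy g))
  exact h1 hx

/-- A nilpotent normal subgroup, or the Fitting subgroup. -/
theorem fit_cases {G : Type} [Group G] [Finite G] (F : Subgroup G)
    (hF : (F.Normal ∧ Group.IsNilpotent F) ∨
      F = sSup {N : Subgroup G | N.Normal ∧ Group.IsNilpotent N}) :
    F.Normal ∧ Group.IsNilpotent F := by
  rcases hF with h | rfl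
  · exact h
  · exact ⟨sSup_normal _ fun N hN => hN.1, fitting_isNilpotent⟩

theorem parts_le_sup {G : Type} [Group G] [Finite G] (F : Subgroup G) (p : ℕ) (hp : p.Prime)
    (hd : p ∣ Nat.card F) : (padicValNat p '' cd G).ncard ≤
      (Nat.card F).primeFactors.sup fun p => (padicValNat p '' cd G).ncard :=
  Finset.le_sup (f := fun p => (padicValNat p '' cd G).ncard)
    (Nat.mem_primeFactors.2 ⟨hp, hd, Nat.card_pos.ne'⟩)

theorem sup_parts_le {G : Type} [Group G] [Finite G] (F : Subgroup G) :
    ((Nat.card F).primeFactors.sup fun p => (padicValNat p '' cd G).ncard) ≤ (cd G).ncard :=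
  Finset.sup_le fun p _ => ncard_parts_le p

end Pool.PWL
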