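import Pool.Agent.PWL.NSyl
import Pool.Agent.PWL.FitSyl
import Pool.Agent.PWL.Any
import Pool.Agent.PWL.ABT1
import Pool.Agent.PWL.ABCD
import Pool.Agent.PWL.ABDeg
import Pool.Agent.PWL.ABFix
import Pool.Agent.PWL.ABBlock
import Pool.Agent.PWL.ABStab
import Pool.Agent.PWL.ABTak

/-!
# Degrees without large gaps: the derived length of normal `p`-subgroups
-/

namespace Pool.PWL

open scoped commutatorElement
open Pool.TKB

theorem dser_dser {G : Type*} [Group G] (N : Subgroup G) (i t : ℕ) :
    dser (dser N i) t = dser N (i + t) := by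
  induction t with
  | zero => rw [dser_zero, Nat.add_zero]
  | succ t ih => rw [dser_succ, ih, ← Nat.add_assoc, dser_succ]

theorem dser_top {G : Type*} [Group G] (i : ℕ) :
    dser (⊤ : Subgroup G) i = derivedSeries G i := by
  induction i with
  | zero => rw [dser_zero, derivedSeries_zero]
  | succ i ih => rw [dser_succ, ih, derivedSeries_succ]

/-- A subgroup acting trivially on the irreducible representations of `G` whose dimensions have
small `p`-part acts trivially on the small irreducible representations of a Sylow subgroup. -/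
theorem small_trivial {G : Type} [Group G] [Finite G] {p : ℕ} [hp : Fact p.Prime]
    (S : Sylow p G) (D : Subgroup G) (a : ℕ)
    (hD : ∀ V : FDRep ℂ G, CategoryTheory.Simple V → padicValNat p (Module.finrank ℂ V) < a →
      ∀ k ∈ D, ∀ v : V, V.ρ k v = v) (Θ : FDRep ℂ (S : Subgroup G))
    (hΘ : CategoryTheory.Simple Θ) (hd : Module.finrank ℂ Θ < p ^ a) :
    ∀ k ∈ D.subgroupOf (S : Subgroup G), ∀ u : Θ, Θ.ρ k u = u := by
  intro k hk u
  obtain ⟨b, hb⟩ := finrank_simple_pgroup S.isPGroup' Θ hΘ
  rw [hb] at hd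
  have hba : b < a := (Nat.pow_lt_pow_iff_right hp.out.one_lt).1 hd
  have hidx : ¬ p ∣ (S : Subgroup G).index := S.not_dvd_index
  obtain ⟨U, hU, hUd, f, hf, hfr⟩ := exists_ind (S : Subgroup G) Θ hΘ (p ^ (b + 1)) (by
    rw [hb, pow_succ']
    intro h
    exact hidx (Nat.dvd_of_mul_dvd_mul_right (pow_pos hp.out.pos b) h))
  have hUv : padicValNat p (Module.finrank ℂ U) ≤ b := by
    by_contra h
    apply hUd
    exact (pow_dvd_pow p (by omega)).trans pow_padicValNat_dvd
  have h2 := hD U hU (by omega) (k : G) (Subgroup.mem_subgroupOf.1 hk)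
  obtain ⟨x, rfl⟩ := hf u
  rw [← hfr, h2]

/-- If `N^(i)` acts trivially on the irreducible representations of `G` whose `p`-part is less
than `p ^ a` and the degrees of `N` are at most `p ^ b`, where `8 * b ≤ a * 2 ^ t`, then
`N^(i + t + 2) = 1`. -/
theorem range_core {G : Type} [Group G] [Finite G] {p : ℕ} [hp : Fact p.Prime]
    (N : Subgroup G) [N.Normal] (hN : IsPGroup p N) (a b i t : ℕ)
    (hD : ∀ V : FDRep ℂ G, CategoryTheory.Simple V → padicValNat p (Module.finrank ℂ V) < a →
      ∀ k ∈ dser N i, ∀ v : V, V.ρ k v = v)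
    (hb : ∀ Θ : FDRep ℂ N, CategoryTheory.Simple Θ → Module.finrank ℂ Θ ≤ p ^ b)
    (ht : 8 * b ≤ a * 2 ^ t) :
    derivedSeries N (i + t + 2) = ⊥ := by
  obtain ⟨S⟩ : Nonempty (Sylow p G) := inferInstance
  have hNS : N ≤ S := normal_le_sylow S N hN
  obtain ⟨A₀, hA₀, hA₀i⟩ := exists_abelian (P := N) hN (p ^ b) hb
  obtain ⟨A, hAc, hA, hAi⟩ := chermak_delgado A₀ hA₀
  have hAi' : A.index ≤ p ^ (a * 2 ^ t) := by
    refine hAi.trans ((Nat.pow_le_pow_left hA₀i 2).trans ?_)
    rw [← pow_mul, ← pow_mul]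
    exact Nat.pow_le_pow_right hp.out.pos (by omega)
  have hAG : (A.map N.subtype).Normal := inferInstance
  have hAN : A.map N.subtype ≤ N := Subgroup.map_subtype_le A
  have hNn : (N.subgroupOf (S : Subgroup G)).Normal := inferInstance
  have hAn : ((A.map N.subtype).subgroupOf (S : Subgroup G)).Normal := inferInstance
  have hrel : ((A.map N.subtype).subgroupOf (S : Subgroup G)).relIndex
      (N.subgroupOf (S : Subgroup G)) ≤ p ^ (a * 2 ^ t) := by
    have h1 : ((A.map N.subtype).subgroupOf (S : Subgroup G)).relIndex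
        (N.subgroupOf (S : Subgroup G)) = (A.map N.subtype).relIndex N := by
      rw [Subgroup.relIndex_subgroupOf hNS]
    have h2 : (A.map N.subtype).relIndex N = A.index := by
      show ((A.map N.subtype).comap N.subtype).index = A.index
      rw [Subgroup.comap_map_eq_self_of_injective N.subtype_injective]
    rw [h1, h2]
    exact hAi'
  obtain ⟨C, hC0, hCk, hCn, hC⟩ := exists_blocks (S.isPGroup') a (2 ^ t)
    (N.subgroupOf (S : Subgroup G)) ((A.map N.subtype).subgroupOf (S : Subgroup G)) hNn hAn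
    (Subgroup.comap_mono hAN) hrel
  have hDn : (dser N i).Normal := dser_normal N i
  have hDSn : ((dser N i).subgroupOf (S : Subgroup G)).Normal := inferInstance
  have hDS : dser N i ≤ S := ((dser_anti N (Nat.zero_le i)).trans (dser_zero N).le).trans hNS
  have h1 := stab_chain ((dser N i).subgroupOf (S : Subgroup G)) (2 ^ t) t C hCn (by
    intro j hj
    have hj1 := hCn j
    have hj2 := hCn (j + 1)
    exact comm_le_of_small ((dser N i).subgroupOf (S : Subgroup G)) (p ^ a)
      (fun Θ hΘ hd => small_trivial S (dser N i) a hD Θ hΘ hd) (C (j + 1)) (C j) (hC j hj).1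
      (hC j hj).2) le_rfl
  rw [hC0, hCk] at h1
  have h2 := Subgroup.map_mono (f := (S : Subgroup G).subtype) h1
  rw [Subgroup.map_commutator, ← dser_map, Subgroup.map_subgroupOf_eq_of_le hNS,
    Subgroup.map_subgroupOf_eq_of_le hDS, dser_dser,
    Subgroup.map_subgroupOf_eq_of_le (hAN.trans hNS)] at h2
  have hle : dser N (i + t) ≤ N := (dser_anti N (Nat.zero_le _)).trans (dser_zero N).le
  have h3 : dser N (i + t + 1) ≤ A.map N.subtype := by
    rw [dser_succ]
    exact (Subgroup.commutator_mono hle le_rfl).trans h2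
  have h4 : ⁅A.map N.subtype, A.map N.subtype⁆ = ⊥ := by
    rw [eq_bot_iff, Subgroup.commutator_le]
    rintro _ ⟨x, hx, rfl⟩ _ ⟨y, hy, rfl⟩
    rw [Subgroup.mem_bot, commutatorElement_eq_one_iff_mul_comm]
    have := congrArg N.subtype (hA x hx y hy)
    rw [map_mul, map_mul] at this
    exact this
  rw [← dser_eq_bot_iff, eq_bot_iff, ← h4, show i + t + 2 = i + t + 1 + 1 from rfl, dser_succ]
  exact Subgroup.commutator_mono h3 h3

/-- The main theorem on degrees without large gaps. -/
theorem range_main {G : Type} [Group G] [Finite G] {p : ℕ} [hp : Fact p.Prime]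
    (N : Subgroup G) [N.Normal] (hN : IsPGroup p N) (a i t : ℕ)
    (hi : (padicValNat p '' cd G ∩ Set.Iio a).ncard ≤ i)
    (ht : ∀ d ∈ cd G, 8 * padicValNat p d ≤ a * 2 ^ t) :
    derivedSeries N (i + t + 2) = ⊥ := by
  have hb : ∀ d ∈ cd G, padicValNat p d ≤ a * 2 ^ t / 8 := by
    intro d hd
    have := ht d hd
    omega
  exact range_core N hN a (a * 2 ^ t / 8) i t (taketa_parts N hN a i hi)
    (fun V hV => finrank_le_of_parts N hN _ hb V hV) (Nat.mul_div_le _ _)

/-- The same for nilpotent normal subgroups. -/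
theorem fit_range {G : Type} [Group G] [Finite G] (F : Subgroup G) [F.Normal]
    (hF : Group.IsNilpotent F) (i t : ℕ)
    (h : ∀ p : ℕ, p.Prime → p ∣ Nat.card F → ∃ a : ℕ,
      (padicValNat p '' cd G ∩ Set.Iio a).ncard ≤ i ∧
      ∀ d ∈ cd G, 8 * padicValNat p d ≤ a * 2 ^ t) :
    derivedSeries F (i + t + 2) = ⊥ := by
  refine fit_sylow F hF _ fun p hp hdvd S hN => ?_
  have hSp : IsPGroup p ((S : Subgroup F).map F.subtype) := S.2.map _
  obtain ⟨a, hi, ht⟩ := h p hp.out hdvd
  exact range_main _ hSp a i t hi ht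

end Pool.PWL
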