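import Pool.Agent.PWL.Div
import Pool.Agent.PWL.DefsM
import Pool.Agent.TKB.RepA

/-!
# Small representations are trivial on `D` if the small simple ones are
-/

namespace Pool.PWL

private theorem abperm_aux {S : Type} [Group S] [Finite S] (D : Subgroup S) (q : ℕ)
    (hD : ∀ Θ : FDRep ℂ S, CategoryTheory.Simple Θ → Module.finrank ℂ Θ < q →
      ∀ k ∈ D, ∀ u : Θ, Θ.ρ k u = u)
    {X : Type} [AddCommGroup X] [Module ℂ X] [FiniteDimensional ℂ X] (ρ : Representation ℂ S X)
    (hX : Module.finrank ℂ X < q) : ∀ (n : ℕ) (W : Submodule ℂ X), Module.finrank ℂ W = n →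
      (∀ g, ∀ w ∈ W, ρ g w ∈ W) → ∀ k ∈ D, ∀ x ∈ W, ρ k x = x := by
  classical
  intro n
  induction n using Nat.strong_induction_on with
  | _ n ih =>
    intro W hWn hW k hk x hx
    by_cases hW0 : W = ⊥
    · rw [hW0, Submodule.mem_bot] at hx
      rw [hx, map_zero]
    · have hex : ∃ m, ∃ U : Submodule ℂ X, Module.finrank ℂ U = m ∧ U ≤ W ∧ U ≠ ⊥ ∧
          (∀ g, ∀ w ∈ U, ρ g w ∈ U) := ⟨_, W, rfl, le_rfl, hW0, hW⟩
      obtain ⟨U, hUn, hUW, hU0, hUinv⟩ := Nat.find_spec hex
      have hmin : ∀ U' : Submodule ℂ X, U' < U → (∀ g, ∀ w ∈ U', ρ g w ∈ U') → U' = ⊥ := by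
        intro U' hlt hinv
        by_contra hU'
        have h1 := Submodule.finrank_lt_finrank_of_lt hlt
        rw [hUn] at h1
        exact Nat.find_min hex h1 ⟨U', rfl, hlt.le.trans hUW, hU', hinv⟩
      -- `U` is simple
      let ρU : Representation ℂ S U :=
        { toFun := fun g => (ρ g).restrict (hUinv g)
          map_one' := by ext; simp
          map_mul' := fun x y => by ext; simp }
      have hnt : Nontrivial U := (Submodule.nontrivial_iff_ne_bot).2 hU0
      have hsimple : CategoryTheory.Simple (FDRep.of ρU) := by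
        apply TKB.simple_of
        intro Y hY
        by_cases hYt : Y.map U.subtype = U
        · right
          rw [Submodule.eq_top_iff']
          intro z
          have hz : (z : X) ∈ Y.map U.subtype := by rw [hYt]; exact z.2
          obtain ⟨y, hy, hyz⟩ := hz
          have h3 : y = z := Subtype.ext hyz
          rwa [← h3]
        · left
          have hle : Y.map U.subtype ≤ U := by
            rintro z ⟨y, _, rfl⟩
            exact y.2
          have h1 := hmin (Y.map U.subtype) (lt_of_le_of_ne hle hYt) (by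
            rintro g z ⟨y, hy, rfl⟩
            exact ⟨ρU g y, hY g y hy, rfl⟩)
          rw [Submodule.eq_bot_iff]
          intro z hz
          have hz' : (z : X) ∈ Y.map U.subtype := ⟨z, hz, rfl⟩
          rw [h1, Submodule.mem_bot] at hz'
          exact Subtype.ext hz'
      have hUq : Module.finrank ℂ (FDRep.of ρU) < q :=
        lt_of_le_of_lt (Submodule.finrank_le U) hX
      have hUtriv : ∀ u ∈ U, ρ k u = u := by
        intro u hu
        have h1 := hD (FDRep.of ρU) hsimple hUq k hk (⟨u, hu⟩ : U)
        exact congrArg (Subtype.val : U → X) h1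
      -- a complement
      let Us : Subrepresentation ρ := ⟨U, fun g v hv => hUinv g v hv⟩
      obtain ⟨Cs, hCs⟩ := exists_isCompl Us
      have hinf : U ⊓ Cs.toSubmodule = ⊥ := by
        have := hCs.inf_eq_bot
        exact congrArg Subrepresentation.toSubmodule this
      have hsup : U ⊔ Cs.toSubmodule = ⊤ := by
        have := hCs.sup_eq_top
        exact congrArg Subrepresentation.toSubmodule this
      have hC1 : Cs.toSubmodule ⊓ W < W := by
        refine lt_of_le_of_ne inf_le_right ?_
        intro h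
        have h1 : W ≤ Cs.toSubmodule := by
          rw [← h]
          exact inf_le_left
        apply hU0
        rw [← le_bot_iff, ← hinf]
        exact le_inf le_rfl (hUW.trans h1)
      have hs : U ⊔ (Cs.toSubmodule ⊓ W) = W := by
        rw [← sup_inf_assoc_of_le _ hUW, hsup, top_inf_eq]
      rw [← hs, Submodule.mem_sup] at hx
      obtain ⟨u, hu, c, hc, rfl⟩ := hx
      have h2 := Submodule.finrank_lt_finrank_of_lt hC1
      rw [hWn] at h2
      rw [map_add, hUtriv u hu, ih _ h2 (Cs.toSubmodule ⊓ W) rfl (fun g w hw =>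
        ⟨Cs.apply_mem_toSubmodule g hw.1, hW g w hw.2⟩) k hk c hc]

/-! row ABPerm -/
theorem trivial_of_small {S : Type} [Group S] [Finite S] (D : Subgroup S) (q : ℕ)
    (hD : ∀ Θ : FDRep ℂ S, CategoryTheory.Simple Θ → Module.finrank ℂ Θ < q →
      ∀ k ∈ D, ∀ u : Θ, Θ.ρ k u = u)
    {X : Type} [AddCommGroup X] [Module ℂ X] [FiniteDimensional ℂ X] (ρ : Representation ℂ S X)
    (hX : Module.finrank ℂ X < q) : ∀ k ∈ D, ∀ x : X, ρ k x = x := by
  intro k hk x
  exact abperm_aux D q hD ρ hX _ ⊤ rfl (fun _ _ _ => Submodule.mem_top) k hk x Submodule.mem_top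

end Pool.PWL
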