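import Pool.Agent.PWL.NSyl

set_option autoImplicit false

namespace Pool.PWL

open CategoryTheory

/-! row ABSec (from exists_ind in IndS: average a linear section) -/
theorem exists_over {G : Type} [Group G] [Finite G] (S : Subgroup G) (Θ : FDRep ℂ S)
    (hΘ : CategoryTheory.Simple Θ) :
    ∃ V : FDRep ℂ G, CategoryTheory.Simple V ∧ ∃ i : Θ →ₗ[ℂ] V, Function.Injective i ∧
      ∀ (s : S) (x : Θ), i (Θ.ρ s x) = V.ρ (s : G) (i x) := by
  classical
  have hnt : Nontrivial Θ := Pool.TKB.simple_nontrivial Θ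
  have hd : 0 < Module.finrank ℂ Θ := Module.finrank_pos
  have hidx : 0 < S.index := Nat.pos_of_ne_zero Subgroup.index_ne_zero_of_finite
  obtain ⟨V, hV, -, f, hf, hfr⟩ := exists_ind S Θ hΘ (S.index * Module.finrank ℂ Θ + 1) (by
    intro h
    have := Nat.le_of_dvd (Nat.mul_pos hidx hd) h
    omega)
  obtain ⟨s0, hs0⟩ := LinearMap.exists_rightInverse_of_surjective f (LinearMap.range_eq_top.2 hf)
  have hs0' : ∀ x, f (s0 x) = x := fun x => LinearMap.congr_fun hs0 x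
  haveI : Fintype S := Fintype.ofFinite S
  have hc : ((Fintype.card S : ℕ) : ℂ) ≠ 0 := Nat.cast_ne_zero.2 Fintype.card_ne_zero
  let i : Θ →ₗ[ℂ] V := ((Fintype.card S : ℕ) : ℂ)⁻¹ •
    ∑ s : S, (V.ρ (s : G)) ∘ₗ s0 ∘ₗ (Θ.ρ s⁻¹)
  have hi : ∀ x, i x = ((Fintype.card S : ℕ) : ℂ)⁻¹ •
      ∑ s : S, V.ρ (s : G) (s0 (Θ.ρ s⁻¹ x)) := by
    intro x
    simp only [i, LinearMap.smul_apply, LinearMap.sum_apply, LinearMap.comp_apply]
  have hfi : ∀ x, f (i x) = x := by
    intro x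
    rw [hi, map_smul, map_sum]
    have h1 : ∀ s : S, f (V.ρ (s : G) (s0 (Θ.ρ s⁻¹ x))) = x := by
      intro s
      rw [hfr, hs0', ← Module.End.mul_apply, ← map_mul, mul_inv_cancel, map_one,
        Module.End.one_apply]
    rw [Finset.sum_congr rfl fun s _ => h1 s, Finset.sum_const, Finset.card_univ,
      ← Nat.cast_smul_eq_nsmul ℂ, smul_smul, inv_mul_cancel₀ hc, one_smul]
  refine ⟨V, hV, i, fun x y hxy => ?_, ?_⟩
  · rw [← hfi x, ← hfi y, hxy]
  · intro t x
    rw [hi, hi, map_smul, map_sum]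
    congr 1
    rw [← Equiv.sum_comp (Equiv.mulLeft t)]
    refine Finset.sum_congr rfl fun s _ => ?_
    rw [Equiv.coe_mulLeft, ← Module.End.mul_apply (Θ.ρ _), ← map_mul, mul_inv_rev, mul_assoc,
      inv_mul_cancel, mul_one, Subgroup.coe_mul, map_mul, Module.End.mul_apply]

end Pool.PWL
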