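import Pool.Agent.PWL.DefsM

/-!
# The character of a conjugate, extended by one
-/

namespace Pool.PWL

section
variable {G A : Type*} [Group G] [CommGroup A] {T : Subgroup G} (τ : T →* A)

theorem cch_mul_right (k g t : G) (ht : t ∈ T) : cch τ k (g * t) = cch τ k g := by
  have e : (g * t)⁻¹ * k * (g * t) = t⁻¹ * (g⁻¹ * k * g) * t := by group
  by_cases h : g⁻¹ * k * g ∈ T
  · have h' : (g * t)⁻¹ * k * (g * t) ∈ T := by
      rw [e]
      exact T.mul_mem (T.mul_mem (T.inv_mem ht) h) ht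
    rw [cch, cch, dif_pos h', dif_pos h]
    have e2 : (⟨(g * t)⁻¹ * k * (g * t), h'⟩ : T)
        = (⟨t, ht⟩ : T)⁻¹ * ⟨g⁻¹ * k * g, h⟩ * ⟨t, ht⟩ := Subtype.ext e
    rw [e2, map_mul, map_mul, map_inv, mul_comm ((τ ⟨t, ht⟩)⁻¹), mul_assoc, inv_mul_cancel,
      mul_one]
  · have h' : (g * t)⁻¹ * k * (g * t) ∉ T := by
      intro h1
      apply h
      have e3 : g⁻¹ * k * g = t * ((g * t)⁻¹ * k * (g * t)) * t⁻¹ := by group
      rw [e3]
      exact T.mul_mem (T.mul_mem ht h1) (T.inv_mem ht)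
    rw [cch, cch, dif_neg h', dif_neg h]

theorem cch_mul_left (k x g : G) : cch τ k (x * g) = cch τ (x⁻¹ * k * x) g := by
  have e : (x * g)⁻¹ * k * (x * g) = g⁻¹ * (x⁻¹ * k * x) * g := by group
  by_cases h : (x * g)⁻¹ * k * (x * g) ∈ T
  · have h' : g⁻¹ * (x⁻¹ * k * x) * g ∈ T := by
      rw [← e]
      exact h
    rw [cch, cch, dif_pos h, dif_pos h']
    exact congrArg τ (Subtype.ext e)
  · have h' : g⁻¹ * (x⁻¹ * k * x) * g ∉ T := by
      rw [← e]
      exact h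
    rw [cch, cch, dif_neg h, dif_neg h']

theorem cch_mul (P : Subgroup G) [P.Normal] (hP : P ≤ T) (k : G) (hk : k ∈ P) (k' : G)
    (hk' : k' ∈ P) (g : G) : cch τ (k * k') g = cch τ k g * cch τ k' g := by
  have h0 : ∀ k ∈ P, g⁻¹ * k * g ∈ T := by
    intro k hk
    have h := (inferInstance : P.Normal).conj_mem k hk g⁻¹
    rw [inv_inv] at h
    exact hP h
  rw [cch, cch, cch, dif_pos (h0 _ (P.mul_mem hk hk')), dif_pos (h0 _ hk), dif_pos (h0 _ hk'),
    ← map_mul]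
  congr 1
  apply Subtype.ext
  change g⁻¹ * (k * k') * g = g⁻¹ * k * g * (g⁻¹ * k' * g)
  group

theorem cch_one_right (k : G) (hk : k ∈ T) : cch τ k 1 = τ ⟨k, hk⟩ := by
  have e : (1 : G)⁻¹ * k * 1 = k := by group
  have h : (1 : G)⁻¹ * k * 1 ∈ T := by
    rw [e]
    exact hk
  rw [cch, dif_pos h]
  congr 1
  exact Subtype.ext e
end

end Pool.PWL
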