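import Pool.Agent.PWL.Basic
import Pool.Agent.PWL.PE

/-!
# Commutators in the chain of iterated power subgroups
-/

namespace Pool.PWL

open scoped commutatorElement

private theorem chainTop {G : Type*} [Group G] [Group.IsNilpotent G] {p : ℕ} [Fact p.Prime]
    (hp2 : p ≠ 2) (N : Subgroup G) [N.Normal] (hN : ⁅N, (⊤ : Subgroup G)⁆ ≤ pw p N) (i : ℕ) :
    ⁅chain p N i, (⊤ : Subgroup G)⁆ ≤ chain p N (i + 1) := by
  induction i with
  | zero => exact hN
  | succ i ih => exact pe_pw hp2 (chain p N i) ih

private theorem commutePow {H : Type*} [Group H] {p : ℕ} (A B : H)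
    (hc : ∀ g : H, Commute ⁅A, B⁆ g) (hp : ⁅A, B⁆ ^ p = 1) : Commute A (B ^ p) := by
  have h1 : A * B * A⁻¹ = ⁅A, B⁆ * B := by
    rw [commutatorElement_def]; group
  have h2 : (A * B * A⁻¹) ^ p = B ^ p := by
    rw [h1, (hc B).mul_pow, hp, one_mul]
  rw [conj_pow] at h2
  show A * B ^ p = B ^ p * A
  calc A * B ^ p = (A * B ^ p * A⁻¹) * A := by group
    _ = B ^ p * A := by rw [h2]

theorem chain_comm {G : Type*} [Group G] [Group.IsNilpotent G] {p : ℕ} [Fact p.Prime]
    (hp2 : p ≠ 2) (N : Subgroup G) [N.Normal] (hN : ⁅N, (⊤ : Subgroup G)⁆ ≤ pw p N) (i j : ℕ) :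
    ⁅chain p N i, chain p N j⁆ ≤ chain p N (i + j + 1) := by
  induction j with
  | zero => exact (Subgroup.commutator_mono le_rfl le_top).trans (chainTop hp2 N hN i)
  | succ j ih =>
    set M := chain p N (i + (j + 1) + 1) with hM
    have hMeq : M = pw p (chain p N (i + j + 1)) := rfl
    have hcen : ⁅chain p N (i + j + 1), (⊤ : Subgroup G)⁆ ≤ M := chainTop hp2 N hN (i + j + 1)
    have key : chain p N (j + 1) ≤
        (Subgroup.centralizer ((QuotientGroup.mk' M) '' (chain p N i : Set G))).comap
          (QuotientGroup.mk' M) := by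
      refine pw_le (fun b hb => ?_)
      rw [Subgroup.mem_comap, Subgroup.mem_centralizer_iff]
      rintro _ ⟨a, ha, rfl⟩
      have hL : ⁅a, b⁆ ∈ chain p N (i + j + 1) := ih (Subgroup.commutator_mem_commutator ha hb)
      have h1 : Commute (QuotientGroup.mk' M a) ((QuotientGroup.mk' M b) ^ p) := by
        refine commutePow _ _ ?_ ?_
        · intro g
          obtain ⟨g, rfl⟩ := QuotientGroup.mk'_surjective M g
          rw [← map_commutatorElement, ← commutatorElement_eq_one_iff_commute,
            ← map_commutatorElement]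
          exact (QuotientGroup.eq_one_iff _).2
            (hcen (Subgroup.commutator_mem_commutator hL (Subgroup.mem_top g)))
        · rw [← map_commutatorElement, ← map_pow]
          refine (QuotientGroup.eq_one_iff _).2 ?_
          rw [hMeq]
          exact pow_mem_pw hL
      rw [map_pow]
      exact h1
    rw [Subgroup.commutator_le]
    intro a ha y hy
    have h1 := key hy
    rw [Subgroup.mem_comap, Subgroup.mem_centralizer_iff] at h1
    have h2 : Commute (QuotientGroup.mk' M a) (QuotientGroup.mk' M y) := h1 _ ⟨a, ha, rfl⟩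
    rw [← commutatorElement_eq_one_iff_commute, ← map_commutatorElement] at h2
    exact (QuotientGroup.eq_one_iff _).1 h2

theorem derived_le_chain {G : Type*} [Group G] [Group.IsNilpotent G] {p : ℕ} [Fact p.Prime]
    (hp2 : p ≠ 2) (hN : ⁅⁅(⊤ : Subgroup G), (⊤ : Subgroup G)⁆, (⊤ : Subgroup G)⁆
      ≤ pw p ⁅(⊤ : Subgroup G), (⊤ : Subgroup G)⁆) (s : ℕ) :
    derivedSeries G (s + 1) ≤ chain p ⁅(⊤ : Subgroup G), (⊤ : Subgroup G)⁆ (2 ^ s - 1) := by
  induction s with
  | zero =>
    rw [derivedSeries_succ, derivedSeries_zero]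
    exact le_rfl
  | succ s ih =>
    rw [derivedSeries_succ]
    refine (Subgroup.commutator_mono ih ih).trans ?_
    refine (chain_comm hp2 _ hN _ _).trans (le_of_eq ?_)
    congr 1
    have : 1 ≤ 2 ^ s := Nat.one_le_two_pow
    rw [pow_succ]; omega

end Pool.PWL
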