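import Mathlib

/-!
# Commutators of a product with central elements
-/

namespace Pool.PWL

open scoped commutatorElement

theorem commutator_eq_of_central {X : Type*} [Group X] (Γ H C : Subgroup X) (hH : H ≤ Γ)
    (hC : ∀ c ∈ C, ∀ g ∈ Γ, c * g = g * c) (h : ∀ g ∈ Γ, ∃ h ∈ H, ∃ c ∈ C, g = h * c) :
    ⁅Γ, Γ⁆ = ⁅H, H⁆ := by
  apply le_antisymm
  · rw [Subgroup.commutator_le]
    intro g hg g' hg'
    obtain ⟨a, ha, c, hc, rfl⟩ := h g hg
    obtain ⟨b, hb, d, hd, rfl⟩ := h g' hg'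
    have e1 : c * (b * d) = (b * d) * c := hC c hc _ hg'
    have e2 : d * a⁻¹ = a⁻¹ * d := hC d hd _ (Γ.inv_mem (hH ha))
    have e3 : ⁅a * c, b * d⁆ = ⁅a, b⁆ := by
      rw [commutatorElement_def, commutatorElement_def]
      calc a * c * (b * d) * (a * c)⁻¹ * (b * d)⁻¹
          = a * (c * (b * d)) * (a * c)⁻¹ * (b * d)⁻¹ := by group
        _ = a * ((b * d) * c) * (a * c)⁻¹ * (b * d)⁻¹ := by rw [e1]
        _ = a * b * (d * a⁻¹) * (b * d)⁻¹ := by group
        _ = a * b * (a⁻¹ * d) * (b * d)⁻¹ := by rw [e2]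
        _ = a * b * a⁻¹ * b⁻¹ := by group
    rw [e3]
    exact Subgroup.commutator_mem_commutator ha hb
  · exact Subgroup.commutator_mono hH hH

end Pool.PWL
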