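import Pool.Agent.PWL.Count

/-!
# From the step to the exponent: a chain below the commutator subgroup
-/

namespace Pool.PWL

open CategoryTheory Subgroup
open scoped commutatorElement

theorem chain_trivialM {G : Type} [Group G] [Finite G] (Q : ℕ → Subgroup G)
    (hQ0 : Q 0 ≤ ⁅(⊤ : Subgroup G), (⊤ : Subgroup G)⁆) (hanti : Antitone Q)
    (hstep : ∀ (i : ℕ) (V : FDRep ℂ G), CategoryTheory.Simple V → 1 < Module.finrank ℂ V →
      (∀ U : FDRep ℂ G, CategoryTheory.Simple U → Module.finrank ℂ U < Module.finrank ℂ V →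
        ∀ k ∈ Q i, ∀ u : U, U.ρ k u = u) → ∀ k ∈ Q (i + 1), ∀ v : V, V.ρ k v = v) :
    Q ((Pool.TKB.cd G).ncard - 1) = ⊥ := by
  classical
  have hfin : (Pool.TKB.cd G).Finite := Pool.TKB.cd_finite
  -- the number of degrees below `n`
  let r : ℕ → ℕ := fun n => {d ∈ Pool.TKB.cd G | d < n}.ncard
  have hrfin : ∀ n, {d ∈ Pool.TKB.cd G | d < n}.Finite := fun n => hfin.subset fun d hd => hd.1
  have key : ∀ n : ℕ, ∀ V : FDRep ℂ G, Simple V → Module.finrank ℂ V = n →
      ∀ i, r n ≤ i → ∀ k ∈ Q i, ∀ v : V, V.ρ k v = v := by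
    intro n
    induction n using Nat.strong_induction_on with
    | _ n ih =>
    intro V hV hn i hi k hk v
    have hpos : 0 < Module.finrank ℂ V := by
      have := Pool.TKB.simple_nontrivial V
      exact Module.finrank_pos
    rcases Nat.lt_or_ge 1 n with h1 | h1
    · -- `1` is a degree below `n`
      have hr1 : 1 ≤ r n := by
        have h2 : ({1} : Set ℕ) ⊆ {d ∈ Pool.TKB.cd G | d < n} := by
          intro d hd
          rw [Set.mem_singleton_iff] at hd
          subst hd
          exact ⟨Pool.TKB.one_mem_cd, h1⟩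
        have h3 := Set.ncard_le_ncard h2 (hrfin n)
        rwa [Set.ncard_singleton] at h3
      obtain ⟨j, rfl⟩ : ∃ j, i = j + 1 := ⟨i - 1, by omega⟩
      refine hstep j V hV (by omega) ?_ k hk v
      intro U hU hlt k' hk' u
      refine ih (Module.finrank ℂ U) (by omega) U hU rfl j ?_ k' hk' u
      have h4 : insert (Module.finrank ℂ U) {d ∈ Pool.TKB.cd G | d < Module.finrank ℂ U} ⊆
          {d ∈ Pool.TKB.cd G | d < n} := by
        intro d hd
        rcases hd with rfl | hd
        · exact ⟨⟨U, hU, rfl⟩, by omega⟩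
        · exact ⟨hd.1, by have := hd.2; omega⟩
      have h5 := Set.ncard_le_ncard h4 (hrfin n)
      rw [Set.ncard_insert_of_notMem (fun h => lt_irrefl _ h.2) (hrfin _)] at h5
      have h6 : r n ≤ j + 1 := hi
      have h7 : r (Module.finrank ℂ U) + 1 ≤ r n := h5
      omega
    · have hone : Module.finrank ℂ V = 1 := by omega
      refine comm_trivial_of_one V hone ?_ v
      exact hQ0 (hanti (Nat.zero_le i) hk)
  rw [eq_bot_iff]
  intro g hg
  by_contra hg1
  obtain ⟨V, hV, _, v, hv⟩ := Pool.TKB.exists_simple (⊥ : Subgroup G) g hg1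
  apply hv
  refine key _ V hV rfl _ ?_ g hg v
  have h4 : insert (Module.finrank ℂ V) {d ∈ Pool.TKB.cd G | d < Module.finrank ℂ V} ⊆
      Pool.TKB.cd G := by
    intro d hd
    rcases hd with rfl | hd
    · exact ⟨V, hV, rfl⟩
    · exact hd.1
  have h5 := Set.ncard_le_ncard h4 hfin
  rw [Set.ncard_insert_of_notMem (fun h => lt_irrefl _ h.2) (hrfin _)] at h5
  have h6 : r (Module.finrank ℂ V) + 1 ≤ (Pool.TKB.cd G).ncard := h5
  omega

end Pool.PWL
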