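import Pool.Agent.PWL.DefsM

/-!
# Products over cosets
-/

namespace Pool.PWL
open scoped commutatorElement

section
variable {G A : Type*} [Group G] [Finite G] [CommGroup A]

theorem cprod_eq {ι : Type*} [Fintype ι] (T X : Subgroup G) (F : G → A)
    (hF : ∀ g, ∀ t ∈ T, F (g * t) = F g) (s : ι → G) (hs : ∀ i, s i ∈ X)
    (hinj : ∀ i j, (s i)⁻¹ * s j ∈ T → i = j) (hsurj : ∀ x ∈ X, ∃ i, (s i)⁻¹ * x ∈ T) :
    cprod T X F = ∏ i, F (s i) := by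
  unfold cprod
  have key : ∀ i, F (s i) =
      F (((QuotientGroup.mk (⟨s i, hs i⟩ : X) : X ⧸ T.subgroupOf X).out : X) : G) := by
    intro i
    obtain ⟨t, ht⟩ := QuotientGroup.mk_out_eq_mul (T.subgroupOf X) (⟨s i, hs i⟩ : X)
    rw [ht]
    exact (hF _ _ (Subgroup.mem_subgroupOf.1 t.2)).symm
  rw [← finprod_eq_prod_of_fintype]
  symm
  refine finprod_eq_of_bijective
    (fun i => (QuotientGroup.mk (⟨s i, hs i⟩ : X) : X ⧸ T.subgroupOf X)) ⟨?_, ?_⟩ key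
  · intro i j hij
    apply hinj
    have h := QuotientGroup.eq.1 hij
    exact Subgroup.mem_subgroupOf.1 h
  · intro q
    obtain ⟨i, hi⟩ := hsurj (q.out : X) (q.out : X).2
    refine ⟨i, ?_⟩
    have h2 : (QuotientGroup.mk (q.out : X) : X ⧸ T.subgroupOf X) = q := QuotientGroup.out_eq' q
    rw [← h2]
    exact QuotientGroup.eq.2 (Subgroup.mem_subgroupOf.2 hi)

theorem cprod_sup (T M R : Subgroup G) (hRM : R ≤ M)
    (hM : ∀ m ∈ M, ∃ r ∈ R, r⁻¹ * m ∈ T) (F : G → A) (hF : ∀ g, ∀ t ∈ T, F (g * t) = F g) :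
    cprod T M F = cprod T R F := by
  classical
  haveI : Fintype (R ⧸ T.subgroupOf R) := Fintype.ofFinite _
  have h1 : cprod T R F = ∏ q : R ⧸ T.subgroupOf R, F ((q.out : R) : G) := by
    unfold cprod
    rw [finprod_eq_prod_of_fintype]
  rw [h1]
  refine cprod_eq T M F hF (fun q : R ⧸ T.subgroupOf R => ((q.out : R) : G))
    (fun q => hRM (q.out : R).2) ?_ ?_
  · intro i j hij
    have h : (QuotientGroup.mk (i.out : R) : R ⧸ T.subgroupOf R) =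
        QuotientGroup.mk (j.out : R) := QuotientGroup.eq.2 (Subgroup.mem_subgroupOf.2 hij)
    rwa [QuotientGroup.out_eq', QuotientGroup.out_eq'] at h
  · intro x hx
    obtain ⟨r, hr, hrx⟩ := hM x hx
    obtain ⟨t, ht⟩ := QuotientGroup.mk_out_eq_mul (T.subgroupOf R) (⟨r, hr⟩ : R)
    refine ⟨(QuotientGroup.mk (⟨r, hr⟩ : R) : R ⧸ T.subgroupOf R), ?_⟩
    have ht' : (((QuotientGroup.mk (⟨r, hr⟩ : R) : R ⧸ T.subgroupOf R).out : R) : G) =
        r * ((t : R) : G) := by rw [ht]; rfl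
    show ((((QuotientGroup.mk (⟨r, hr⟩ : R) : R ⧸ T.subgroupOf R).out : R) : G))⁻¹ * x ∈ T
    rw [ht', mul_inv_rev, mul_assoc]
    exact T.mul_mem (T.inv_mem (Subgroup.mem_subgroupOf.1 t.2)) hrx

theorem cprod_step (T X Y : Subgroup G) (hYX : Y ≤ X) (hTX : ∀ g ∈ X, g ∈ T → g ∈ Y) (n : ℕ)
    (x : G) (hx : x ∈ X) (hinj : ∀ i < n, ∀ j < n, (x ^ i)⁻¹ * x ^ j ∈ Y → i = j)
    (hsurj : ∀ y ∈ X, ∃ i < n, (x ^ i)⁻¹ * y ∈ Y) (F : G → A)
    (hF : ∀ g, ∀ t ∈ T, F (g * t) = F g) :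
    cprod T X F = ∏ i ∈ Finset.range n, cprod T Y (fun g => F (x ^ i * g)) := by
  classical
  haveI : Fintype (Y ⧸ T.subgroupOf Y) := Fintype.ofFinite _
  have h1 : ∀ i : ℕ, cprod T Y (fun g => F (x ^ i * g)) =
      ∏ q : Y ⧸ T.subgroupOf Y, F (x ^ i * ((q.out : Y) : G)) := by
    intro i
    unfold cprod
    rw [finprod_eq_prod_of_fintype]
  rw [Finset.prod_range]
  simp_rw [h1]
  rw [← Fintype.prod_prod_type' (fun (i : Fin n) (q : Y ⧸ T.subgroupOf Y) =>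
    F (x ^ (i : ℕ) * ((q.out : Y) : G)))]
  refine cprod_eq T X F hF (fun iq : Fin n × (Y ⧸ T.subgroupOf Y) =>
    x ^ (iq.1 : ℕ) * ((iq.2.out : Y) : G)) ?_ ?_ ?_
  · intro iq
    exact X.mul_mem (X.pow_mem hx _) (hYX (iq.2.out : Y).2)
  · rintro ⟨i, q⟩ ⟨j, r⟩ h
    have h' : (x ^ (i : ℕ) * ((q.out : Y) : G))⁻¹ * (x ^ (j : ℕ) * ((r.out : Y) : G)) ∈ T := h
    have hX : (x ^ (i : ℕ) * ((q.out : Y) : G))⁻¹ * (x ^ (j : ℕ) * ((r.out : Y) : G)) ∈ X :=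
      X.mul_mem (X.inv_mem (X.mul_mem (X.pow_mem hx _) (hYX (q.out : Y).2)))
        (X.mul_mem (X.pow_mem hx _) (hYX (r.out : Y).2))
    have hY := hTX _ hX h'
    have hij : (x ^ (i : ℕ))⁻¹ * x ^ (j : ℕ) ∈ Y := by
      have e : (x ^ (i : ℕ))⁻¹ * x ^ (j : ℕ) = ((q.out : Y) : G) *
          ((x ^ (i : ℕ) * ((q.out : Y) : G))⁻¹ * (x ^ (j : ℕ) * ((r.out : Y) : G))) *
          ((r.out : Y) : G)⁻¹ := by group
      rw [e]
      exact Y.mul_mem (Y.mul_mem (q.out : Y).2 hY) (Y.inv_mem (r.out : Y).2)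
    have hijf : i = j := Fin.ext (hinj i i.2 j j.2 hij)
    subst hijf
    have hT : ((q.out : Y) : G)⁻¹ * ((r.out : Y) : G) ∈ T := by
      have e : ((q.out : Y) : G)⁻¹ * ((r.out : Y) : G) =
          (x ^ (i : ℕ) * ((q.out : Y) : G))⁻¹ * (x ^ (i : ℕ) * ((r.out : Y) : G)) := by group
      rw [e]
      exact h'
    have h2 : (QuotientGroup.mk (q.out : Y) : Y ⧸ T.subgroupOf Y) =
        QuotientGroup.mk (r.out : Y) := QuotientGroup.eq.2 (Subgroup.mem_subgroupOf.2 hT)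
    rw [QuotientGroup.out_eq', QuotientGroup.out_eq'] at h2
    rw [h2]
  · intro y hy
    obtain ⟨i, hi, hiy⟩ := hsurj y hy
    obtain ⟨t, ht⟩ := QuotientGroup.mk_out_eq_mul (T.subgroupOf Y) (⟨(x ^ i)⁻¹ * y, hiy⟩ : Y)
    refine ⟨(⟨i, hi⟩, (QuotientGroup.mk (⟨(x ^ i)⁻¹ * y, hiy⟩ : Y) : Y ⧸ T.subgroupOf Y)), ?_⟩
    have ht' : (((QuotientGroup.mk (⟨(x ^ i)⁻¹ * y, hiy⟩ : Y) : Y ⧸ T.subgroupOf Y).out : Y) :
        G) = (x ^ i)⁻¹ * y * ((t : Y) : G) := by rw [ht]; rfl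
    show (x ^ i * (((QuotientGroup.mk (⟨(x ^ i)⁻¹ * y, hiy⟩ : Y) :
      Y ⧸ T.subgroupOf Y).out : Y) : G))⁻¹ * y ∈ T
    rw [ht']
    have e : (x ^ i * ((x ^ i)⁻¹ * y * ((t : Y) : G)))⁻¹ * y = ((t : Y) : G)⁻¹ := by group
    rw [e]
    exact T.inv_mem (Subgroup.mem_subgroupOf.1 t.2)

theorem cprod_of_le (T X : Subgroup G) (h : X ≤ T) (F : G → A)
    (hF : ∀ g, ∀ t ∈ T, F (g * t) = F g) : cprod T X F = F 1 := by
  rw [cprod_eq T X F hF (fun _ : Unit => (1 : G)) (fun _ => X.one_mem) (fun _ _ _ => rfl)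
    (fun y hy => ⟨(), by simpa using h hy⟩)]
  simp

theorem cprod_mul (T X : Subgroup G) (F F' : G → A) :
    cprod T X (fun g => F g * F' g) = cprod T X F * cprod T X F' := by
  unfold cprod
  exact finprod_mul_distrib (Set.toFinite _) (Set.toFinite _)

theorem cprod_const (T X : Subgroup G) (a : A) (F : G → A) (hF : ∀ x ∈ X, F x = a) :
    cprod T X F = a ^ T.relIndex X := by
  classical
  haveI : Fintype (X ⧸ T.subgroupOf X) := Fintype.ofFinite _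
  unfold cprod
  rw [finprod_eq_prod_of_fintype, Finset.prod_congr rfl (fun q _ => hF _ (q.out : X).2),
    Finset.prod_const, Finset.card_univ, ← Nat.card_eq_fintype_card]
  rfl

end

end Pool.PWL
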