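import Pool.Agent.PWL.Div
import Pool.Agent.PWL.DefsM
import Pool.Agent.TKB.RepA

/-!
# Cuts: if no degree lies in `(B, B ^ 2]`, the representations which are trivial on the common kernel
of the simple representations of dimension at most `B` have simple constituents of dimension at most
`B`
-/

namespace Pool.PWL

/-- The span of the matrix coefficients of the simple representations of dimension at most `B`. -/
def cutAlg (P : Type) [Group P] (B : ℕ) : Submodule ℂ (P → ℂ) :=
  Submodule.span ℂ {c | ∃ V : FDRep ℂ P, CategoryTheory.Simple V ∧ Module.finrank ℂ V ≤ B ∧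
    ∃ (φ : Module.Dual ℂ V) (x : V), c = fun g => φ (V.ρ g x)}

private theorem cut_coef_aux {P : Type} [Group P] [Finite P] (B : ℕ)
    (hgap : ∀ V : FDRep ℂ P, CategoryTheory.Simple V → Module.finrank ℂ V ≤ B ^ 2 →
      Module.finrank ℂ V ≤ B)
    {X : Type} [AddCommGroup X] [Module ℂ X] [FiniteDimensional ℂ X] (ρ : Representation ℂ P X)
    (hX : Module.finrank ℂ X ≤ B ^ 2) (φ : Module.Dual ℂ X) : ∀ (n : ℕ) (W : Submodule ℂ X),
      Module.finrank ℂ W = n → (∀ g, ∀ w ∈ W, ρ g w ∈ W) →
      ∀ x ∈ W, (fun g => φ (ρ g x)) ∈ cutAlg P B := by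
  classical
  intro n
  induction n using Nat.strong_induction_on with
  | _ n ih =>
    intro W hWn hW x hx
    by_cases hW0 : W = ⊥
    · rw [hW0, Submodule.mem_bot] at hx
      have h0 : (fun g => φ (ρ g x)) = 0 := by
        funext g
        rw [hx, map_zero, map_zero]
        rfl
      rw [h0]
      exact Submodule.zero_mem _
    · have hex : ∃ m, ∃ U : Submodule ℂ X, Module.finrank ℂ U = m ∧ U ≤ W ∧ U ≠ ⊥ ∧
          (∀ g, ∀ w ∈ U, ρ g w ∈ U) := ⟨_, W, rfl, le_rfl, hW0, hW⟩
      obtain ⟨U, hUn, hUW, hU0, hUinv⟩ := Nat.find_spec hex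
      have hmin : ∀ U' : Submodule ℂ X, U' < U → (∀ g, ∀ w ∈ U', ρ g w ∈ U') → U' = ⊥ := by
        intro U' hlt hinv
        by_contra hU'
        have h1 := Submodule.finrank_lt_finrank_of_lt hlt
        rw [hUn] at h1
        exact Nat.find_min hex h1 ⟨U', rfl, hlt.le.trans hUW, hU', hinv⟩
      let ρU : Representation ℂ P U :=
        { toFun := fun g => (ρ g).restrict (hUinv g)
          map_one' := by ext; simp
          map_mul' := fun x y => by ext; simp }
      have hnt : Nontrivial U := (Submodule.nontrivial_iff_ne_bot).2 hU0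
      have hsimple : CategoryTheory.Simple (FDRep.of ρU) := by
        apply TKB.simple_of
        intro Y hY
        by_cases hYt : Y.map U.subtype = U
        · right
          rw [Submodule.eq_top_iff']
          intro z
          have hz : (z : X) ∈ Y.map U.subtype := by rw [hYt]; exact z.2
          obtain ⟨y, hy, hyz⟩ := hz
          have h3 : y = z := Subtype.ext hyz
          rwa [← h3]
        · left
          have hle : Y.map U.subtype ≤ U := by
            rintro z ⟨y, _, rfl⟩
            exact y.2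
          have h1 := hmin (Y.map U.subtype) (lt_of_le_of_ne hle hYt) (by
            rintro g z ⟨y, hy, rfl⟩
            exact ⟨ρU g y, hY g y hy, rfl⟩)
          rw [Submodule.eq_bot_iff]
          intro z hz
          have hz' : (z : X) ∈ Y.map U.subtype := ⟨z, hz, rfl⟩
          rw [h1, Submodule.mem_bot] at hz'
          exact Subtype.ext hz'
      have hUq : Module.finrank ℂ (FDRep.of ρU) ≤ B ^ 2 :=
        (Submodule.finrank_le U).trans hX
      have hUc : ∀ u ∈ U, (fun g => φ (ρ g u)) ∈ cutAlg P B := by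
        intro u hu
        apply Submodule.subset_span
        exact ⟨FDRep.of ρU, hsimple, hgap _ hsimple hUq, φ ∘ₗ U.subtype, (⟨u, hu⟩ : U), rfl⟩
      -- a complement
      let Us : Subrepresentation ρ := ⟨U, fun g v hv => hUinv g v hv⟩
      obtain ⟨Cs, hCs⟩ := exists_isCompl Us
      have hinf : U ⊓ Cs.toSubmodule = ⊥ := by
        have := hCs.inf_eq_bot
        exact congrArg Subrepresentation.toSubmodule this
      have hsup : U ⊔ Cs.toSubmodule = ⊤ := by
        have := hCs.sup_eq_top
        exact congrArg Subrepresentation.toSubmodule this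
      have hC1 : Cs.toSubmodule ⊓ W < W := by
        refine lt_of_le_of_ne inf_le_right ?_
        intro h
        have h1 : W ≤ Cs.toSubmodule := by
          rw [← h]
          exact inf_le_left
        apply hU0
        rw [← le_bot_iff, ← hinf]
        exact le_inf le_rfl (hUW.trans h1)
      have hs : U ⊔ (Cs.toSubmodule ⊓ W) = W := by
        rw [← sup_inf_assoc_of_le _ hUW, hsup, top_inf_eq]
      rw [← hs, Submodule.mem_sup] at hx
      obtain ⟨u, hu, c, hc, rfl⟩ := hx
      have h2 := Submodule.finrank_lt_finrank_of_lt hC1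
      rw [hWn] at h2
      have h3 := ih _ h2 (Cs.toSubmodule ⊓ W) rfl (fun g w hw =>
        ⟨Cs.apply_mem_toSubmodule g hw.1, hW g w hw.2⟩) c hc
      have h4 : (fun g => φ (ρ g (u + c))) = (fun g => φ (ρ g u)) + fun g => φ (ρ g c) := by
        funext g
        rw [map_add, map_add]
        rfl
      rw [h4]
      exact Submodule.add_mem _ (hUc u hu) h3

private theorem cut_coef {P : Type} [Group P] [Finite P] (B : ℕ)
    (hgap : ∀ V : FDRep ℂ P, CategoryTheory.Simple V → Module.finrank ℂ V ≤ B ^ 2 →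
      Module.finrank ℂ V ≤ B)
    {X : Type} [AddCommGroup X] [Module ℂ X] [FiniteDimensional ℂ X] (ρ : Representation ℂ P X)
    (hX : Module.finrank ℂ X ≤ B ^ 2) (φ : Module.Dual ℂ X) (x : X) :
    (fun g => φ (ρ g x)) ∈ cutAlg P B :=
  cut_coef_aux B hgap ρ hX φ _ ⊤ rfl (fun _ _ _ => Submodule.mem_top) x Submodule.mem_top

private theorem cut_mul {P : Type} [Group P] [Finite P] (B : ℕ)
    (hgap : ∀ V : FDRep ℂ P, CategoryTheory.Simple V → Module.finrank ℂ V ≤ B ^ 2 →
      Module.finrank ℂ V ≤ B) {c d : P → ℂ} (hc : c ∈ cutAlg P B) (hd : d ∈ cutAlg P B) :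
    c * d ∈ cutAlg P B := by
  unfold cutAlg at hc
  induction hc using Submodule.span_induction with
  | zero => rw [zero_mul]; exact Submodule.zero_mem _
  | add a b _ _ ha hb => rw [add_mul]; exact Submodule.add_mem _ ha hb
  | smul z a _ ha => rw [smul_mul_assoc]; exact Submodule.smul_mem _ _ ha
  | mem c hc =>
    obtain ⟨V, hV, hVB, φ, x, rfl⟩ := hc
    unfold cutAlg at hd
    induction hd using Submodule.span_induction with
    | zero => rw [mul_zero]; exact Submodule.zero_mem _
    | add a b _ _ ha hb => rw [mul_add]; exact Submodule.add_mem _ ha hb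
    | smul z a _ ha => rw [mul_smul_comm]; exact Submodule.smul_mem _ _ ha
    | mem d hd =>
      obtain ⟨W, hW, hWB, ψ, y, rfl⟩ := hd
      have h1 := cut_coef B hgap (X := TensorProduct ℂ V W) 
        (Representation.tprod (V.ρ : Representation ℂ P V) (W.ρ : Representation ℂ P W)) (by
        rw [Module.finrank_tensorProduct, sq]
        exact Nat.mul_le_mul hVB hWB)
        ((TensorProduct.lid ℂ ℂ).toLinearMap ∘ₗ TensorProduct.map φ ψ) (x ⊗ₜ[ℂ] y)
      have h2 : (fun g => φ (V.ρ g x)) * (fun g => ψ (W.ρ g y)) = fun g =>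
          ((TensorProduct.lid ℂ ℂ).toLinearMap ∘ₗ TensorProduct.map φ ψ)
            (Representation.tprod (V.ρ : Representation ℂ P V) (W.ρ : Representation ℂ P W) g
              (x ⊗ₜ[ℂ] y)) := by
        funext g
        simp [Representation.tprod_apply]
      rw [h2]
      exact h1

private theorem cut_one {P : Type} [Group P] [Finite P] (B : ℕ) (hB : 1 ≤ B)
    (hgap : ∀ V : FDRep ℂ P, CategoryTheory.Simple V → Module.finrank ℂ V ≤ B ^ 2 →
      Module.finrank ℂ V ≤ B) : (1 : P → ℂ) ∈ cutAlg P B := by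
  have h1 := cut_coef B hgap (X := ℂ) (1 : Representation ℂ P ℂ) (by
    rw [Module.finrank_self]
    exact Nat.one_le_pow _ _ hB) LinearMap.id 1
  have h2 : (1 : P → ℂ) = fun g => (LinearMap.id : ℂ →ₗ[ℂ] ℂ) ((1 : Representation ℂ P ℂ) g 1) := by
    funext g
    rfl
  rw [h2]
  exact h1

private theorem cut_orth {P : Type} [Group P] [Fintype P] (B : ℕ) (U : FDRep ℂ P)
    (hU : CategoryTheory.Simple U) (hUB : B < Module.finrank ℂ U) (f : Module.Dual ℂ U) (u : U)
    {c : P → ℂ} (hc : c ∈ cutAlg P B) : ∑ g, f (U.ρ g⁻¹ u) * c g = 0 := by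
  unfold cutAlg at hc
  induction hc using Submodule.span_induction with
  | zero => simp
  | add a b _ _ ha hb =>
    simp only [Pi.add_apply, mul_add, Finset.sum_add_distrib, ha, hb, add_zero]
  | smul z a _ ha =>
    simp only [Pi.smul_apply, smul_eq_mul]
    have : ∀ g, f (U.ρ g⁻¹ u) * (z * a g) = z * (f (U.ρ g⁻¹ u) * a g) := fun g => by ring
    simp only [this, ← Finset.mul_sum, ha, mul_zero]
  | mem c hc =>
    obtain ⟨V, hV, hVB, ψ, x, rfl⟩ := hc
    let L : V →ₗ[ℂ] U := ψ.smulRight u
    let T : V →ₗ[ℂ] U := ∑ g : P, (U.ρ g⁻¹) ∘ₗ L ∘ₗ (V.ρ g)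
    have hTa : ∀ v, T v = ∑ g : P, U.ρ g⁻¹ (ψ (V.ρ g v) • u) := by
      intro v
      show (∑ g : P, (U.ρ g⁻¹) ∘ₗ L ∘ₗ (V.ρ g)) v = _
      rw [LinearMap.sum_apply]
      rfl
    have hT : ∀ (h : P) (v : V), T (V.ρ h v) = U.ρ h (T v) := by
      intro h v
      rw [hTa, hTa, map_sum]
      refine Fintype.sum_equiv (Equiv.mulRight h) _ _ fun g => ?_
      have e1 : V.ρ g (V.ρ h v) = V.ρ (g * h) v := by
        rw [map_mul]; rfl
      have e2 : U.ρ h (U.ρ (g * h)⁻¹ (ψ (V.ρ (g * h) v) • u)) =
          U.ρ g⁻¹ (ψ (V.ρ (g * h) v) • u) := by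
        rw [← Module.End.mul_apply, ← map_mul]
        congr 2
        group
      rw [e1]
      exact e2.symm
    have hT0 : T = 0 := by
      have hk : LinearMap.ker T = ⊥ ∨ LinearMap.ker T = ⊤ :=
        TKB.simple_inv V (LinearMap.ker T) fun g w hw => by
          rw [LinearMap.mem_ker] at hw ⊢
          rw [hT, hw, map_zero]
      have hr : LinearMap.range T = ⊥ ∨ LinearMap.range T = ⊤ :=
        TKB.simple_inv U (LinearMap.range T) fun g w hw => by
          obtain ⟨v, rfl⟩ := hw
          exact ⟨V.ρ g v, hT g v⟩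
      rcases hr with hr | hr
      · exact LinearMap.range_eq_bot.1 hr
      rcases hk with hk | hk
      · exfalso
        have h1 := (LinearEquiv.ofBijective T ⟨LinearMap.ker_eq_bot.1 hk,
          LinearMap.range_eq_top.1 hr⟩).finrank_eq
        omega
      · exact LinearMap.ker_eq_top.1 hk
    have h1 : f (T x) = 0 := by rw [hT0]; exact map_zero f
    rw [hTa, map_sum] at h1
    rw [← h1]
    refine Finset.sum_congr rfl fun g _ => ?_
    rw [map_smul, map_smul, smul_eq_mul, mul_comm]

/-- If no simple representation has dimension in `(B, B ^ 2]` and `M` is the common kernel of the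
simple representations of dimension at most `B`, then every simple representation which is trivial
on `M` has dimension at most `B`. -/
theorem cut_simple {P : Type} [Group P] [Finite P] (B : ℕ) (hB : 1 ≤ B)
    (hgap : ∀ V : FDRep ℂ P, CategoryTheory.Simple V → Module.finrank ℂ V ≤ B ^ 2 →
      Module.finrank ℂ V ≤ B) (M : Subgroup P)
    (hM : ∀ g, g ∈ M ↔ ∀ V : FDRep ℂ P, CategoryTheory.Simple V → Module.finrank ℂ V ≤ B →
      ∀ v : V, V.ρ g v = v)
    (U : FDRep ℂ P) (hU : CategoryTheory.Simple U) (hUM : ∀ m ∈ M, ∀ u : U, U.ρ m u = u) :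
    Module.finrank ℂ U ≤ B := by
  classical
  have := Fintype.ofFinite P
  by_contra hcon
  have hUB : B < Module.finrank ℂ U := by omega
  -- separating functions
  have hsep : ∀ g : P, ∃ e ∈ cutAlg P B, (∀ m ∈ M, e m = 1) ∧ (g ∉ M → e g = 0) := by
    intro g
    by_cases hg : g ∈ M
    · exact ⟨1, cut_one B hB hgap, fun _ _ => rfl, fun h => absurd hg h⟩
    · rw [hM] at hg
      push Not at hg
      obtain ⟨V, hV, hVB, v, hv⟩ := hg
      obtain ⟨φ, hφ⟩ : ∃ φ : Module.Dual ℂ V, φ (V.ρ g v - v) ≠ 0 := by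
        by_contra h
        push Not at h
        exact hv (sub_eq_zero.1 ((Module.forall_dual_apply_eq_zero_iff ℂ _).1 h))
      rw [map_sub] at hφ
      have hφ' : φ v - φ (V.ρ g v) ≠ 0 := fun h => hφ (by rw [← neg_sub, h, neg_zero])
      refine ⟨(φ v - φ (V.ρ g v))⁻¹ • ((fun h => φ (V.ρ h v)) - (φ (V.ρ g v)) • (1 : P → ℂ)),
        Submodule.smul_mem _ _ (Submodule.sub_mem _
          (Submodule.subset_span ⟨V, hV, hVB, φ, v, rfl⟩)
          (Submodule.smul_mem _ _ (cut_one B hB hgap))), ?_, ?_⟩
      · intro m hm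
        have h1 := (hM m).1 hm V hV hVB v
        simp only [Pi.smul_apply, Pi.sub_apply, Pi.one_apply, smul_eq_mul, mul_one, h1]
        exact inv_mul_cancel₀ hφ'
      · intro _
        simp only [Pi.smul_apply, Pi.sub_apply, Pi.one_apply, smul_eq_mul, mul_one, sub_self,
          mul_zero]
  choose e he he1 he0 using hsep
  have hprod : (∏ g : P, e g) ∈ cutAlg P B := by
    refine Finset.prod_induction _ (fun c => c ∈ cutAlg P B) (fun a b ha hb => ?_) ?_ ?_
    · exact cut_mul B hgap ha hb
    · exact cut_one B hB hgap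
    · intro g _
      exact he g
  have hval : ∀ h : P, (∏ g : P, e g) h = if h ∈ M then 1 else 0 := by
    intro h
    rw [Finset.prod_apply]
    split_ifs with hh
    · exact Finset.prod_eq_one fun g _ => he1 g h hh
    · exact Finset.prod_eq_zero (Finset.mem_univ h) (he0 h hh)
  have hnt : Nontrivial U := Pool.TKB.simple_nontrivial U
  obtain ⟨u, hu⟩ := exists_ne (0 : U)
  apply hu
  rw [← Module.forall_dual_apply_eq_zero_iff ℂ]
  intro f
  have h1 := cut_orth B U hU hUB f u hprod
  have h2 : ∑ g, f (U.ρ g⁻¹ u) * (∏ g : P, e g) g = ∑ g : P, if g ∈ M then f u else 0 := by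
    refine Finset.sum_congr rfl fun g _ => ?_
    rw [hval]
    split_ifs with hg
    · rw [mul_one, hUM g⁻¹ (M.inv_mem hg) u]
    · rw [mul_zero]
  rw [h2, Finset.sum_ite, Finset.sum_const_zero, add_zero, Finset.sum_const, nsmul_eq_mul] at h1
  rcases mul_eq_zero.1 h1 with h3 | h3
  · exfalso
    rw [Nat.cast_eq_zero, Finset.card_eq_zero] at h3
    have h4 : (1 : P) ∈ Finset.univ.filter (fun g => g ∈ M) :=
      Finset.mem_filter.2 ⟨Finset.mem_univ _, M.one_mem⟩
    rw [h3] at h4
    exact Finset.notMem_empty _ h4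
  · exact h3

end Pool.PWL
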