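import Pool.Agent.PWL.DefsS

/-!
# Traces and roots of unity in cyclotomic fields
-/

namespace Pool.PWL

open Module

theorem trace_mem_cycK {U : Type*} [AddCommGroup U] [Module ℂ U] [FiniteDimensional ℂ U]
    (N : ℕ) (hN : 0 < N) (B : Module.End ℂ U) (hB : B ^ N = 1) :
    LinearMap.trace ℂ U B ∈ cycK N := by
  rw [Module.End.trace_eq_sum_roots_charpoly_of_splits (IsAlgClosed.splits B.charpoly)]
  refine Subfield.multiset_sum_mem _ _ ?_
  intro z hz
  apply Subfield.subset_closure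
  have h1 : B.charpoly.IsRoot z := Polynomial.isRoot_of_mem_roots hz
  rw [← Module.End.hasEigenvalue_iff_isRoot_charpoly] at h1
  obtain ⟨v, hv⟩ := h1.exists_hasEigenvector
  have h2 : ∀ n : ℕ, (B ^ n) v = z ^ n • v := by
    intro n
    exact hv.pow_apply n
  have h3 := h2 N
  rw [hB, Module.End.one_apply] at h3
  have h4 : (z ^ N - 1) • v = 0 := by
    rw [sub_smul, one_smul, ← h3, sub_self]
  rcases smul_eq_zero.mp h4 with h | h
  · exact sub_eq_zero.mp h
  · exact absurd h hv.2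

theorem pow_eq_one_of_mem_cycK (N : ℕ) (hN : 0 < N) (hev : Even N) (a : ℂ) (ha : a ∈ cycK N)
    (d : ℕ) (hd : 0 < d) (h : a ^ d = 1) : a ^ N = 1 := by
  have : NeZero N := ⟨hN.ne'⟩
  set ζ : ℂ := Complex.exp (2 * Real.pi * Complex.I / N) with hζd
  have hζ : IsPrimitiveRoot ζ N := Complex.isPrimitiveRoot_exp N hN.ne'
  have hcyc : IsCyclotomicExtension {N} ℚ (Algebra.adjoin ℚ {ζ}) :=
    hζ.adjoin_isCyclotomicExtension ℚ
  set A : Subalgebra ℚ ℂ := Algebra.adjoin ℚ {ζ} with hA
  have hfd : FiniteDimensional ℚ A := IsCyclotomicExtension.finiteDimensional {N} ℚ A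
  have hζA : ζ ∈ A := Algebra.subset_adjoin (Set.mem_singleton ζ)
  have halg : ∀ x : A, IsAlgebraic ℚ (x : ℂ) := by
    intro x
    have h1 : IsAlgebraic ℚ x := Algebra.IsAlgebraic.isAlgebraic x
    exact h1.algebraMap
  have haA : a ∈ A := by
    refine Subfield.closure_induction (s := {z : ℂ | z ^ N = 1}) (p := fun x _ => x ∈ A)
      ?_ ?_ ?_ ?_ ?_ ?_ ha
    · intro x hx
      obtain ⟨i, _, hi⟩ := hζ.eq_pow_of_pow_eq_one hx
      rw [← hi]
      exact A.pow_mem hζA i
    · exact A.one_mem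
    · exact fun x y _ _ hx hy => A.add_mem hx hy
    · exact fun x _ hx => A.neg_mem hx
    · intro x _ hx
      exact A.inv_mem_of_algebraic (x := ⟨x, hx⟩) (halg ⟨x, hx⟩)
    · exact fun x y _ _ hx hy => A.mul_mem hx hy
  set l := orderOf a with hl
  have hl0 : 0 < l := orderOf_pos_iff.mpr (isOfFinOrder_iff_pow_eq_one.mpr ⟨d, hd, h⟩)
  have hprim : IsPrimitiveRoot a l := IsPrimitiveRoot.orderOf a
  have h1 : IsPrimitiveRoot (⟨a, haA⟩ : A) l :=
    IsPrimitiveRoot.of_map_of_injective (f := A.val) hprim Subtype.val_injective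
  have h2 : IsPrimitiveRoot (⟨ζ, hζA⟩ : A) N :=
    IsPrimitiveRoot.of_map_of_injective (f := A.val) hζ Subtype.val_injective
  have key := IsPrimitiveRoot.lcm_totient_le_finrank (K := ℚ) h1 h2
    (Polynomial.cyclotomic.irreducible_rat (Nat.lcm_pos hl0 hN))
  rw [IsCyclotomicExtension.finrank A (Polynomial.cyclotomic.irreducible_rat hN)] at key
  obtain ⟨r, hr⟩ := Nat.dvd_lcm_right l N
  have hr0 : 0 < r := by
    rcases Nat.eq_zero_or_pos r with h0 | h0
    · rw [h0, mul_zero] at hr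
      have := Nat.lcm_pos hl0 hN
      omega
    · exact h0
  rw [hr] at key
  have h3 := Nat.totient_super_multiplicative N r
  have h4 : 0 < N.totient := Nat.totient_pos.mpr hN
  have h5 : r.totient ≤ 1 := by
    by_contra h6
    push Not at h6
    have : N.totient * 2 ≤ N.totient * r.totient := Nat.mul_le_mul_left _ h6
    omega
  have h6 : r ∣ 2 := Nat.dvd_two_of_totient_le_one hr0 h5
  have h7 : r = 1 := by
    rcases (Nat.dvd_prime Nat.prime_two).mp h6 with h8 | h8
    · exact h8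
    · exfalso
      rw [h8, mul_comm, Nat.totient_mul_of_prime_of_dvd Nat.prime_two hev.two_dvd] at key
      omega
  rw [h7, mul_one] at hr
  have h8 : l ∣ N := by
    rw [← hr]
    exact Nat.dvd_lcm_left l N
  exact orderOf_dvd_iff_pow_eq_one.mp h8

end Pool.PWL
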