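import Mathlib

/-!
# Powers of subgroups, powerfully embedded subgroups, regular groups
-/

namespace Pool.PWL

/-- The subgroup generated by the `n`-th powers of the elements of `H`. -/
def pw {G : Type*} [Group G] (n : ℕ) (H : Subgroup G) : Subgroup G :=
  Subgroup.closure {g | ∃ h ∈ H, h ^ n = g}

/-- `G` is a regular group for the prime `p` (in the sense of P. Hall): for all `x, y` the elements
`(x y)^p` and `x^p y^p` differ by an element of the subgroup generated by the `p`-th powers of the
elements of the commutator subgroup of `⟨x, y⟩`. -/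
def IsRegularP (p : ℕ) (G : Type*) [Group G] : Prop :=
  ∀ x y : G, ∃ c ∈ pw p ⁅Subgroup.closure {x, y}, Subgroup.closure {x, y}⁆,
    (x * y) ^ p = x ^ p * y ^ p * c

/-- The chain `N, N^p, (N^p)^p, …`. -/
def chain {G : Type*} [Group G] (p : ℕ) (N : Subgroup G) : ℕ → Subgroup G
  | 0 => N
  | i + 1 => pw p (chain p N i)

end Pool.PWL
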