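import Pool.Agent.PWL.DefsM

/-!
# Operator algebras of normal subgroups
-/

namespace Pool.PWL

section

variable {T : Type*} [Group T] {U : Type*} [AddCommGroup U] [Module ℂ U]

/-- The algebra generated by the operators of `L`. -/
def opAlg (ρ : Representation ℂ T U) (L : Subgroup T) : Subalgebra ℂ (Module.End ℂ U) :=
  Algebra.adjoin ℂ (Set.range fun l : L => ρ (l : T))

/-- The ring generated by the operators of `L`. -/
def opRing (ρ : Representation ℂ T U) (L : Subgroup T) : Subring (Module.End ℂ U) :=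
  Subring.closure (Set.range fun l : L => ρ (l : T))

/-- The ring generated by the operators of `L` and the scalars of `K`. -/
def kAlg (ρ : Representation ℂ T U) (L : Subgroup T) (K : Subfield ℂ) :
    Subring (Module.End ℂ U) :=
  Subring.closure (Set.range (fun l : L => ρ (l : T)) ∪
    {X | ∃ k ∈ K, X = k • (1 : Module.End ℂ U)})

/-- The field generated by the `N`-th roots of unity. -/
noncomputable def cycK (N : ℕ) : Subfield ℂ := Subfield.closure {z : ℂ | z ^ N = 1}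

/-- `B` is a scalar. -/
def IsScal (B : Module.End ℂ U) : Prop := ∃ z : ℂ, B = z • (1 : Module.End ℂ U)

/-- The centre of the algebra generated by the operators of `L` consists of scalars. -/
def IsHomog (ρ : Representation ℂ T U) (L : Subgroup T) : Prop :=
  ∀ B ∈ opAlg ρ L, (∀ l ∈ L, B * ρ l = ρ l * B) → IsScal B

/-- The pairs `(t, A)`, `A ∈ S` invertible in `S`, such that `A` acts on the operators of `L` as
`t` does. -/
def Gam (ρ : Representation ℂ T U) (L : Subgroup T) [L.Normal] (S : Subring (Module.End ℂ U)) :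
    Subgroup (T × (Module.End ℂ U)ˣ) where
  carrier := {x | (x.2 : Module.End ℂ U) ∈ S ∧ ((x.2⁻¹ : (Module.End ℂ U)ˣ) : Module.End ℂ U) ∈ S ∧
    ∀ l ∈ L, (x.2 : Module.End ℂ U) * ρ l = ρ (x.1 * l * x.1⁻¹) * x.2}
  mul_mem' := by
    rintro ⟨t, A⟩ ⟨s, C⟩ ⟨h1, h2, h3⟩ ⟨g1, g2, g3⟩
    refine ⟨?_, ?_, ?_⟩
    · exact S.mul_mem h1 g1
    · show (((A * C)⁻¹ : (Module.End ℂ U)ˣ) : Module.End ℂ U) ∈ S
      rw [mul_inv_rev, Units.val_mul]
      exact S.mul_mem g2 h2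
    · intro l hl
      have e1 := g3 l hl
      have e2 := h3 (s * l * s⁻¹) ((inferInstance : L.Normal).conj_mem l hl s)
      show ((A * C : (Module.End ℂ U)ˣ) : Module.End ℂ U) * ρ l =
        ρ ((t * s) * l * (t * s)⁻¹) * ((A * C : (Module.End ℂ U)ˣ) : Module.End ℂ U)
      rw [Units.val_mul, mul_assoc, e1, ← mul_assoc, e2, mul_assoc,
        show (t * s) * l * (t * s)⁻¹ = t * (s * l * s⁻¹) * t⁻¹ by group]
  one_mem' := by
    refine ⟨S.one_mem, ?_, ?_⟩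
    · show (((1 : (Module.End ℂ U)ˣ)⁻¹ : (Module.End ℂ U)ˣ) : Module.End ℂ U) ∈ S
      rw [inv_one]
      exact S.one_mem
    · intro l _
      show ((1 : (Module.End ℂ U)ˣ) : Module.End ℂ U) * ρ l =
        ρ ((1 : T) * l * (1 : T)⁻¹) * ((1 : (Module.End ℂ U)ˣ) : Module.End ℂ U)
      rw [Units.val_one, one_mul, mul_one, one_mul, inv_one, mul_one]
  inv_mem' := by
    rintro ⟨t, A⟩ ⟨h1, h2, h3⟩
    refine ⟨h2, ?_, ?_⟩
    · show (((A⁻¹)⁻¹ : (Module.End ℂ U)ˣ) : Module.End ℂ U) ∈ S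
      rw [inv_inv]
      exact h1
    · intro l hl
      have h4 : t⁻¹ * l * t ∈ L := by
        have := (inferInstance : L.Normal).conj_mem l hl t⁻¹
        rwa [inv_inv] at this
      have h5 := h3 _ h4
      rw [show t * (t⁻¹ * l * t) * t⁻¹ = l by group] at h5
      show ((A⁻¹ : (Module.End ℂ U)ˣ) : Module.End ℂ U) * ρ l =
        ρ (t⁻¹ * l * (t⁻¹)⁻¹) * ((A⁻¹ : (Module.End ℂ U)ˣ) : Module.End ℂ U)
      rw [inv_inv]
      calc ((A⁻¹ : (Module.End ℂ U)ˣ) : Module.End ℂ U) * ρ l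
          = ((A⁻¹ : (Module.End ℂ U)ˣ) : Module.End ℂ U) * (ρ l * A) *
            ((A⁻¹ : (Module.End ℂ U)ˣ) : Module.End ℂ U) := by
              rw [mul_assoc, mul_assoc, Units.mul_inv, mul_one]
        _ = _ := by rw [← h5, ← mul_assoc, Units.inv_mul, one_mul]

/-- The pairs `(t, A)` with `A` in the algebra of `L` and of determinant `1`. -/
noncomputable def Gam1 (ρ : Representation ℂ T U) (L : Subgroup T) [L.Normal] :
    Subgroup (T × (Module.End ℂ U)ˣ) where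
  carrier := {x | x ∈ Gam ρ L (opAlg ρ L).toSubring ∧
    LinearMap.det (x.2 : Module.End ℂ U) = 1}
  mul_mem' := by
    rintro x y ⟨hx, hx1⟩ ⟨hy, hy1⟩
    refine ⟨Subgroup.mul_mem _ hx hy, ?_⟩
    show LinearMap.det ((x.2 * y.2 : (Module.End ℂ U)ˣ) : Module.End ℂ U) = 1
    rw [Units.val_mul, map_mul, hx1, hy1, one_mul]
  one_mem' := by
    refine ⟨Subgroup.one_mem _, ?_⟩
    show LinearMap.det ((1 : (Module.End ℂ U)ˣ) : Module.End ℂ U) = 1
    rw [Units.val_one, map_one]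
  inv_mem' := by
    rintro x ⟨hx, hx1⟩
    refine ⟨Subgroup.inv_mem _ hx, ?_⟩
    show LinearMap.det ((x.2⁻¹ : (Module.End ℂ U)ˣ) : Module.End ℂ U) = 1
    have h1 : LinearMap.det (((x.2 : (Module.End ℂ U)ˣ) : Module.End ℂ U) *
        ((x.2⁻¹ : (Module.End ℂ U)ˣ) : Module.End ℂ U)) = 1 := by
      rw [Units.mul_inv, map_one]
    rw [map_mul, hx1, one_mul] at h1
    exact h1

theorem commute_opAlg (ρ : Representation ℂ T U) (L : Subgroup T) (B : Module.End ℂ U)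
    (hB : ∀ l ∈ L, B * ρ l = ρ l * B) : ∀ X ∈ opAlg ρ L, B * X = X * B := by
  intro X hX
  induction hX using Algebra.adjoin_induction with
  | mem X hX =>
    obtain ⟨l, rfl⟩ := hX
    exact hB l l.2
  | algebraMap r => exact (Algebra.commutes r B).symm
  | add X Y _ _ h1 h2 => rw [mul_add, add_mul, h1, h2]
  | mul X Y _ _ h1 h2 => rw [← mul_assoc, h1, mul_assoc, h2, mul_assoc]

theorem gam_commute (ρ : Representation ℂ T U) (L : Subgroup T) [L.Normal]
    (S : Subring (Module.End ℂ U)) (x : T × (Module.End ℂ U)ˣ) (hx : x ∈ Gam ρ L S) :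
    ∀ l ∈ L, (((x.2⁻¹ : (Module.End ℂ U)ˣ) : Module.End ℂ U) * ρ x.1) * ρ l =
      ρ l * (((x.2⁻¹ : (Module.End ℂ U)ˣ) : Module.End ℂ U) * ρ x.1) := by
  intro l hl
  obtain ⟨t, A⟩ := x
  have h3 := hx.2.2 l hl
  show (((A⁻¹ : (Module.End ℂ U)ˣ) : Module.End ℂ U) * ρ t) * ρ l =
      ρ l * (((A⁻¹ : (Module.End ℂ U)ˣ) : Module.End ℂ U) * ρ t)
  have h4 : (A : Module.End ℂ U) * ρ l = ρ (t * l * t⁻¹) * A := h3
  have h5 : ρ t * ρ l = ρ (t * l * t⁻¹) * ρ t := by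
    rw [← map_mul, ← map_mul]
    congr 1
    group
  rw [mul_assoc, h5, ← mul_assoc, ← mul_assoc]
  congr 1
  calc ((A⁻¹ : (Module.End ℂ U)ˣ) : Module.End ℂ U) * ρ (t * l * t⁻¹)
      = ((A⁻¹ : (Module.End ℂ U)ˣ) : Module.End ℂ U) * ((ρ (t * l * t⁻¹) * A) *
        ((A⁻¹ : (Module.End ℂ U)ˣ) : Module.End ℂ U)) := by
          rw [mul_assoc (ρ (t * l * t⁻¹)), Units.mul_inv, mul_one]
    _ = _ := by rw [← h4, ← mul_assoc, ← mul_assoc, Units.inv_mul, one_mul]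

/-- The representation `(t, A) ↦ A⁻¹ ρ(t)`. -/
noncomputable def gamRep (ρ : Representation ℂ T U) (L : Subgroup T) [L.Normal] :
    Representation ℂ (Gam1 ρ L) U where
  toFun x := (((x : T × (Module.End ℂ U)ˣ).2⁻¹ : (Module.End ℂ U)ˣ) : Module.End ℂ U) *
    ρ (x : T × (Module.End ℂ U)ˣ).1
  map_one' := by
    show (((1 : (Module.End ℂ U)ˣ)⁻¹ : (Module.End ℂ U)ˣ) : Module.End ℂ U) * ρ 1 = 1
    rw [inv_one, Units.val_one, map_one, one_mul]
  map_mul' := by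
    rintro ⟨⟨t, A⟩, hx⟩ ⟨⟨s, C⟩, hy⟩
    show (((A * C)⁻¹ : (Module.End ℂ U)ˣ) : Module.End ℂ U) * ρ (t * s) =
      (((A⁻¹ : (Module.End ℂ U)ˣ) : Module.End ℂ U) * ρ t) *
        (((C⁻¹ : (Module.End ℂ U)ˣ) : Module.End ℂ U) * ρ s)
    have h1 := commute_opAlg ρ L _ (gam_commute ρ L _ _ hx.1)
      ((C⁻¹ : (Module.End ℂ U)ˣ) : Module.End ℂ U) hy.1.2.1
    have h2 : (((A⁻¹ : (Module.End ℂ U)ˣ) : Module.End ℂ U) * ρ t) *
        ((C⁻¹ : (Module.End ℂ U)ˣ) : Module.End ℂ U) =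
        ((C⁻¹ : (Module.End ℂ U)ˣ) : Module.End ℂ U) *
          (((A⁻¹ : (Module.End ℂ U)ˣ) : Module.End ℂ U) * ρ t) := h1
    rw [← mul_assoc (((A⁻¹ : (Module.End ℂ U)ˣ) : Module.End ℂ U) * ρ t), h2, mul_inv_rev,
      Units.val_mul, map_mul]
    simp only [mul_assoc]

end

end Pool.PWL
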