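import Pool.Agent.PWL.Mono
import Pool.Agent.TKB.RepB

/-!
# The degree of a simple representation of a finite `p`-group is a power of `p`
-/

set_option autoImplicit false

namespace Pool.PWL

open CategoryTheory

private theorem DimP_le {G : Type} [Group G] [Finite G] (V : FDRep ℂ G) [Simple V]
    (A : Subgroup G) (v : V) (hv0 : v ≠ 0) (hv : ∀ h ∈ A, ∃ z : ℂ, V.ρ h v = z • v) :
    Module.finrank ℂ V ≤ A.index := by
  classical
  have hfin : Finite (G ⧸ A) := inferInstance
  have := Fintype.ofFinite (G ⧸ A)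
  let S : Submodule ℂ V := Submodule.span ℂ (Set.range fun q : G ⧸ A => V.ρ q.out v)
  have key : ∀ g : G, V.ρ g v ∈ S := by
    intro g
    have ha : ((g : G ⧸ A).out)⁻¹ * g ∈ A := by
      rw [← QuotientGroup.eq, QuotientGroup.out_eq']
    obtain ⟨z, hz⟩ := hv _ ha
    have e : V.ρ g v = z • V.ρ ((g : G ⧸ A).out) v := by
      rw [← map_smul, ← hz, ← Module.End.mul_apply, ← map_mul, mul_inv_cancel_left]
    rw [e]
    exact S.smul_mem _ (Submodule.subset_span ⟨(g : G ⧸ A), rfl⟩)
  have hinv : ∀ g, ∀ w ∈ S, V.ρ g w ∈ S := by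
    intro g w hw
    induction hw using Submodule.span_induction with
    | mem x hx =>
      obtain ⟨q, rfl⟩ := hx
      have : V.ρ g (V.ρ q.out v) = V.ρ (g * q.out) v := by
        rw [map_mul, Module.End.mul_apply]
      show V.ρ g (V.ρ q.out v) ∈ S
      rw [this]
      exact key _
    | zero => rw [map_zero]; exact S.zero_mem
    | add x y _ _ hx hy => rw [map_add]; exact S.add_mem hx hy
    | smul z x _ hx => rw [map_smul]; exact S.smul_mem _ hx
  have hne : S ≠ ⊥ := by
    rw [Submodule.ne_bot_iff]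
    refine ⟨V.ρ 1 v, key 1, ?_⟩
    rw [map_one, Module.End.one_apply]
    exact hv0
  have htop : S = ⊤ := (Pool.TKB.simple_inv V S hinv).resolve_left hne
  have h1 : Module.finrank ℂ S ≤ Fintype.card (G ⧸ A) := finrank_range_le_card _
  rw [htop, finrank_top] at h1
  rw [Subgroup.index, Nat.card_eq_fintype_card]
  exact h1

/-- The degree of a simple representation of a finite `p`-group is a power of `p`. -/
theorem finrank_simple_pgroup {G : Type} [Group G] [Finite G] {p : ℕ} [Fact p.Prime]
    (hG : IsPGroup p G) (V : FDRep ℂ G) (hV : CategoryTheory.Simple V) :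
    ∃ b, Module.finrank ℂ V = p ^ b := by
  have hnt := Pool.TKB.simple_nontrivial V
  obtain ⟨H, v, hv0, hle, hv⟩ := exists_line (p := p) hG (X := V) V.ρ
  have h1 : Module.finrank ℂ V ≤ H.index := DimP_le V H v hv0 hv
  have h2 : Module.finrank ℂ V = H.index := le_antisymm h1 hle
  obtain ⟨n, hn⟩ := IsPGroup.iff_card.1 hG
  have h3 : H.index ∣ p ^ n := by
    rw [← hn]
    exact Subgroup.index_dvd_card H
  obtain ⟨b, -, hb⟩ := (Nat.dvd_prime_pow (Fact.out : p.Prime)).1 h3
  exact ⟨b, h2.trans hb⟩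

end Pool.PWL
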