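import Pool.Agent.PWL.DefsM
import Pool.Agent.TKB.Main

/-!
# An irreducible subspace whose dimension is not divisible by `n`
-/

namespace Pool.PWL

theorem exists_irr_not_dvd {G : Type*} [Group G] [Finite G] {X : Type*} [AddCommGroup X]
    [Module ℂ X] [FiniteDimensional ℂ X] (ρ : Representation ℂ G X) (n : ℕ)
    (h : ¬ n ∣ Module.finrank ℂ X) :
    ∃ W : Submodule ℂ X, W ≠ ⊥ ∧ (∀ g, ∀ w ∈ W, ρ g w ∈ W) ∧
      (∀ U : Submodule ℂ X, U ≤ W → (∀ g, ∀ w ∈ U, ρ g w ∈ U) → U = ⊥ ∨ U = W) ∧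
      ¬ n ∣ Module.finrank ℂ W := by
  classical
  -- choose a stable subspace of least dimension among those not divisible by `n`
  have hex : ∃ m, ∃ W : Submodule ℂ X, Module.finrank ℂ W = m ∧
      (∀ g, ∀ w ∈ W, ρ g w ∈ W) ∧ ¬ n ∣ Module.finrank ℂ W :=
    ⟨_, ⊤, rfl, fun _ _ _ => Submodule.mem_top, by rw [finrank_top]; exact h⟩
  obtain ⟨W, hWn, hWinv, hWd⟩ := Nat.find_spec hex
  have hmin : ∀ U : Submodule ℂ X, U < W → (∀ g, ∀ w ∈ U, ρ g w ∈ U) →
      n ∣ Module.finrank ℂ U := by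
    intro U hlt hinv
    by_contra hU
    have h1 := Submodule.finrank_lt_finrank_of_lt hlt
    rw [hWn] at h1
    exact Nat.find_min hex h1 ⟨U, rfl, hinv, hU⟩
  refine ⟨W, ?_, hWinv, ?_, hWd⟩
  · rintro rfl
    apply hWd
    rw [finrank_bot]
    exact dvd_zero n
  intro U hUW hUinv
  by_contra hcon
  push Not at hcon
  obtain ⟨hU0, hU1⟩ := hcon
  -- a complement of U
  let Us : Subrepresentation ρ := ⟨U, fun g v hv => hUinv g v hv⟩
  obtain ⟨Cs, hCs⟩ := exists_isCompl Us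
  have hinf : U ⊓ Cs.toSubmodule = ⊥ := by
    have := hCs.inf_eq_bot
    exact congrArg Subrepresentation.toSubmodule this
  have hsup : U ⊔ Cs.toSubmodule = ⊤ := by
    have := hCs.sup_eq_top
    exact congrArg Subrepresentation.toSubmodule this
  have hC1 : Cs.toSubmodule ⊓ W < W := by
    refine lt_of_le_of_ne inf_le_right ?_
    intro h
    have h1 : W ≤ Cs.toSubmodule := by
      rw [← h]
      exact inf_le_left
    apply hU0
    rw [← le_bot_iff, ← hinf]
    exact le_inf le_rfl (hUW.trans h1)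
  have hd1 := hmin U (lt_of_le_of_ne hUW hU1) hUinv
  have hd2 := hmin (Cs.toSubmodule ⊓ W) hC1 (fun g w hw =>
    ⟨Cs.apply_mem_toSubmodule g hw.1, hWinv g w hw.2⟩)
  have hs : U ⊔ (Cs.toSubmodule ⊓ W) = W := by
    rw [← sup_inf_assoc_of_le _ hUW, hsup, top_inf_eq]
  have hi : U ⊓ (Cs.toSubmodule ⊓ W) = ⊥ := by
    rw [← le_bot_iff, ← hinf]
    exact inf_le_inf_left _ inf_le_left
  have hsum := Submodule.finrank_sup_add_finrank_inf_eq U (Cs.toSubmodule ⊓ W)
  rw [hs, hi, finrank_bot, add_zero] at hsum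
  apply hWd
  rw [hsum]
  exact dvd_add hd1 hd2

end Pool.PWL
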