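import Pool.Agent.PWL.DefsS

/-!
PWL stage 4, row ExtChar: extending a character trivial on commutators
-/

namespace Pool.PWL
open scoped commutatorElement

theorem exists_ext_char {T : Type*} [Group T] [Finite T] (Z : Subgroup T) (f : Z →* ℂˣ)
    (h : ∀ z : Z, (z : T) ∈ commutator T → f z = 1) :
    ∃ τ : T →* ℂˣ, ∀ z : Z, τ (z : T) = f z := by
  classical
  have : Finite (Abelianization T) :=
    Finite.of_surjective _ (QuotientGroup.mk'_surjective (commutator T))
  have : NeZero (Monoid.exponent (Abelianization T)) :=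
    ⟨Monoid.exponent_ne_zero_of_finite⟩
  have : HasEnoughRootsOfUnity ℂ (Monoid.exponent (Abelianization T)) := inferInstance
  let π : T →* Abelianization T := Abelianization.of
  let g : Z →* Z.map π := π.subgroupMap Z
  have hg : Function.Surjective g := π.subgroupMap_surjective Z
  have hker : g.ker ≤ f.ker := by
    intro z hz
    rw [MonoidHom.mem_ker] at hz ⊢
    apply h
    have h1 : π (z : T) = 1 := congrArg Subtype.val hz
    have h2 : (z : T) ∈ π.ker := h1
    rwa [show π.ker = commutator T from Abelianization.ker_of T] at h2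
  let f' : Z.map π →* ℂˣ := g.liftOfSurjective hg ⟨f, hker⟩
  have hf' : ∀ z : Z, f' (g z) = f z := fun z =>
    g.liftOfRightInverse_comp_apply _ (Function.rightInverse_surjInv hg) ⟨f, hker⟩ z
  obtain ⟨τ, hτ⟩ := MonoidHom.domRestrict_surjective ℂ (Z.map π) f'
  refine ⟨τ.comp π, fun z => ?_⟩
  rw [← hf' z, ← hτ]
  rfl

end Pool.PWL
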