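import Pool.Agent.PWL.DefsM

/-!
# Normal p-subgroups whose abelian normal subgroups are central
-/

namespace Pool.PWL

open scoped commutatorElement

section

variable {T : Type*} [Group T]

private theorem Symp_swap {c x y : T} (hc : ∀ t : T, t * c = c * t) (h : x * y = c * y * x)
    (n : ℕ) : x ^ n * y = c ^ n * y * x ^ n := by
  induction n with
  | zero => simp
  | succ n ih =>
    have hcn : ∀ t : T, t * c ^ n = c ^ n * t := fun t => ((show Commute t c from hc t).pow_right n).eq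
    calc x ^ (n + 1) * y = x ^ n * (x * y) := by rw [pow_succ]; group
      _ = x ^ n * (c * y * x) := by rw [h]
      _ = (x ^ n * c) * (y * x) := by group
      _ = c * (x ^ n * y) * x := by rw [hc]; group
      _ = c * (c ^ n * y * x ^ n) * x := by rw [ih]
      _ = c ^ (n + 1) * y * x ^ (n + 1) := by rw [pow_succ' c, pow_succ x]; group

private theorem Symp_comm_pow {x y : T} (hc : ∀ t : T, t * ⁅x, y⁆ = ⁅x, y⁆ * t) (n : ℕ) :
    ⁅x ^ n, y⁆ = ⁅x, y⁆ ^ n := by
  have h : x * y = ⁅x, y⁆ * y * x := by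
    rw [commutatorElement_def]
    group
  have h1 := Symp_swap hc h n
  rw [commutatorElement_def (x ^ n) y, h1]
  group

private theorem Symp_comm_pow' {x y : T} (hc : ∀ t : T, t * ⁅x, y⁆ = ⁅x, y⁆ * t) (n : ℕ) :
    ⁅x, y ^ n⁆ = ⁅x, y⁆ ^ n := by
  have hc' : ∀ t : T, t * ⁅y, x⁆ = ⁅y, x⁆ * t := by
    intro t
    rw [← commutatorElement_inv x y]
    exact ((show Commute t ⁅x, y⁆ from hc t).inv_right).eq
  have h1 := Symp_comm_pow hc' n
  rw [← commutatorElement_inv x (y ^ n), ← commutatorElement_inv x y, inv_pow] at h1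
  exact inv_injective h1

private theorem Symp_mul_pow {x y : T} (hc : ∀ t : T, t * ⁅y, x⁆ = ⁅y, x⁆ * t) (n : ℕ) :
    (x * y) ^ n = x ^ n * y ^ n * ⁅y, x⁆ ^ (n.choose 2) := by
  have h : y * x = ⁅y, x⁆ * x * y := by
    rw [commutatorElement_def]
    group
  induction n with
  | zero => simp
  | succ n ih =>
    have hcm : ∀ (m : ℕ) (t : T), t * ⁅y, x⁆ ^ m = ⁅y, x⁆ ^ m * t := fun m t =>
      ((show Commute t ⁅y, x⁆ from hc t).pow_right m).eq
    have h1 := Symp_swap hc h n
    have h2 : (n + 1).choose 2 = n + n.choose 2 := by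
      rw [Nat.choose_succ_succ' n 1, Nat.choose_one_right]
    rw [h2, pow_add ⁅y, x⁆]
    calc (x * y) ^ (n + 1) = (x * y) ^ n * (x * y) := pow_succ _ _
      _ = x ^ n * y ^ n * (⁅y, x⁆ ^ (n.choose 2) * (x * y)) := by rw [ih]; group
      _ = x ^ n * (y ^ n * x) * y * ⁅y, x⁆ ^ (n.choose 2) := by rw [← hcm]; group
      _ = x ^ n * (⁅y, x⁆ ^ n * x * y ^ n) * y * ⁅y, x⁆ ^ (n.choose 2) := by rw [h1]
      _ = (x ^ n * ⁅y, x⁆ ^ n) * (x * y ^ n * y * ⁅y, x⁆ ^ (n.choose 2)) := by group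
      _ = ⁅y, x⁆ ^ n * (x ^ n * x * (y ^ n * y)) * ⁅y, x⁆ ^ (n.choose 2) := by
          rw [hcm]; group
      _ = x ^ (n + 1) * y ^ (n + 1) * (⁅y, x⁆ ^ n * ⁅y, x⁆ ^ (n.choose 2)) := by
          rw [← hcm, ← pow_succ, ← pow_succ]; group

end

private theorem Symp_comm_le {T : Type*} [Group T] [Finite T] {p : ℕ} [Fact p.Prime]
    (Z X : Subgroup T) [X.Normal] (hX : IsPGroup p X) (hZ : Z ≤ Subgroup.center T)
    (hab : ∀ A : Subgroup T, A.Normal → A ≤ X → (∀ a ∈ A, ∀ b ∈ A, a * b = b * a) → A ≤ Z) :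
    ⁅X, X⁆ ≤ Z := by
  have hnorm : ∀ n, (X.lowerCentralSeries n).Normal := by
    intro n
    induction n with
    | zero => exact (inferInstance : X.Normal)
    | succ n ih =>
      rw [Subgroup.lowerCentralSeries_succ]
      exact Subgroup.commutator_normal _ _
  have hnil : Group.IsNilpotent X := hX.isNilpotent
  obtain ⟨n, hn⟩ := (Subgroup.isNilpotent_iff_lowerCentralSeries X).1 hnil
  have hstep : ∀ m, X.lowerCentralSeries (m + 2) ≤ Z → X.lowerCentralSeries (m + 1) ≤ Z := by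
    intro m hm
    have hD : X.lowerCentralSeries (m + 1) ≤ ⁅X, X⁆ :=
      X.lowerCentralSeries_antitone (Nat.le_add_left 1 m)
    have hDX : X.lowerCentralSeries (m + 1) ≤ X :=
      X.lowerCentralSeries_antitone (Nat.zero_le (m + 1))
    have hB : ⁅⁅X.lowerCentralSeries (m + 1), X⁆, X⁆ = ⊥ := by
      rw [Subgroup.commutator_eq_bot_iff_le_centralizer]
      intro z hz
      have h1 : z ∈ Subgroup.center T := hZ (hm hz)
      rw [Subgroup.mem_centralizer_iff]
      intro x _
      exact Subgroup.mem_center_iff.1 h1 x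
    have h3 : ⁅⁅X, X⁆, X.lowerCentralSeries (m + 1)⁆ = ⊥ := by
      apply Subgroup.commutator_commutator_eq_bot_of_rotate
      · rw [Subgroup.commutator_comm X]
        exact hB
      · exact hB
    apply hab _ (hnorm _) hDX
    intro a ha b hb
    rw [Subgroup.commutator_eq_bot_iff_le_centralizer] at h3
    have h4 := Subgroup.mem_centralizer_iff.1 (h3 (hD ha)) b hb
    exact h4.symm
  have hall : ∀ m k, X.lowerCentralSeries (k + 1 + m) ≤ Z → X.lowerCentralSeries (k + 1) ≤ Z := by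
    intro m
    induction m with
    | zero => exact fun k h => h
    | succ m ih =>
      intro k h
      apply ih
      have e : k + 1 + (m + 1) = (k + m) + 2 := by omega
      rw [e] at h
      have h5 := hstep _ h
      have e2 : k + 1 + m = k + m + 1 := by omega
      rw [e2]
      exact h5
  have h0 := hall n 0 (by
    have : X.lowerCentralSeries (0 + 1 + n) ≤ X.lowerCentralSeries n :=
      X.lowerCentralSeries_antitone (Nat.le_add_left _ _)
    rw [hn] at this
    exact this.trans bot_le)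
  exact h0

theorem symp {T : Type*} [Group T] [Finite T] {p : ℕ} [Fact p.Prime] (Z X : Subgroup T)
    [X.Normal] (hX : IsPGroup p X) (hZ : Z ≤ Subgroup.center T)
    (hab : ∀ A : Subgroup T, A.Normal → A ≤ X → (∀ a ∈ A, ∀ b ∈ A, a * b = b * a) → A ≤ Z) :
    (∀ x ∈ X, x ^ p ∈ Z) ∧ (∀ x ∈ X, ∀ y ∈ X, ⁅x, y⁆ ∈ Z ∧ ⁅x, y⁆ ^ p = 1) ∧
      ∀ x ∈ X, ∀ y ∈ X, (x * y) ^ (if p = 2 then 4 else p) =
        x ^ (if p = 2 then 4 else p) * y ^ (if p = 2 then 4 else p) := by
  have hp : p.Prime := Fact.out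
  have hcZ : ∀ x ∈ X, ∀ y ∈ X, ⁅x, y⁆ ∈ Z := fun x hx y hy =>
    Symp_comm_le Z X hX hZ hab (Subgroup.commutator_mem_commutator hx hy)
  have hcen : ∀ z ∈ Z, ∀ t : T, t * z = z * t := fun z hz t =>
    Subgroup.mem_center_iff.1 (hZ hz) t
  -- the subgroup generated by the powers
  have hpow : ∀ n : ℕ, (∀ x ∈ X, ∀ y ∈ X, ⁅x, y⁆ ^ (n * n) = 1) → ∀ x ∈ X, x ^ n ∈ Z := by
    intro n hn
    let S : Set T := {g | ∃ x ∈ X, g = x ^ n}
    have hS : ∀ a ∈ S, ∀ b ∈ S, a * b = b * a := by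
      rintro _ ⟨x, hx, rfl⟩ _ ⟨y, hy, rfl⟩
      have h1 : ⁅x ^ n, y ^ n⁆ = 1 := by
        rw [Symp_comm_pow (hcen _ (hcZ x hx (y ^ n) (X.pow_mem hy n))),
          Symp_comm_pow' (hcen _ (hcZ x hx y hy)), ← pow_mul]
        exact hn x hx y hy
      exact commutatorElement_eq_one_iff_mul_comm.1 h1
    have hA : Subgroup.closure S ≤ Z := by
      apply hab
      · constructor
        intro a ha g
        induction ha using Subgroup.closure_induction with
        | mem a ha =>
          obtain ⟨x, hx, rfl⟩ := ha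
          apply Subgroup.subset_closure
          refine ⟨g * x * g⁻¹, (inferInstance : X.Normal).conj_mem x hx g, ?_⟩
          rw [conj_pow]
        | one => rw [mul_one, mul_inv_cancel]; exact Subgroup.one_mem _
        | mul a b _ _ iha ihb =>
          have : g * (a * b) * g⁻¹ = (g * a * g⁻¹) * (g * b * g⁻¹) := by group
          rw [this]
          exact Subgroup.mul_mem _ iha ihb
        | inv a _ iha =>
          have : g * a⁻¹ * g⁻¹ = (g * a * g⁻¹)⁻¹ := by group
          rw [this]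
          exact Subgroup.inv_mem _ iha
      · rw [Subgroup.closure_le]
        rintro _ ⟨x, hx, rfl⟩
        exact X.pow_mem hx n
      · intro a ha b hb
        have h1 : Subgroup.closure S ≤ Subgroup.centralizer S := by
          rw [Subgroup.closure_le]
          intro c hc
          rw [SetLike.mem_coe, Subgroup.mem_centralizer_iff]
          intro d hd
          exact hS d hd c hc
        have h2 : Subgroup.closure S ≤ Subgroup.centralizer (Subgroup.closure S : Set T) := by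
          rw [Subgroup.closure_le]
          intro c hc
          rw [SetLike.mem_coe, Subgroup.mem_centralizer_iff]
          intro d hd
          exact (Subgroup.mem_centralizer_iff.1 (h1 hd) c hc).symm
        exact (Subgroup.mem_centralizer_iff.1 (h2 ha) b hb).symm
    intro x hx
    exact hA (Subgroup.subset_closure ⟨x, hx, rfl⟩)
  -- the exponent of the commutators
  have hstep : ∀ m : ℕ, (∀ x ∈ X, ∀ y ∈ X, ⁅x, y⁆ ^ (p ^ (m + 2)) = 1) →
      ∀ x ∈ X, ∀ y ∈ X, ⁅x, y⁆ ^ (p ^ (m + 1)) = 1 := by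
    intro m hm x hx y hy
    have h1 := hpow (p ^ (m + 1)) (fun x hx y hy => by
      have e : p ^ (m + 1) * p ^ (m + 1) = p ^ (m + 2) * p ^ m := by
        rw [← pow_add, ← pow_add]
        congr 1
        omega
      rw [e, pow_mul, hm x hx y hy, one_pow]) x hx
    rw [← Symp_comm_pow (hcen _ (hcZ x hx y hy))]
    rw [commutatorElement_eq_one_iff_mul_comm]
    exact (hcen _ h1 y).symm
  have hfin : ∃ M : ℕ, ∀ x ∈ X, ∀ y ∈ X, ⁅x, y⁆ ^ (p ^ (M + 1)) = 1 := by
    obtain ⟨k, hk⟩ := IsPGroup.iff_card.1 hX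
    refine ⟨k, fun x hx y hy => ?_⟩
    have hc : ⁅x, y⁆ ∈ X := by
      rw [commutatorElement_def]
      exact X.mul_mem (X.mul_mem (X.mul_mem hx hy) (X.inv_mem hx)) (X.inv_mem hy)
    have h1 : (⟨⁅x, y⁆, hc⟩ : X) ^ (p ^ k) = 1 := by
      rw [← hk]
      exact pow_card_eq_one'
    have h2 : ⁅x, y⁆ ^ (p ^ k) = 1 := congrArg Subtype.val h1
    rw [pow_succ, pow_mul, h2, one_pow]
  obtain ⟨M, hM⟩ := hfin
  have hall : ∀ m : ℕ, (∀ x ∈ X, ∀ y ∈ X, ⁅x, y⁆ ^ (p ^ (m + 1)) = 1) →
      ∀ x ∈ X, ∀ y ∈ X, ⁅x, y⁆ ^ p = 1 := by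
    intro m
    induction m with
    | zero =>
      intro h x hx y hy
      have := h x hx y hy
      rwa [zero_add, pow_one] at this
    | succ m ih => exact fun h => ih (hstep m h)
  have hcp := hall M hM
  refine ⟨hpow p (fun x hx y hy => by rw [pow_mul, hcp x hx y hy, one_pow]),
    fun x hx y hy => ⟨hcZ x hx y hy, hcp x hx y hy⟩, ?_⟩
  intro x hx y hy
  rw [Symp_mul_pow (hcen _ (hcZ y hy x hx))]
  have hd : p ∣ (if p = 2 then 4 else p).choose 2 := by
    by_cases h2 : p = 2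
    · rw [if_pos h2, h2]
      decide
    · rw [if_neg h2]
      exact hp.dvd_choose_self (by norm_num) (lt_of_le_of_ne hp.two_le (Ne.symm h2))
  obtain ⟨c, hc⟩ := hd
  rw [hc, pow_mul, hcp y hy x hx, one_pow, mul_one]

end Pool.PWL
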