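import Pool.Agent.PWL.DefsS
import Pool.Agent.PWL.Symp

/-!
# A normal subgroup of exponent p (or 4) outside the centre
-/

namespace Pool.PWL

open scoped commutatorElement

private theorem FindLp_cyc {Z : Type*} [Group Z] [Finite Z] [IsCyclic Z] (a b : Z)
    (hb : b ^ orderOf a = 1) : b ∈ Subgroup.zpowers a := by
  classical
  have := Fintype.ofFinite Z
  have h1 := IsCyclic.card_pow_eq_one_le (α := Z) (orderOf_pos a)
  have h2 : (Finset.univ.filter fun z : Z => z ∈ Subgroup.zpowers a) ⊆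
      Finset.univ.filter fun z : Z => z ^ orderOf a = 1 := by
    intro z hz
    rw [Finset.mem_filter] at hz ⊢
    refine ⟨Finset.mem_univ _, ?_⟩
    obtain ⟨i, rfl⟩ := Subgroup.mem_zpowers_iff.1 hz.2
    rw [← zpow_natCast, ← zpow_mul, mul_comm, zpow_mul, zpow_natCast, pow_orderOf_eq_one, one_zpow]
  have h3 : (Finset.univ.filter fun z : Z => z ∈ Subgroup.zpowers a).card = orderOf a := by
    rw [← Nat.card_zpowers, Nat.card_eq_fintype_card, Fintype.card_subtype]
  have h4 := Finset.eq_of_subset_of_card_le h2 (by rw [h3]; exact h1)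
  have h5 : b ∈ Finset.univ.filter fun z : Z => z ^ orderOf a = 1 := by
    rw [Finset.mem_filter]
    exact ⟨Finset.mem_univ _, hb⟩
  rw [← h4, Finset.mem_filter] at h5
  exact h5.2

theorem exists_Lp {T : Type*} [Group T] [Finite T] {p : ℕ} [Fact p.Prime] (Z X : Subgroup T)
    [X.Normal] (hX : IsPGroup p X) (hZ : Z ≤ Subgroup.center T) (hcyc : IsCyclic Z)
    (hab : ∀ A : Subgroup T, A.Normal → A ≤ X → (∀ a ∈ A, ∀ b ∈ A, a * b = b * a) → A ≤ Z)
    (hXZ : ¬ X ≤ Z) :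
    ∃ L : Subgroup T, L.Normal ∧ L ≤ X ∧ ¬ L ≤ Z ∧
      ∀ l ∈ L, l ^ (if p = 2 then 4 else p) = 1 := by
  obtain ⟨s1, s2, s3⟩ := symp Z X hX hZ hab
  set q : ℕ := if p = 2 then 4 else p with hq
  have hpq : p ∣ q := by
    rw [hq]
    split_ifs with h
    · rw [h]; exact ⟨2, rfl⟩
    · exact dvd_rfl
  have hcen : ∀ z ∈ Z, ∀ t : T, t * z = z * t := fun z hz t =>
    Subgroup.mem_center_iff.1 (hZ hz) t
  have hqZ : ∀ x ∈ X, x ^ q ∈ Z := by
    intro x hx
    obtain ⟨c, hc⟩ := hpq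
    rw [hc, pow_mul]
    exact Z.pow_mem (s1 x hx) c
  let L : Subgroup T :=
    { carrier := {x | x ∈ X ∧ x ^ q = 1}
      mul_mem' := by
        rintro a b ⟨ha, ha1⟩ ⟨hb, hb1⟩
        exact ⟨X.mul_mem ha hb, by rw [s3 a ha b hb, ha1, hb1, one_mul]⟩
      one_mem' := ⟨X.one_mem, one_pow _⟩
      inv_mem' := by
        rintro a ⟨ha, ha1⟩
        exact ⟨X.inv_mem ha, by rw [inv_pow, ha1, inv_one]⟩ }
  refine ⟨L, ?_, fun x hx => hx.1, ?_, fun l hl => hl.2⟩
  · constructor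
    rintro n ⟨hn, hn1⟩ g
    refine ⟨(inferInstance : X.Normal).conj_mem n hn g, ?_⟩
    rw [conj_pow, hn1, mul_one, mul_inv_cancel]
  · intro hLZ
    -- the key step
    have key : ∀ x ∈ X, ∀ y ∈ X, y ^ q ∈ Subgroup.zpowers (x ^ q) → x * y = y * x := by
      intro x hx y hy h
      obtain ⟨i, hi⟩ := Subgroup.mem_zpowers_iff.1 h
      have hxi : x ^ (-i) ∈ X := X.zpow_mem hx _
      have hw : y * x ^ (-i) ∈ L := by
        refine ⟨X.mul_mem hy hxi, ?_⟩
        rw [s3 y hy _ hxi, ← zpow_natCast (x ^ (-i)) q, ← zpow_mul, mul_comm (-i), zpow_mul,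
          zpow_natCast, zpow_neg, hi, mul_inv_cancel]
      have hc := hcen _ (hLZ hw) x
      have e : y = (y * x ^ (-i)) * x ^ i := by group
      calc x * y = x * (y * x ^ (-i)) * x ^ i := by group
        _ = (y * x ^ (-i)) * x * x ^ i := by rw [hc]
        _ = y * x := by group
    have hall : ∀ x ∈ X, ∀ y ∈ X, x * y = y * x := by
      intro x hx y hy
      obtain ⟨s, hs⟩ := (IsPGroup.iff_orderOf.1 hX) ⟨x ^ q, X.pow_mem hx q⟩
      obtain ⟨t, ht⟩ := (IsPGroup.iff_orderOf.1 hX) ⟨y ^ q, X.pow_mem hy q⟩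
      rw [Subgroup.orderOf_mk] at hs ht
      have hto : ∀ u ∈ Z, ∀ v ∈ Z, v ^ orderOf u = 1 → v ∈ Subgroup.zpowers u := by
        intro u hu v hv h
        have h1 : (⟨v, hv⟩ : Z) ∈ Subgroup.zpowers (⟨u, hu⟩ : Z) := by
          apply FindLp_cyc
          rw [Subgroup.orderOf_mk]
          exact Subtype.ext h
        obtain ⟨i, hi⟩ := Subgroup.mem_zpowers_iff.1 h1
        exact Subgroup.mem_zpowers_iff.2 ⟨i, congrArg Subtype.val hi⟩
      rcases le_total s t with h | h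
      · refine (key y hy x hx (hto _ (hqZ y hy) _ (hqZ x hx) ?_)).symm
        rw [ht]
        exact orderOf_dvd_iff_pow_eq_one.1 (by rw [hs]; exact pow_dvd_pow p h)
      · refine key x hx y hy (hto _ (hqZ x hx) _ (hqZ y hy) ?_)
        rw [hs]
        exact orderOf_dvd_iff_pow_eq_one.1 (by rw [ht]; exact pow_dvd_pow p h)
    exact hXZ (hab X inferInstance le_rfl hall)

end Pool.PWL
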