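import Mathlib

/-!
# Row FindLq: a normal subgroup of order prime to `p`
-/

set_option autoImplicit false

namespace Pool.PWL

/-- a normal subgroup of order prime to `p` which is not contained in the central subgroup -/
theorem exists_Lq {T : Type*} [Group T] [Finite T] {p : ℕ} [Fact p.Prime] (Z Y : Subgroup T)
    [Y.Normal] (hZ : Z ≤ Subgroup.center T) (hZY : Z ≤ Y) (hY : ¬ p ∣ Z.relIndex Y)
    (hne : Z ≠ Y) : ∃ L : Subgroup T, L.Normal ∧ L ≤ Y ∧ ¬ L ≤ Z ∧ ¬ p ∣ Nat.card L := by
  classical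
  have hp : p.Prime := Fact.out
  set m : ℕ := (Subgroup.center Y).index with hm
  -- the central subgroup
  have hZc : Z.subgroupOf Y ≤ Subgroup.center Y := by
    intro z hz
    rw [Subgroup.mem_center_iff]
    intro g
    apply Subtype.ext
    have := Subgroup.mem_center_iff.1 (hZ hz) (g : T)
    simpa using this
  have hmp : ¬ p ∣ m := by
    intro h
    apply hY
    exact h.trans (Subgroup.index_dvd_of_le hZc)
  obtain ⟨a, b, hb, hcard⟩ := Nat.exists_eq_pow_mul_and_not_dvd
    (Nat.card_pos (α := Subgroup.center Y)).ne' p hp.ne_one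
  set τ : Y →* Subgroup.center Y := MonoidHom.transferCenterPow Y with hτ
  have hτ' : ∀ y : Y, ((τ y : Subgroup.center Y) : Y) = y ^ m := fun y =>
    MonoidHom.transferCenterPow_apply y
  have hcomm : ∀ u v : Subgroup.center Y, Commute u v := fun u v =>
    Subtype.ext (Subgroup.mem_center_iff.1 v.2 (u : Y))
  set θ : Y →* Subgroup.center Y := MonoidHom.mk' (fun y => τ y ^ b) (fun x y => by
    simp only [map_mul]
    exact (hcomm (τ x) (τ y)).mul_pow b) with hθ
  have hθ' : ∀ y : Y, θ y = τ y ^ b := fun y => rfl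
  have hmem : ∀ y : Y, y ∈ θ.ker ↔ y ^ (m * b) = 1 := by
    intro y
    rw [MonoidHom.mem_ker, hθ', ← Subtype.coe_inj, pow_mul, ← hτ' y]
    simp
  refine ⟨θ.ker.map Y.subtype, ?_, ?_, ?_, ?_⟩
  · refine ⟨?_⟩
    rintro _ ⟨y, hy, rfl⟩ g
    refine ⟨⟨g * y * g⁻¹, ‹Y.Normal›.conj_mem y y.2 g⟩, ?_, rfl⟩
    have h1 := (hmem y).1 hy
    apply (hmem _).2
    apply Subtype.ext
    have h2 : ((y : T)) ^ (m * b) = 1 := by
      have := congrArg (fun t : Y => (t : T)) h1
      simpa using this
    simp only [SubgroupClass.coe_pow, OneMemClass.coe_one, conj_pow, h2, mul_one,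
      mul_inv_cancel]
  · exact Subgroup.map_subtype_le _
  · intro hle
    have h1 : θ.ker ≤ Z.subgroupOf Y := by
      intro y hy
      exact hle ⟨y, hy, rfl⟩
    have h2 : Z.relIndex Y ∣ Nat.card θ.range := by
      rw [← Subgroup.index_ker]
      exact Subgroup.index_dvd_of_le h1
    have h3 : IsPGroup p θ.range := by
      rintro ⟨_, y, rfl⟩
      refine ⟨a, ?_⟩
      apply Subtype.ext
      simp only [SubgroupClass.coe_pow, OneMemClass.coe_one]
      rw [hθ', ← pow_mul, mul_comm b, ← hcard]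
      exact pow_card_eq_one'
    obtain ⟨c, hc⟩ := IsPGroup.iff_card.1 h3
    rw [hc] at h2
    obtain ⟨d, -, hd⟩ := (Nat.dvd_prime_pow hp).1 h2
    have hd0 : d = 0 := by
      by_contra hd0
      apply hY
      rw [hd]
      exact dvd_pow_self p hd0
    rw [hd0, pow_zero] at hd
    have h4 : Y ≤ Z := Subgroup.relIndex_eq_one.1 hd
    exact hne (le_antisymm hZY h4)
  · rw [Subgroup.card_map_of_injective Y.subtype_injective]
    intro hdiv
    obtain ⟨x, hx⟩ := exists_prime_orderOf_dvd_card' p hdiv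
    have h1 := (hmem (x : Y)).1 x.2
    have h2 : orderOf (x : Y) = p := by
      rw [← hx]
      exact Subgroup.orderOf_coe x
    have h3 : p ∣ m * b := by
      rw [← h2]
      exact orderOf_dvd_of_pow_eq_one h1
    rcases (Nat.Prime.dvd_mul hp).1 h3 with h4 | h4
    · exact hmp h4
    · exact hb h4

end Pool.PWL
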