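import Pool.Agent.PWL.DefsS

/-!
# A normal p-subgroup outside a central subgroup
-/

namespace Pool.PWL

private theorem findX_normal {F : Type*} [Group F] [Finite F] {p : ℕ} [Fact p.Prime]
    (Z : Subgroup F) (hZ : Z ≤ Subgroup.center F) (a : ℕ) (ha : Z.index = p ^ a)
    (P : Sylow p F) : (P : Subgroup F).Normal := by
  have hZn : Z.Normal := ⟨fun n hn g => by
    rw [Subgroup.mem_center_iff.1 (hZ hn) g, mul_inv_cancel_right]; exact hn⟩
  have htop : Z ⊔ (P : Subgroup F) = ⊤ := by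
    rw [← Subgroup.index_eq_one]
    have h1 : (Z ⊔ (P : Subgroup F)).index ∣ p ^ a := by
      rw [← ha]
      exact Subgroup.index_dvd_of_le le_sup_left
    have h2 : (Z ⊔ (P : Subgroup F)).index ∣ (P : Subgroup F).index :=
      Subgroup.index_dvd_of_le le_sup_right
    have h3 : (p ^ a).Coprime (P : Subgroup F).index :=
      (Fact.out : p.Prime).coprime_pow_of_not_dvd P.not_dvd_index |>.symm
    exact Nat.eq_one_of_dvd_coprimes h3 h1 h2
  refine ⟨fun n hn g => ?_⟩
  have hg : g ∈ Z ⊔ (P : Subgroup F) := by rw [htop]; exact Subgroup.mem_top g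
  rw [Subgroup.mem_sup_of_normal_left] at hg
  obtain ⟨z, hz, x, hx, rfl⟩ := hg
  have h4 := Subgroup.mem_center_iff.1 (hZ hz)
  have h5 : z * x * n * (z * x)⁻¹ = x * n * x⁻¹ := by
    have h6 := h4 (x * n * x⁻¹)
    calc z * x * n * (z * x)⁻¹ = z * (x * n * x⁻¹) * z⁻¹ := by group
      _ = (x * n * x⁻¹) * z * z⁻¹ := by rw [h6]
      _ = x * n * x⁻¹ := mul_inv_cancel_right _ _
  rw [h5]
  exact (P : Subgroup F).mul_mem ((P : Subgroup F).mul_mem hx hn) ((P : Subgroup F).inv_mem hx)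

theorem exists_X {T : Type*} [Group T] [Finite T] {p : ℕ} [Fact p.Prime] (Z Y : Subgroup T)
    [Y.Normal] (hZ : Z ≤ Subgroup.center T) (hZY : Z ≤ Y) (hne : Z ≠ Y) (a : ℕ)
    (ha : Z.relIndex Y = p ^ a) :
    ∃ X : Subgroup T, X.Normal ∧ X ≤ Y ∧ ¬ X ≤ Z ∧ IsPGroup p X := by
  have hp : p.Prime := Fact.out
  obtain ⟨P⟩ := (inferInstance : Nonempty (Sylow p Y))
  have hZc : Z.subgroupOf Y ≤ Subgroup.center Y := by
    intro z hz
    rw [Subgroup.mem_center_iff]
    intro g
    exact Subtype.ext (Subgroup.mem_center_iff.1 (hZ (Subgroup.mem_subgroupOf.1 hz)) g)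
  have hPn := findX_normal (Z.subgroupOf Y) hZc a ha P
  have hPc : (P : Subgroup Y).Characteristic := Sylow.characteristic_of_normal P hPn
  refine ⟨(P : Subgroup Y).map Y.subtype, inferInstance, Subgroup.map_subtype_le _, ?_,
    P.2.map _⟩
  intro hle
  have h1 : (P : Subgroup Y) ≤ Z.subgroupOf Y := by
    intro x hx
    exact Subgroup.mem_subgroupOf.2 (hle ⟨x, hx, rfl⟩)
  have h2 : (Z.subgroupOf Y).index ∣ (P : Subgroup Y).index := Subgroup.index_dvd_of_le h1
  have h3 : (Z.subgroupOf Y).index = p ^ a := ha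
  have ha0 : a = 0 := by
    by_contra h0
    apply P.not_dvd_index
    rw [h3] at h2
    exact (dvd_pow_self p h0).trans h2
  rw [ha0, pow_zero, Subgroup.relIndex_eq_one] at ha
  exact hne (le_antisymm hZY ha)

end Pool.PWL
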