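import Pool.Agent.PWL.DefsS

/-!
# A normal subgroup above a normal subgroup of a solvable group
-/

namespace Pool.PWL
open scoped commutatorElement

/-- the last nontrivial term of the derived series -/
private theorem findY_last {Q : Type*} [Group Q] (hs : IsSolvable Q)
    (hne : (⊥ : Subgroup Q) ≠ ⊤) :
    ∃ D : Subgroup Q, D.Normal ∧ D ≠ ⊥ ∧ ∀ x ∈ D, ∀ y ∈ D, x * y = y * x := by
  classical
  obtain ⟨n, hn⟩ := hs.solvable
  have hex : ∃ n, derivedSeries Q n = ⊥ := ⟨n, hn⟩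
  have h1 := Nat.find_spec hex
  have h2 : Nat.find hex ≠ 0 := by
    intro h0
    rw [h0, derivedSeries_zero] at h1
    exact hne h1.symm
  obtain ⟨m, hm⟩ := Nat.exists_eq_succ_of_ne_zero h2
  refine ⟨derivedSeries Q m, derivedSeries_normal Q m, ?_, ?_⟩
  · intro h
    have h3 := Nat.find_min hex (m := m) (by omega)
    exact h3 h
  · intro x hx y hy
    rw [hm, Nat.succ_eq_add_one, derivedSeries_succ] at h1
    have h3 : ⁅x, y⁆ ∈ (⊥ : Subgroup Q) := h1 ▸ Subgroup.commutator_mem_commutator hx hy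
    rw [Subgroup.mem_bot, commutatorElement_eq_one_iff_mul_comm] at h3
    exact h3

/-- the elements of `p`-power order -/
private def findYP {Q : Type*} [Group Q] (D : Subgroup Q)
    (hD : ∀ x ∈ D, ∀ y ∈ D, x * y = y * x) (p : ℕ) : Subgroup Q where
  carrier := {x | x ∈ D ∧ ∃ k : ℕ, x ^ (p ^ k) = 1}
  mul_mem' := by
    rintro x y ⟨hx, k, hk⟩ ⟨hy, l, hl⟩
    refine ⟨D.mul_mem hx hy, k + l, ?_⟩
    have hc : Commute x y := hD x hx y hy
    rw [hc.mul_pow, pow_add, pow_mul, hk, one_pow, mul_comm (p ^ k), pow_mul, hl, one_pow,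
      one_mul]
  one_mem' := ⟨D.one_mem, 0, one_pow _⟩
  inv_mem' := by
    rintro x ⟨hx, k, hk⟩
    exact ⟨D.inv_mem hx, k, by rw [inv_pow, hk, inv_one]⟩

private theorem findY_relIndex {T : Type*} [Group T] (Z : Subgroup T) [Z.Normal]
    (Y' : Subgroup (T ⧸ Z)) :
    Z.relIndex (Y'.comap (QuotientGroup.mk' Z)) = Nat.card Y' := by
  have h1 : (⊥ : Subgroup (T ⧸ Z)).comap (QuotientGroup.mk' Z) = Z := by
    rw [MonoidHom.comap_bot, QuotientGroup.ker_mk']
  have h2 := Subgroup.relIndex_comap (⊥ : Subgroup (T ⧸ Z)) (QuotientGroup.mk' Z)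
    (Y'.comap (QuotientGroup.mk' Z))
  rw [h1, Subgroup.map_comap_eq_self_of_surjective (QuotientGroup.mk'_surjective Z),
    Subgroup.relIndex_bot_left] at h2
  exact h2

theorem exists_Y {T : Type*} [Group T] [Finite T] (hT : IsSolvable T) (p : ℕ) [Fact p.Prime]
    (Z : Subgroup T) [Z.Normal] (hZ : Z ≠ ⊤) :
    ∃ Y : Subgroup T, Y.Normal ∧ Z ≤ Y ∧ Z ≠ Y ∧
      (¬ p ∣ Z.relIndex Y ∨ ∃ a, Z.relIndex Y = p ^ a) := by
  have hs : IsSolvable (T ⧸ Z) :=
    ((Group.isSolvable_iff_subgroup_quotient Z).1 hT).2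
  have hne : (⊥ : Subgroup (T ⧸ Z)) ≠ ⊤ := by
    intro h
    apply hZ
    have h1 : (⊥ : Subgroup (T ⧸ Z)).comap (QuotientGroup.mk' Z) = Z := by
      rw [MonoidHom.comap_bot, QuotientGroup.ker_mk']
    rw [← h1, h, Subgroup.comap_top]
  obtain ⟨D, hDn, hD0, hDc⟩ := findY_last hs hne
  -- from a nontrivial normal subgroup of the quotient
  have key : ∀ Y' : Subgroup (T ⧸ Z), Y'.Normal → Y' ≠ ⊥ →
      (¬ p ∣ Nat.card Y' ∨ ∃ a, Nat.card Y' = p ^ a) →
      ∃ Y : Subgroup T, Y.Normal ∧ Z ≤ Y ∧ Z ≠ Y ∧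
        (¬ p ∣ Z.relIndex Y ∨ ∃ a, Z.relIndex Y = p ^ a) := by
    intro Y' hn h0 hor
    refine ⟨Y'.comap (QuotientGroup.mk' Z), hn.comap _, ?_, ?_, ?_⟩
    · intro z hz
      rw [Subgroup.mem_comap]
      have : QuotientGroup.mk' Z z = 1 := (QuotientGroup.eq_one_iff z).2 hz
      rw [this]
      exact Y'.one_mem
    · intro h
      apply h0
      have h1 := Subgroup.map_comap_eq_self_of_surjective (QuotientGroup.mk'_surjective Z) Y'
      rw [← h] at h1
      rw [← h1]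
      have h2 := QuotientGroup.map_mk'_self Z
      exact h2
    · rw [findY_relIndex Z Y']
      exact hor
  by_cases hp : p ∣ Nat.card D
  · obtain ⟨x, hx⟩ := exists_prime_orderOf_dvd_card' (G := D) p hp
    refine key (findYP D hDc p) ?_ ?_ (Or.inr ?_)
    · constructor
      rintro y ⟨hy, k, hk⟩ g
      refine ⟨hDn.conj_mem y hy g, k, ?_⟩
      rw [conj_pow, hk, mul_one, mul_inv_cancel]
    · intro h
      have h1 : (x : T ⧸ Z) ∈ findYP D hDc p := by
        refine ⟨x.2, 1, ?_⟩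
        rw [pow_one, ← hx]
        have h2 := pow_orderOf_eq_one x
        have h3 := congrArg (Subtype.val) h2
        exact h3
      rw [h, Subgroup.mem_bot] at h1
      have h2 : x = 1 := Subtype.ext h1
      rw [h2, orderOf_one] at hx
      exact (Fact.out : p.Prime).one_lt.ne hx
    · apply IsPGroup.iff_card.1
      rintro ⟨y, hy, k, hk⟩
      exact ⟨k, Subtype.ext hk⟩
  · exact key D hDn hD0 (Or.inl hp)

end Pool.PWL
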