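import Pool.Agent.PWL.DefsS
import Pool.Agent.PWL.FindLp
import Pool.Agent.PWL.FindLq
import Pool.Agent.PWL.FindX
import Pool.Agent.PWL.FindY

/-!
# A normal subgroup of bounded exponent which is not scalar
-/

namespace Pool.PWL
open scoped commutatorElement

section
variable {T : Type*} [Group T] {U : Type*} [AddCommGroup U] [Module ℂ U]

private def flScal (S : Subgroup (Module.End ℂ U)ˣ) : Subgroup S where
  carrier := {x | IsScal (((x : (Module.End ℂ U)ˣ)) : Module.End ℂ U)}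
  mul_mem' := by
    rintro x y ⟨a, ha⟩ ⟨b, hb⟩
    refine ⟨a * b, ?_⟩
    show ((((x * y : S) : (Module.End ℂ U)ˣ)) : Module.End ℂ U) = _
    rw [Subgroup.coe_mul, Units.val_mul, ha, hb, smul_mul_smul_comm, one_mul]
  one_mem' := ⟨1, by
    show ((((1 : S) : (Module.End ℂ U)ˣ)) : Module.End ℂ U) = _
    rw [Subgroup.coe_one, Units.val_one, one_smul]⟩
  inv_mem' := by
    rintro x ⟨a, ha⟩
    have h1 : (((x : (Module.End ℂ U)ˣ)) : Module.End ℂ U) *
      ((((x : (Module.End ℂ U)ˣ))⁻¹ : (Module.End ℂ U)ˣ) : Module.End ℂ U) = 1 := Units.mul_inv _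
    rw [ha, smul_mul_assoc, one_mul] at h1
    refine ⟨a⁻¹, ?_⟩
    show ((((x⁻¹ : S) : (Module.End ℂ U)ˣ)) : Module.End ℂ U) = _
    rw [Subgroup.coe_inv]
    by_cases h0 : a = 0
    · rw [h0, zero_smul] at h1
      have h2 : ∀ B : Module.End ℂ U, B = 0 := fun B => by
        rw [← mul_one B, ← h1, mul_zero]
      rw [h2 (((x : (Module.End ℂ U)ˣ)⁻¹ : (Module.End ℂ U)ˣ) : Module.End ℂ U), h2 (_ • _)]
    · rw [← h1, smul_smul, inv_mul_cancel₀ h0, one_smul]

private theorem flScal_le (S : Subgroup (Module.End ℂ U)ˣ) :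
    flScal S ≤ Subgroup.center S := by
  rintro x ⟨a, ha⟩
  rw [Subgroup.mem_center_iff]
  intro g
  apply Subtype.ext
  apply Units.ext
  rw [Subgroup.coe_mul, Subgroup.coe_mul, Units.val_mul, Units.val_mul, ha, mul_smul_comm,
    smul_mul_assoc, one_mul, mul_one]

variable [FiniteDimensional ℂ U] [Nontrivial U]

private theorem fl_tr (a : ℂ) : LinearMap.trace ℂ U (a • (1 : Module.End ℂ U)) /
    (Module.finrank ℂ U : ℂ) = a := by
  have h1 : (Module.finrank ℂ U : ℂ) ≠ 0 := by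
    exact_mod_cast (Module.finrank_pos (R := ℂ) (M := U)).ne'
  rw [map_smul, LinearMap.trace_one, smul_eq_mul, mul_div_assoc, div_self h1, mul_one]

private theorem flScal_cyclic (S : Subgroup (Module.End ℂ U)ˣ) [Finite S] :
    IsCyclic (flScal S) := by
  let f : flScal S →* ℂ :=
    { toFun := fun x => LinearMap.trace ℂ U ((((x : S) : (Module.End ℂ U)ˣ)) : Module.End ℂ U) /
        (Module.finrank ℂ U : ℂ)
      map_one' := by
        show LinearMap.trace ℂ U (((((1 : flScal S) : S) : (Module.End ℂ U)ˣ)) :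
          Module.End ℂ U) / (Module.finrank ℂ U : ℂ) = 1
        rw [Subgroup.coe_one, Subgroup.coe_one, Units.val_one,
          ← one_smul ℂ (1 : Module.End ℂ U), fl_tr]
      map_mul' := by
        rintro ⟨x, a, ha⟩ ⟨y, b, hb⟩
        show LinearMap.trace ℂ U ((((x * y : S) : (Module.End ℂ U)ˣ)) : Module.End ℂ U) /
          (Module.finrank ℂ U : ℂ) =
          (LinearMap.trace ℂ U (((x : (Module.End ℂ U)ˣ)) : Module.End ℂ U) /
          (Module.finrank ℂ U : ℂ)) *
          (LinearMap.trace ℂ U (((y : (Module.End ℂ U)ˣ)) : Module.End ℂ U) /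
          (Module.finrank ℂ U : ℂ))
        rw [Subgroup.coe_mul, Units.val_mul, ha, hb, smul_mul_smul_comm, one_mul, fl_tr, fl_tr,
          fl_tr] }
  refine isCyclic_of_subgroup_isDomain f ?_
  rintro ⟨x, a, ha⟩ ⟨y, b, hb⟩ h
  have h1 : LinearMap.trace ℂ U (((x : (Module.End ℂ U)ˣ)) : Module.End ℂ U) /
      (Module.finrank ℂ U : ℂ) =
      LinearMap.trace ℂ U (((y : (Module.End ℂ U)ˣ)) : Module.End ℂ U) /
      (Module.finrank ℂ U : ℂ) := h
  rw [ha, hb, fl_tr, fl_tr] at h1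
  apply Subtype.ext
  apply Subtype.ext
  apply Units.ext
  show (((x : (Module.End ℂ U)ˣ)) : Module.End ℂ U) = (((y : (Module.End ℂ U)ˣ)) : Module.End ℂ U)
  rw [ha, hb, h1]

end

theorem exists_L {T : Type*} [Group T] [Finite T] (hT : IsSolvable T) {p : ℕ} [Fact p.Prime]
    {U : Type*} [AddCommGroup U] [Module ℂ U] [FiniteDimensional ℂ U] [Nontrivial U]
    (ρ : Representation ℂ T U) (H : ∀ L : Subgroup T, L.Normal → IsHomog ρ L)
    (hns : ¬ ∀ t, IsScal (ρ t)) :
    ∃ (L : Subgroup T) (m : ℕ), L.Normal ∧ ¬ p ∣ m ∧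
      (∀ l ∈ L, ρ l ^ ((if p = 2 then 4 else p) * m) = 1) ∧ ∃ l ∈ L, ¬ IsScal (ρ l) := by
  let φ : T →* (Module.End ℂ U)ˣ := MonoidHom.toHomUnits ρ
  have hφ : ∀ t, ((φ t : (Module.End ℂ U)ˣ) : Module.End ℂ U) = ρ t := fun t => rfl
  let S : Subgroup (Module.End ℂ U)ˣ := φ.range
  let ψ : T →* S := φ.rangeRestrict
  have hψ : ∀ t, (((ψ t : S) : (Module.End ℂ U)ˣ) : Module.End ℂ U) = ρ t := fun t => rfl
  have hsurj : Function.Surjective ψ := φ.rangeRestrict_surjective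
  have : Finite S := Finite.of_surjective ψ hsurj
  have hT' : Group.IsSolvable T := hT
  have hS : IsSolvable S := Group.isSolvable_of_surjective (f := ψ) hsurj
  let Z : Subgroup S := flScal S
  have hZc : Z ≤ Subgroup.center S := flScal_le S
  have hZcyc : IsCyclic Z := flScal_cyclic S
  have hZmem : ∀ t, ψ t ∈ Z ↔ IsScal (ρ t) := fun t => Iff.rfl
  have : Z.Normal := by
    constructor
    intro n hn g
    have h1 := Subgroup.mem_center_iff.mp (hZc hn) g
    rw [h1, mul_inv_cancel_right]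
    exact hn
  have hZtop : Z ≠ ⊤ := by
    intro h
    apply hns
    intro t
    rw [← hZmem, h]
    exact Subgroup.mem_top _
  -- it is enough to find the subgroup in `S`
  have key : ∀ (L : Subgroup S) (m : ℕ), L.Normal → ¬ p ∣ m → ¬ L ≤ Z →
      (∀ l ∈ L, l ^ ((if p = 2 then 4 else p) * m) = 1) →
      ∃ (L : Subgroup T) (m : ℕ), L.Normal ∧ ¬ p ∣ m ∧
      (∀ l ∈ L, ρ l ^ ((if p = 2 then 4 else p) * m) = 1) ∧ ∃ l ∈ L, ¬ IsScal (ρ l) := by
    intro L m hL hm hLZ hpow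
    refine ⟨L.comap ψ, m, hL.comap ψ, hm, ?_, ?_⟩
    · intro l hl
      have h1 := hpow (ψ l) hl
      have h2 : ((((ψ l) ^ ((if p = 2 then 4 else p) * m) : S) : (Module.End ℂ U)ˣ) :
          Module.End ℂ U) = 1 := by
        rw [h1, Subgroup.coe_one, Units.val_one]
      rw [Subgroup.coe_pow, Units.val_pow_eq_pow_val, hψ] at h2
      exact h2
    · obtain ⟨s, hs, hsZ⟩ := SetLike.not_le_iff_exists.mp hLZ
      obtain ⟨t, rfl⟩ := hsurj s
      exact ⟨t, hs, fun h => hsZ ((hZmem t).mpr h)⟩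
  obtain ⟨Y, hY, hZY, hne, h⟩ := exists_Y hS p Z hZtop
  have := hY
  rcases h with h | ⟨a, ha⟩
  · obtain ⟨L, hL, -, hLZ, hcard⟩ := exists_Lq (p := p) Z Y hZc hZY h hne
    refine key L (Nat.card L) hL hcard hLZ ?_
    intro l hl
    have h1 : (⟨l, hl⟩ : L) ^ Nat.card L = 1 := pow_card_eq_one'
    have h2 : l ^ Nat.card L = 1 := by
      have h3 : (((⟨l, hl⟩ : L) ^ Nat.card L : L) : S) = ((1 : L) : S) := by rw [h1]
      rw [Subgroup.coe_pow, Subgroup.coe_one] at h3
      exact h3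
    rw [mul_comm, pow_mul, h2, one_pow]
  · obtain ⟨X, hX, hXY, hXZ, hXp⟩ := exists_X (p := p) Z Y hZc hZY hne a ha
    have := hX
    have hab : ∀ A : Subgroup S, A.Normal → A ≤ X → (∀ a ∈ A, ∀ b ∈ A, a * b = b * a) →
        A ≤ Z := by
      intro A hA _ hcomm
      intro x hx
      obtain ⟨t, rfl⟩ := hsurj x
      rw [hZmem]
      refine H (A.comap ψ) (hA.comap ψ) (ρ t) ?_ ?_
      · exact Algebra.subset_adjoin ⟨⟨t, hx⟩, rfl⟩
      · intro l hl
        have h1 := hcomm (ψ t) hx (ψ l) hl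
        have h2 : ((((ψ t * ψ l : S)) : (Module.End ℂ U)ˣ) : Module.End ℂ U) =
            ((((ψ l * ψ t : S)) : (Module.End ℂ U)ˣ) : Module.End ℂ U) := by rw [h1]
        rw [Subgroup.coe_mul, Subgroup.coe_mul, Units.val_mul, Units.val_mul, hψ, hψ] at h2
        exact h2
    obtain ⟨L, hL, -, hLZ, hpow⟩ := exists_Lp (p := p) Z X hXp hZc hZcyc hab hXZ
    refine key L 1 hL ?_ hLZ ?_
    · exact (Fact.out : p.Prime).not_dvd_one
    · intro l hl
      rw [mul_one]
      exact hpow l hl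

end Pool.PWL
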