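import Pool.Agent.PWL.DefsS

/-!
# The algebra generated by the representation of `Gam1` is smaller
-/

namespace Pool.PWL
open scoped commutatorElement

section
variable {T : Type} [Group T] [Finite T] {U : Type} [AddCommGroup U] [Module ℂ U]
  [FiniteDimensional ℂ U] [Nontrivial U] (ρ : Representation ℂ T U) (L : Subgroup T) [L.Normal]

omit [Finite T] [FiniteDimensional ℂ U] [Nontrivial U] in
private theorem gam1_opAlg_le : opAlg (gamRep ρ L) ⊤ ≤ opAlg ρ ⊤ := by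
  unfold opAlg
  refine Algebra.adjoin_le ?_
  rintro X ⟨⟨x, -⟩, rfl⟩
  have h1 : (((x : T × (Module.End ℂ U)ˣ).2⁻¹ : (Module.End ℂ U)ˣ) : Module.End ℂ U) ∈
      opAlg ρ ⊤ := by
    have h2 : (((x : T × (Module.End ℂ U)ˣ).2⁻¹ : (Module.End ℂ U)ˣ) : Module.End ℂ U) ∈
      opAlg ρ L := x.2.1.2.1
    refine (Algebra.adjoin_mono ?_ : opAlg ρ L ≤ opAlg ρ ⊤) h2
    rintro Y ⟨l, rfl⟩
    exact ⟨⟨l, Subgroup.mem_top _⟩, rfl⟩
  have h3 : ρ (x : T × (Module.End ℂ U)ˣ).1 ∈ opAlg ρ ⊤ :=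
    Algebra.subset_adjoin ⟨⟨(x : T × (Module.End ℂ U)ˣ).1, Subgroup.mem_top _⟩, rfl⟩
  exact (opAlg ρ ⊤).mul_mem h1 h3

omit [Finite T] [Nontrivial U] in
theorem gam1_finrank_lt_aux (H : ∀ N : Subgroup T, N.Normal → IsHomog ρ N)
    (hns : ∃ l ∈ L, ¬ IsScal (ρ l)) :
    Module.finrank ℂ (opAlg (gamRep ρ L) ⊤) < Module.finrank ℂ (opAlg ρ ⊤) := by
  obtain ⟨l, hl, hnl⟩ := hns
  have hle := gam1_opAlg_le ρ L
  have hne : opAlg (gamRep ρ L) ⊤ ≠ opAlg ρ ⊤ := by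
    intro heq
    apply hnl
    have htop : (⊤ : Subgroup T).Normal := inferInstance
    have hmem : ρ l ∈ opAlg ρ ⊤ :=
      Algebra.subset_adjoin ⟨⟨l, Subgroup.mem_top _⟩, rfl⟩
    refine H ⊤ htop (ρ l) hmem ?_
    intro t _
    have ht : ρ t ∈ opAlg (gamRep ρ L) ⊤ := by
      rw [heq]
      exact Algebra.subset_adjoin ⟨⟨t, Subgroup.mem_top _⟩, rfl⟩
    refine commute_opAlg (gamRep ρ L) ⊤ (ρ l) ?_ (ρ t) ht
    intro x _
    exact (gam_commute ρ L _ _ x.2.1 l hl).symm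
  have hlt : Subalgebra.toSubmodule (opAlg (gamRep ρ L) ⊤)
      < Subalgebra.toSubmodule (opAlg ρ ⊤) := by
    refine lt_of_le_of_ne hle ?_
    intro h
    exact hne (Subalgebra.toSubmodule_injective h)
  have h1 := Submodule.finrank_lt_finrank_of_lt hlt
  exact h1

theorem gam1_finrank_lt (H : ∀ N : Subgroup T, N.Normal → IsHomog ρ N)
    (hns : ∃ l ∈ L, ¬ IsScal (ρ l)) :
    Module.finrank ℂ (opAlg (gamRep ρ L) ⊤) < Module.finrank ℂ (opAlg ρ ⊤) :=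
  gam1_finrank_lt_aux ρ L H hns
end

end Pool.PWL
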