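import Pool.Agent.PWL.DefsS

/-!
# The group Gam1 is finite, and solvable if T is
-/

namespace Pool.PWL

section
variable {T : Type} [Group T] [Finite T] {U : Type} [AddCommGroup U] [Module ℂ U]
  [FiniteDimensional ℂ U] [Nontrivial U] (ρ : Representation ℂ T U) (L : Subgroup T) [L.Normal]

/-- The projection of `Gam1` to `T`. -/
private noncomputable def gamFin_proj : Gam1 ρ L →* T :=
  (MonoidHom.fst T (Module.End ℂ U)ˣ).comp (Gam1 ρ L).subtype

omit [Finite T] [Nontrivial U] [FiniteDimensional ℂ U] in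
/-- The kernel of the projection consists of scalars. -/
private theorem gamFin_ker (hL : IsHomog ρ L) (x : Gam1 ρ L) (hx : x ∈ (gamFin_proj ρ L).ker) :
    ∃ z : ℂ, ((x : T × (Module.End ℂ U)ˣ).2 : Module.End ℂ U) = z • (1 : Module.End ℂ U) ∧
      z ^ Module.finrank ℂ U = 1 := by
  obtain ⟨⟨t, A⟩, ⟨⟨h1, h2, h3⟩, h4⟩⟩ := x
  have ht : t = 1 := hx
  subst ht
  have h1' : (A : Module.End ℂ U) ∈ opAlg ρ L := h1
  obtain ⟨z, hz⟩ := hL (A : Module.End ℂ U) h1' (fun l hl => by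
    have h5 := h3 l hl
    have h6 : (A : Module.End ℂ U) * ρ l = ρ ((1 : T) * l * (1 : T)⁻¹) * A := h5
    rwa [one_mul, inv_one, mul_one] at h6)
  refine ⟨z, hz, ?_⟩
  have h5 : LinearMap.det (A : Module.End ℂ U) = 1 := h4
  rw [hz, LinearMap.det_smul, map_one, mul_one] at h5
  exact h5

omit [Finite T] in
private theorem gamFin_ker_finite (hL : IsHomog ρ L) : Finite (gamFin_proj ρ L).ker := by
  have hn : 0 < Module.finrank ℂ U := Module.finrank_pos
  have hfin : Finite {z : ℂ // z ^ Module.finrank ℂ U = 1} := by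
    have h : {z : ℂ | z ^ Module.finrank ℂ U = 1}.Finite := by
      refine (Polynomial.nthRoots (Module.finrank ℂ U) (1 : ℂ)).toFinset.finite_toSet.subset ?_
      intro z hz
      rw [Finset.mem_coe, Multiset.mem_toFinset, Polynomial.mem_nthRoots hn]
      exact hz
    exact h.to_subtype
  choose f hf1 hf2 using fun x : (gamFin_proj ρ L).ker => gamFin_ker ρ L hL x.1 x.2
  refine Finite.of_injective (fun x => (⟨f x, hf2 x⟩ : {z : ℂ // z ^ Module.finrank ℂ U = 1})) ?_
  intro x y hxy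
  have h1 : f x = f y := congrArg Subtype.val hxy
  apply Subtype.ext
  apply Subtype.ext
  have hx1 : ((x : Gam1 ρ L) : T × (Module.End ℂ U)ˣ).1 = 1 := x.2
  have hy1 : ((y : Gam1 ρ L) : T × (Module.End ℂ U)ˣ).1 = 1 := y.2
  refine Prod.ext (hx1.trans hy1.symm) (Units.ext ?_)
  rw [hf1 x, hf1 y, h1]

theorem gam1_finite (hL : IsHomog ρ L) : Finite (Gam1 ρ L) := by
  have h1 := gamFin_ker_finite ρ L hL
  have h2 : Finite (Gam1 ρ L ⧸ (gamFin_proj ρ L).ker) :=
    Finite.of_injective _ (QuotientGroup.kerLift_injective (gamFin_proj ρ L))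
  exact Finite.of_equiv _ (Subgroup.groupEquivQuotientProdSubgroup
    (s := (gamFin_proj ρ L).ker)).symm

theorem gam1_solvable (hL : IsHomog ρ L) (hT : IsSolvable T) : IsSolvable (Gam1 ρ L) := by
  have h2 : Group.IsSolvable T := hT
  have h1 : Group.IsSolvable (gamFin_proj ρ L).ker := by
    refine Group.isSolvable_of_comm fun x y => ?_
    apply Subtype.ext
    apply Subtype.ext
    have hx1 : ((x : Gam1 ρ L) : T × (Module.End ℂ U)ˣ).1 = 1 := x.2
    have hy1 : ((y : Gam1 ρ L) : T × (Module.End ℂ U)ˣ).1 = 1 := y.2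
    obtain ⟨z, hz, _⟩ := gamFin_ker ρ L hL x.1 x.2
    obtain ⟨w, hw, _⟩ := gamFin_ker ρ L hL y.1 y.2
    refine Prod.ext ?_ (Units.ext ?_)
    · show ((x : Gam1 ρ L) : T × (Module.End ℂ U)ˣ).1 * ((y : Gam1 ρ L) : T × (Module.End ℂ U)ˣ).1 =
        ((y : Gam1 ρ L) : T × (Module.End ℂ U)ˣ).1 * ((x : Gam1 ρ L) : T × (Module.End ℂ U)ˣ).1
      rw [hx1, hy1]
    · show (((x : Gam1 ρ L) : T × (Module.End ℂ U)ˣ).2 : Module.End ℂ U) *
          (((y : Gam1 ρ L) : T × (Module.End ℂ U)ˣ).2 : Module.End ℂ U) =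
        (((y : Gam1 ρ L) : T × (Module.End ℂ U)ˣ).2 : Module.End ℂ U) *
          (((x : Gam1 ρ L) : T × (Module.End ℂ U)ˣ).2 : Module.End ℂ U)
      rw [hz, hw, smul_mul_smul_comm, smul_mul_smul_comm, mul_comm z w]
  exact Group.isSolvable_of_ker_le_range (gamFin_proj ρ L).ker.subtype (gamFin_proj ρ L)
    (by rw [Subgroup.range_subtype])

end

end Pool.PWL
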