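import Pool.Agent.PWL.Inter

/-!
# Surjectivity of the projections of the groups `Gam1` and `Gam`
-/

namespace Pool.PWL

section
variable {T : Type} [Group T] [Finite T] {U : Type} [AddCommGroup U] [Module ℂ U]
  [FiniteDimensional ℂ U] [Nontrivial U] (ρ : Representation ℂ T U) (L : Subgroup T) [L.Normal]

omit [Finite T] [FiniteDimensional ℂ U] [Nontrivial U] [L.Normal] in
private theorem gamSurj_le_opAlg : opRing ρ L ≤ (opAlg ρ L).toSubring := by
  unfold opRing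
  apply Subring.closure_le.2
  exact Algebra.subset_adjoin

omit [Finite T] [FiniteDimensional ℂ U] [Nontrivial U] [L.Normal] in
private theorem gamSurj_le_kAlg (K : Subfield ℂ) : opRing ρ L ≤ kAlg ρ L K := by
  unfold opRing kAlg
  exact Subring.closure_mono Set.subset_union_left

omit [FiniteDimensional ℂ U] [Nontrivial U] in
private theorem gamSurj_unit (A A' : Module.End ℂ U) (c s : ℂ) (hc : c ≠ 0) (hs : s ≠ 0)
    (h1 : A * A' = c • (1 : Module.End ℂ U)) (h2 : A' * A = c • (1 : Module.End ℂ U)) :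
    ∃ B : (Module.End ℂ U)ˣ, (B : Module.End ℂ U) = s • A ∧
      ((B⁻¹ : (Module.End ℂ U)ˣ) : Module.End ℂ U) = (s⁻¹ * c⁻¹) • A' := by
  refine ⟨⟨s • A, (s⁻¹ * c⁻¹) • A', ?_, ?_⟩, rfl, rfl⟩
  · rw [smul_mul_smul_comm, h1, smul_smul]
    have : s * (s⁻¹ * c⁻¹) * c = 1 := by field_simp
    rw [this, one_smul]
  · rw [smul_mul_smul_comm, h2, smul_smul]
    have : s⁻¹ * c⁻¹ * s * c = 1 := by field_simp
    rw [this, one_smul]

theorem gam1_surj (hL : IsHomog ρ L) (t : T) : ∃ A : (Module.End ℂ U)ˣ, (t, A) ∈ Gam1 ρ L := by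
  obtain ⟨A, A', c, hc, hA, hA', h1, h2, h3⟩ := exists_inter ρ L hL t
  have hn : 0 < Module.finrank ℂ U := Module.finrank_pos
  have hd : LinearMap.det A ≠ 0 := by
    intro h0
    have h4 := congrArg LinearMap.det h1
    rw [map_mul, h0, zero_mul, LinearMap.det_smul, map_one, mul_one] at h4
    exact pow_ne_zero _ hc h4.symm
  obtain ⟨s, hs⟩ := IsAlgClosed.exists_pow_nat_eq (LinearMap.det A)⁻¹ hn
  have hs0 : s ≠ 0 := by
    rintro rfl
    rw [zero_pow hn.ne'] at hs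
    exact inv_ne_zero hd hs.symm
  obtain ⟨B, hB, hB'⟩ := gamSurj_unit A A' c s hc hs0 h1 h2
  refine ⟨B, ⟨?_, ?_, ?_⟩, ?_⟩
  · show (B : Module.End ℂ U) ∈ (opAlg ρ L)
    rw [hB]
    exact (opAlg ρ L).smul_mem (gamSurj_le_opAlg ρ L hA) s
  · show ((B⁻¹ : (Module.End ℂ U)ˣ) : Module.End ℂ U) ∈ (opAlg ρ L)
    rw [hB']
    exact (opAlg ρ L).smul_mem (gamSurj_le_opAlg ρ L hA') _
  · intro l hl
    show (B : Module.End ℂ U) * ρ l = ρ (t * l * t⁻¹) * (B : Module.End ℂ U)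
    rw [hB, smul_mul_assoc, h3 l hl, mul_smul_comm]
  · show LinearMap.det (B : Module.End ℂ U) = 1
    rw [hB, LinearMap.det_smul, hs, inv_mul_cancel₀ hd]

theorem gamK_surj (hL : IsHomog ρ L) (K : Subfield ℂ)
    (hK : ∀ l ∈ L, LinearMap.trace ℂ U (ρ l) ∈ K)
    (htr : ∀ X ∈ kAlg ρ L K, LinearMap.trace ℂ U X ∈ K) (t : T) :
    ∃ A : (Module.End ℂ U)ˣ, (t, A) ∈ Gam ρ L (kAlg ρ L K) := by
  obtain ⟨A, A', c, hc, hA, hA', h1, h2, h3⟩ := exists_inter ρ L hL t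
  have hn : 0 < Module.finrank ℂ U := Module.finrank_pos
  have gA := gamSurj_le_kAlg ρ L K hA
  have gA' := gamSurj_le_kAlg ρ L K hA'
  have hcK : c ∈ K := by
    have h4 := htr _ ((kAlg ρ L K).mul_mem gA gA')
    rw [h1, map_smul, LinearMap.trace_one, smul_eq_mul] at h4
    have h5 : ((Module.finrank ℂ U : ℕ) : ℂ) ∈ K := natCast_mem K _
    have h6 : ((Module.finrank ℂ U : ℕ) : ℂ) ≠ 0 := Nat.cast_ne_zero.2 hn.ne'
    have h7 := K.mul_mem h4 (K.inv_mem h5)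
    rwa [mul_assoc, mul_inv_cancel₀ h6, mul_one] at h7
  obtain ⟨B, hB, hB'⟩ := gamSurj_unit A A' c 1 hc one_ne_zero h1 h2
  rw [one_smul] at hB
  rw [inv_one, one_mul] at hB'
  refine ⟨B, ?_, ?_, ?_⟩
  · show (B : Module.End ℂ U) ∈ kAlg ρ L K
    rw [hB]
    exact gA
  · show ((B⁻¹ : (Module.End ℂ U)ˣ) : Module.End ℂ U) ∈ kAlg ρ L K
    rw [hB']
    have h8 : c⁻¹ • (1 : Module.End ℂ U) ∈ kAlg ρ L K :=
      Subring.subset_closure (Or.inr ⟨c⁻¹, K.inv_mem hcK, rfl⟩)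
    have h9 := (kAlg ρ L K).mul_mem h8 gA'
    rwa [smul_mul_assoc, one_mul] at h9
  · intro l hl
    show (B : Module.End ℂ U) * ρ l = ρ (t * l * t⁻¹) * (B : Module.End ℂ U)
    rw [hB]
    exact h3 l hl

end

end Pool.PWL
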