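import Pool.Agent.PWL.DefsS
import Pool.Agent.PWL.GamSurj

/-!
# Normal subgroups of `Gam1` act homogeneously
-/

namespace Pool.PWL

section

private theorem gh_comm_inv {T : Type*} [Group T] {U : Type*} [AddCommGroup U] [Module ℂ U]
    (ρ : Representation ℂ T U) (B : Module.End ℂ U) (t : T) (h : B * ρ t = ρ t * B) :
    B * ρ t⁻¹ = ρ t⁻¹ * B := by
  have h1 : ρ t⁻¹ * ρ t = 1 := by rw [← map_mul, inv_mul_cancel, map_one]
  have h2 : ρ t * ρ t⁻¹ = 1 := by rw [← map_mul, mul_inv_cancel, map_one]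
  calc B * ρ t⁻¹ = (ρ t⁻¹ * ρ t) * B * ρ t⁻¹ := by rw [h1, one_mul]
    _ = ρ t⁻¹ * (B * ρ t) * ρ t⁻¹ := by rw [h]; simp only [mul_assoc]
    _ = ρ t⁻¹ * B := by rw [mul_assoc, mul_assoc, h2, mul_one]

variable {T : Type} [Group T] [Finite T] {U : Type} [AddCommGroup U] [Module ℂ U]
  [FiniteDimensional ℂ U] [Nontrivial U] (ρ : Representation ℂ T U) (L : Subgroup T) [L.Normal]

/-! row GamH -/
theorem gam1_homog (H : ∀ N : Subgroup T, N.Normal → IsHomog ρ N) :
    ∀ N : Subgroup (Gam1 ρ L), N.Normal → IsHomog (gamRep ρ L) N := by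
  intro N hN B hB hBN
  have hL : IsHomog ρ L := H L inferInstance
  let pr : Gam1 ρ L →* T := (MonoidHom.fst T (Module.End ℂ U)ˣ).comp (Gam1 ρ L).subtype
  have hpr : ∀ x : Gam1 ρ L, pr x = (x : T × (Module.End ℂ U)ˣ).1 := fun _ => rfl
  have hsurj : Function.Surjective pr := by
    intro t
    obtain ⟨A, hA⟩ := gam1_surj ρ L hL t
    exact ⟨⟨(t, A), hA⟩, rfl⟩
  have hNm : (N.map pr).Normal := hN.map pr hsurj
  have hM : (L ⊔ N.map pr).Normal := inferInstance
  have hLM : opAlg ρ L ≤ opAlg ρ (L ⊔ N.map pr) := by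
    refine Algebra.adjoin_mono ?_
    rintro _ ⟨l, rfl⟩
    exact ⟨⟨l, (le_sup_left : L ≤ L ⊔ N.map pr) l.2⟩, rfl⟩
  have hrep : ∀ x : Gam1 ρ L, gamRep ρ L x =
      (((x : T × (Module.End ℂ U)ˣ).2⁻¹ : (Module.End ℂ U)ˣ) : Module.End ℂ U) *
        ρ (x : T × (Module.End ℂ U)ˣ).1 := fun _ => rfl
  have hin : opAlg (gamRep ρ L) N ≤ opAlg ρ (L ⊔ N.map pr) := by
    refine Algebra.adjoin_le ?_
    rintro _ ⟨x, rfl⟩
    show gamRep ρ L (x : Gam1 ρ L) ∈ opAlg ρ (L ⊔ N.map pr)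
    rw [hrep]
    refine Subalgebra.mul_mem _ (hLM (x : Gam1 ρ L).2.1.2.1) ?_
    refine Algebra.subset_adjoin ⟨⟨(x : Gam1 ρ L).1.1, ?_⟩, rfl⟩
    exact (le_sup_right : N.map pr ≤ L ⊔ N.map pr) ⟨(x : Gam1 ρ L), x.2, rfl⟩
  have hBL : ∀ l ∈ L, B * ρ l = ρ l * B := by
    intro l hl
    have key : ∀ X ∈ opAlg (gamRep ρ L) N, ρ l * X = X * ρ l := by
      intro X hX
      unfold opAlg at hX
      induction hX using Algebra.adjoin_induction with
      | mem X hX =>
        obtain ⟨x, rfl⟩ := hX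
        exact (gam_commute ρ L _ _ (x : Gam1 ρ L).2.1 l hl).symm
      | algebraMap r => exact (Algebra.commutes r (ρ l)).symm
      | add X Y _ _ h1 h2 => rw [mul_add, add_mul, h1, h2]
      | mul X Y _ _ h1 h2 => rw [← mul_assoc, h1, mul_assoc, h2, mul_assoc]
    exact (key B hB).symm
  have hBA := commute_opAlg ρ L B hBL
  refine H _ hM B (hin hB) ?_
  let S : Subgroup T :=
    { carrier := {t | B * ρ t = ρ t * B}
      mul_mem' := by
        intro a b ha hb
        show B * ρ (a * b) = ρ (a * b) * B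
        have ha' : B * ρ a = ρ a * B := ha
        have hb' : B * ρ b = ρ b * B := hb
        rw [map_mul, ← mul_assoc, ha', mul_assoc, hb', mul_assoc]
      one_mem' := by
        show B * ρ 1 = ρ 1 * B
        rw [map_one, mul_one, one_mul]
      inv_mem' := by
        intro a ha
        exact gh_comm_inv ρ B a ha }
  have hS : L ⊔ N.map pr ≤ S := by
    refine sup_le (fun l hl => hBL l hl) ?_
    rintro _ ⟨x, hx, rfl⟩
    show B * ρ (pr x) = ρ (pr x) * B
    rw [hpr]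
    have h1 := hBN x hx
    rw [hrep] at h1
    have h2 := hBA _ x.2.1.1
    have h3 : ρ (x : T × (Module.End ℂ U)ˣ).1 =
        ((x : T × (Module.End ℂ U)ˣ).2 : Module.End ℂ U) *
        ((((x : T × (Module.End ℂ U)ˣ).2⁻¹ : (Module.End ℂ U)ˣ) : Module.End ℂ U) *
          ρ (x : T × (Module.End ℂ U)ˣ).1) := by
      rw [← mul_assoc, Units.mul_inv, one_mul]
    rw [h3]
    generalize ((((x : T × (Module.End ℂ U)ˣ).2⁻¹ : (Module.End ℂ U)ˣ) : Module.End ℂ U) *
          ρ (x : T × (Module.End ℂ U)ˣ).1) = y at h1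
    rw [← mul_assoc, h2, mul_assoc, h1, ← mul_assoc]
  exact fun l hl => hS hl

end

end Pool.PWL
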