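import Pool.Agent.PWL.DefsM
import Pool.Agent.TKB.RepB

/-!
# Good pairs
-/

set_option autoImplicit false

namespace Pool.PWL

open scoped commutatorElement

open Module

private theorem GoodP_step {G : Type} [Group G] [Finite G] {X : Type} [AddCommGroup X]
    [Module ℂ X] [FiniteDimensional ℂ X] (ρ : Representation ℂ G X) (T : Subgroup G)
    (U : Submodule ℂ X) (hU : U ≠ ⊥) (hst : ∀ t ∈ T, ∀ u ∈ U, ρ t u ∈ U)
    (A : Subgroup G) (hAT : A ≤ T) (hA : ∀ t ∈ T, ∀ a ∈ A, t * a * t⁻¹ ∈ A)
    (hab : ∀ a ∈ A, ∀ b ∈ A, ∀ u ∈ U, ρ (a * b) u = ρ (b * a) u) :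
    ∃ (T' : Subgroup G) (U' : Submodule ℂ X), T' ≤ T ∧ U' ≤ U ∧ U' ≠ ⊥ ∧
      (∀ t ∈ T', ∀ u ∈ U', ρ t u ∈ U') ∧
      T'.index * finrank ℂ U' ≤ T.index * finrank ℂ U ∧
      (U' = U → ∀ a ∈ A, ∃ z : ℂ, ∀ u ∈ U, ρ a u = z • u) := by
  classical
  have hρinv : ∀ (t : G) (x : X), ρ t⁻¹ (ρ t x) = x := fun t x => by
    rw [← Module.End.mul_apply, ← map_mul, inv_mul_cancel, map_one]; rfl
  let f : A → Module.End ℂ U := fun a => (ρ (a : G)).restrict (hst a (hAT a.2))
  let g : T → Module.End ℂ U := fun t => (ρ (t : G)).restrict (hst t t.2)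
  have hf : ∀ (a : A) (u : U), ((f a u : U) : X) = ρ (a : G) (u : X) := fun _ _ => rfl
  have hg : ∀ (t : T) (u : U), ((g t u : U) : X) = ρ (t : G) (u : X) := fun _ _ => rfl
  have hcomm : ∀ a b, Commute (f a) (f b) := by
    intro a b
    apply LinearMap.ext
    intro u
    apply Subtype.ext
    have h := hab a a.2 b b.2 u u.2
    rw [map_mul, map_mul] at h
    exact h
  have hcj : ∀ (t : T) (a : A), (t : G)⁻¹ * a * t ∈ A := by
    intro t a
    have h := hA _ (T.inv_mem t.2) a a.2
    rwa [inv_inv] at h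
  let cj : T → A → A := fun t a => ⟨(t : G)⁻¹ * a * t, hcj t a⟩
  have hcjv : ∀ t a, ((cj t a : A) : G) = (t : G)⁻¹ * a * t := fun _ _ => rfl
  let E : (A → ℂ) → Submodule ℂ U := fun χ => ⨅ a, (f a).maxGenEigenspace (χ a)
  have hE : ∀ χ u, u ∈ E χ ↔ ∀ a, ∃ k : ℕ, ((f a - χ a • 1) ^ k) u = 0 := by
    intro χ u
    exact Module.End.mem_iInf_maxGenEigenspace_iff f χ u
  have hsemi : ∀ (t : T) (a : A) (c : ℂ), SemiconjBy (g t) (f (cj t a) - c • 1)
      (f a - c • 1) := by
    intro t a c
    have h1 : g t * f (cj t a) = f a * g t := by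
      apply LinearMap.ext
      intro u
      apply Subtype.ext
      show ρ (t : G) (ρ ((t : G)⁻¹ * a * t) (u : X)) = ρ (a : G) (ρ (t : G) (u : X))
      rw [← Module.End.mul_apply, ← Module.End.mul_apply, ← map_mul, ← map_mul]
      congr 2
      group
    show g t * (f (cj t a) - c • 1) = (f a - c • 1) * g t
    rw [mul_sub, sub_mul, h1]
    congr 1
    rw [mul_smul_comm, smul_mul_assoc, mul_one, one_mul]
  have htr : ∀ χ u (t : T), u ∈ E χ → g t u ∈ E (fun a => χ (cj t a)) := by
    intro χ u t hu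
    rw [hE] at hu ⊢
    intro a
    obtain ⟨k, hk⟩ := hu (cj t a)
    refine ⟨k, ?_⟩
    have h := (hsemi t a (χ (cj t a))).pow_right k
    have h1 : g t (((f (cj t a) - χ (cj t a) • 1) ^ k) u)
        = ((f a - χ (cj t a) • 1) ^ k) (g t u) := LinearMap.congr_fun h u
    rw [← h1, hk, map_zero]
  have hUnt : Nontrivial U := Submodule.nontrivial_iff_ne_bot.2 hU
  have htop : ⨆ χ, E χ = ⊤ :=
    Module.End.iSup_iInf_maxGenEigenspace_eq_top_of_iSup_maxGenEigenspace_eq_top_of_commute f
      (fun a b _ => hcomm a b) (fun a => Module.End.iSup_maxGenEigenspace_eq_top (f a))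
  obtain ⟨χ, hχ⟩ : ∃ χ, E χ ≠ ⊥ := by
    by_contra hcon
    push Not at hcon
    rw [iSup_congr hcon, iSup_bot] at htop
    exact bot_ne_top htop
  let T1 : Subgroup T :=
    { carrier := {t | ∀ a, χ (cj t a) = χ a}
      one_mem' := by
        intro a
        congr 1
        apply Subtype.ext
        rw [hcjv]
        simp
      mul_mem' := by
        intro s t hs ht a
        have h1 : cj (s * t) a = cj t (cj s a) := by
          apply Subtype.ext
          rw [hcjv, hcjv, hcjv, Subgroup.coe_mul]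
          group
        rw [h1, ht, hs]
      inv_mem' := by
        intro s hs a
        have h1 : cj s (cj s⁻¹ a) = a := by
          apply Subtype.ext
          rw [hcjv, hcjv, Subgroup.coe_inv]
          group
        have h2 := hs (cj s⁻¹ a)
        rw [h1] at h2
        exact h2.symm }
  have hT1 : ∀ t, t ∈ T1 ↔ ∀ a, χ (cj t a) = χ a := fun t => Iff.rfl
  refine ⟨T1.map T.subtype, (E χ).map U.subtype, ?_, ?_, ?_, ?_, ?_, ?_⟩
  · rintro _ ⟨t, -, rfl⟩
    exact t.2
  · rintro _ ⟨u, -, rfl⟩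
    exact u.2
  · intro h
    apply hχ
    rw [eq_bot_iff]
    intro u hu
    have h1 : (u : X) ∈ (E χ).map U.subtype := ⟨u, hu, rfl⟩
    rw [h, Submodule.mem_bot] at h1
    exact (Submodule.mem_bot ℂ).2 (Subtype.ext h1)
  · rintro _ ⟨t, ht, rfl⟩ _ ⟨u, hu, rfl⟩
    refine ⟨g t u, ?_, rfl⟩
    have h1 := htr χ u t hu
    have h2 : (fun a => χ (cj t a)) = χ := funext fun a => (hT1 t).1 ht a
    rw [h2] at h1
    exact h1
  · rw [Subgroup.index_map_subtype]
    have hfr : finrank ℂ ((E χ).map U.subtype) = finrank ℂ (E χ) :=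
      Submodule.finrank_map_subtype_eq U (E χ)
    rw [hfr]
    have hkey : T1.index * finrank ℂ (E χ) ≤ finrank ℂ U := by
      have hfin : Finite (T ⧸ T1) := inferInstance
      let _ : Fintype (T ⧸ T1) := Fintype.ofFinite _
      let Ψ : (T ⧸ T1 → E χ) →ₗ[ℂ] U :=
        ∑ q : T ⧸ T1, (g q.out) ∘ₗ (E χ).subtype ∘ₗ (LinearMap.proj q)
      have hΨ : ∀ F, Ψ F = ∑ q : T ⧸ T1, g q.out (F q) := by
        intro F
        simp only [Ψ, LinearMap.sum_apply]
        rfl
      have hsinj : Function.Injective (fun (q : T ⧸ T1) (a : A) => χ (cj q.out a)) := by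
        intro q q' hqq
        have h2 : q.out⁻¹ * q'.out ∈ T1 := by
          rw [hT1]
          intro b
          have hb : (q.out : G) * b * (q.out : G)⁻¹ ∈ A := hA _ q.out.2 b b.2
          have h3 := congrFun hqq ⟨_, hb⟩
          have h4 : cj q.out ⟨_, hb⟩ = b := by
            apply Subtype.ext
            rw [hcjv]
            group
          have h5 : cj q'.out ⟨_, hb⟩ = cj (q.out⁻¹ * q'.out) b := by
            apply Subtype.ext
            rw [hcjv, hcjv, Subgroup.coe_mul, Subgroup.coe_inv]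
            group
          have h6 : χ (cj q.out ⟨_, hb⟩) = χ (cj q'.out ⟨_, hb⟩) := h3
          rw [h4, h5] at h6
          exact h6.symm
        have h3 : (QuotientGroup.mk q.out : T ⧸ T1) = QuotientGroup.mk q'.out :=
          QuotientGroup.eq.2 h2
        rwa [QuotientGroup.out_eq', QuotientGroup.out_eq'] at h3
      have hind0 : iSupIndep E :=
        Module.End.independent_iInf_maxGenEigenspace_of_forall_mapsTo f
          (fun i j φ => Module.End.mapsTo_maxGenEigenspace_of_comm (hcomm j i) φ)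
      have hind := hind0.comp hsinj
      have hΨinj : Function.Injective Ψ := by
        rw [← LinearMap.ker_eq_bot, LinearMap.ker_eq_bot']
        intro F hF
        rw [hΨ] at hF
        rw [iSupIndep_iff_finsetSum_eq_zero_imp_eq_zero] at hind
        funext q
        have h1 := hind Finset.univ (fun q => g q.out (F q))
          (fun q _ => htr χ _ q.out (F q).2) hF q (Finset.mem_univ q)
        apply Subtype.ext
        apply Subtype.ext
        have h2 : ρ (q.out : G) (((F q : E χ) : U) : X) = 0 := congrArg Subtype.val h1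
        have h3 := hρinv (q.out : G) (((F q : E χ) : U) : X)
        rw [h2, map_zero] at h3
        exact h3.symm
      have h1 := LinearMap.finrank_le_finrank_of_injective hΨinj
      rw [Module.finrank_pi_fintype] at h1
      rw [Finset.sum_const, Finset.card_univ, smul_eq_mul] at h1
      have h2 : T1.index = Fintype.card (T ⧸ T1) := by
        rw [Subgroup.index, Nat.card_eq_fintype_card]
      rw [h2]
      exact h1
    calc T1.index * T.index * finrank ℂ (E χ) = T.index * (T1.index * finrank ℂ (E χ)) := by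
          ring
      _ ≤ _ := Nat.mul_le_mul_left _ hkey
  · intro hUU a ha
    refine ⟨χ ⟨a, ha⟩, fun u hu => ?_⟩
    have hu' : u ∈ (E χ).map U.subtype := by
      rw [hUU]
      exact hu
    obtain ⟨u1, hu1, rfl⟩ := hu'
    have h1 : u1 ∈ (f ⟨a, ha⟩).maxGenEigenspace (χ ⟨a, ha⟩) := (Submodule.mem_iInf _).1 hu1 _
    have hpow : ∀ (k : ℕ) (w : U), ((((f ⟨a, ha⟩) ^ k) w : U) : X) = ρ (a ^ k) (w : X) := by
      intro k
      induction k with
      | zero =>
        intro w
        rw [pow_zero, pow_zero, map_one]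
        rfl
      | succ k ihk =>
        intro w
        rw [pow_succ, pow_succ, map_mul, Module.End.mul_apply, Module.End.mul_apply, ihk]
        rfl
    have hss : (f ⟨a, ha⟩).IsSemisimple := by
      have hn : ((Nat.card G : ℕ) : ℂ) ≠ 0 := Nat.cast_ne_zero.2 Nat.card_pos.ne'
      refine Module.End.isSemisimple_of_squarefree_aeval_eq_zero
        (p := Polynomial.X ^ (Nat.card G) - 1)
        (Polynomial.X_pow_sub_one_separable_iff.2 hn).squarefree ?_
      rw [map_sub, map_pow, Polynomial.aeval_X, map_one, sub_eq_zero]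
      apply LinearMap.ext
      intro w
      apply Subtype.ext
      rw [hpow, pow_card_eq_one', map_one]
      rfl
    rw [(Module.End.isFinitelySemisimple_iff_isSemisimple.2 hss).maxGenEigenspace_eq_eigenspace,
      Module.End.mem_eigenspace_iff] at h1
    exact congrArg Subtype.val h1

/-! row GoodP -/
theorem exists_goodPair {G : Type} [Group G] [Finite G] (V : FDRep ℂ G)
    (hV : CategoryTheory.Simple V) : ∃ (T : Subgroup G) (U : Submodule ℂ V), GoodPair V T U := by
  classical
  have hnt : Nontrivial V := Pool.TKB.simple_nontrivial V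
  let adm : Subgroup G → Submodule ℂ V → Prop := fun T U =>
    U ≠ ⊥ ∧ (∀ t ∈ T, ∀ u ∈ U, V.ρ t u ∈ U) ∧
      T.index * finrank ℂ U ≤ finrank ℂ V
  have hex : ∃ n : ℕ, ∃ (T : Subgroup G) (U : Submodule ℂ V), adm T U ∧
      Nat.card T + finrank ℂ U = n := by
    refine ⟨_, ⊤, ⊤, ⟨top_ne_bot, fun _ _ _ _ => Submodule.mem_top, ?_⟩, rfl⟩
    rw [Subgroup.index_top, one_mul, finrank_top]
  obtain ⟨T, U, ⟨h1, h2, h3⟩, h4⟩ := Nat.find_spec hex
  refine ⟨T, U, ⟨h1, h2, h3, ?_⟩⟩
  intro A hAT hA hab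
  obtain ⟨T', U', k1, k2, k3, k4, k5, k6⟩ := GoodP_step V.ρ T U h1 h2 A hAT hA hab
  apply k6
  have h5 : Nat.find hex ≤ Nat.card T' + finrank ℂ U' :=
    Nat.find_min' hex ⟨T', U', ⟨k3, k4, k5.trans h3⟩, rfl⟩
  have h6 : Nat.card T' ≤ Nat.card T := Subgroup.card_le_of_le k1
  have h7 : finrank ℂ U' ≤ finrank ℂ U := Submodule.finrank_mono k2
  exact Submodule.eq_of_le_of_finrank_eq k2 (by omega)

end Pool.PWL
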