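import Pool.Agent.PWL.DefsS
import Pool.Agent.TKB.RepB

/-!
# Good pairs, with the operators that commute with the operators of a normal subgroup
-/

set_option autoImplicit false

namespace Pool.PWL

open scoped commutatorElement

open Module

private theorem gp2_common {ι : Type*} {W : Type*} [AddCommGroup W] [Module ℂ W]
    [FiniteDimensional ℂ W] [Nontrivial W] (f : ι → Module.End ℂ W)
    (hc : ∀ i j, Commute (f i) (f j)) :
    ∃ (χ : ι → ℂ) (w : W), w ≠ 0 ∧ ∀ i, f i w = χ i • w := by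
  classical
  have hex : ∃ n : ℕ, ∃ S : Submodule ℂ W, S ≠ ⊥ ∧ (∀ i, ∀ s ∈ S, f i s ∈ S) ∧
      finrank ℂ S = n :=
    ⟨_, ⊤, top_ne_bot, fun _ _ _ => Submodule.mem_top, rfl⟩
  obtain ⟨S, h1, h2, h3⟩ := Nat.find_spec hex
  have hnt : Nontrivial S := Submodule.nontrivial_iff_ne_bot.2 h1
  have hsc : ∀ i, ∃ z : ℂ, ∀ s ∈ S, f i s = z • s := by
    intro i
    obtain ⟨μ, hμ⟩ := Module.End.exists_eigenvalue ((f i).restrict (h2 i))
    obtain ⟨s, hs⟩ := hμ.exists_hasEigenvector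
    let S' : Submodule ℂ W := S ⊓ (f i).eigenspace μ
    have hS' : ∀ w, w ∈ S' ↔ w ∈ S ∧ f i w = μ • w := by
      intro w
      rw [Submodule.mem_inf, Module.End.mem_eigenspace_iff]
    have h4 : S' ≠ ⊥ := by
      intro h
      apply hs.2
      have h5 : (s : W) ∈ S' := by
        rw [hS']
        refine ⟨s.2, ?_⟩
        have h6 := Module.End.mem_eigenspace_iff.1 hs.1
        exact congrArg Subtype.val h6
      rw [h, Submodule.mem_bot] at h5
      exact Subtype.ext h5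
    have h5 : ∀ j, ∀ w ∈ S', f j w ∈ S' := by
      intro j w hw
      rw [hS'] at hw ⊢
      refine ⟨h2 j w hw.1, ?_⟩
      have h6 : f i (f j w) = f j (f i w) := LinearMap.congr_fun (hc i j) w
      rw [h6, hw.2, map_smul]
    have h6 : Nat.find hex ≤ finrank ℂ S' := Nat.find_min' hex ⟨S', h4, h5, rfl⟩
    have h7 : S' = S := Submodule.eq_of_le_of_finrank_le inf_le_left (by omega)
    refine ⟨μ, fun w hw => ?_⟩
    rw [← h7] at hw
    exact ((hS' w).1 hw).2
  choose χ hχ using hsc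
  obtain ⟨w, hw, hw0⟩ := Submodule.exists_mem_ne_zero_of_ne_bot h1
  exact ⟨χ, w, hw0, fun i => hχ i w hw⟩

private theorem gp2_step {G : Type} [Group G] [Finite G] {X : Type} [AddCommGroup X]
    [Module ℂ X] [FiniteDimensional ℂ X] (ρ : Representation ℂ G X) (T : Subgroup G)
    (U : Submodule ℂ X) (hU : U ≠ ⊥) (hst : ∀ t ∈ T, ∀ u ∈ U, ρ t u ∈ U)
    (L : Subgroup G) (hLT : L ≤ T) (hL : ∀ t ∈ T, ∀ l ∈ L, t * l * t⁻¹ ∈ L) :
    ∃ (T' : Subgroup G) (U' : Submodule ℂ X), T' ≤ T ∧ U' ≤ U ∧ U' ≠ ⊥ ∧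
      (∀ t ∈ T', ∀ u ∈ U', ρ t u ∈ U') ∧
      T'.index * finrank ℂ U' ≤ T.index * finrank ℂ U ∧
      (U' = U → ∀ B ∈ Algebra.adjoin ℂ (Set.range fun l : L => (ρ (l : G) : Module.End ℂ X)),
          (∀ l ∈ L, ∀ u ∈ U, B (ρ l u) = ρ l (B u)) → ∃ z : ℂ, ∀ u ∈ U, B u = z • u) := by
  classical
  have hρinv : ∀ (t : G) (x : X), ρ t⁻¹ (ρ t x) = x := fun t x => by
    rw [← Module.End.mul_apply, ← map_mul, inv_mul_cancel, map_one]; rfl
  let Adj : Subalgebra ℂ (Module.End ℂ X) :=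
    Algebra.adjoin ℂ (Set.range fun l : L => (ρ (l : G) : Module.End ℂ X))
  -- the algebra preserves `U`
  have hadj : ∀ B ∈ Adj, ∀ u ∈ U, B u ∈ U := by
    intro B hB
    induction hB using Algebra.adjoin_induction with
    | mem B hB =>
      obtain ⟨l, rfl⟩ := hB
      exact fun u hu => hst l (hLT l.2) u hu
    | algebraMap r =>
      intro u hu
      rw [Module.algebraMap_end_apply]
      exact U.smul_mem r hu
    | add B C _ _ h1 h2 => exact fun u hu => U.add_mem (h1 u hu) (h2 u hu)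
    | mul B C _ _ h1 h2 => exact fun u hu => h1 _ (h2 u hu)
  let A : Type := {B : Module.End ℂ X // B ∈ Adj ∧ ∀ l ∈ L, ∀ u ∈ U, B (ρ l u) = ρ l (B u)}
  let f : A → Module.End ℂ U := fun a => a.1.restrict (hadj a.1 a.2.1)
  let g : T → Module.End ℂ U := fun t => (ρ (t : G)).restrict (hst t t.2)
  have hf : ∀ (a : A) (u : U), ((f a u : U) : X) = a.1 (u : X) := fun _ _ => rfl
  have hg : ∀ (t : T) (u : U), ((g t u : U) : X) = ρ (t : G) (u : X) := fun _ _ => rfl
  have hcomm0 : ∀ (a : A), ∀ B ∈ Adj, ∀ u ∈ U, a.1 (B u) = B (a.1 u) := by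
    intro a B hB
    induction hB using Algebra.adjoin_induction with
    | mem B hB =>
      obtain ⟨l, rfl⟩ := hB
      exact fun u hu => a.2.2 l l.2 u hu
    | algebraMap r =>
      intro u hu
      rw [Module.algebraMap_end_apply, Module.algebraMap_end_apply, map_smul]
    | add B C _ _ h1 h2 =>
      intro u hu
      rw [LinearMap.add_apply, LinearMap.add_apply, map_add, h1 u hu, h2 u hu]
    | mul B C _ hC h1 h2 =>
      intro u hu
      rw [Module.End.mul_apply, Module.End.mul_apply, h1 _ (hadj C hC u hu), h2 u hu]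
  have hcomm : ∀ a b, Commute (f a) (f b) := by
    intro a b
    apply LinearMap.ext
    intro u
    apply Subtype.ext
    exact hcomm0 a b.1 b.2.1 u u.2
  have hcj0 : ∀ t ∈ T, ∀ B ∈ Adj, ρ t⁻¹ * B * ρ t ∈ Adj := by
    intro t ht B hB
    have htt : ρ t * ρ t⁻¹ = 1 := by rw [← map_mul, mul_inv_cancel, map_one]
    have htt' : ρ t⁻¹ * ρ t = 1 := by rw [← map_mul, inv_mul_cancel, map_one]
    induction hB using Algebra.adjoin_induction with
    | mem B hB =>
      obtain ⟨l, rfl⟩ := hB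
      have h1 : t⁻¹ * l * t ∈ L := by
        have h := hL _ (T.inv_mem ht) l l.2
        rwa [inv_inv] at h
      have h2 : ρ t⁻¹ * ρ (l : G) * ρ t = ρ (t⁻¹ * l * t) := by rw [map_mul, map_mul]
      show ρ t⁻¹ * ρ (l : G) * ρ t ∈ Adj
      rw [h2]
      exact Algebra.subset_adjoin ⟨⟨_, h1⟩, rfl⟩
    | algebraMap r =>
      rw [← Algebra.commutes, mul_assoc, htt', mul_one]
      exact Adj.algebraMap_mem r
    | add B C _ _ h1 h2 =>
      rw [mul_add, add_mul]
      exact Adj.add_mem h1 h2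
    | mul B C _ _ h1 h2 =>
      have h3 : ρ t⁻¹ * (B * C) * ρ t = (ρ t⁻¹ * B * ρ t) * (ρ t⁻¹ * C * ρ t) := by
        calc ρ t⁻¹ * (B * C) * ρ t = ρ t⁻¹ * B * 1 * C * ρ t := by
              rw [mul_one]; simp only [mul_assoc]
          _ = _ := by rw [← htt]; simp only [mul_assoc]
      rw [h3]
      exact Adj.mul_mem h1 h2
  have hcj1 : ∀ t ∈ T, ∀ a : A, ∀ l ∈ L, ∀ u ∈ U,
      (ρ t⁻¹ * a.1 * ρ t) (ρ l u) = ρ l ((ρ t⁻¹ * a.1 * ρ t) u) := by
    intro t ht a l hl u hu
    show ρ t⁻¹ (a.1 (ρ t (ρ l u))) = ρ l (ρ t⁻¹ (a.1 (ρ t u)))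
    have h1 : ρ t (ρ l u) = ρ (t * l * t⁻¹) (ρ t u) := by
      rw [← Module.End.mul_apply, ← Module.End.mul_apply, ← map_mul, ← map_mul]
      congr 2
      group
    rw [h1, a.2.2 _ (hL t ht l hl) _ (hst t ht u hu)]
    rw [← Module.End.mul_apply, ← Module.End.mul_apply (ρ l), ← map_mul, ← map_mul]
    congr 2
    group
  let cj : T → A → A := fun t a =>
    ⟨ρ (t : G)⁻¹ * a.1 * ρ (t : G), hcj0 t t.2 a.1 a.2.1, hcj1 t t.2 a⟩
  have hcjv : ∀ t a, (cj t a : A).1 = ρ (t : G)⁻¹ * a.1 * ρ (t : G) := fun _ _ => rfl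
  have hcjm : ∀ s t a, cj (s * t) a = cj t (cj s a) := by
    intro s t a
    apply Subtype.ext
    rw [hcjv, hcjv, hcjv, Subgroup.coe_mul, mul_inv_rev, map_mul, map_mul]
    simp only [mul_assoc]
  have hcj1' : ∀ a, cj 1 a = a := by
    intro a
    apply Subtype.ext
    rw [hcjv, Subgroup.coe_one, inv_one, map_one, one_mul, mul_one]
  let E : (A → ℂ) → Submodule ℂ U := fun χ => ⨅ a, (f a).eigenspace (χ a)
  have hE : ∀ χ u, u ∈ E χ ↔ ∀ a, f a u = χ a • u := by
    intro χ u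
    rw [Submodule.mem_iInf]
    exact forall_congr' fun a => Module.End.mem_eigenspace_iff
  have htr : ∀ χ u (t : T), u ∈ E χ → g t u ∈ E (fun a => χ (cj t a)) := by
    intro χ u t hu
    rw [hE] at hu ⊢
    intro a
    have h1 : f a (g t u) = g t (f (cj t a) u) := by
      apply Subtype.ext
      show a.1 (ρ (t : G) (u : X)) = ρ (t : G) (ρ (t : G)⁻¹ (a.1 (ρ (t : G) (u : X))))
      have h2 := hρinv (t : G)⁻¹ (a.1 (ρ (t : G) (u : X)))
      rw [inv_inv] at h2
      exact h2.symm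
    rw [h1, hu, map_smul]
  have hUnt : Nontrivial U := Submodule.nontrivial_iff_ne_bot.2 hU
  obtain ⟨χ, w, hw0, hw⟩ := gp2_common f hcomm
  have hχ : E χ ≠ ⊥ := by
    intro h
    apply hw0
    have h1 : w ∈ E χ := (hE χ w).2 hw
    rw [h, Submodule.mem_bot] at h1
    exact h1
  let T1 : Subgroup T :=
    { carrier := {t | ∀ a, χ (cj t a) = χ a}
      one_mem' := by
        intro a
        rw [hcj1']
      mul_mem' := by
        intro s t hs ht a
        rw [hcjm, ht, hs]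
      inv_mem' := by
        intro s hs a
        have h1 : cj s (cj s⁻¹ a) = a := by rw [← hcjm, inv_mul_cancel, hcj1']
        have h2 := hs (cj s⁻¹ a)
        rw [h1] at h2
        exact h2.symm }
  have hT1 : ∀ t, t ∈ T1 ↔ ∀ a, χ (cj t a) = χ a := fun t => Iff.rfl
  refine ⟨T1.map T.subtype, (E χ).map U.subtype, ?_, ?_, ?_, ?_, ?_, ?_⟩
  · rintro _ ⟨t, -, rfl⟩
    exact t.2
  · rintro _ ⟨u, -, rfl⟩
    exact u.2
  · intro h
    apply hχ
    rw [eq_bot_iff]
    intro u hu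
    have h1 : (u : X) ∈ (E χ).map U.subtype := ⟨u, hu, rfl⟩
    rw [h, Submodule.mem_bot] at h1
    exact (Submodule.mem_bot ℂ).2 (Subtype.ext h1)
  · rintro _ ⟨t, ht, rfl⟩ _ ⟨u, hu, rfl⟩
    refine ⟨g t u, ?_, rfl⟩
    have h1 := htr χ u t hu
    have h2 : (fun a => χ (cj t a)) = χ := funext fun a => (hT1 t).1 ht a
    rw [h2] at h1
    exact h1
  · rw [Subgroup.index_map_subtype]
    have hfr : finrank ℂ ((E χ).map U.subtype) = finrank ℂ (E χ) :=
      Submodule.finrank_map_subtype_eq U (E χ)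
    rw [hfr]
    have hkey : T1.index * finrank ℂ (E χ) ≤ finrank ℂ U := by
      have hfin : Finite (T ⧸ T1) := inferInstance
      let _ : Fintype (T ⧸ T1) := Fintype.ofFinite _
      let Ψ : (T ⧸ T1 → E χ) →ₗ[ℂ] U :=
        ∑ q : T ⧸ T1, (g q.out) ∘ₗ (E χ).subtype ∘ₗ (LinearMap.proj q)
      have hΨ : ∀ F, Ψ F = ∑ q : T ⧸ T1, g q.out (F q) := by
        intro F
        simp only [Ψ, LinearMap.sum_apply]
        rfl
      have hsinj : Function.Injective (fun (q : T ⧸ T1) (a : A) => χ (cj q.out a)) := by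
        intro q q' hqq
        have h2 : q.out⁻¹ * q'.out ∈ T1 := by
          rw [hT1]
          intro b
          have h3 := congrFun hqq (cj q.out⁻¹ b)
          have h6 : χ (cj q.out (cj q.out⁻¹ b)) = χ (cj q'.out (cj q.out⁻¹ b)) := h3
          rw [← hcjm, ← hcjm, inv_mul_cancel, hcj1'] at h6
          exact h6.symm
        have h3 : (QuotientGroup.mk q.out : T ⧸ T1) = QuotientGroup.mk q'.out :=
          QuotientGroup.eq.2 h2
        rwa [QuotientGroup.out_eq', QuotientGroup.out_eq'] at h3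
      have hind0 : iSupIndep E :=
        (Module.End.independent_iInf_maxGenEigenspace_of_forall_mapsTo f
          (fun i j φ => Module.End.mapsTo_maxGenEigenspace_of_comm (hcomm j i) φ)).mono
          (fun χ' => iInf_mono fun a => Module.End.eigenspace_le_maxGenEigenspace)
      have hind := hind0.comp hsinj
      have hΨinj : Function.Injective Ψ := by
        rw [← LinearMap.ker_eq_bot, LinearMap.ker_eq_bot']
        intro F hF
        rw [hΨ] at hF
        rw [iSupIndep_iff_finsetSum_eq_zero_imp_eq_zero] at hind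
        funext q
        have h1 := hind Finset.univ (fun q => g q.out (F q))
          (fun q _ => htr χ _ q.out (F q).2) hF q (Finset.mem_univ q)
        apply Subtype.ext
        apply Subtype.ext
        have h2 : ρ (q.out : G) (((F q : E χ) : U) : X) = 0 := congrArg Subtype.val h1
        have h3 := hρinv (q.out : G) (((F q : E χ) : U) : X)
        rw [h2, map_zero] at h3
        exact h3.symm
      have h1 := LinearMap.finrank_le_finrank_of_injective hΨinj
      rw [Module.finrank_pi_fintype] at h1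
      rw [Finset.sum_const, Finset.card_univ, smul_eq_mul] at h1
      have h2 : T1.index = Fintype.card (T ⧸ T1) := by
        rw [Subgroup.index, Nat.card_eq_fintype_card]
      rw [h2]
      exact h1
    calc T1.index * T.index * finrank ℂ (E χ) = T.index * (T1.index * finrank ℂ (E χ)) := by
          ring
      _ ≤ _ := Nat.mul_le_mul_left _ hkey
  · intro hUU B hB hBc
    refine ⟨χ ⟨B, hB, hBc⟩, fun u hu => ?_⟩
    have hu' : u ∈ (E χ).map U.subtype := by
      rw [hUU]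
      exact hu
    obtain ⟨u1, hu1, rfl⟩ := hu'
    exact congrArg Subtype.val ((hE χ u1).1 hu1 ⟨B, hB, hBc⟩)

/-! row GoodP2 (as GoodP, with the commuting family of operators B) -/
theorem exists_goodPair2 {G : Type} [Group G] [Finite G] (V : FDRep ℂ G)
    (hV : CategoryTheory.Simple V) :
    ∃ (T : Subgroup G) (U : Submodule ℂ V), GoodPair V T U ∧
      ∀ L : Subgroup G, L ≤ T → (∀ t ∈ T, ∀ l ∈ L, t * l * t⁻¹ ∈ L) →
        ∀ B ∈ Algebra.adjoin ℂ (Set.range fun l : L => (V.ρ (l : G) : Module.End ℂ V)),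
          (∀ l ∈ L, ∀ u ∈ U, B (V.ρ l u) = V.ρ l (B u)) → ∃ z : ℂ, ∀ u ∈ U, B u = z • u := by
  classical
  have hnt : Nontrivial V := Pool.TKB.simple_nontrivial V
  let adm : Subgroup G → Submodule ℂ V → Prop := fun T U =>
    U ≠ ⊥ ∧ (∀ t ∈ T, ∀ u ∈ U, V.ρ t u ∈ U) ∧
      T.index * finrank ℂ U ≤ finrank ℂ V
  have hex : ∃ n : ℕ, ∃ (T : Subgroup G) (U : Submodule ℂ V), adm T U ∧
      Nat.card T + finrank ℂ U = n := by
    refine ⟨_, ⊤, ⊤, ⟨top_ne_bot, fun _ _ _ _ => Submodule.mem_top, ?_⟩, rfl⟩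
    rw [Subgroup.index_top, one_mul, finrank_top]
  obtain ⟨T, U, ⟨h1, h2, h3⟩, h4⟩ := Nat.find_spec hex
  have key : ∀ L : Subgroup G, L ≤ T → (∀ t ∈ T, ∀ l ∈ L, t * l * t⁻¹ ∈ L) →
        ∀ B ∈ Algebra.adjoin ℂ (Set.range fun l : L => (V.ρ (l : G) : Module.End ℂ V)),
          (∀ l ∈ L, ∀ u ∈ U, B (V.ρ l u) = V.ρ l (B u)) → ∃ z : ℂ, ∀ u ∈ U, B u = z • u := by
    intro L hLT hL
    obtain ⟨T', U', k1, k2, k3, k4, k5, k6⟩ := gp2_step V.ρ T U h1 h2 L hLT hL
    apply k6
    have h5 : Nat.find hex ≤ Nat.card T' + finrank ℂ U' :=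
      Nat.find_min' hex ⟨T', U', ⟨k3, k4, k5.trans h3⟩, rfl⟩
    have h6 : Nat.card T' ≤ Nat.card T := Subgroup.card_le_of_le k1
    have h7 : finrank ℂ U' ≤ finrank ℂ U := Submodule.finrank_mono k2
    exact Submodule.eq_of_le_of_finrank_eq k2 (by omega)
  refine ⟨T, U, ⟨h1, h2, h3, ?_⟩, key⟩
  intro A hAT hA hab a ha
  refine key A hAT hA (V.ρ a) (Algebra.subset_adjoin ⟨⟨a, ha⟩, rfl⟩) ?_
  intro l hl u hu
  have h := hab a ha l hl u hu
  rw [map_mul, map_mul] at h
  exact h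

end Pool.PWL
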