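import Pool.Agent.PWL.Ind
/-!
# Induced representations: trivial action
-/
namespace Pool.PWL

open CategoryTheory

private noncomputable def IndM_rep {G : Type} [Group G] (H : Subgroup G) (ω : H →* ℂˣ) :
    Representation ℂ G (indSub H ω) :=
  { toFun := fun g => (leftRep G g).restrict (indSub_inv H ω g)
    map_one' := by ext; simp
    map_mul' := fun x y => by ext; simp }

private theorem IndM_rep_apply {G : Type} [Group G] (H : Subgroup G) (ω : H →* ℂˣ) (g : G)
    (w : indSub H ω) : ((IndM_rep H ω g w : indSub H ω) : G → ℂ) = leftRep G g (w : G → ℂ) := rfl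

private theorem IndM_f0 {G : Type} [Group G] (H : Subgroup G) (ω : H →* ℂˣ) :
    baseFun H ω 1 = 1 := by
  have e : (⟨1, H.one_mem⟩ : H) = 1 := rfl
  simp only [baseFun, dif_pos H.one_mem]
  rw [e, map_one, inv_one, Units.val_one]

private theorem IndM_end {G : Type} [Group G] (H : Subgroup G) (ω : H →* ℂˣ) (k : G)
    (hkW : ∀ w : indSub H ω, IndM_rep H ω k w = w) : ∃ h : k ∈ H, ω ⟨k, h⟩ = 1 := by
  classical
  let f0 : indSub H ω := ⟨baseFun H ω, baseFun_mem H ω⟩
  have hf1 : (f0 : G → ℂ) 1 = 1 := IndM_f0 H ω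
  have h1 : (IndM_rep H ω k f0 : G → ℂ) 1 = (f0 : G → ℂ) 1 := by rw [hkW]
  rw [IndM_rep_apply, leftRep_apply, mul_one, hf1] at h1
  have hkH : k⁻¹ ∈ H := by
    by_contra hn
    have h2 : (f0 : G → ℂ) k⁻¹ = 0 := by
      show baseFun H ω k⁻¹ = 0
      simp only [baseFun, dif_neg hn]
    rw [h2] at h1
    exact zero_ne_one h1
  have h3 : k ∈ H := H.inv_mem_iff.1 hkH
  refine ⟨h3, ?_⟩
  have h4 : (f0 : G → ℂ) k⁻¹ = (((ω ⟨k⁻¹, hkH⟩)⁻¹ : ℂˣ) : ℂ) := by
    show baseFun H ω k⁻¹ = _
    simp only [baseFun, dif_pos hkH]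
  have e : (⟨k⁻¹, hkH⟩ : H) = (⟨k, h3⟩ : H)⁻¹ := rfl
  rw [h4, e, map_inv, inv_inv] at h1
  exact Units.ext h1

private theorem IndM_core {G : Type} [Group G] [Finite G] (H : Subgroup G) (ω : H →* ℂˣ) (k : G)
    (n : ℕ)
    (hdim : ∀ U : Submodule ℂ (indSub H ω), (∀ g, ∀ w ∈ U, IndM_rep H ω g w ∈ U) →
      (∀ U' : Submodule ℂ (indSub H ω), U' ≤ U → (∀ g, ∀ w ∈ U', IndM_rep H ω g w ∈ U') →
        U' = ⊥ ∨ U' = U) → Module.finrank ℂ U ≤ n)
    (hk : ∀ V : FDRep ℂ G, CategoryTheory.Simple V → Module.finrank ℂ V ≤ n →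
      ∀ v : V, V.ρ k v = v) (w : indSub H ω) : IndM_rep H ω k w = w := by
  by_contra hcon0
  have hcon : ∃ w, IndM_rep H ω k w ≠ w := ⟨w, hcon0⟩
  obtain ⟨U, hUinv, ⟨w, hw, hwne⟩, hUirr⟩ := TKB.exists_irr (IndM_rep H ω) k hcon
  let ρU : Representation ℂ G U :=
    { toFun := fun g => (IndM_rep H ω g).restrict (hUinv g)
      map_one' := by ext; simp
      map_mul' := fun x y => by ext; simp }
  have hnt : Nontrivial U := by
    refine ⟨⟨⟨w, hw⟩, 0, ?_⟩⟩
    intro h
    have h1 : w = 0 := congrArg Subtype.val h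
    apply hwne
    rw [h1, map_zero]
  have hUle : Module.finrank ℂ U ≤ n := hdim U hUinv hUirr
  have hs : Simple (FDRep.of (V := U) ρU) := by
    apply TKB.simple_of
    intro U' hU'
    have := hUirr (U'.map U.subtype) (by
      rintro y ⟨z, _, rfl⟩
      exact z.2) (by
      rintro g y ⟨z, hz, rfl⟩
      exact ⟨ρU g z, hU' g z hz, rfl⟩)
    rcases this with h | h
    · left
      rw [Submodule.eq_bot_iff]
      intro y hy
      have hy' : (y : indSub H ω) ∈ U'.map U.subtype := ⟨y, hy, rfl⟩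
      rw [h, Submodule.mem_bot] at hy'
      exact Subtype.ext hy'
    · right
      rw [Submodule.eq_top_iff']
      intro y
      have hy : (y : indSub H ω) ∈ U'.map U.subtype := by rw [h]; exact y.2
      obtain ⟨z, hz, hzy⟩ := hy
      have : z = y := Subtype.ext hzy
      rwa [← this]
  have h1 := hk (FDRep.of (V := U) ρU) hs hUle (⟨w, hw⟩ : U)
  exact hwne (congrArg Subtype.val h1)

theorem trivial_on_ind_le {G : Type} [Group G] [Finite G] (H : Subgroup G) (ω : H →* ℂˣ) (k : G)
    (hk : ∀ V : FDRep ℂ G, CategoryTheory.Simple V → Module.finrank ℂ V ≤ H.index →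
      ∀ v : V, V.ρ k v = v) :
    ∃ h : k ∈ H, ω ⟨k, h⟩ = 1 := by
  apply IndM_end
  apply IndM_core H ω k H.index _ hk
  intro U _ _
  exact (Submodule.finrank_le U).trans (indSub_finrank H ω)

theorem trivial_on_perm {G : Type} [Group G] [Finite G] (H : Subgroup G) (hH : H ≠ ⊤) (k : G)
    (hk : ∀ V : FDRep ℂ G, CategoryTheory.Simple V → Module.finrank ℂ V < H.index →
      ∀ v : V, V.ρ k v = v) : k ∈ H := by
  classical
  have hpos : 0 < H.index := Nat.pos_of_ne_zero H.index_ne_zero_of_finite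
  obtain ⟨x, hx⟩ : ∃ x, x ∉ H := by
    by_contra hn
    push Not at hn
    exact hH (eq_top_iff.2 fun y _ => hn y)
  have key : ∃ h : k ∈ H, (1 : H →* ℂˣ) ⟨k, h⟩ = 1 := by
    apply IndM_end
    apply IndM_core H 1 k (H.index - 1) _ (fun V hV hle => hk V hV (by omega))
    intro U hUinv hUirr
    have hlt : Module.finrank ℂ U < H.index := by
      rcases eq_or_ne U ⊤ with hU | hU
      · exfalso
        let E : Submodule ℂ (indSub H (1 : H →* ℂˣ)) :=
          { carrier := {w | ∀ y, (w : G → ℂ) y = (w : G → ℂ) 1}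
            add_mem' := by
              intro a b ha hb y
              show (a : G → ℂ) y + (b : G → ℂ) y = (a : G → ℂ) 1 + (b : G → ℂ) 1
              rw [ha y, hb y]
            zero_mem' := fun y => rfl
            smul_mem' := by
              intro z a ha y
              show z * (a : G → ℂ) y = z * (a : G → ℂ) 1
              rw [ha y] }
        have hE := hUirr E (by rw [hU]; exact le_top) (by
          intro g w hw y
          rw [IndM_rep_apply, leftRep_apply, leftRep_apply]
          rw [hw (g⁻¹ * y), hw (g⁻¹ * 1)])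
        rcases hE with h | h
        · let c : indSub H (1 : H →* ℂˣ) := ⟨fun _ => 1, by
            intro g h
            simp⟩
          have hc : c ∈ E := fun y => rfl
          rw [h, Submodule.mem_bot] at hc
          have h1 : (c : G → ℂ) 1 = 0 := by rw [hc]; rfl
          exact one_ne_zero h1
        · let f0 : indSub H (1 : H →* ℂˣ) := ⟨baseFun H 1, baseFun_mem H 1⟩
          have hf : f0 ∈ E := by rw [h, hU]; exact Submodule.mem_top
          have h1 : baseFun H (1 : H →* ℂˣ) x = baseFun H 1 1 := hf x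
          rw [IndM_f0] at h1
          simp only [baseFun, dif_neg hx] at h1
          exact zero_ne_one h1
      · exact lt_of_lt_of_le (Submodule.finrank_lt hU) (indSub_finrank H 1)
    omega
  exact key.1

end Pool.PWL
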