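import Mathlib.RepresentationTheory.Character
import Mathlib.Analysis.Complex.Basic

/-! The norm of a character is not zero. -/

namespace Pool.PWL

/-! row TrPos -/
theorem trace_sum_ne_zero {L : Type*} [Group L] [Fintype L] {U : Type*} [AddCommGroup U]
    [Module ℂ U] [FiniteDimensional ℂ U] [Nontrivial U] (ρ : Representation ℂ L U) :
    ∑ x : L, LinearMap.trace ℂ U (ρ x⁻¹) * LinearMap.trace ℂ U (ρ x) ≠ 0 := by
  have hc : (Nat.card L : ℂ) ≠ 0 := by
    rw [Nat.cast_ne_zero]
    exact Nat.card_pos.ne'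
  let _ : Invertible (Nat.card L : ℂ) := invertibleOfNonzero hc
  have h := Representation.card_inv_mul_sum_char_mul_char_eq_finrank ρ ρ
  have hn : Nontrivial (Representation.IntertwiningMap ρ ρ) := by
    obtain ⟨u, hu⟩ := exists_ne (0 : U)
    refine ⟨⟨Representation.IntertwiningMap.id ρ, 0, fun h1 => hu ?_⟩⟩
    have h2 := congrArg (fun f : Representation.IntertwiningMap ρ ρ => f u) h1
    exact h2
  have hp : 0 < Module.finrank ℂ (Representation.IntertwiningMap ρ ρ) := Module.finrank_pos
  intro h0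
  have h1 : ∑ g : L, ρ.character g * ρ.character g⁻¹
      = ∑ x : L, LinearMap.trace ℂ U (ρ x⁻¹) * LinearMap.trace ℂ U (ρ x) :=
    Finset.sum_congr rfl fun g _ => mul_comm _ _
  rw [h1, h0, mul_zero] at h
  have h2 : (Module.finrank ℂ (Representation.IntertwiningMap ρ ρ) : ℂ) ≠ 0 := by
    rw [Nat.cast_ne_zero]
    exact hp.ne'
  exact h2 h.symm

end Pool.PWL
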