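import Pool.Agent.PWL.DefsS
import Pool.Agent.PWL.TrPos

/-!
# Intertwining elements
-/

set_option autoImplicit false

namespace Pool.PWL

open scoped commutatorElement

/-! row Inter (from TrPos) -/
theorem exists_inter {T : Type*} [Group T] [Finite T] {U : Type*} [AddCommGroup U] [Module ℂ U]
    [FiniteDimensional ℂ U] [Nontrivial U] (ρ : Representation ℂ T U) (L : Subgroup T)
    [L.Normal] (hL : IsHomog ρ L) (t : T) :
    ∃ (A A' : Module.End ℂ U) (c : ℂ), c ≠ 0 ∧ A ∈ opRing ρ L ∧ A' ∈ opRing ρ L ∧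
      A * A' = c • (1 : Module.End ℂ U) ∧ A' * A = c • (1 : Module.End ℂ U) ∧
      ∀ x ∈ L, A * ρ x = ρ (t * x * t⁻¹) * A := by
  classical
  let _ : Fintype L := Fintype.ofFinite L
  have hn : ∀ (g x : T), x ∈ L → g * x * g⁻¹ ∈ L := fun g x hx =>
    (inferInstance : L.Normal).conj_mem x hx g
  have hin : ∀ l ∈ L, ρ l ∈ opAlg ρ L := fun l hl => Algebra.subset_adjoin ⟨⟨l, hl⟩, rfl⟩
  have hin' : ∀ l ∈ L, ρ l ∈ opRing ρ L := fun l hl => Subring.subset_closure ⟨⟨l, hl⟩, rfl⟩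
  let A : L → Module.End ℂ U := fun l => ∑ x : L, ρ (t * x * t⁻¹ * l * (x : T)⁻¹)
  let B : L → Module.End ℂ U := fun l => ∑ x : L, ρ (x * l * (t * (x : T)⁻¹ * t⁻¹))
  have hA : ∀ l, ∀ y ∈ L, A l * ρ y = ρ (t * y * t⁻¹) * A l := by
    intro l y hy
    show (∑ x : L, ρ (t * x * t⁻¹ * l * (x : T)⁻¹)) * ρ y =
      ρ (t * y * t⁻¹) * ∑ x : L, ρ (t * x * t⁻¹ * l * (x : T)⁻¹)
    rw [Finset.sum_mul, Finset.mul_sum,
      ← Equiv.sum_comp (Equiv.mulLeft (⟨y, hy⟩ : L))]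
    refine Finset.sum_congr rfl fun z _ => ?_
    rw [← map_mul, ← map_mul]
    congr 1
    show t * (y * z) * t⁻¹ * l * (y * z)⁻¹ * y = _
    group
  have hB : ∀ l, ∀ y ∈ L, B l * ρ (t * y * t⁻¹) = ρ y * B l := by
    intro l y hy
    show (∑ x : L, ρ (x * l * (t * (x : T)⁻¹ * t⁻¹))) * ρ (t * y * t⁻¹) =
      ρ y * ∑ x : L, ρ (x * l * (t * (x : T)⁻¹ * t⁻¹))
    rw [Finset.sum_mul, Finset.mul_sum,
      ← Equiv.sum_comp (Equiv.mulLeft (⟨y, hy⟩ : L))]
    refine Finset.sum_congr rfl fun z _ => ?_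
    rw [← map_mul, ← map_mul]
    congr 1
    show (y * z) * l * (t * (y * z)⁻¹ * t⁻¹) * (t * y * t⁻¹) = _
    group
  have hAL : ∀ (l x : L), t * x * t⁻¹ * l * (x : T)⁻¹ ∈ L := fun l x =>
    L.mul_mem (L.mul_mem (hn t x x.2) l.2) (L.inv_mem x.2)
  have hBL : ∀ (l x : L), (x : T) * l * (t * (x : T)⁻¹ * t⁻¹) ∈ L := fun l x =>
    L.mul_mem (L.mul_mem x.2 l.2) (hn t _ (L.inv_mem x.2))
  have hAm : ∀ l, A l ∈ opAlg ρ L := fun l => Subalgebra.sum_mem _ fun x _ => hin _ (hAL l x)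
  have hBm : ∀ l, B l ∈ opAlg ρ L := fun l => Subalgebra.sum_mem _ fun x _ => hin _ (hBL l x)
  have hAr : ∀ l, A l ∈ opRing ρ L := fun l => Subring.sum_mem _ fun x _ => hin' _ (hAL l x)
  have hBr : ∀ l, B l ∈ opRing ρ L := fun l => Subring.sum_mem _ fun x _ => hin' _ (hBL l x)
  have h0 : ∑ x : L, LinearMap.trace ℂ U (ρ (x : T)⁻¹) * LinearMap.trace ℂ U (ρ (x : T)) ≠ 0 :=
    trace_sum_ne_zero (MonoidHom.comp ρ L.subtype)
  have hdim : ((Module.finrank ℂ U : ℕ) : ℂ) ≠ 0 :=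
    Nat.cast_ne_zero.2 Module.finrank_pos.ne'
  have hcard : ((Fintype.card L : ℕ) : ℂ) ≠ 0 := Nat.cast_ne_zero.2 Fintype.card_ne_zero
  have htrc : ∀ (x : T) (X : Module.End ℂ U),
      LinearMap.trace ℂ U (ρ x * X * ρ x⁻¹) = LinearMap.trace ℂ U X := by
    intro x X
    rw [LinearMap.trace_mul_comm, ← mul_assoc, ← map_mul, inv_mul_cancel, map_one, one_mul]
  -- averages are scalars
  have havg : ∀ X ∈ opAlg ρ L, ∃ w : ℂ,
      ∑ x : L, ρ (x : T) * X * ρ (x : T)⁻¹ = w • (1 : Module.End ℂ U) ∧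
        w * (Module.finrank ℂ U : ℕ) = (Fintype.card L : ℕ) * LinearMap.trace ℂ U X := by
    intro X hX
    have h1 : IsScal (∑ x : L, ρ (x : T) * X * ρ (x : T)⁻¹) := by
      apply hL
      · exact Subalgebra.sum_mem _ fun x _ => Subalgebra.mul_mem _
          (Subalgebra.mul_mem _ (hin _ x.2) hX) (hin _ (L.inv_mem x.2))
      · intro y hy
        rw [Finset.sum_mul, Finset.mul_sum,
          ← Equiv.sum_comp (Equiv.mulLeft (⟨y, hy⟩ : L))]
        refine Finset.sum_congr rfl fun z _ => ?_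
        show ρ (y * z) * X * ρ (y * z)⁻¹ * ρ y = ρ y * (ρ z * X * ρ (z : T)⁻¹)
        rw [mul_assoc (ρ (y * z) * X), ← map_mul, map_mul,
          show (y * (z : T))⁻¹ * y = (z : T)⁻¹ by group]
        simp only [mul_assoc]
    obtain ⟨w, hw⟩ := h1
    refine ⟨w, hw, ?_⟩
    have h2 := congrArg (LinearMap.trace ℂ U) hw
    rw [map_sum, map_smul, LinearMap.trace_one] at h2
    have h3 : ∑ x : L, LinearMap.trace ℂ U (ρ (x : T) * X * ρ (x : T)⁻¹)
        = ∑ _x : L, LinearMap.trace ℂ U X := Finset.sum_congr rfl fun x _ => htrc (x : T) X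
    rw [h3, Finset.sum_const, Finset.card_univ, nsmul_eq_mul, smul_eq_mul] at h2
    exact h2.symm
  -- some `A l` is not zero
  obtain ⟨l, hl⟩ : ∃ l, A l ≠ 0 := by
    by_contra hcon
    push Not at hcon
    have hω : ∀ x : L, ∃ w : ℂ,
        ∑ l : L, ρ ((l : T) * (x : T)⁻¹ * (l : T)⁻¹) = w • (1 : Module.End ℂ U) ∧
        w * (Module.finrank ℂ U : ℕ) =
          (Fintype.card L : ℕ) * LinearMap.trace ℂ U (ρ (x : T)⁻¹) := by
      intro x
      obtain ⟨w, h1, h2⟩ := havg (ρ (x : T)⁻¹) (hin _ (L.inv_mem x.2))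
      refine ⟨w, ?_, h2⟩
      rw [← h1]
      refine Finset.sum_congr rfl fun y _ => ?_
      rw [map_mul, map_mul]
    choose w hw1 hw2 using hω
    have h1 : ∑ l : L, ρ t⁻¹ * A l * ρ (l : T)⁻¹ = 0 :=
      Finset.sum_eq_zero fun l _ => by rw [hcon l, mul_zero, zero_mul]
    have h2 : ∑ l : L, ρ t⁻¹ * A l * ρ (l : T)⁻¹ =
        ∑ x : L, w x • (ρ (x : T) * ρ t⁻¹) := by
      have h3 : ∀ l : L, ρ t⁻¹ * A l * ρ (l : T)⁻¹ =
          ∑ x : L, ρ (x : T) * ρ t⁻¹ * ρ ((l : T) * (x : T)⁻¹ * (l : T)⁻¹) := by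
        intro l
        show ρ t⁻¹ * (∑ x : L, ρ (t * x * t⁻¹ * l * (x : T)⁻¹)) * ρ (l : T)⁻¹ = _
        rw [Finset.mul_sum, Finset.sum_mul]
        refine Finset.sum_congr rfl fun x _ => ?_
        rw [← map_mul, ← map_mul, ← map_mul, ← map_mul]
        congr 1
        group
      rw [Finset.sum_congr rfl (fun l _ => h3 l), Finset.sum_comm]
      refine Finset.sum_congr rfl fun x _ => ?_
      rw [← Finset.mul_sum, hw1, mul_smul_comm, mul_one]
    rw [h2] at h1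
    have h4 : ∑ x : L, w x • ρ (x : T) = 0 := by
      have h5 := congrArg (fun X => X * ρ t) h1
      simp only [Finset.sum_mul, smul_mul_assoc, zero_mul, mul_assoc] at h5
      rw [← map_mul, inv_mul_cancel, map_one] at h5
      simpa using h5
    have h6 := congrArg (LinearMap.trace ℂ U) h4
    rw [map_sum, map_zero] at h6
    simp only [map_smul, smul_eq_mul] at h6
    apply h0
    have h7 : ((Fintype.card L : ℕ) : ℂ) *
        ∑ x : L, LinearMap.trace ℂ U (ρ (x : T)⁻¹) * LinearMap.trace ℂ U (ρ (x : T)) =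
        (Module.finrank ℂ U : ℕ) * ∑ x : L, w x * LinearMap.trace ℂ U (ρ (x : T)) := by
      rw [Finset.mul_sum, Finset.mul_sum]
      refine Finset.sum_congr rfl fun x _ => ?_
      rw [← mul_assoc, ← hw2]
      ring
    rw [h6, mul_zero] at h7
    exact (mul_eq_zero.1 h7).resolve_left hcard
  -- some trace is not zero
  obtain ⟨l', hl'⟩ : ∃ l' : L, LinearMap.trace ℂ U (ρ (l' : T) * A l) ≠ 0 := by
    by_contra hcon
    push Not at hcon
    have hκ : IsScal (∑ m : L, LinearMap.trace ℂ U (ρ (m : T)⁻¹) • ρ (m : T)) := by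
      apply hL
      · exact Subalgebra.sum_mem _ fun x _ => Subalgebra.smul_mem _ (hin _ x.2) _
      · intro y hy
        rw [Finset.sum_mul, Finset.mul_sum]
        -- reindex by conjugation
        let c : L ≃ L := (MulAut.conj (⟨y, hy⟩ : L)).toEquiv
        rw [← Equiv.sum_comp c]
        refine Finset.sum_congr rfl fun z _ => ?_
        show LinearMap.trace ℂ U (ρ (y * z * y⁻¹)⁻¹) • ρ (y * z * y⁻¹) * ρ y =
          ρ y * LinearMap.trace ℂ U (ρ (z : T)⁻¹) • ρ (z : T)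
        have e1 : LinearMap.trace ℂ U (ρ (y * z * y⁻¹)⁻¹) = LinearMap.trace ℂ U (ρ (z : T)⁻¹) := by
          have e2 : ρ (y * (z : T) * y⁻¹)⁻¹ = ρ y * ρ (z : T)⁻¹ * ρ y⁻¹ := by
            rw [← map_mul, ← map_mul]
            congr 1
            group
          rw [e2, htrc]
        rw [e1, smul_mul_assoc, mul_smul_comm, ← map_mul, ← map_mul,
          show y * (z : T) * y⁻¹ * y = y * z by group]
    obtain ⟨κ, hκ⟩ := hκ
    have hκ0 : κ ≠ 0 := by
      intro hk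
      rw [hk, zero_smul] at hκ
      have h6 := congrArg (LinearMap.trace ℂ U) hκ
      rw [map_sum, map_zero] at h6
      simp only [map_smul, smul_eq_mul] at h6
      exact h0 h6
    have hlin : ∀ y ∈ L, ∑ m : L, LinearMap.trace ℂ U (ρ (m : T)⁻¹ * ρ y) • ρ (m : T)
        = κ • ρ y := by
      intro y hy
      rw [← Equiv.sum_comp (Equiv.mulLeft (⟨y, hy⟩ : L))]
      have h1 : ∀ z : L, LinearMap.trace ℂ U (ρ (((Equiv.mulLeft (⟨y, hy⟩ : L)) z : L) : T)⁻¹ * ρ y)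
          • ρ (((Equiv.mulLeft (⟨y, hy⟩ : L)) z : L) : T)
          = ρ y * (LinearMap.trace ℂ U (ρ (z : T)⁻¹) • ρ (z : T)) := by
        intro z
        show LinearMap.trace ℂ U (ρ (y * z)⁻¹ * ρ y) • ρ (y * z) = _
        rw [← map_mul, show (y * (z : T))⁻¹ * y = (z : T)⁻¹ by group, map_mul, mul_smul_comm]
      rw [Finset.sum_congr rfl (fun z _ => h1 z), ← Finset.mul_sum, hκ, mul_smul_comm, mul_one]
    have h8 : ∑ m : L, LinearMap.trace ℂ U (ρ (m : T)⁻¹ * A l) • ρ (m : T) = κ • A l := by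
      show ∑ m : L, LinearMap.trace ℂ U (ρ (m : T)⁻¹ *
        ∑ x : L, ρ (t * x * t⁻¹ * l * (x : T)⁻¹)) • ρ (m : T) =
          κ • ∑ x : L, ρ (t * x * t⁻¹ * l * (x : T)⁻¹)
      simp only [Finset.mul_sum, map_sum, Finset.sum_smul, Finset.smul_sum]
      rw [Finset.sum_comm]
      exact Finset.sum_congr rfl fun x _ => hlin _ (hAL l x)
    have h9 : ∑ m : L, LinearMap.trace ℂ U (ρ (m : T)⁻¹ * A l) • ρ (m : T) = 0 := by
      refine Finset.sum_eq_zero fun m _ => ?_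
      have := hcon m⁻¹
      rw [show ρ (m : T)⁻¹ = ρ ((m⁻¹ : L) : T) from rfl, this, zero_smul]
    rw [h9] at h8
    exact hl ((smul_eq_zero.1 h8.symm).resolve_left hκ0)
  -- the product
  have hBA : B l' * A l = ∑ x : L, ρ (x : T) * (ρ (l' : T) * A l) * ρ (x : T)⁻¹ := by
    show (∑ x : L, ρ (x * l' * (t * (x : T)⁻¹ * t⁻¹))) * A l = _
    rw [Finset.sum_mul]
    refine Finset.sum_congr rfl fun x _ => ?_
    have h1 := hA l _ (L.inv_mem x.2)
    rw [map_mul, map_mul, mul_assoc, ← h1]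
    simp only [mul_assoc]
  obtain ⟨c, hc1, hc2⟩ := havg (ρ (l' : T) * A l) (Subalgebra.mul_mem _ (hin _ l'.2) (hAm l))
  have hc0 : c ≠ 0 := by
    intro h
    rw [h, zero_mul] at hc2
    rcases mul_eq_zero.1 hc2.symm with h1 | h1
    · exact hcard h1
    · exact hl' h1
  have hBA' : B l' * A l = c • (1 : Module.End ℂ U) := hBA.trans hc1
  refine ⟨A l, B l', c, hc0, hAr l, hBr l', ?_, hBA', hA l⟩
  have h1 : (c⁻¹ • B l') * A l = 1 := by
    rw [smul_mul_assoc, hBA', smul_smul, inv_mul_cancel₀ hc0, one_smul]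
  have h2 : A l * (c⁻¹ • B l') = 1 := mul_eq_one_comm.1 h1
  rw [mul_smul_comm] at h2
  rw [← h2, smul_smul, mul_inv_cancel₀ hc0, one_smul]

end Pool.PWL
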