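import Mathlib

/-!
# A finite nilpotent group is separated by its Sylow quotients
-/

namespace Pool.PWL

theorem nil_ext {G : Type} [Group G] [Finite G] [Group.IsNilpotent G] (g : G) (hg : g ≠ 1) :
    ∃ (p : ℕ) (_ : p.Prime) (P : Subgroup G) (f : G →* P), IsPGroup p P ∧
      Function.Surjective f ∧ f g ≠ 1 := by
  classical
  have hnil : Group.IsNilpotent G := inferInstance
  obtain ⟨φ⟩ := ((Group.isNilpotent_of_finite_tfae (G := G)).out 0 4).mp hnil
  have h1 : φ.symm g ≠ 1 := by
    intro h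
    exact hg (by rw [← φ.apply_symm_apply g, h, map_one])
  have h2 : ∃ p, (φ.symm g) p ≠ 1 := by
    by_contra hc
    push Not at hc
    exact h1 (funext hc)
  obtain ⟨p, hp⟩ := h2
  have h3 : ∃ P, (φ.symm g) p P ≠ 1 := by
    by_contra hc
    push Not at hc
    exact hp (funext hc)
  obtain ⟨P, hP⟩ := h3
  refine ⟨p, Nat.prime_of_mem_primeFactors p.2, P,
    ((Pi.evalMonoidHom _ P).comp ((Pi.evalMonoidHom _ p).comp φ.symm.toMonoidHom)),
    P.isPGroup', ?_, ?_⟩
  · intro y
    let z : ∀ p : (Nat.card G).primeFactors, ∀ P : Sylow p G, P :=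
      Function.update 1 p (Function.update 1 P y)
    refine ⟨φ z, ?_⟩
    show (φ.symm (φ z)) p P = y
    rw [φ.symm_apply_apply]
    simp [z]
  · exact hP

end Pool.PWL
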