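import Pool.Agent.PWL.ChainW
import Pool.Agent.PWL.PowW
import Pool.Agent.PWL.PowDerived
import Pool.Agent.PWL.RankPE
import Pool.Agent.PWL.StepW
import Pool.Agent.PWL.TaketaW
import Pool.Agent.PWL.Count
import Pool.Agent.PWL.CdQuot
import Pool.Agent.PWL.NilExt

/-!
# The bound for groups with a powerfully embedded term of the derived series
-/

namespace Pool.PWL

open scoped commutatorElement
open Pool.TKB

theorem PE.chain {G : Type*} [Group G] [Group.IsNilpotent G] {p : ℕ} [Fact p.Prime]
    {N W : Subgroup G} [N.Normal] [W.Normal] (hNW : N ≤ W) (hN : PE p N W) (i : ℕ) :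
    PE p (chain p N i) W := by
  induction i with
  | zero => exact hN
  | succ i ih => exact PE.pow ((chain_le p N i).trans hNW) ih

/-- The main bound: if `[G^(k+1), G^(k)] ≤ (G^(k+1))^p` (with fourth powers for `p = 2`), then the
derived length of the `p`-group `G` is at most `k + 1 + ⌈log₂ |cd(G)|⌉`. -/
theorem main_W {G : Type} [Group G] [Finite G] {p : ℕ} [hp : Fact p.Prime] (hG : IsPGroup p G)
    (k : ℕ) (h : PE p (derivedSeries G (k + 1)) (derivedSeries G k)) :
    derivedSeries G (k + 1 + Nat.clog 2 (cd G).ncard) = ⊥ := by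
  have hnil : Group.IsNilpotent G := hG.isNilpotent
  have hk1 : derivedSeries G (k + 1) = ⁅derivedSeries G k, derivedSeries G k⁆ := derivedSeries_succ ..
  have hle : derivedSeries G (k + 1) ≤ derivedSeries G k := derivedSeries_antitone G (Nat.le_succ k)
  let N := derivedSeries G (k + 1)
  have hPE : ∀ i, PE p (chain p N i) (derivedSeries G k) := PE.chain hle h
  let Q : ℕ → Subgroup G := fun i => if i ≤ k then derivedSeries G (i + 1) else chain p N (i - k)
  have hQ0 : Q 0 = ⁅(⊤ : Subgroup G), (⊤ : Subgroup G)⁆ := by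
    show (if 0 ≤ k then derivedSeries G (0 + 1) else _) = _
    rw [if_pos (Nat.zero_le k)]; rfl
  have hQk : ∀ i, k ≤ i → Q i = chain p N (i - k) := by
    intro i hi
    rcases hi.eq_or_lt with rfl | hlt
    · show (if k ≤ k then derivedSeries G (k + 1) else _) = _
      rw [if_pos le_rfl, Nat.sub_self]; rfl
    · show (if i ≤ k then derivedSeries G (i + 1) else _) = _
      rw [if_neg (by omega)]
  have hQs : ∀ i, i ≤ k → Q i = derivedSeries G (i + 1) := by
    intro i hi
    show (if i ≤ k then derivedSeries G (i + 1) else _) = _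
    rw [if_pos hi]
  have hanti : Antitone Q := by
    refine antitone_nat_of_succ_le fun i => ?_
    rcases Nat.lt_or_ge i k with hi | hi
    · rw [hQs i hi.le, hQs (i + 1) hi]
      exact derivedSeries_antitone G (by omega)
    · rw [hQk i hi, hQk (i + 1) (by omega)]
      exact chain_anti p N (by omega)
  have hbot : Q ((cd G).ncard - 1) = ⊥ := by
    refine chain_trivial (p := p) Q hQ0 hanti ?_
    intro i V hV h1 hK
    rcases Nat.lt_or_ge i k with hi | hi
    · rw [hQs i hi.le] at hK
      rw [hQs (i + 1) hi, derivedSeries_succ]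
      exact taketa_step hG (derivedSeries G (i + 1)) V hV h1 hK
    · rw [hQk i hi] at hK
      rw [hQk (i + 1) (by omega), show i + 1 - k = (i - k) + 1 by omega]
      exact stepW hG (derivedSeries G k) (chain p N (i - k)) ((chain_le p N _).trans hk1.le)
        (hPE _) V hV hK
  have hm : 1 ≤ (cd G).ncard := by
    exact (Set.ncard_pos cd_finite).mpr ⟨1, one_mem_cd⟩
  rcases Nat.le_total ((cd G).ncard - 1) k with hc | hc
  · rw [hQs _ hc] at hbot
    rw [eq_bot_iff, ← hbot]
    exact derivedSeries_antitone G (by omega)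
  · rw [hQk _ hc] at hbot
    rw [eq_bot_iff, ← hbot]
    refine (derived_le_chain_W (p := p) (k + 1) (derivedSeries G k) hle
      (fun i => (hPE i).le) (Nat.clog 2 (cd G).ncard)).trans ?_
    apply chain_anti
    have h2 : (cd G).ncard ≤ 2 ^ Nat.clog 2 (cd G).ncard := Nat.le_pow_clog (by norm_num) _
    omega

/-- The exponent of the commutator subgroup. -/
theorem exponent_W {G : Type} [Group G] [Finite G] {p : ℕ} [hp : Fact p.Prime] (hG : IsPGroup p G)
    (h : PE p ⁅(⊤ : Subgroup G), (⊤ : Subgroup G)⁆ ⊤) :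
    ∀ g ∈ ⁅(⊤ : Subgroup G), (⊤ : Subgroup G)⁆, g ^ p ^ ((cd G).ncard - 1) = 1 := by
  have hnil : Group.IsNilpotent G := hG.isNilpotent
  let N := ⁅(⊤ : Subgroup G), (⊤ : Subgroup G)⁆
  have hPE : ∀ i, PE p (chain p N i) ⊤ := PE.chain le_top h
  have hbot : chain p N ((cd G).ncard - 1) = ⊥ := by
    refine chain_trivial (p := p) (chain p N) rfl (chain_anti p N) ?_
    intro i V hV h1 hK
    exact stepW hG ⊤ (chain p N i) (chain_le p N _) (hPE _) V hV hK
  have hpow : ∀ i, ∀ g ∈ N, g ^ p ^ i ∈ chain p N i := by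
    intro i
    induction i with
    | zero => intro g hg; rw [pow_zero, pow_one]; exact hg
    | succ i ih =>
      intro g hg
      rw [pow_succ, pow_mul]
      exact pow_mem_pw (ih g hg)
  intro g hg
  have := hpow ((cd G).ncard - 1) g hg
  rw [hbot, Subgroup.mem_bot] at this
  exact this

/-- `PE` from the usual definition of a powerfully embedded subgroup. -/
theorem PE_of_pw {G : Type*} [Group G] {p : ℕ} {N W : Subgroup G}
    (h : ⁅N, W⁆ ≤ pw (if p = 2 then 4 else p) N) : PE p N W := by
  unfold PE
  split_ifs with h2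
  · rw [if_pos h2] at h
    exact h.trans (pw_four_le N)
  · rwa [if_neg h2] at h

/-- The bound for nilpotent groups with a term of the derived series generated by few elements. -/
theorem rank_bound {G : Type} [Group G] [Finite G] [Group.IsNilpotent G] (r k : ℕ)
    (hk : 2 * r + 1 ≤ 2 ^ k) (S : Finset G) (hS : S.card ≤ r)
    (hN : Subgroup.closure (S : Set G) = derivedSeries G (k + 1)) :
    derivedSeries G (k + 1 + Nat.clog 2 (cd G).ncard) = ⊥ := by
  classical
  rw [Subgroup.eq_bot_iff_forall]
  intro g hg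
  by_contra hg1
  obtain ⟨p, hp, P, f, hP, hf, hfg⟩ := nil_ext g hg1
  have : Fact p.Prime := ⟨hp⟩
  have hmap : ∀ n, (derivedSeries G n).map f = derivedSeries P n := fun n =>
    map_derivedSeries_eq hf n
  have hN' : Subgroup.closure ((S.image f : Finset P) : Set P) = derivedSeries P (k + 1) := by
    rw [← hmap, ← hN, MonoidHom.map_closure, Finset.coe_image]
  have h1 := main_W hP k (PE_of_rank hP r k hk (S.image f) (Finset.card_image_le.trans hS) hN')
  have hcd : (cd P).ncard ≤ (cd G).ncard :=
    Set.ncard_le_ncard (cd_subset_of_surjective f hf) cd_finite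
  have h2 : derivedSeries P (k + 1 + Nat.clog 2 (cd G).ncard) = ⊥ := by
    rw [eq_bot_iff, ← h1]
    exact derivedSeries_antitone P (by have := Nat.clog_mono_right 2 hcd; omega)
  apply hfg
  have h3 : f g ∈ (derivedSeries G (k + 1 + Nat.clog 2 (cd G).ncard)).map f := ⟨g, hg, rfl⟩
  rw [hmap, h2, Subgroup.mem_bot] at h3
  exact h3

end Pool.PWL
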