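import Pool.Agent.PWL.ABClu

/-!
# The number of character degrees of a normal `p`-subgroup
-/

namespace Pool.PWL

open scoped commutatorElement
open Pool.TKB CategoryTheory

/-- The number of degrees of a normal `p`-subgroup `N` is at most `f + 1` times the number of
`p`-parts of the degrees of `G`, if `p ^ f` is the `p`-part of the index of `N`. -/
theorem ncard_cd_normal_pgroup {G : Type} [Group G] [Finite G] {p : ℕ} [hp : Fact p.Prime]
    (N : Subgroup G) [N.Normal] (hN : IsPGroup p N) :
    (cd N).ncard ≤ (padicValNat p N.index + 1) * (padicValNat p '' cd G).ncard := by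
  classical
  have key : ∀ d ∈ cd N, ∃ c, d = p ^ c ∧
      ∃ e ∈ padicValNat p '' cd G, c ≤ e ∧ e ≤ c + padicValNat p N.index := by
    rintro _ ⟨Θ, hΘ, rfl⟩
    exact finrank_normal_pgroup N hN Θ hΘ
  choose! c hc e he hce hec using key
  have hfin : (padicValNat p '' cd G).Finite := cd_finite.image _
  have h1 : (cd N).ncard ≤
      (Set.Iic (padicValNat p N.index) ×ˢ (padicValNat p '' cd G)).ncard := by
    refine Set.ncard_le_ncard_of_injOn (fun d => (e d - c d, e d)) ?_ ?_
      ((Set.finite_Iic _).prod hfin)
    · intro d hd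
      refine ⟨?_, he d hd⟩
      show e d - c d ≤ padicValNat p N.index
      have := hec d hd
      omega
    · intro d hd d' hd' h
      have h1 : e d - c d = e d' - c d' := congrArg Prod.fst h
      have h2 : e d = e d' := congrArg Prod.snd h
      have h3 := hce d hd
      have h4 := hce d' hd'
      have h5 : c d = c d' := by omega
      rw [hc d hd, hc d' hd', h5]
  refine h1.trans (le_of_eq ?_)
  rw [Set.ncard_prod, Set.ncard_eq_toFinset_card' (Set.Iic _), Set.toFinset_Iic, Nat.card_Iic]

/-- Nilpotent normal subgroups whose Sylow subgroups are normally monomial of maximal class. -/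
theorem fit_maxclass_index {G : Type} [Group G] [Finite G] (F : Subgroup G) [F.Normal]
    (hF : Group.IsNilpotent F) (f m : ℕ)
    (hm : ∀ p, p.Prime → p ∣ Nat.card F → (padicValNat p '' cd G).ncard ≤ m)
    (h : ∀ (p : ℕ) (_ : Fact p.Prime), p ∣ Nat.card F → padicValNat p F.index ≤ f ∧
      ∀ S : Sylow p F, ∃ c, Nat.card (S : Subgroup F) = p ^ (c + 1) ∧
        Group.nilpotencyClass (S : Subgroup F) = c ∧ NormallyMonomial (S : Subgroup F)) :
    derivedSeries F (4 * Nat.clog 2 ((f + 1) * m) + 3) = ⊥ := by
  refine fit_sylow F hF _ fun p hp hdvd S hN => ?_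
  obtain ⟨hidx, hS⟩ := h p hp hdvd
  obtain ⟨c, hcard, hclass, hNM⟩ := hS S
  have h1 := maxclass_derived p c (S : Subgroup F) hcard hclass hNM
  have hSp : IsPGroup p ((S : Subgroup F).map F.subtype) := S.2.map _
  let e : (S : Subgroup F) ≃* ((S : Subgroup F).map F.subtype) :=
    (S : Subgroup F).equivMapOfInjective F.subtype F.subtype_injective
  have hi : padicValNat p ((S : Subgroup F).map F.subtype).index = padicValNat p F.index := by
    rw [Subgroup.index_map_subtype, padicValNat.mul Subgroup.index_ne_zero_of_finite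
      Subgroup.index_ne_zero_of_finite, padicValNat.eq_zero_of_not_dvd S.not_dvd_index, zero_add]
  have h2 := ncard_cd_normal_pgroup ((S : Subgroup F).map F.subtype) hSp
  rw [← cd_equiv e, hi] at h2
  have h3 : derivedSeries ((S : Subgroup F).map F.subtype)
      (4 * Nat.clog 2 (cd (S : Subgroup F)).ncard + 3) = ⊥ := by
    rw [← map_derivedSeries_eq (f := e.toMonoidHom) e.surjective, h1, Subgroup.map_bot]
  rw [eq_bot_iff, ← h3]
  refine derivedSeries_antitone _ ?_
  have h4 : (cd (S : Subgroup F)).ncard ≤ (f + 1) * m :=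
    h2.trans (Nat.mul_le_mul (by omega) (hm p hp.out hdvd))
  have := Nat.clog_mono_right 2 h4
  omega

end Pool.PWL
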