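import Pool.Agent.PWL.DefsM

/-!
# PWL, row MaxM: a subgroup just above a subgroup `T`, inside `T W`
-/

namespace Pool.PWL
open scoped commutatorElement

/-- a proper subgroup of a finite `p`-group lies in a proper subgroup which contains the `p`-th
powers and the commutators -/
private theorem mm_frattini {F : Type*} [Group F] [Finite F] {p : ℕ} [Fact p.Prime]
    (hF : IsPGroup p F) (E : Subgroup F) (hE : E ≠ ⊤) :
    ∃ K : Subgroup F, K ≠ ⊤ ∧ E ≤ K ∧ (∀ x : F, x ^ p ∈ K) ∧ ∀ x y : F, ⁅x, y⁆ ∈ K := by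
  have hp : p.Prime := Fact.out
  have := hF.isNilpotent
  obtain ⟨K, hK, hEK⟩ := (eq_top_or_exists_le_coatom E).resolve_left hE
  have hnorm : K.Normal := Subgroup.NormalizerCondition.normal_of_coatom K
    Group.normalizerCondition_of_isNilpotent hK
  have hne : Nontrivial (F ⧸ K) := QuotientGroup.nontrivial_iff.2 hK.1
  have hQ : IsPGroup p (F ⧸ K) := hF.to_quotient K
  have hdvd : p ∣ Nat.card (F ⧸ K) := by
    obtain ⟨n, hn, hn'⟩ := (hQ.nontrivial_iff_card).1 hne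
    rw [hn']
    exact dvd_pow_self p (by omega)
  obtain ⟨c, hc⟩ := exists_prime_orderOf_dvd_card' p hdvd
  obtain ⟨x, rfl⟩ := QuotientGroup.mk_surjective c
  have hgen : ∀ z : F ⧸ K, z ∈ Subgroup.zpowers (x : F ⧸ K) := by
    have h1 : K ≤ (Subgroup.zpowers (x : F ⧸ K)).comap (QuotientGroup.mk' K) := by
      intro y hy
      rw [Subgroup.mem_comap]
      have : QuotientGroup.mk' K y = 1 := (QuotientGroup.eq_one_iff y).2 hy
      rw [this]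
      exact Subgroup.one_mem _
    have h2 : (Subgroup.zpowers (x : F ⧸ K)).comap (QuotientGroup.mk' K) ≠ K := by
      intro h
      have hx : x ∈ (Subgroup.zpowers (x : F ⧸ K)).comap (QuotientGroup.mk' K) := by
        rw [Subgroup.mem_comap]
        exact Subgroup.mem_zpowers _
      rw [h] at hx
      have : (x : F ⧸ K) = 1 := (QuotientGroup.eq_one_iff x).2 hx
      rw [this, orderOf_one] at hc
      exact hp.one_lt.ne hc
    have h3 := hK.2 _ (lt_of_le_of_ne h1 (Ne.symm h2))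
    intro z
    obtain ⟨y, rfl⟩ := QuotientGroup.mk_surjective z
    have : y ∈ (Subgroup.zpowers (x : F ⧸ K)).comap (QuotientGroup.mk' K) := by
      rw [h3]; trivial
    exact this
  refine ⟨K, hK.1, hEK, ?_, ?_⟩
  · intro y
    rw [← QuotientGroup.eq_one_iff]
    obtain ⟨i, hi⟩ := Subgroup.mem_zpowers_iff.1 (hgen (y : F ⧸ K))
    rw [QuotientGroup.mk_pow, ← hi, ← zpow_natCast, zpow_comm, zpow_natCast, ← hc,
      pow_orderOf_eq_one, one_zpow]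
  · intro y z
    rw [← QuotientGroup.eq_one_iff]
    obtain ⟨i, hi⟩ := Subgroup.mem_zpowers_iff.1 (hgen (y : F ⧸ K))
    obtain ⟨j, hj⟩ := Subgroup.mem_zpowers_iff.1 (hgen (z : F ⧸ K))
    have h1 : ((⁅y, z⁆ : F) : F ⧸ K) = ⁅(y : F ⧸ K), (z : F ⧸ K)⁆ := by
      rw [commutatorElement_def, commutatorElement_def]
      rfl
    rw [h1, commutatorElement_eq_one_iff_mul_comm, ← hi, ← hj]
    exact (Commute.zpow_zpow_self (x : F ⧸ K) i j).eq

/-- products of a subgroup and of a subgroup normalised by it -/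
private theorem mm_mul {G : Type*} [Group G] (T N : Subgroup G)
    (hn : ∀ t ∈ T, ∀ n ∈ N, t * n * t⁻¹ ∈ N) : ∀ g ∈ T ⊔ N, ∃ n ∈ N, n⁻¹ * g ∈ T := by
  let S : Subgroup G :=
    { carrier := {g | ∃ n ∈ N, n⁻¹ * g ∈ T}
      one_mem' := ⟨1, one_mem _, by simp⟩
      mul_mem' := by
        rintro a b ⟨n, hn1, hn2⟩ ⟨m, hm1, hm2⟩
        refine ⟨n * (n⁻¹ * a * m * (n⁻¹ * a)⁻¹), mul_mem hn1 (hn _ hn2 _ hm1), ?_⟩
        have e : (n * (n⁻¹ * a * m * (n⁻¹ * a)⁻¹))⁻¹ * (a * b) = (n⁻¹ * a) * (m⁻¹ * b) := by group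
        rw [e]
        exact mul_mem hn2 hm2
      inv_mem' := by
        rintro a ⟨n, hn1, hn2⟩
        have h1 := hn _ (inv_mem hn2) _ (inv_mem hn1)
        refine ⟨(n⁻¹ * a)⁻¹ * n⁻¹ * (n⁻¹ * a)⁻¹⁻¹, h1, ?_⟩
        have e : ((n⁻¹ * a)⁻¹ * n⁻¹ * (n⁻¹ * a)⁻¹⁻¹)⁻¹ * a⁻¹ = (n⁻¹ * a)⁻¹ := by group
        rw [e]
        exact inv_mem hn2 }
  have hS : T ⊔ N ≤ S := by
    refine sup_le ?_ ?_
    · intro t ht
      exact ⟨1, one_mem _, by simpa using ht⟩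
    · intro n hn1
      exact ⟨n, hn1, by simp⟩
  intro g hg
  exact hS hg

private theorem mm_relIndex {G : Type*} [Group G] [Finite G] (T M R : Subgroup G) (hRM : R ≤ M)
    (h : ∀ m ∈ M, ∃ r ∈ R, r⁻¹ * m ∈ T) : T.relIndex R = T.relIndex M := by
  have hbij : Function.Bijective (Subgroup.quotientSubgroupOfEmbeddingOfLE T hRM) := by
    refine ⟨(Subgroup.quotientSubgroupOfEmbeddingOfLE T hRM).injective, ?_⟩
    intro z
    obtain ⟨⟨m, hm⟩, rfl⟩ := QuotientGroup.mk_surjective z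
    obtain ⟨r, hr, hrm⟩ := h m hm
    refine ⟨((⟨r, hr⟩ : R) : R ⧸ T.subgroupOf R), ?_⟩
    rw [Subgroup.quotientSubgroupOfEmbeddingOfLE_apply_mk, QuotientGroup.eq,
      Subgroup.mem_subgroupOf]
    exact hrm
  exact Nat.card_congr (Equiv.ofBijective _ hbij)

theorem exists_maxM {G : Type*} [Group G] [Finite G] {p : ℕ} [Fact p.Prime] (T W : Subgroup G)
    [W.Normal] (hW : IsPGroup p W) (h : ¬ W ≤ T) :
    ∃ M R : Subgroup G, T ≤ M ∧ M.index < T.index ∧ R ≤ W ∧ R ≤ M ∧ T ⊓ W ≤ R ∧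
      (∀ m ∈ M, ∃ r ∈ R, r⁻¹ * m ∈ T) ∧ (∀ K : Subgroup G, T ≤ K → K ≤ M → K = T ∨ K = M) ∧
      T ≠ M ∧ (T ⊓ W).relIndex R = T.relIndex M ∧ pw p R ⊔ ⁅R, R⁆ ≤ T := by
  have hTW : T < T ⊔ W := lt_of_le_of_ne le_sup_left (fun h1 => h (by
    rw [h1]
    exact le_sup_right))
  have hfin : {K : Subgroup G | T < K ∧ K ≤ T ⊔ W}.Finite := Set.toFinite _
  obtain ⟨M, ⟨hTM, hMW⟩, hmin⟩ := hfin.exists_minimal ⟨T ⊔ W, hTW, le_rfl⟩
  have hmul : ∀ m ∈ M, ∃ r ∈ M ⊓ W, r⁻¹ * m ∈ T := by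
    intro m hm
    obtain ⟨w, hw, hwm⟩ := mm_mul T W (fun t _ n hn => Subgroup.Normal.conj_mem ‹_› n hn t) m
      (hMW hm)
    refine ⟨w, Subgroup.mem_inf.2 ⟨?_, hw⟩, hwm⟩
    have e : w = m * (w⁻¹ * m)⁻¹ := by group
    rw [e]
    exact mul_mem hm (inv_mem (hTM.le hwm))
  have hmax : ∀ K : Subgroup G, T ≤ K → K ≤ M → K = T ∨ K = M := by
    intro K hTK hKM
    by_cases h1 : K = T
    · exact Or.inl h1
    · refine Or.inr (le_antisymm hKM ?_)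
      exact hmin ⟨lt_of_le_of_ne hTK (Ne.symm h1), hKM.trans hMW⟩ hKM
  have hconj : ∀ t ∈ T, (M ⊓ W).map (MulAut.conj t).toMonoidHom ≤ M ⊓ W := by
    rintro t ht _ ⟨r, hr, rfl⟩
    refine Subgroup.mem_inf.2 ⟨?_, ?_⟩
    · show t * r * t⁻¹ ∈ M
      exact mul_mem (mul_mem (hTM.le ht) hr.1) (inv_mem (hTM.le ht))
    · exact Subgroup.Normal.conj_mem ‹_› r hr.2 t
  have hpwmono : ∀ (H K : Subgroup G), H ≤ K → pw p H ≤ pw p K := by
    intro H K hHK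
    unfold pw
    refine Subgroup.closure_mono ?_
    rintro g ⟨y, hy, rfl⟩
    exact ⟨y, hHK hy, rfl⟩
  have hpwmap : ∀ (H : Subgroup G) (f : G →* G), (pw p H).map f ≤ pw p (H.map f) := by
    intro H f
    unfold pw
    rw [MonoidHom.map_closure]
    refine Subgroup.closure_mono ?_
    rintro _ ⟨_, ⟨y, hy, rfl⟩, rfl⟩
    exact ⟨f y, ⟨y, hy, rfl⟩, by rw [map_pow]⟩
  have hN1 : ∀ t ∈ T, ∀ n ∈ pw p (M ⊓ W) ⊔ ⁅M ⊓ W, M ⊓ W⁆,
      t * n * t⁻¹ ∈ pw p (M ⊓ W) ⊔ ⁅M ⊓ W, M ⊓ W⁆ := by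
    intro t ht n hn
    have h1 : (pw p (M ⊓ W) ⊔ ⁅M ⊓ W, M ⊓ W⁆).map (MulAut.conj t).toMonoidHom ≤
        pw p (M ⊓ W) ⊔ ⁅M ⊓ W, M ⊓ W⁆ := by
      rw [Subgroup.map_sup, Subgroup.map_commutator]
      exact sup_le_sup ((hpwmap _ _).trans (hpwmono _ _ (hconj t ht)))
        (Subgroup.commutator_mono (hconj t ht) (hconj t ht))
    exact h1 ⟨n, hn, rfl⟩
  refine ⟨M, M ⊓ W, hTM.le, Subgroup.index_strictAnti hTM, inf_le_right, inf_le_left,
    inf_le_inf_right _ hTM.le, hmul, hmax, hTM.ne, ?_, ?_⟩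
  · rw [← mm_relIndex T M (M ⊓ W) inf_le_left hmul, ← Subgroup.inf_relIndex_right (T ⊓ W),
      ← Subgroup.inf_relIndex_right T]
    congr 1
    ext g
    simp only [Subgroup.mem_inf]
    tauto
  · -- the last part
    have hN1R : pw p (M ⊓ W) ⊔ ⁅M ⊓ W, M ⊓ W⁆ ≤ M ⊓ W := by
      refine sup_le ?_ (Subgroup.commutator_le_self _)
      unfold pw
      rw [Subgroup.closure_le]
      rintro g ⟨y, hy, rfl⟩
      exact pow_mem hy p
    rcases hmax (T ⊔ (pw p (M ⊓ W) ⊔ ⁅M ⊓ W, M ⊓ W⁆)) le_sup_left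
      (sup_le hTM.le (hN1R.trans inf_le_left)) with h1 | h1
    · rw [← h1]
      exact le_sup_right
    · exfalso
      have hRne : (T ⊓ W).subgroupOf (M ⊓ W) ≠ ⊤ := by
        intro h2
        have h3 : M ⊓ W ≤ T ⊓ W := Subgroup.subgroupOf_eq_top.1 h2
        apply hTM.ne
        refine le_antisymm hTM.le ?_
        intro m hm
        obtain ⟨r, hr, hrm⟩ := hmul m hm
        have e : m = r * (r⁻¹ * m) := by group
        rw [e]
        exact mul_mem (h3 hr).1 hrm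
      have hRp : IsPGroup p ↥(M ⊓ W) := hW.of_injective (Subgroup.inclusion inf_le_right)
        (Subgroup.inclusion_injective _)
      obtain ⟨K, hK1, hK2, hK3, hK4⟩ := mm_frattini hRp _ hRne
      have hN1K : pw p (M ⊓ W) ⊔ ⁅M ⊓ W, M ⊓ W⁆ ≤ K.map (M ⊓ W).subtype := by
        refine sup_le ?_ ?_
        · unfold pw
          rw [Subgroup.closure_le]
          rintro g ⟨y, hy, rfl⟩
          exact ⟨⟨y, hy⟩ ^ p, hK3 _, rfl⟩
        · rw [Subgroup.commutator_le]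
          intro a ha b hb
          exact ⟨⁅⟨a, ha⟩, ⟨b, hb⟩⁆, hK4 _ _, rfl⟩
      apply hK1
      rw [eq_top_iff]
      rintro ⟨r, hr⟩ -
      have hr' : r ∈ T ⊔ (pw p (M ⊓ W) ⊔ ⁅M ⊓ W, M ⊓ W⁆) := by
        rw [h1]
        exact hr.1
      obtain ⟨n, hn, hnr⟩ := mm_mul T _ hN1 r hr'
      have h4 : n⁻¹ * r ∈ M ⊓ W := mul_mem (inv_mem (hN1R hn)) hr
      have h5 : (⟨n⁻¹ * r, h4⟩ : ↥(M ⊓ W)) ∈ K := hK2 (Subgroup.mem_subgroupOf.2 ⟨hnr, h4.2⟩)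
      obtain ⟨⟨n', hn'⟩, hnK, hnn⟩ := hN1K hn
      have hnn' : n' = n := hnn
      subst hnn'
      have h6 := mul_mem hnK h5
      have e : (⟨n', hn'⟩ : ↥(M ⊓ W)) * ⟨n'⁻¹ * r, h4⟩ = ⟨r, hr⟩ := by
        apply Subtype.ext
        show n' * (n'⁻¹ * r) = r
        group
      rw [e] at h6
      exact h6

end Pool.PWL
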