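import Pool.Agent.PWL.Basic

/-!
# A monomial line in a representation of a finite `p`-group
-/

set_option autoImplicit false

namespace Pool.PWL

section

variable {G : Type} [Group G] {X : Type} [AddCommGroup X] [Module ℂ X]

/-- the elements which act as scalars -/
def monoScal (ρ : Representation ℂ G X) : Subgroup G where
  carrier := {g | ∃ z : ℂ, z ≠ 0 ∧ ∀ w, ρ g w = z • w}
  one_mem' := ⟨1, one_ne_zero, fun w => by rw [map_one, one_smul]; rfl⟩
  mul_mem' := fun {a b} ha hb => by
    obtain ⟨z, hz, ha⟩ := ha
    obtain ⟨z', hz', hb⟩ := hb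
    refine ⟨z * z', mul_ne_zero hz hz', fun w => ?_⟩
    rw [map_mul]
    show ρ a (ρ b w) = _
    rw [hb, map_smul, ha, smul_smul, mul_comm]
  inv_mem' := fun {a} ha => by
    obtain ⟨z, hz, ha⟩ := ha
    refine ⟨z⁻¹, inv_ne_zero hz, fun w => ?_⟩
    have h1 : ρ a⁻¹ (ρ a w) = w := by
      rw [← Module.End.mul_apply, ← map_mul, inv_mul_cancel, map_one]
      rfl
    rw [ha, map_smul] at h1
    rw [eq_inv_smul_iff₀ hz]
    exact h1

theorem monoScal_normal (ρ : Representation ℂ G X) : (monoScal ρ).Normal := by
  refine ⟨fun n hn g => ?_⟩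
  obtain ⟨z, hz, hn⟩ := hn
  refine ⟨z, hz, fun w => ?_⟩
  rw [map_mul, map_mul]
  show ρ g (ρ n (ρ g⁻¹ w)) = z • w
  rw [hn, map_smul, ← Module.End.mul_apply, ← map_mul, mul_inv_cancel, map_one]
  rfl

/-- the elements which commute with `a` on `X` -/
def monoCent (ρ : Representation ℂ G X) (a : G) : Subgroup G where
  carrier := {g | ∀ w, ρ a (ρ g w) = ρ g (ρ a w)}
  one_mem' := fun w => by rw [map_one]; rfl
  mul_mem' := fun {x y} hx hy w => by
    rw [map_mul]
    show ρ a (ρ x (ρ y w)) = ρ x (ρ y (ρ a w))
    rw [hx, hy]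
  inv_mem' := fun {x} hx w => by
    have h1 : ∀ v, ρ x (ρ x⁻¹ v) = v := fun v => by
      rw [← Module.End.mul_apply, ← map_mul, mul_inv_cancel, map_one]; rfl
    have h2 : ∀ v, ρ x⁻¹ (ρ x v) = v := fun v => by
      rw [← Module.End.mul_apply, ← map_mul, inv_mul_cancel, map_one]; rfl
    have h3 := hx (ρ x⁻¹ w)
    rw [h1] at h3
    rw [h3, h2]

theorem mono_aux (p : ℕ) [Fact p.Prime] (n : ℕ) : ∀ (G : Type) [Group G] [Finite G]
    (X : Type) [AddCommGroup X] [Module ℂ X] [FiniteDimensional ℂ X] [Nontrivial X]
    (ρ : Representation ℂ G X), IsPGroup p G → Module.finrank ℂ X = n →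
    ∃ (H : Subgroup G) (v : X), v ≠ 0 ∧ H.index ≤ Module.finrank ℂ X ∧
      ∀ h ∈ H, ∃ z : ℂ, ρ h v = z • v := by
  induction n using Nat.strong_induction_on with
  | _ n ih =>
    intro G _ _ X _ _ _ _ ρ hG hn
    classical
    have hnorm := monoScal_normal ρ
    by_cases htop : monoScal ρ = ⊤
    · obtain ⟨v, hv⟩ := exists_ne (0 : X)
      refine ⟨⊤, v, hv, ?_, ?_⟩
      · rw [Subgroup.index_top]
        exact Module.finrank_pos
      · intro h _
        have hh : h ∈ monoScal ρ := htop ▸ Subgroup.mem_top h
        obtain ⟨z, -, hz⟩ := hh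
        exact ⟨z, hz v⟩
    · -- a non-scalar element which is central modulo the scalars
      have hQ : IsPGroup p (G ⧸ monoScal ρ) := hG.to_quotient _
      have hnt : Nontrivial (G ⧸ monoScal ρ) := QuotientGroup.nontrivial_iff.2 htop
      have hcn : Nontrivial (Subgroup.center (G ⧸ monoScal ρ)) := hQ.center_nontrivial
      obtain ⟨⟨abar, hac⟩, hane⟩ := exists_ne (1 : Subgroup.center (G ⧸ monoScal ρ))
      obtain ⟨a, rfl⟩ := QuotientGroup.mk_surjective abar
      have haC : a ∉ monoScal ρ := by
        intro h
        apply hane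
        apply Subtype.ext
        exact (QuotientGroup.eq_one_iff a).2 h
      have hs : ∀ h : G, ∃ z : ℂ, z ≠ 0 ∧ ∀ w, ρ a (ρ h w) = z • ρ h (ρ a w) := by
        intro h
        have h1 : (QuotientGroup.mk (h * a) : G ⧸ monoScal ρ) = QuotientGroup.mk (a * h) :=
          Subgroup.mem_center_iff.1 hac (QuotientGroup.mk h)
        rw [QuotientGroup.eq] at h1
        obtain ⟨z, hz, hzw⟩ := h1
        refine ⟨z, hz, fun w => ?_⟩
        have h2 : a * h = (h * a) * ((h * a)⁻¹ * (a * h)) := by group
        have h3 : ρ (a * h) w = ρ (h * a) (ρ ((h * a)⁻¹ * (a * h)) w) := by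
          conv_lhs => rw [h2]
          rw [map_mul]
          rfl
        rw [hzw, map_smul, map_mul, map_mul] at h3
        exact h3
      choose s hs0 hs using hs
      obtain ⟨μ, hμ⟩ := Module.End.exists_eigenvalue (ρ a)
      have hμ0 : μ ≠ 0 := by
        rintro rfl
        obtain ⟨w, hw⟩ := hμ.exists_hasEigenvector
        have h1 : ρ a w = 0 := by
          have := hw.apply_eq_smul
          rwa [zero_smul] at this
        have h2 : ρ a⁻¹ (ρ a w) = w := by
          rw [← Module.End.mul_apply, ← map_mul, inv_mul_cancel, map_one]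
          rfl
        rw [h1, map_zero] at h2
        exact hw.2 h2.symm
      set X1 : Submodule ℂ X := Module.End.eigenspace (ρ a) μ with hX1
      have hX1mem : ∀ w, w ∈ X1 ↔ ρ a w = μ • w := fun w => Module.End.mem_eigenspace_iff
      have hX1nt : Nontrivial X1 := by
        rw [Submodule.nontrivial_iff_ne_bot]
        exact hμ
      have hX1top : X1 ≠ ⊤ := by
        intro h
        apply haC
        refine ⟨μ, hμ0, fun w => ?_⟩
        exact (hX1mem w).1 (h ▸ Submodule.mem_top)
      set H1 := monoCent ρ a with hH1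
      have hH1mem : ∀ g, g ∈ H1 ↔ ∀ w, ρ a (ρ g w) = ρ g (ρ a w) := fun g => Iff.rfl
      have hinv : ∀ g : H1, ∀ w ∈ X1, ρ g w ∈ X1 := by
        intro g w hw
        rw [hX1mem] at hw ⊢
        rw [(hH1mem g).1 g.2 w, hw, map_smul]
      let ρ1 : Representation ℂ H1 X1 :=
        { toFun := fun g => (ρ g).restrict (hinv g)
          map_one' := by ext; simp
          map_mul' := fun x y => by ext; simp }
      have hρ1 : ∀ (g : H1) (w : X1), ((ρ1 g w : X1) : X) = ρ g w := fun g w => rfl
      have hlt : Module.finrank ℂ X1 < n := hn ▸ Submodule.finrank_lt hX1top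
      obtain ⟨H2, v, hv, hidx, hsc⟩ := ih _ hlt H1 X1 ρ1 (hG.to_subgroup H1) rfl
      -- the index of `H1`
      have hkey : H1.index * Module.finrank ℂ X1 ≤ Module.finrank ℂ X := by
        have hfin : Finite (G ⧸ H1) := inferInstance
        let _ : Fintype (G ⧸ H1) := Fintype.ofFinite _
        let Ψ : (G ⧸ H1 → X1) →ₗ[ℂ] X :=
          ∑ q : G ⧸ H1, (ρ q.out) ∘ₗ X1.subtype ∘ₗ (LinearMap.proj q)
        have hΨ : ∀ f, Ψ f = ∑ q : G ⧸ H1, ρ q.out (f q) := by
          intro f
          simp only [Ψ, LinearMap.sum_apply]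
          rfl
        have hsinj : Function.Injective (fun q : G ⧸ H1 => s q.out * μ) := by
          intro q q' hqq
          have h1 : s q.out = s q'.out := mul_right_cancel₀ hμ0 hqq
          have h2 : q.out⁻¹ * q'.out ∈ H1 := by
            have h3 : ∀ w, ρ a (ρ (q.out⁻¹ * q'.out) w) = ρ (q.out⁻¹ * q'.out) (ρ a w) := by
              intro w
              have e1 := hs q.out (ρ (q.out⁻¹ * q'.out) w)
              have e2 := hs q'.out w
              have e3' : ∀ v, ρ q.out (ρ (q.out⁻¹ * q'.out) v) = ρ q'.out v := by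
                intro v
                rw [← Module.End.mul_apply, ← map_mul, mul_inv_cancel_left]
              have e3 := e3' w
              have e4 := (e3' (ρ a w)).symm
              rw [e3, e2, e4, h1] at e1
              have e5 := smul_right_injective X (hs0 q'.out) e1
              have e6 : Function.Injective (ρ q.out) := by
                intro x y hxy
                have e7 := congrArg (ρ q.out⁻¹) hxy
                rw [← Module.End.mul_apply, ← Module.End.mul_apply, ← map_mul, inv_mul_cancel,
                  map_one] at e7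
                exact e7
              exact (e6 e5).symm
            exact h3
          have h3 : (QuotientGroup.mk q.out : G ⧸ H1) = QuotientGroup.mk q'.out :=
            QuotientGroup.eq.2 h2
          rwa [QuotientGroup.out_eq', QuotientGroup.out_eq'] at h3
        have hind : iSupIndep (fun q : G ⧸ H1 =>
            Module.End.eigenspace (ρ a) (s q.out * μ)) :=
          (Module.End.eigenspaces_iSupIndep (ρ a)).comp hsinj
        have hΨinj : Function.Injective Ψ := by
          rw [← LinearMap.ker_eq_bot, LinearMap.ker_eq_bot']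
          intro f hf
          rw [hΨ] at hf
          rw [iSupIndep_iff_finsetSum_eq_zero_imp_eq_zero] at hind
          funext q
          have h1 := hind Finset.univ (fun q => ρ q.out (f q)) (fun q _ => by
            rw [Module.End.mem_eigenspace_iff, hs, (hX1mem _).1 (f q).2, map_smul, smul_smul]) hf
            q (Finset.mem_univ q)
          apply Subtype.ext
          have h2 := congrArg (ρ q.out⁻¹) h1
          rw [← Module.End.mul_apply, ← map_mul, inv_mul_cancel, map_one, map_zero] at h2
          exact h2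
        have h1 := LinearMap.finrank_le_finrank_of_injective hΨinj
        rw [Module.finrank_pi_fintype] at h1
        rw [Finset.sum_const, Finset.card_univ, smul_eq_mul] at h1
        have h2 : H1.index = Fintype.card (G ⧸ H1) := by
          rw [Subgroup.index, Nat.card_eq_fintype_card]
        rw [h2]
        exact h1
      refine ⟨H2.map H1.subtype, v, ?_, ?_, ?_⟩
      · intro h
        exact hv (Subtype.ext h)
      · rw [Subgroup.index_map_subtype]
        calc H2.index * H1.index ≤ Module.finrank ℂ X1 * H1.index := Nat.mul_le_mul_right _ hidx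
          _ = H1.index * Module.finrank ℂ X1 := mul_comm _ _
          _ ≤ _ := hkey
      · rintro _ ⟨h, hh, rfl⟩
        obtain ⟨z, hz⟩ := hsc h hh
        exact ⟨z, congrArg Subtype.val hz⟩

end

/-! module Mono -/
theorem exists_line {G : Type} [Group G] [Finite G] {p : ℕ} [Fact p.Prime] (hG : IsPGroup p G)
    {X : Type} [AddCommGroup X] [Module ℂ X] [FiniteDimensional ℂ X] [Nontrivial X]
    (ρ : Representation ℂ G X) :
    ∃ (H : Subgroup G) (v : X), v ≠ 0 ∧ H.index ≤ Module.finrank ℂ X ∧
      ∀ h ∈ H, ∃ z : ℂ, ρ h v = z • v :=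
  mono_aux p _ G X ρ hG rfl

end Pool.PWL
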