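import Pool.Agent.PWL.Any
import Pool.Agent.PWL.Setup
import Pool.Agent.PWL.FitSyl
import Pool.Agent.PWL.CdQuot
import Pool.Agent.TKB.Final

/-!
# Normal Sylow subgroups: the number of character degrees
-/

namespace Pool.PWL

open scoped commutatorElement
open Pool.TKB

/-- Clifford's theorem: the irreducible constituents of the restriction to a normal subgroup have
the same dimension. -/
theorem clifford_dim {G : Type} [Group G] [Finite G] (N : Subgroup G) [N.Normal]
    (U : FDRep ℂ G) (hU : CategoryTheory.Simple U) (Θ Θ' : FDRep ℂ N)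
    (hΘ : CategoryTheory.Simple Θ) (hΘ' : CategoryTheory.Simple Θ')
    (i : Θ' →ₗ[ℂ] U) (hi : Function.Injective i)
    (hir : ∀ (s : N) (x : Θ'), i (Θ'.ρ s x) = U.ρ (s : G) (i x))
    (f : U →ₗ[ℂ] Θ) (hf : Function.Surjective f)
    (hfr : ∀ (s : N) (x : U), f (U.ρ (s : G) x) = Θ.ρ s (f x)) :
    Module.finrank ℂ Θ' = Module.finrank ℂ Θ := by
  have hnt : Nontrivial Θ := Pool.TKB.simple_nontrivial Θ
  have hnt' : Nontrivial Θ' := Pool.TKB.simple_nontrivial Θ'
  let K : Submodule ℂ U :=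
    { carrier := {u | ∀ g : G, f (U.ρ g u) = 0}
      add_mem' := fun {a b} ha hb g => by rw [map_add, map_add, ha g, hb g, add_zero]
      zero_mem' := fun g => by rw [map_zero, map_zero]
      smul_mem' := fun c a ha g => by rw [map_smul, map_smul, ha g, smul_zero] }
  have hK : ∀ g, ∀ w ∈ K, U.ρ g w ∈ K := by
    intro g w hw h
    have hw' : ∀ g : G, f (U.ρ g w) = 0 := hw
    have h1 : U.ρ h (U.ρ g w) = U.ρ (h * g) w := by rw [map_mul]; rfl
    rw [h1]
    exact hw' _
  have hKtop : K ≠ ⊤ := by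
    intro h
    obtain ⟨y, hy⟩ := exists_ne (0 : Θ)
    obtain ⟨u, rfl⟩ := hf y
    have hu : u ∈ K := h ▸ Submodule.mem_top
    have hu' : ∀ g : G, f (U.ρ g u) = 0 := hu
    apply hy
    have h1 := hu' 1
    rw [map_one] at h1
    exact h1
  have hKbot : K = ⊥ := (Pool.TKB.simple_inv U K hK).resolve_right hKtop
  obtain ⟨x, hx⟩ := exists_ne (0 : Θ')
  have hix : i x ∉ K := by
    rw [hKbot, Submodule.mem_bot]
    intro h
    exact hx (hi (by rw [h, map_zero]))
  obtain ⟨g, hg⟩ : ∃ g : G, f (U.ρ g (i x)) ≠ 0 := by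
    by_contra h
    push Not at h
    exact hix h
  let φ : Θ' →ₗ[ℂ] Θ := f ∘ₗ (U.ρ g) ∘ₗ i
  have hφ : ∀ (s : N) (y : Θ'), φ (Θ'.ρ s y) =
      Θ.ρ ⟨g * s * g⁻¹, Subgroup.Normal.conj_mem inferInstance (s : G) s.2 g⟩ (φ y) := by
    intro s y
    show f (U.ρ g (i (Θ'.ρ s y))) = _
    rw [hir]
    have h1 : U.ρ g (U.ρ (s : G) (i y)) = U.ρ (g * s * g⁻¹) (U.ρ g (i y)) := by
      rw [← Module.End.mul_apply, ← Module.End.mul_apply, ← map_mul, ← map_mul]
      congr 2
      group
    rw [h1]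
    exact hfr ⟨g * s * g⁻¹, Subgroup.Normal.conj_mem inferInstance (s : G) s.2 g⟩ (U.ρ g (i y))
  have hker : LinearMap.ker φ = ⊥ := by
    refine (Pool.TKB.simple_inv Θ' (LinearMap.ker φ) ?_).resolve_right ?_
    · intro s y hy
      rw [LinearMap.mem_ker] at hy ⊢
      rw [hφ, hy, map_zero]
    · intro h
      have hx' : x ∈ LinearMap.ker φ := h ▸ Submodule.mem_top
      exact hg hx'
  have hrange : LinearMap.range φ = ⊤ := by
    refine (Pool.TKB.simple_inv Θ (LinearMap.range φ) ?_).resolve_left ?_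
    · rintro t _ ⟨y, rfl⟩
      have hc : g⁻¹ * (t : G) * g ∈ N := by
        have := Subgroup.Normal.conj_mem (inferInstance : N.Normal) (t : G) t.2 g⁻¹
        rwa [inv_inv] at this
      refine ⟨Θ'.ρ ⟨g⁻¹ * t * g, hc⟩ y, ?_⟩
      rw [hφ]
      congr 2
      apply Subtype.ext
      show g * (g⁻¹ * t * g) * g⁻¹ = t
      group
    · intro h
      have hx' : φ x ∈ LinearMap.range φ := ⟨x, rfl⟩
      rw [h, Submodule.mem_bot] at hx'
      exact hg hx'
  exact (LinearEquiv.ofBijective φ ⟨LinearMap.ker_eq_bot.1 hker,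
    LinearMap.range_eq_top.1 hrange⟩).finrank_eq

/-- If `N` is a normal Sylow `p`-subgroup of `G`, the number of character degrees of `N` is at
most the number of `p`-parts of the character degrees of `G`. -/
theorem ncard_cd_normal_sylow {G : Type} [Group G] [Finite G] {p : ℕ} [hp : Fact p.Prime]
    (N : Subgroup G) [N.Normal] (hN : IsPGroup p N) (hidx : ¬ p ∣ N.index) :
    (cd N).ncard ≤ (padicValNat p '' cd G).ncard := by
  refine Set.ncard_le_ncard_of_injOn (padicValNat p) ?_ ?_ (cd_finite.image _)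
  · rintro _ ⟨Θ, hΘ, rfl⟩
    obtain ⟨b, hb⟩ := finrank_simple_pgroup hN Θ hΘ
    obtain ⟨U, hU, hUd, f, hf, hfr⟩ := exists_ind N Θ hΘ (p ^ (b + 1)) (by
      rw [hb, pow_succ']
      intro h
      exact hidx (Nat.dvd_of_mul_dvd_mul_right (pow_pos hp.out.pos b) h))
    have hntU : Nontrivial U := Pool.TKB.simple_nontrivial U
    have hU0 : Module.finrank ℂ U ≠ 0 := Module.finrank_pos.ne'
    have hUv : padicValNat p (Module.finrank ℂ U) ≤ b := by
      by_contra h
      apply hUd
      exact (pow_dvd_pow p (by omega)).trans pow_padicValNat_dvd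
    obtain ⟨Θ', hΘ', hΘd, i, hi, hir⟩ := exists_res N U
      (p ^ (padicValNat p (Module.finrank ℂ U) + 1)) (pow_succ_padicValNat_not_dvd hU0)
    have h1 := clifford_dim N U hU Θ Θ' hΘ hΘ' i hi hir f hf hfr
    rw [h1, hb] at hΘd
    have h2 : b ≤ padicValNat p (Module.finrank ℂ U) := by
      by_contra h
      apply hΘd
      exact pow_dvd_pow p (by omega)
    refine ⟨Module.finrank ℂ U, ⟨U, hU, rfl⟩, ?_⟩
    rw [hb, padicValNat.prime_pow]
    omega
  · rintro _ ⟨Θ, hΘ, rfl⟩ _ ⟨Θ', hΘ', rfl⟩ h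
    obtain ⟨b, hb⟩ := finrank_simple_pgroup hN Θ hΘ
    obtain ⟨b', hb'⟩ := finrank_simple_pgroup hN Θ' hΘ'
    have h' : padicValNat p (Module.finrank ℂ Θ) = padicValNat p (Module.finrank ℂ Θ') := h
    rw [hb, hb', padicValNat.prime_pow, padicValNat.prime_pow] at h'
    rw [hb, hb', h']

theorem cd_equiv {A B : Type} [Group A] [Group B] (e : A ≃* B) : cd A = cd B :=
  Set.Subset.antisymm (cd_subset_of_surjective e.symm.toMonoidHom e.symm.surjective)
    (cd_subset_of_surjective e.toMonoidHom e.surjective)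

/-- Normally monomial `p`-groups of maximal class. -/
theorem maxclass_derived (p c : ℕ) [Fact p.Prime] (G : Type) [Group G]
    (hcard : Nat.card G = p ^ (c + 1)) (hclass : Group.nilpotencyClass G = c)
    (hNM : NormallyMonomial G) :
    derivedSeries G (4 * Nat.clog 2 (cd G).ncard + 3) = ⊥ := by
  have hp : p.Prime := Fact.out
  have hfin : Finite G := by
    apply Nat.finite_of_card_ne_zero
    rw [hcard]
    exact pow_ne_zero _ hp.ne_zero
  have hnil : Group.IsNilpotent G := (IsPGroup.of_card hcard).isNilpotent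
  have hc0 : c ≠ 0 := by
    rintro rfl
    rw [Group.nilpotencyClass_zero_iff_subsingleton] at hclass
    have h1 : Nat.card G = 1 := Nat.card_eq_one_iff_unique.mpr ⟨hclass, ⟨1⟩⟩
    rw [h1, zero_add, pow_one] at hcard
    exact hp.one_lt.ne hcard
  have hbot : gm G (c + 1) = ⊥ :=
    Subgroup.lowerCentralSeries_eq_bot_iff_nilpotencyClass_le.mpr hclass.le
  rcases Nat.lt_or_ge c 2 with h2 | h2
  · have hc1 : c = 1 := by omega
    subst hc1
    have h3 : derivedSeries G 1 = ⊥ := by
      rw [← hbot]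
      rfl
    rw [eq_bot_iff, ← h3]
    exact derivedSeries_antitone G (by omega)
  · refine derived_bound_all (p := p) (c := c) ⟨hcard, h2, hbot, ?_⟩ hNM
    intro h3
    have h4 := Subgroup.lowerCentralSeries_eq_bot_iff_nilpotencyClass_le.mp
      (show (⊤ : Subgroup G).lowerCentralSeries (c - 1) = ⊥ from h3)
    omega

/-- Nilpotent normal Hall subgroups whose Sylow subgroups are normally monomial of maximal
class. -/
theorem fit_maxclass {G : Type} [Group G] [Finite G] (F : Subgroup G) [F.Normal]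
    (hF : Group.IsNilpotent F) (m : ℕ)
    (hm : ∀ p, p.Prime → p ∣ Nat.card F → (padicValNat p '' cd G).ncard ≤ m)
    (h : ∀ (p : ℕ) (_ : Fact p.Prime), p ∣ Nat.card F → ¬ p ∣ F.index ∧ ∀ S : Sylow p F,
      ∃ c, Nat.card (S : Subgroup F) = p ^ (c + 1) ∧
        Group.nilpotencyClass (S : Subgroup F) = c ∧ NormallyMonomial (S : Subgroup F)) :
    derivedSeries F (4 * Nat.clog 2 m + 3) = ⊥ := by
  refine fit_sylow F hF _ fun p hp hdvd S hN => ?_
  obtain ⟨hidx, hS⟩ := h p hp hdvd
  obtain ⟨c, hcard, hclass, hNM⟩ := hS S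
  have h1 := maxclass_derived p c (S : Subgroup F) hcard hclass hNM
  have hSp : IsPGroup p ((S : Subgroup F).map F.subtype) := S.2.map _
  let e : (S : Subgroup F) ≃* ((S : Subgroup F).map F.subtype) :=
    (S : Subgroup F).equivMapOfInjective F.subtype F.subtype_injective
  have hi : ¬ p ∣ ((S : Subgroup F).map F.subtype).index := by
    rw [Subgroup.index_map_subtype]
    intro hd
    rcases (hp.out.dvd_mul).1 hd with hd | hd
    · exact S.not_dvd_index hd
    · exact hidx hd
  have h2 := ncard_cd_normal_sylow ((S : Subgroup F).map F.subtype) hSp hi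
  rw [← cd_equiv e] at h2
  have h3 : derivedSeries ((S : Subgroup F).map F.subtype)
      (4 * Nat.clog 2 (cd (S : Subgroup F)).ncard + 3) = ⊥ := by
    rw [← map_derivedSeries_eq (f := e.toMonoidHom) e.surjective, h1, Subgroup.map_bot]
  rw [eq_bot_iff, ← h3]
  refine derivedSeries_antitone _ ?_
  have := Nat.clog_mono_right 2 (h2.trans (hm p hp.out hdvd))
  omega

end Pool.PWL
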