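import Pool.Agent.PWL.Basic
import Pool.Agent.PWL.DefsW
import Pool.Agent.PWL.Alg

/-!
# The norm step: a multiplicative function on a powerfully embedded normal subgroup
-/

namespace Pool.PWL

open scoped commutatorElement

section NormStep

/-- conjugation by `x` on a normal subgroup -/
private def ns_psi {G : Type*} [Group G] (P : Subgroup G) [hPn : P.Normal] (x : G) : P →* P where
  toFun g := ⟨x⁻¹ * g * x, by
    have := hPn.conj_mem g g.2 x⁻¹
    rwa [inv_inv] at this⟩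
  map_one' := by
    apply Subtype.ext
    simp
  map_mul' a b := by
    apply Subtype.ext
    show x⁻¹ * (↑(a * b) : G) * x = (x⁻¹ * (a : G) * x) * (x⁻¹ * (b : G) * x)
    rw [Subgroup.coe_mul]
    group

private theorem ns_psi_iter {G : Type*} [Group G] (P : Subgroup G) [P.Normal] (x : G) (j : ℕ)
    (g : P) : (((ns_psi P x)^[j] g : P) : G) = (x ^ j)⁻¹ * g * x ^ j := by
  induction j with
  | zero => simp
  | succ j ih =>
    rw [Function.iterate_succ_apply']
    show x⁻¹ * (((ns_psi P x)^[j] g : P) : G) * x = _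
    rw [ih, pow_succ]
    group

private theorem ns_pow_ab {G : Type*} [Group G] (P : Subgroup G) (n : ℕ) (c : P)
    (hc : (c : G) ∈ pw n P) : ∃ b : Abelianization P, Abelianization.of c = b ^ n := by
  have key : ∀ y : G, y ∈ pw n P → ∀ hy : y ∈ P, ∃ b : Abelianization P,
      Abelianization.of (⟨y, hy⟩ : P) = b ^ n := by
    intro y hy
    unfold pw at hy
    induction hy using Subgroup.closure_induction with
    | mem y hy =>
      obtain ⟨h, hh, rfl⟩ := hy
      intro hy'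
      refine ⟨Abelianization.of (⟨h, hh⟩ : P), ?_⟩
      rw [← map_pow]
      rfl
    | one =>
      intro hy'
      refine ⟨1, ?_⟩
      rw [one_pow]
      exact map_one _
    | mul a b ha hb iha ihb =>
      intro hy'
      have ha' : a ∈ P := pw_le_self n P ha
      have hb' : b ∈ P := pw_le_self n P hb
      obtain ⟨u, hu⟩ := iha ha'
      obtain ⟨v, hv⟩ := ihb hb'
      refine ⟨u * v, ?_⟩
      have : (⟨a * b, hy'⟩ : P) = ⟨a, ha'⟩ * ⟨b, hb'⟩ := rfl
      rw [this, map_mul, hu, hv, mul_pow]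
    | inv a ha iha =>
      intro hy'
      have ha' : a ∈ P := pw_le_self n P ha
      obtain ⟨u, hu⟩ := iha ha'
      refine ⟨u⁻¹, ?_⟩
      have : (⟨a⁻¹, hy'⟩ : P) = (⟨a, ha'⟩ : P)⁻¹ := rfl
      rw [this, map_inv, hu, inv_pow]
  exact key c hc c.2

private theorem ns_odd {G : Type*} [Group G] [Finite G] {p : ℕ} [Fact p.Prime] (hp2 : p ≠ 2)
    (W Q : Subgroup G) [Q.Normal] (hQ : IsPGroup p Q) (hP : ⁅Q, W⁆ ≤ pw p Q) (x : G)
    (hxW : x ∈ W) (ν : Q →* ℂˣ)
    (h : ∀ k : Q, ∏ j ∈ Finset.range p, ν ((ns_psi Q x)^[j] k) = 1) :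
    ∀ k : Q, ν (k ^ p) = 1 := by
  have hsurj : Function.Surjective (Abelianization.of : Q →* Abelianization Q) :=
    QuotientGroup.mk_surjective
  have hfin : Finite (Abelianization Q) := Finite.of_surjective _ hsurj
  have hA : IsPGroup p (Abelianization Q) := hQ.of_surjective _ hsurj
  let φ : Abelianization Q →* Abelianization Q := Abelianization.map (ns_psi Q x)
  let μ : Abelianization Q →* ℂˣ := Abelianization.lift ν
  have hφof : ∀ g : Q, φ (Abelianization.of g) = Abelianization.of (ns_psi Q x g) := by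
    intro g
    exact Abelianization.map_of _ _
  have hφit : ∀ (j : ℕ) (g : Q), φ^[j] (Abelianization.of g) =
      Abelianization.of ((ns_psi Q x)^[j] g) := by
    intro j g
    induction j with
    | zero => rfl
    | succ j ih => rw [Function.iterate_succ_apply', Function.iterate_succ_apply', ih, hφof]
  have hμof : ∀ g : Q, μ (Abelianization.of g) = ν g := by
    intro g
    exact Abelianization.lift_apply_of _ _
  have hφ : ∀ a, ∃ b, φ a = a * b ^ p := by
    intro a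
    obtain ⟨g, rfl⟩ := hsurj a
    have hc : ⁅(g : G)⁻¹, x⁻¹⁆ ∈ pw p Q :=
      hP (Subgroup.commutator_mem_commutator (Q.inv_mem g.2) (inv_mem hxW))
    obtain ⟨b, hb⟩ := ns_pow_ab Q p ⟨⁅(g : G)⁻¹, x⁻¹⁆, pw_le_self p Q hc⟩ hc
    refine ⟨b, ?_⟩
    rw [hφof, ← hb, ← map_mul]
    congr 1
    apply Subtype.ext
    show x⁻¹ * (g : G) * x = (g : G) * ⁅(g : G)⁻¹, x⁻¹⁆
    rw [commutatorElement_def]
    group
  have hμ : ∀ a, μ (∏ j ∈ Finset.range p, (φ^[j]) a) = 1 := by
    intro a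
    obtain ⟨g, rfl⟩ := hsurj a
    rw [map_prod, ← h g]
    refine Finset.prod_congr rfl (fun j _ => ?_)
    rw [hφit, hμof]
  have hnorm := norm_trick hp2 hA φ hφ μ hμ
  intro k
  have h2 := hnorm (Abelianization.of k)
  rw [← map_pow, hμof] at h2
  exact h2

private theorem ns_two {G : Type*} [Group G] [Finite G]
    (W P : Subgroup G) [P.Normal] (hG : IsPGroup 2 P) (hP : ⁅P, W⁆ ≤ pw 2 (pw 2 P)) (x : G)
    (hxW : x ∈ W) (μ : P →* ℂˣ) (hk : ∀ k : P, μ k * μ (ns_psi P x k) = 1) :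
    ∀ k : P, μ k ^ 2 = 1 := by
  have hpw1 : ∀ w, w ∈ pw 2 P → ∃ (hw : w ∈ P) (a : P), μ ⟨w, hw⟩ = μ a ^ 2 := by
    intro w hw
    have hwP := pw_le_self 2 P hw
    refine ⟨hwP, ?_⟩
    have : ∀ (w : G) (hw : w ∈ pw 2 P), ∃ a : P, μ ⟨w, pw_le_self 2 P hw⟩ = μ a ^ 2 := by
      intro w hw
      induction hw using Subgroup.closure_induction with
      | mem w hw =>
        obtain ⟨a, ha, rfl⟩ := hw
        exact ⟨⟨a, ha⟩, by rw [← map_pow]; rfl⟩
      | one => exact ⟨1, by rw [map_one, one_pow]; exact map_one μ⟩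
      | mul a b ha hb iha ihb =>
        obtain ⟨c, hc⟩ := iha
        obtain ⟨d, hd⟩ := ihb
        refine ⟨c * d, ?_⟩
        rw [map_mul, mul_pow, ← hc, ← hd, ← map_mul]; rfl
      | inv a ha iha =>
        obtain ⟨c, hc⟩ := iha
        refine ⟨c⁻¹, ?_⟩
        rw [map_inv, inv_pow, ← hc, ← map_inv]; rfl
    exact this w hw
  have hpw2 : ∀ w, w ∈ pw 2 (pw 2 P) → ∃ (hw : w ∈ P) (a : P), μ ⟨w, hw⟩ = (μ a ^ 2) ^ 2 := by
    have : ∀ (w : G) (hw : w ∈ pw 2 (pw 2 P)),
        ∃ a : P, μ ⟨w, pw_le_self 2 P (pw_le_self 2 _ hw)⟩ = (μ a ^ 2) ^ 2 := by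
      intro w hw
      induction hw using Subgroup.closure_induction with
      | mem w hw =>
        obtain ⟨b, hb, rfl⟩ := hw
        obtain ⟨hbP, a, ha⟩ := hpw1 b hb
        refine ⟨a, ?_⟩
        rw [← ha, ← map_pow]; rfl
      | one => exact ⟨1, by rw [map_one, one_pow, one_pow]; exact map_one μ⟩
      | mul a b ha hb iha ihb =>
        obtain ⟨c, hc⟩ := iha
        obtain ⟨d, hd⟩ := ihb
        refine ⟨c * d, ?_⟩
        rw [map_mul, mul_pow, mul_pow, ← hc, ← hd, ← map_mul]; rfl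
      | inv a ha iha =>
        obtain ⟨c, hc⟩ := iha
        refine ⟨c⁻¹, ?_⟩
        rw [map_inv, inv_pow, inv_pow, ← hc, ← map_inv]; rfl
    intro w hw
    exact ⟨pw_le_self 2 P (pw_le_self 2 _ hw), this w hw⟩
  have hstep : ∀ k : P, ∃ a : P, μ k ^ 2 = (μ a ^ 2) ^ 2 := by
    intro k
    have hk1 := hk k
    have hc : ⁅(k : G)⁻¹, x⁻¹⁆ ∈ pw 2 (pw 2 P) :=
      hP (Subgroup.commutator_mem_commutator (P.inv_mem k.2) (inv_mem hxW))
    obtain ⟨hcP, a, ha⟩ := hpw2 _ hc
    refine ⟨a⁻¹, ?_⟩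
    have e1 : μ (ns_psi P x k) = μ k * μ ⟨_, hcP⟩ := by
      rw [← map_mul]
      congr 1
      apply Subtype.ext
      show x⁻¹ * (k : G) * x = (k : G) * ⁅(k : G)⁻¹, x⁻¹⁆
      rw [commutatorElement_def]; group
    rw [e1, ha] at hk1
    rw [← mul_assoc, ← pow_two] at hk1
    rw [map_inv, inv_pow, inv_pow]
    exact eq_inv_of_mul_eq_one_left hk1
  have hiter : ∀ n : ℕ, ∀ k : P, ∃ a : P, μ k ^ 2 = (μ a ^ 2) ^ 2 ^ n := by
    intro n
    induction n with
    | zero => intro k; exact ⟨k, by rw [pow_zero, pow_one]⟩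
    | succ n ih =>
      intro k
      obtain ⟨a, ha⟩ := ih k
      obtain ⟨b, hb⟩ := hstep a
      refine ⟨b, ?_⟩
      rw [ha, hb, ← pow_mul, ← pow_succ']
  intro k
  obtain ⟨m, hm⟩ := IsPGroup.iff_card.mp hG
  obtain ⟨a, ha⟩ := hiter m k
  rw [ha, ← pow_mul, mul_comm, pow_mul, ← map_pow]
  have : a ^ 2 ^ m = 1 := by
    rw [← hm]; exact pow_card_eq_one'
  rw [this, map_one, one_pow]

theorem norm_step {G : Type*} [Group G] [Finite G] {p : ℕ} [Fact p.Prime] (W Q : Subgroup G)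
    [Q.Normal] (hQ : IsPGroup p Q) (hPE : PE p Q W) (x : G) (hx : x ∈ W) (f : G → ℂˣ)
    (hf : ∀ a ∈ Q, ∀ b ∈ Q, f (a * b) = f a * f b)
    (h : ∀ k ∈ Q, ∏ j ∈ Finset.range p, f ((x ^ j)⁻¹ * k * x ^ j) = 1) :
    ∀ k ∈ pw p Q, f k = 1 := by
  have hf1 : f 1 = 1 := by
    have h1 := hf 1 (one_mem _) 1 (one_mem _)
    rw [mul_one] at h1
    exact (mul_eq_left.mp h1.symm)
  let ν : Q →* ℂˣ :=
    { toFun := fun q => f q
      map_one' := hf1
      map_mul' := fun a b => hf a a.2 b b.2 }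
  have hν : ∀ q : Q, ν q = f q := fun _ => rfl
  have hprod : ∀ k : Q, ∏ j ∈ Finset.range p, ν ((ns_psi Q x)^[j] k) = 1 := by
    intro k
    rw [← h k k.2]
    refine Finset.prod_congr rfl (fun j _ => ?_)
    rw [hν, ns_psi_iter]
  have hpow : ∀ k : Q, ν (k ^ p) = 1 := by
    unfold PE at hPE
    by_cases h2 : p = 2
    · subst h2
      rw [if_pos rfl] at hPE
      intro k
      rw [map_pow]
      refine ns_two W Q hQ hPE x hx ν ?_ k
      intro k
      have h3 := hprod k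
      rw [Finset.prod_range_succ, Finset.prod_range_one] at h3
      exact h3
    · rw [if_neg h2] at hPE
      exact ns_odd h2 W Q hQ hPE x hx ν hprod
  intro k hk
  have key : ∀ k ∈ pw p Q, k ∈ Q ∧ f k = 1 := by
    intro k hk
    unfold pw at hk
    induction hk using Subgroup.closure_induction with
    | mem y hy =>
      obtain ⟨q, hq, rfl⟩ := hy
      exact ⟨Q.pow_mem hq p, hpow ⟨q, hq⟩⟩
    | one => exact ⟨one_mem _, hf1⟩
    | mul a b _ _ iha ihb =>
      exact ⟨mul_mem iha.1 ihb.1, by rw [hf a iha.1 b ihb.1, iha.2, ihb.2, one_mul]⟩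
    | inv a _ iha =>
      refine ⟨inv_mem iha.1, ?_⟩
      have h4 := hf a iha.1 a⁻¹ (inv_mem iha.1)
      rw [mul_inv_cancel, hf1, iha.2, one_mul] at h4
      exact h4.symm
  exact (key k hk).2

end NormStep

end Pool.PWL
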