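import Pool.Agent.PWL.DefsM

/-!
# Row QuotK: passage to the quotient by a normal subgroup of order prime to `p`
-/

namespace Pool.PWL

theorem quotK {G : Type} [Group G] [Finite G] {p : ℕ} [Fact p.Prime] (N K J : Subgroup G)
    [N.Normal] [K.Normal] [J.Normal] (hN : IsPGroup p N) (hKJ : K ≤ J)
    (hK : ¬ p ∣ Nat.card K) (a : ℕ) (hJ : K.relIndex J = p ^ a) (c : ℕ)
    (hc : ¬ p ^ (c + 1) ∣ J.index) (r : ℕ)
    (hr : ∀ H : Subgroup G, H ≤ N → ∃ S : Finset G, S.card ≤ r ∧
      Subgroup.closure (S : Set G) = H) :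
    ∃ N' S' : Subgroup (G ⧸ K), N'.Normal ∧ S'.Normal ∧ N' ≤ S' ∧ IsPGroup p S' ∧
      ¬ p ^ (c + 1) ∣ S'.index ∧
      (∀ H : Subgroup (G ⧸ K), H ≤ N' → ∃ S : Finset (G ⧸ K), S.card ≤ r ∧
        Subgroup.closure (S : Set (G ⧸ K)) = H) ∧
      (∀ n, derivedSeries N' n = ⊥ → derivedSeries N n = ⊥) := by
  classical
  have hsurj : Function.Surjective (QuotientGroup.mk' K) := QuotientGroup.mk'_surjective K
  have hker : (QuotientGroup.mk' K).ker = K := QuotientGroup.ker_mk' K
  have hnN : (N.map (QuotientGroup.mk' K)).Normal := Subgroup.Normal.map inferInstance _ hsurj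
  have hnJ : (J.map (QuotientGroup.mk' K)).Normal := Subgroup.Normal.map inferInstance _ hsurj
  refine ⟨N.map (QuotientGroup.mk' K), (J ⊔ N).map (QuotientGroup.mk' K), hnN,
    Subgroup.Normal.map inferInstance _ hsurj, Subgroup.map_mono le_sup_right, ?_, ?_, ?_, ?_⟩
  · rw [Subgroup.map_sup]
    have h1 : IsPGroup p (J.map (QuotientGroup.mk' K)) := by
      apply IsPGroup.of_card (n := a)
      rw [← Subgroup.relIndex_ker, hker, hJ]
    have h2 : IsPGroup p (N.map (QuotientGroup.mk' K)) := hN.map _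
    exact IsPGroup.to_sup_of_normal_right h1 h2
  · intro h
    apply hc
    rw [Subgroup.index_map, hker, MonoidHom.range_eq_top.mpr hsurj, Subgroup.index_top,
      mul_one] at h
    exact h.trans (Subgroup.index_dvd_of_le (le_sup_left.trans le_sup_left))
  · intro H hH
    obtain ⟨S, hS, hcl⟩ := hr (N ⊓ H.comap (QuotientGroup.mk' K)) inf_le_left
    refine ⟨S.image (QuotientGroup.mk' K), Finset.card_image_le.trans hS, ?_⟩
    rw [Finset.coe_image, ← MonoidHom.map_closure, hcl]
    apply le_antisymm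
    · rintro _ ⟨x, ⟨_, hx⟩, rfl⟩
      exact hx
    · intro h hh
      obtain ⟨x, hx, rfl⟩ := hH hh
      exact ⟨x, ⟨hx, hh⟩, rfl⟩
  · intro n hn
    have hinj : Function.Injective ((QuotientGroup.mk' K).subgroupMap N) := by
      rw [injective_iff_map_eq_one]
      rintro ⟨x, hx⟩ h
      have h1 : QuotientGroup.mk' K x = 1 := congrArg Subtype.val h
      have hxK : x ∈ K := by
        rw [← hker]
        exact h1
      obtain ⟨k, hk⟩ := (IsPGroup.iff_orderOf.mp hN) ⟨x, hx⟩
      rw [Subgroup.orderOf_mk] at hk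
      have hdvd : orderOf x ∣ Nat.card K := by
        have := orderOf_dvd_natCard (⟨x, hxK⟩ : K)
        rwa [Subgroup.orderOf_mk] at this
      have hk0 : k = 0 := by
        by_contra hne
        apply hK
        refine (dvd_pow_self p hne).trans ?_
        rw [← hk]
        exact hdvd
      rw [hk0, pow_zero, orderOf_eq_one_iff] at hk
      exact Subtype.ext hk
    have h1 := map_derivedSeries_le_derivedSeries ((QuotientGroup.mk' K).subgroupMap N) n
    rw [hn, le_bot_iff] at h1
    exact (Subgroup.map_eq_bot_iff_of_injective _ hinj).mp h1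

end Pool.PWL
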