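import Pool.Agent.PWL.Defs

/-!
# The index of a subgroup containing the Frattini subgroup
-/

namespace Pool.PWL

open scoped commutatorElement

private theorem closure_subM {G : Type*} [Group G] {N : Subgroup G} {S : Set G}
    (hS : Subgroup.closure S = N) :
    Subgroup.closure ((fun n : N => (n : G)) ⁻¹' S) = ⊤ := by
  have hsub : S ⊆ N := by rw [← hS]; exact Subgroup.subset_closure
  have h : (Subgroup.closure ((fun n : N => (n : G)) ⁻¹' S)).map N.subtype
      = (⊤ : Subgroup N).map N.subtype := by
    rw [MonoidHom.map_closure, ← MonoidHom.range_eq_map, Subgroup.range_subtype]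
    rw [← hS]
    congr 1
    ext g
    simp only [Subgroup.coe_subtype, Set.mem_image, Set.mem_preimage]
    constructor
    · rintro ⟨n, hn, rfl⟩
      exact hn
    · intro hg
      exact ⟨⟨g, hS ▸ hsub hg⟩, hg, rfl⟩
  exact Subgroup.map_injective N.subtype_injective h

private theorem relIndex_pw_dvdM {G : Type*} [Group G] [Finite G] (q : ℕ) (N : Subgroup G)
    (S : Finset G) (hS : Subgroup.closure (S : Set G) = N) :
    (pw q N ⊔ ⁅N, N⁆).relIndex N ∣ q ^ S.card := by
  classical
  set K : Subgroup N := (pw q N ⊔ ⁅N, N⁆).subgroupOf N with hK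
  have hcom : ∀ a b : N, ⁅a, b⁆ ∈ K := by
    intro a b
    rw [hK, Subgroup.mem_subgroupOf]
    exact (le_sup_right : _ ≤ pw q N ⊔ ⁅N, N⁆) (Subgroup.commutator_mem_commutator a.2 b.2)
  have hpow : ∀ a : N, a ^ q ∈ K := by
    intro a
    rw [hK, Subgroup.mem_subgroupOf]
    exact (le_sup_left : _ ≤ pw q N ⊔ ⁅N, N⁆) (Subgroup.subset_closure ⟨a, a.2, rfl⟩)
  have hn : K.Normal := by
    refine ⟨fun n hn g => ?_⟩
    have h1 : g * n * g⁻¹ = ⁅g, n⁆ * n := by rw [commutatorElement_def]; group
    rw [h1]
    exact K.mul_mem (hcom g n) hn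
  let _ : CommGroup (N ⧸ K) :=
    { (inferInstance : Group (N ⧸ K)) with
      mul_comm := by
        intro a b
        induction a using QuotientGroup.induction_on with
        | H a =>
          induction b using QuotientGroup.induction_on with
          | H b =>
            rw [← QuotientGroup.mk_mul, ← QuotientGroup.mk_mul, QuotientGroup.eq]
            have h1 : (a * b)⁻¹ * (b * a) = ⁅b⁻¹, a⁻¹⁆ := by rw [commutatorElement_def]; group
            rw [h1]
            exact hcom _ _ }
  have hexp : ∀ g : N ⧸ K, g ^ q = 1 := by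
    intro g
    induction g using QuotientGroup.induction_on with
    | H g =>
      rw [← QuotientGroup.mk_pow, QuotientGroup.eq_one_iff]
      exact hpow g
  have hcl := closure_subM hS
  set T : Finset N := S.preimage (fun n : N => (n : G)) (Subtype.val_injective.injOn) with hT
  have hT1 : Subgroup.closure ((T.image (QuotientGroup.mk' K) : Finset (N ⧸ K)) :
      Set (N ⧸ K)) = ⊤ := by
    rw [Finset.coe_image, ← MonoidHom.map_closure, hT, Finset.coe_preimage, hcl,
      ← MonoidHom.range_eq_map, QuotientGroup.range_mk']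
  have hT2 : (T.image (QuotientGroup.mk' K)).card ≤ S.card := by
    refine Finset.card_image_le.trans ?_
    rw [hT]
    rw [Finset.card_preimage]
    exact Finset.card_filter_le _ _
  have hrank : Group.rank (N ⧸ K) ≤ S.card := (Group.rank_le hT1).trans hT2
  have hdvd := card_dvd_exponent_pow_rank' (N ⧸ K) hexp
  have hcard : (pw q N ⊔ ⁅N, N⁆).relIndex N = Nat.card (N ⧸ K) := rfl
  rw [hcard]
  exact hdvd.trans (pow_dvd_pow q hrank)

theorem relIndex_of_rank {G : Type*} [Group G] [Finite G] {p : ℕ} [Fact p.Prime]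
    (R H : Subgroup G) (hR : IsPGroup p R) (hHR : H ≤ R) (hΦ : pw p R ⊔ ⁅R, R⁆ ≤ H)
    (S : Finset G) (hS : Subgroup.closure (S : Set G) = R) (r : ℕ) (hr : S.card ≤ r) :
    ∃ t ≤ r, H.relIndex R = p ^ t := by
  have h1 : H.relIndex R ∣ p ^ r :=
    (Subgroup.relIndex_dvd_of_le_left R hΦ).trans
      ((relIndex_pw_dvdM p R S hS).trans (pow_dvd_pow p hr))
  exact (Nat.dvd_prime_pow (Fact.out : p.Prime)).1 h1

end Pool.PWL
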