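import Pool.Agent.PWL.RegOmega

/-!
# Regular p-groups: powers
-/

namespace Pool.PWL

open scoped commutatorElement

/-- the elements of order dividing `p` -/
private def omg {G : Type*} [Group G] [Finite G] {p : ℕ} [Fact p.Prime] (hG : IsPGroup p G)
    (hr : IsRegularP p G) : Subgroup G where
  carrier := {g | g ^ p = 1}
  mul_mem' := fun ha hb => reg_omega hG hr ha hb
  one_mem' := one_pow p
  inv_mem' := by
    intro a ha
    show a⁻¹ ^ p = 1
    rw [inv_pow, show a ^ p = 1 from ha, inv_one]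

private theorem mem_omg {G : Type*} [Group G] [Finite G] {p : ℕ} [Fact p.Prime]
    {hG : IsPGroup p G} {hr : IsRegularP p G} {g : G} : g ∈ omg hG hr ↔ g ^ p = 1 := Iff.rfl

private theorem omg_normal {G : Type*} [Group G] [Finite G] {p : ℕ} [Fact p.Prime]
    (hG : IsPGroup p G) (hr : IsRegularP p G) : (omg hG hr).Normal := by
  constructor
  intro n hn g
  rw [mem_omg] at hn ⊢
  rw [conj_pow, hn]
  simp

private theorem omega_pow_aux {p : ℕ} [Fact p.Prime] (n : ℕ) :
    ∀ (G : Type*) [Group G] [Finite G], IsPGroup p G → IsRegularP p G → ∀ x y : G,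
      x ^ p ^ n = 1 → y ^ p ^ n = 1 → (x * y) ^ p ^ n = 1 := by
  induction n with
  | zero =>
    intro G _ _ _ _ x y hx hy
    rw [pow_zero, pow_one] at hx hy ⊢
    rw [hx, hy, mul_one]
  | succ n ih =>
    intro G _ _ hG hr x y hx hy
    have := omg_normal hG hr
    have key : ∀ g : G, g ^ p ^ (n + 1) = 1 ↔ (g : G ⧸ omg hG hr) ^ p ^ n = 1 := by
      intro g
      rw [← QuotientGroup.mk_pow, QuotientGroup.eq_one_iff, mem_omg, ← pow_mul, ← pow_succ]
    rw [key] at hx hy ⊢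
    rw [QuotientGroup.mk_mul]
    exact ih (G ⧸ omg hG hr) (hG.to_quotient _) (hr.quotient _) _ _ hx hy

theorem reg_omega_pow {G : Type*} [Group G] [Finite G] {p : ℕ} [Fact p.Prime] (hG : IsPGroup p G)
    (hr : IsRegularP p G) (n : ℕ) {x y : G} (hx : x ^ p ^ n = 1) (hy : y ^ p ^ n = 1) :
    (x * y) ^ p ^ n = 1 :=
  omega_pow_aux n G hG hr x y hx hy

private theorem pow_eq_one {G : Type*} [Group G] [Finite G] {p : ℕ} [Fact p.Prime]
    (hG : IsPGroup p G) (hr : IsRegularP p G) {x y : G} (h : (x⁻¹ * y) ^ p = 1) :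
    x ^ p = y ^ p := by
  have := omg_normal hG hr
  set u := x⁻¹ * y with hu
  obtain ⟨c, hc, hxy⟩ := hr x u
  have hy : x * u = y := by rw [hu]; group
  -- every element of the closure is a power of x modulo omg
  have hcl : ∀ g ∈ Subgroup.closure {x, u}, ∃ k : ℤ, (g : G ⧸ omg hG hr) = (x : G ⧸ omg hG hr) ^ k := by
    intro g hg
    induction hg using Subgroup.closure_induction with
    | mem g hg =>
      rcases hg with rfl | hg
      · exact ⟨1, by simp⟩
      · rw [Set.mem_singleton_iff] at hg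
        refine ⟨0, ?_⟩
        rw [zpow_zero, hg, QuotientGroup.eq_one_iff, mem_omg]
        exact h
    | one => exact ⟨0, by simp⟩
    | mul a b _ _ ha hb =>
      obtain ⟨k, hk⟩ := ha
      obtain ⟨l, hl⟩ := hb
      exact ⟨k + l, by rw [QuotientGroup.mk_mul, hk, hl, zpow_add]⟩
    | inv a _ ha =>
      obtain ⟨k, hk⟩ := ha
      exact ⟨-k, by rw [QuotientGroup.mk_inv, hk, zpow_neg]⟩
  have hcomm : ⁅Subgroup.closure {x, u}, Subgroup.closure {x, u}⁆ ≤ omg hG hr := by
    rw [Subgroup.commutator_le]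
    intro a ha b hb
    obtain ⟨k, hk⟩ := hcl a ha
    obtain ⟨l, hl⟩ := hcl b hb
    rw [← QuotientGroup.eq_one_iff]
    rw [commutatorElement_def, QuotientGroup.mk_mul, QuotientGroup.mk_mul, QuotientGroup.mk_mul,
      QuotientGroup.mk_inv, QuotientGroup.mk_inv, hk, hl]
    rw [← zpow_neg, ← zpow_neg, ← zpow_add, ← zpow_add, ← zpow_add]
    rw [show k + l + -k + -l = 0 by ring, zpow_zero]
  have hc1 : c = 1 := by
    have h1 : pw p ⁅Subgroup.closure {x, u}, Subgroup.closure {x, u}⁆ ≤ ⊥ := by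
      unfold pw
      rw [Subgroup.closure_le]
      rintro g ⟨a, ha, rfl⟩
      have := hcomm ha
      rw [mem_omg] at this
      rw [this]
      exact Subgroup.one_mem _
    exact Subgroup.mem_bot.1 (h1 hc)
  rw [hc1, mul_one, h, mul_one, hy] at hxy
  exact hxy.symm

private theorem pow_eq_aux {p : ℕ} [Fact p.Prime] (n : ℕ) :
    ∀ (G : Type*) [Group G] [Finite G], IsPGroup p G → IsRegularP p G → ∀ x y : G,
      (x⁻¹ * y) ^ p ^ n = 1 → x ^ p ^ n = y ^ p ^ n := by
  induction n with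
  | zero =>
    intro G _ _ _ _ x y h
    rw [pow_zero, pow_one] at h
    rw [inv_mul_eq_one.1 h]
  | succ n ih =>
    intro G _ _ hG hr x y h
    have := omg_normal hG hr
    have h1 : ((x : G ⧸ omg hG hr)⁻¹ * (y : G ⧸ omg hG hr)) ^ p ^ n = 1 := by
      rw [← QuotientGroup.mk_inv, ← QuotientGroup.mk_mul, ← QuotientGroup.mk_pow,
        QuotientGroup.eq_one_iff, mem_omg, ← pow_mul, ← pow_succ]
      exact h
    have h2 := ih (G ⧸ omg hG hr) (hG.to_quotient _) (hr.quotient _) _ _ h1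
    rw [← QuotientGroup.mk_pow, ← QuotientGroup.mk_pow, QuotientGroup.eq, mem_omg] at h2
    have h3 := pow_eq_one hG hr h2
    rw [← pow_mul, ← pow_mul, ← pow_succ] at h3
    exact h3

theorem reg_pow_eq {G : Type*} [Group G] [Finite G] {p : ℕ} [Fact p.Prime] (hG : IsPGroup p G)
    (hr : IsRegularP p G) (n : ℕ) {x y : G} (h : (x⁻¹ * y) ^ p ^ n = 1) :
    x ^ p ^ n = y ^ p ^ n :=
  pow_eq_aux n G hG hr x y h

theorem reg_commute {G : Type*} [Group G] [Finite G] {p : ℕ} [Fact p.Prime] (hG : IsPGroup p G)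
    (hr : IsRegularP p G) (i j : ℕ) (hexp : ∀ g : G, g ^ p ^ (i + j) = 1) (x y : G) :
    Commute (x ^ p ^ i) (y ^ p ^ j) := by
  set A := x ^ p ^ i with hA
  have hAj : A ^ p ^ j = 1 := by
    rw [hA, ← pow_mul, ← pow_add]
    exact hexp x
  have h1 : (y⁻¹ * A⁻¹ * y) ^ p ^ j = 1 := by
    have h2 : y⁻¹ * A⁻¹ * y = y⁻¹ * A⁻¹ * (y⁻¹)⁻¹ := by rw [inv_inv]
    rw [h2, conj_pow, inv_pow, hAj]
    simp
  have h3 := reg_omega_pow hG hr j h1 hAj
  have h4 : (y⁻¹ * (A⁻¹ * y * A)) ^ p ^ j = 1 := by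
    rw [show y⁻¹ * (A⁻¹ * y * A) = y⁻¹ * A⁻¹ * y * A by group]
    exact h3
  have h5 := reg_pow_eq hG hr j h4
  have h6 : A⁻¹ * y * A = A⁻¹ * y * (A⁻¹)⁻¹ := by rw [inv_inv]
  rw [h6, conj_pow, inv_inv] at h5
  -- h5 : y ^ p ^ j = A⁻¹ * y ^ p ^ j * A
  show A * y ^ p ^ j = y ^ p ^ j * A
  calc A * y ^ p ^ j = A * (A⁻¹ * y ^ p ^ j * A) := by rw [← h5]
    _ = y ^ p ^ j * A := by group

theorem reg_agemo {G : Type*} [Group G] [Finite G] {p : ℕ} [Fact p.Prime] (hG : IsPGroup p G)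
    (hr : IsRegularP p G) (N : Subgroup G) [N.Normal] (i j : ℕ) :
    ⁅pw (p ^ i) N, pw (p ^ j) N⁆ ≤ pw (p ^ (i + j)) N := by
  have hM : (pw (p ^ (i + j)) N).Normal := pw_normal _ _
  set M := pw (p ^ (i + j)) N with hMdef
  set f := QuotientGroup.mk' M with hf
  have key : ∀ a ∈ N, ∀ b ∈ N, Commute ((f a) ^ p ^ i) ((f b) ^ p ^ j) := by
    intro a ha b hb
    have hexp : ∀ g : N.map f, g ^ p ^ (i + j) = 1 := by
      rintro ⟨g, n, hn, rfl⟩
      apply Subtype.ext
      show (f n) ^ p ^ (i + j) = 1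
      rw [← map_pow]
      exact (QuotientGroup.eq_one_iff _).2 (Subgroup.subset_closure ⟨n, hn, rfl⟩)
    have h1 := reg_commute (G := N.map f) ((hG.to_quotient M).to_subgroup _)
      ((hr.quotient M).subgroup _) i j hexp ⟨f a, a, ha, rfl⟩ ⟨f b, b, hb, rfl⟩
    have h2 := congrArg Subtype.val h1.eq
    exact h2
  have h1 : ∀ a ∈ pw (p ^ i) N, ∀ b ∈ N, Commute (f a) ((f b) ^ p ^ j) := by
    intro a ha b hb
    unfold pw at ha
    induction ha using Subgroup.closure_induction with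
    | mem g hg =>
      obtain ⟨n, hn, rfl⟩ := hg
      rw [map_pow]
      exact key n hn b hb
    | one => rw [map_one]; exact Commute.one_left _
    | mul u v _ _ hu hv => rw [map_mul]; exact hu.mul_left hv
    | inv u _ hu => rw [map_inv]; exact hu.inv_left
  have h2 : ∀ a ∈ pw (p ^ i) N, ∀ b ∈ pw (p ^ j) N, Commute (f a) (f b) := by
    intro a ha b hb
    unfold pw at hb
    induction hb using Subgroup.closure_induction with
    | mem g hg =>
      obtain ⟨n, hn, rfl⟩ := hg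
      rw [map_pow]
      exact h1 a ha n hn
    | one => rw [map_one]; exact Commute.one_right _
    | mul u v _ _ hu hv => rw [map_mul]; exact hu.mul_right hv
    | inv u _ hu => rw [map_inv]; exact hu.inv_right
  rw [Subgroup.commutator_le]
  intro a ha b hb
  have h3 := h2 a ha b hb
  rw [← QuotientGroup.eq_one_iff]
  show f ⁅a, b⁆ = 1
  rw [map_commutatorElement, commutatorElement_eq_one_iff_mul_comm]
  exact h3.eq

end Pool.PWL
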