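import Pool.Agent.PWL.Ind
import Pool.Agent.PWL.Setup
import Pool.Agent.PWL.RegPow

/-!
# The step of the induction for regular `p`-groups
-/

namespace Pool.PWL

open scoped commutatorElement

/-- the elements of order dividing `p` -/
private def regStep_omg {G : Type*} [Group G] [Finite G] {p : ℕ} [Fact p.Prime]
    (hG : IsPGroup p G) (hr : IsRegularP p G) : Subgroup G where
  carrier := {g | g ^ p = 1}
  mul_mem' := fun ha hb => reg_omega hG hr ha hb
  one_mem' := one_pow p
  inv_mem' := by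
    intro a ha
    show a⁻¹ ^ p = 1
    rw [inv_pow, show a ^ p = 1 from ha, inv_one]

private theorem regStep_mem {G : Type*} [Group G] [Finite G] {p : ℕ} [Fact p.Prime]
    {hG : IsPGroup p G} {hr : IsRegularP p G} {g : G} :
    g ∈ regStep_omg hG hr ↔ g ^ p = 1 := Iff.rfl

private theorem regStep_normal {G : Type*} [Group G] [Finite G] {p : ℕ} [Fact p.Prime]
    (hG : IsPGroup p G) (hr : IsRegularP p G) : (regStep_omg hG hr).Normal := by
  constructor
  intro n hn g
  rw [regStep_mem] at hn ⊢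
  rw [conj_pow, hn]
  simp

private lemma regStep_cyc {G : Type*} [Group G] [Finite G] [Group.IsNilpotent G] (x y : G)
    (h : Subgroup.closure {x, y⁻¹ * x * y} = ⊤) : Subgroup.zpowers x = ⊤ := by
  by_contra hne
  obtain ⟨M, hM, hxM⟩ := (eq_top_or_exists_le_coatom (Subgroup.zpowers x)).resolve_left hne
  have hn : M.Normal :=
    Subgroup.NormalizerCondition.normal_of_coatom M
      (Group.normalizerCondition_of_isNilpotent (G := G)) hM
  apply hM.1
  rw [eq_top_iff, ← h, Subgroup.closure_le]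
  rintro g (rfl | rfl)
  · exact hxM (Subgroup.mem_zpowers _)
  · have := hn.conj_mem x (hxM (Subgroup.mem_zpowers _)) y⁻¹
    rwa [inv_inv] at this

/-- if `x` and `y` generate, and commute modulo the elements of order `p`, all commutators have
order dividing `p` -/
private lemma regStep_comm {G : Type*} [Group G] [Finite G] {p : ℕ} [Fact p.Prime]
    (hG : IsPGroup p G) (hr : IsRegularP p G) (x y : G) (hxy : (x⁻¹ * y⁻¹ * x * y) ^ p = 1) :
    pw p ⁅Subgroup.closure {x, y}, Subgroup.closure {x, y}⁆ = ⊥ := by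
  have hN := regStep_normal hG hr
  set N := regStep_omg hG hr with hNdef
  have hcomm : Commute (QuotientGroup.mk' N x) (QuotientGroup.mk' N y) := by
    have h1 : x⁻¹ * y⁻¹ * x * y ∈ N := hxy
    have h2 : QuotientGroup.mk' N (x⁻¹ * y⁻¹ * x * y) = 1 := (QuotientGroup.eq_one_iff _).2 h1
    rw [map_mul, map_mul, map_mul, map_inv, map_inv] at h2
    show _ * _ = _ * _
    have h3 := congrArg (fun z => (QuotientGroup.mk' N y) * (QuotientGroup.mk' N x) * z) h2
    simp only [mul_one] at h3
    rw [← h3]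
    group
  have hcl : ∀ s ∈ Subgroup.closure {x, y}, ∀ t ∈ Subgroup.closure {x, y},
      Commute (QuotientGroup.mk' N s) (QuotientGroup.mk' N t) := by
    have hx1 : ∀ s ∈ Subgroup.closure {x, y},
        Commute (QuotientGroup.mk' N s) (QuotientGroup.mk' N x) ∧
        Commute (QuotientGroup.mk' N s) (QuotientGroup.mk' N y) := by
      intro s hs
      induction hs using Subgroup.closure_induction with
      | mem g hg =>
        rcases hg with rfl | hg
        · exact ⟨Commute.refl _, hcomm⟩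
        · rw [Set.mem_singleton_iff] at hg
          subst hg
          exact ⟨hcomm.symm, Commute.refl _⟩
      | one =>
        rw [map_one]
        exact ⟨Commute.one_left _, Commute.one_left _⟩
      | mul a b _ _ ha hb =>
        rw [map_mul]
        exact ⟨ha.1.mul_left hb.1, ha.2.mul_left hb.2⟩
      | inv a _ ha =>
        rw [map_inv]
        exact ⟨ha.1.inv_left, ha.2.inv_left⟩
    intro s hs t ht
    induction ht using Subgroup.closure_induction with
    | mem g hg =>
      rcases hg with rfl | hg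
      · exact (hx1 s hs).1
      · rw [Set.mem_singleton_iff] at hg
        subst hg
        exact (hx1 s hs).2
    | one =>
      rw [map_one]
      exact Commute.one_right _
    | mul a b _ _ ha hb =>
      rw [map_mul]
      exact ha.mul_right hb
    | inv a _ ha =>
      rw [map_inv]
      exact ha.inv_right
  have hle : ⁅Subgroup.closure {x, y}, Subgroup.closure {x, y}⁆ ≤ N := by
    rw [Subgroup.commutator_le]
    intro s hs t ht
    rw [← QuotientGroup.eq_one_iff]
    have := hcl s hs t ht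
    rw [← commutatorElement_eq_one_iff_commute, ← map_commutatorElement] at this
    exact this
  rw [eq_bot_iff]
  refine pw_le fun d hd => ?_
  rw [Subgroup.mem_bot]
  exact hle hd

private lemma regStep_closure_inv {G : Type*} [Group G] (x y : G) :
    Subgroup.closure {x⁻¹, y} = Subgroup.closure {x, y} := by
  apply le_antisymm
  · rw [Subgroup.closure_le]
    rintro g (rfl | rfl)
    · exact Subgroup.inv_mem _ (Subgroup.subset_closure (by simp))
    · exact Subgroup.subset_closure (by simp)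
  · rw [Subgroup.closure_le]
    rintro g (rfl | rfl)
    · rw [← inv_inv g]
      exact Subgroup.inv_mem _ (Subgroup.subset_closure (by simp))
    · exact Subgroup.subset_closure (by simp)

private lemma regStep_gen {G : Type*} [Group G] [Finite G] {p : ℕ} [Fact p.Prime]
    (hG : IsPGroup p G) (hr : IsRegularP p G) (x y : G)
    (hgen : Subgroup.closure {x, y} = ⊤)
    (hind : ∀ a b : G, Subgroup.closure {a, b} ≠ ⊤ → a ^ p = b ^ p → (a⁻¹ * b) ^ p = 1)
    (hxy : x ^ p = y ^ p) : (x⁻¹ * y) ^ p = 1 := by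
  have hnil : Group.IsNilpotent G := hG.isNilpotent
  by_cases hc : Subgroup.closure {x, y⁻¹ * x * y} = ⊤
  · have h1 := regStep_cyc x y hc
    have hy : y ∈ Subgroup.zpowers x := by rw [h1]; trivial
    obtain ⟨i, hi⟩ := hy
    have hcom : Commute x⁻¹ y := by
      rw [← hi]
      exact (Commute.refl x).inv_left.zpow_right i
    rw [hcom.mul_pow, inv_pow, hxy, inv_mul_cancel]
  · have h1 := hind x (y⁻¹ * x * y) hc (by
      have h2 : y⁻¹ * x * y = y⁻¹ * x * (y⁻¹)⁻¹ := by rw [inv_inv]
      rw [h2, conj_pow, hxy, inv_inv, mul_assoc, ← pow_succ, pow_succ', inv_mul_cancel_left])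
    have h3 : (x⁻¹ * y⁻¹ * x * y) ^ p = 1 := by
      rw [show x⁻¹ * y⁻¹ * x * y = x⁻¹ * (y⁻¹ * x * y) by group]
      exact h1
    have h4 := regStep_comm hG hr x y h3
    obtain ⟨c, hc', hcc⟩ := hr x⁻¹ y
    rw [regStep_closure_inv, h4, Subgroup.mem_bot] at hc'
    rw [hcc, hc', mul_one, inv_pow, hxy, inv_mul_cancel]

private lemma regStep_aux {p : ℕ} [Fact p.Prime] (n : ℕ) :
    ∀ (G : Type*) [Group G] [Finite G], IsPGroup p G → IsRegularP p G → ∀ x y : G,
      Nat.card (Subgroup.closure {x, y} : Subgroup G) < n → x ^ p = y ^ p →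
        (x⁻¹ * y) ^ p = 1 := by
  induction n with
  | zero =>
    intro G _ _ _ _ x y h
    exact absurd h (Nat.not_lt_zero _)
  | succ n ih =>
    intro G _ _ hG hr x y hcard hxy
    set S : Subgroup G := Subgroup.closure {x, y} with hS
    have hxS : x ∈ S := Subgroup.subset_closure (by simp)
    have hyS : y ∈ S := Subgroup.subset_closure (by simp)
    have hgen : Subgroup.closure {(⟨x, hxS⟩ : S), ⟨y, hyS⟩} = ⊤ := by
      apply Subgroup.map_injective S.subtype_injective
      rw [MonoidHom.map_closure, Set.image_pair]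
      change Subgroup.closure {x, y} = _
      rw [← hS, ← MonoidHom.range_eq_map, Subgroup.range_subtype]
    have h1 := regStep_gen (hG.to_subgroup S) (hr.subgroup S) ⟨x, hxS⟩ ⟨y, hyS⟩ hgen (by
      intro a b hab hab2
      refine ih S (hG.to_subgroup S) (hr.subgroup S) a b ?_ hab2
      have h2 : Nat.card (Subgroup.closure {a, b} : Subgroup S) < Nat.card S := by
        refine lt_of_le_of_ne (Subgroup.card_le_card_group _) ?_
        intro h
        exact hab (Subgroup.eq_top_of_card_eq _ h)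
      omega) (Subtype.ext hxy)
    exact congrArg Subtype.val h1

/-- In a finite regular `p`-group, elements with the same `p`-th power differ by an element of
order dividing `p`. -/
theorem reg_eq_pow {G : Type*} [Group G] [Finite G] {p : ℕ} [Fact p.Prime] (hG : IsPGroup p G)
    (hr : IsRegularP p G) {x y : G} (h : x ^ p = y ^ p) : (x⁻¹ * y) ^ p = 1 :=
  regStep_aux _ G hG hr x y (Nat.lt_succ_self _) h

/-- In a finite regular `p`-group, if `a` commutes with `b ^ p` then the commutator of `a` and `b`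
has order dividing `p`. -/
theorem reg_comm_pow {G : Type*} [Group G] [Finite G] {p : ℕ} [Fact p.Prime] (hG : IsPGroup p G)
    (hr : IsRegularP p G) {a b : G} (h : a * b ^ p = b ^ p * a) :
    (a⁻¹ * (b⁻¹ * a * b)) ^ p = 1 := by
  have h1 : b ^ p = (a⁻¹ * b * a) ^ p := by
    have h2 : a⁻¹ * b * a = a⁻¹ * b * (a⁻¹)⁻¹ := by rw [inv_inv]
    rw [h2, conj_pow, inv_inv, mul_assoc, ← h, inv_mul_cancel_left]
  have h3 := reg_eq_pow hG hr h1
  have h4 : a⁻¹ * (b⁻¹ * a * b) = (b⁻¹ * (a⁻¹ * b * a))⁻¹ := by group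
  rw [h4, inv_pow, h3, inv_one]

/-- The character `ν ^ p` is invariant under `x`. -/
private lemma regStep_inv {G : Type*} [Group G] [Finite G] {p : ℕ} [Fact p.Prime]
    (hG : IsPGroup p G) (hr : IsRegularP p G) (H : Subgroup G) {M : Type*} [CommGroup M]
    (ν : H →* M) (x : G) (hxH : ∀ h : G, h ∈ H ↔ x⁻¹ * h * x ∈ H) (hxp : x ^ p ∈ H)
    (h h' : H) (hh : (h' : G) = x⁻¹ * h * x) : ν h' ^ p = ν h ^ p := by
  let N : Subgroup G := Subgroup.normalizer (H : Set G)
  have hHN : H ≤ N := Subgroup.le_normalizer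
  have hxN : x ∈ N := by
    have h1 : x⁻¹ ∈ N := by
      refine Subgroup.mem_normalizer_iff.2 fun g => ?_
      rw [inv_inv]
      exact hxH g
    rw [← inv_inv x]
    exact N.inv_mem h1
  let K : Subgroup N := (ν.ker.map H.subtype).subgroupOf N
  let L : Subgroup N := K.normalCore
  have hKmem : ∀ n : N, n ∈ K ↔ ∃ hn : (n : G) ∈ H, ν ⟨n, hn⟩ = 1 := by
    intro n
    show (n : G) ∈ ν.ker.map H.subtype ↔ _
    constructor
    · rintro ⟨y, hy, hyn⟩
      have hy2 : (y : G) = n := hyn
      refine ⟨hy2 ▸ y.2, ?_⟩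
      have h3 : (⟨(n : G), hy2 ▸ y.2⟩ : H) = y := Subtype.ext hy2.symm
      rw [h3]
      exact hy
    · rintro ⟨hn, hn1⟩
      exact ⟨⟨n, hn⟩, hn1, rfl⟩
  have hLn : L.Normal := inferInstance
  have hcommL : ∀ a b : N, (a : G) ∈ H → (b : G) ∈ H → a⁻¹ * b⁻¹ * a * b ∈ L := by
    intro a b ha hb g
    have hga : ((g * a * g⁻¹ : N) : G) ∈ H := (Subgroup.mem_normalizer_iff.1 g.2 a).1 ha
    have hgb : ((g * b * g⁻¹ : N) : G) ∈ H := (Subgroup.mem_normalizer_iff.1 g.2 b).1 hb
    rw [hKmem]
    set a' : H := ⟨_, hga⟩ with ha'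
    set b' : H := ⟨_, hgb⟩ with hb'
    have h4 : ((g * (a⁻¹ * b⁻¹ * a * b) * g⁻¹ : N) : G) = ((a'⁻¹ * b'⁻¹ * a' * b' : H) : G) := by
      rw [ha', hb']
      push_cast
      group
    refine ⟨h4 ▸ (a'⁻¹ * b'⁻¹ * a' * b').2, ?_⟩
    have h5 : (⟨((g * (a⁻¹ * b⁻¹ * a * b) * g⁻¹ : N) : G), h4 ▸ (a'⁻¹ * b'⁻¹ * a' * b').2⟩ : H) =
        a'⁻¹ * b'⁻¹ * a' * b' := Subtype.ext h4
    rw [h5, map_mul, map_mul, map_mul, map_inv, map_inv]
    rw [mul_right_comm, inv_mul_cancel_right, inv_mul_cancel]
  let a : N := ⟨h, hHN h.2⟩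
  let b : N := ⟨x, hxN⟩
  have hQ : IsPGroup p (N ⧸ L) := (hG.to_subgroup N).to_quotient L
  have hQr : IsRegularP p (N ⧸ L) := (hr.subgroup N).quotient L
  have h6 : (QuotientGroup.mk' L a) * (QuotientGroup.mk' L b) ^ p =
      (QuotientGroup.mk' L b) ^ p * (QuotientGroup.mk' L a) := by
    have h7 : a⁻¹ * (b ^ p)⁻¹ * a * b ^ p ∈ L := hcommL a (b ^ p) h.2 hxp
    have h8 : QuotientGroup.mk' L (a⁻¹ * (b ^ p)⁻¹ * a * b ^ p) = 1 :=
      (QuotientGroup.eq_one_iff _).2 h7
    rw [map_mul, map_mul, map_mul, map_inv, map_inv, map_pow] at h8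
    have h9 := congrArg
      (fun z => ((QuotientGroup.mk' L b) ^ p) * (QuotientGroup.mk' L a) * z) h8
    simp only [mul_one] at h9
    rw [← h9]
    group
  have h10 := reg_comm_pow hQ hQr h6
  rw [← map_inv, ← map_inv, ← map_mul, ← map_mul, ← map_mul, ← map_pow] at h10
  have h11 : (a⁻¹ * (b⁻¹ * a * b)) ^ p ∈ L := (QuotientGroup.eq_one_iff _).1 h10
  have h12 : (a⁻¹ * (b⁻¹ * a * b)) ^ p ∈ K := Subgroup.normalCore_le K h11
  obtain ⟨h13, h14⟩ := (hKmem _).1 h12
  have h15 : (⟨_, h13⟩ : H) = (h⁻¹ * h') ^ p := by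
    apply Subtype.ext
    push_cast
    rw [hh]
  rw [h15, map_pow, map_mul, map_inv, mul_pow, inv_pow] at h14
  exact (inv_mul_eq_one.1 h14).symm

/-! module RegStep -/
theorem reg_step {G : Type} [Group G] [Finite G] {p : ℕ} [Fact p.Prime]
    (hG : IsPGroup p G) (hr : IsRegularP p G) (k : G)
    (V : FDRep ℂ G) (hV : CategoryTheory.Simple V) (h1 : 1 < Module.finrank ℂ V)
    (hK : ∀ U : FDRep ℂ G, CategoryTheory.Simple U → Module.finrank ℂ U < Module.finrank ℂ V →
      ∀ u : U, U.ρ k u = u) : ∀ v : V, V.ρ (k ^ p) v = v := by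
  obtain ⟨H, v, ν, x, hv, hidx, hν, hxH, hxn, hxp⟩ := exists_setup hG V hV h1
  have hconj : ∀ g : G, V.ρ ((g * k * g⁻¹) ^ p) v = v := by
    intro g
    obtain ⟨hmem, hω⟩ := trivial_on_ind H ((powMonoidHom p).comp ν) x hxH hxn
      (fun h h' hh => regStep_inv hG hr H ν x hxn hxp h h' hh) (g * k * g⁻¹) (by
        intro U hU hUd u
        have h2 := hK U hU (hUd.trans_le hidx) (U.ρ g⁻¹ u)
        rw [map_mul, map_mul]
        show U.ρ g (U.ρ k (U.ρ g⁻¹ u)) = u
        rw [h2, ← Module.End.mul_apply, ← map_mul, mul_inv_cancel, map_one]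
        rfl)
    have h3 : ν (⟨g * k * g⁻¹, hmem⟩ ^ p) = 1 := by
      rw [map_pow]
      exact hω
    have h4 := hν (⟨g * k * g⁻¹, hmem⟩ ^ p)
    rw [h3, Units.val_one, one_smul] at h4
    exact h4
  let F : Subgroup G :=
    { carrier := {g | V.ρ g v = v}
      mul_mem' := by
        intro a b ha hb
        show V.ρ (a * b) v = v
        rw [map_mul, Module.End.mul_apply, show V.ρ b v = v from hb, show V.ρ a v = v from ha]
      one_mem' := by
        show V.ρ 1 v = v
        rw [map_one]
        rfl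
      inv_mem' := by
        intro a ha
        show V.ρ a⁻¹ v = v
        have h5 : V.ρ a v = v := ha
        conv_lhs => rw [← h5]
        rw [← Module.End.mul_apply, ← map_mul, inv_mul_cancel, map_one]
        rfl }
  have hle : Subgroup.normalClosure {k ^ p} ≤ F := by
    rw [Subgroup.normalClosure, Subgroup.closure_le]
    intro y hy
    rw [Group.mem_conjugatesOfSet_iff] at hy
    obtain ⟨z, hz, hzy⟩ := hy
    rw [Set.mem_singleton_iff] at hz
    subst hz
    obtain ⟨g, hg⟩ := isConj_iff.1 hzy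
    rw [← hg]
    show V.ρ (g * k ^ p * g⁻¹) v = v
    rw [← conj_pow]
    exact hconj g
  exact trivial_of_fixed V hV (Subgroup.normalClosure {k ^ p}) v hv (fun n hn => hle hn) (k ^ p)
    (Subgroup.subset_normalClosure rfl)

end Pool.PWL
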