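import Pool.Agent.PWL.RegPow
import Pool.Agent.PWL.RegStep
import Pool.Agent.PWL.Count
import Pool.Agent.PWL.ChainW

/-!
# Regular p-groups: exponent of the commutator subgroup and the reduction of the derived length
-/

namespace Pool.PWL

open scoped commutatorElement
open Pool.TKB

variable {G : Type} [Group G] [Finite G] {p : ℕ} [Fact p.Prime]

/-- In a regular `p`-group the exponent of the commutator subgroup divides `p ^ (|cd(G)| - 1)`. -/
theorem reg_exponent (hG : IsPGroup p G) (hr : IsRegularP p G) :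
    ∀ g ∈ ⁅(⊤ : Subgroup G), (⊤ : Subgroup G)⁆, g ^ p ^ ((cd G).ncard - 1) = 1 := by
  let N := ⁅(⊤ : Subgroup G), (⊤ : Subgroup G)⁆
  have hbot : pw (p ^ ((cd G).ncard - 1)) N = ⊥ := by
    refine chain_trivial (p := p) (fun i => pw (p ^ i) N) ?_ ?_ ?_
    · show pw (p ^ 0) N = N
      refine le_antisymm (pw_le_self _ _) fun x hx => ?_
      have := pow_mem_pw (n := p ^ 0) hx
      simpa using this
    · refine antitone_nat_of_succ_le fun i => pw_le fun x hx => ?_
      show x ^ p ^ (i + 1) ∈ pw (p ^ i) N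
      have e : x ^ p ^ (i + 1) = (x ^ p) ^ p ^ i := by rw [← pow_mul, pow_succ']
      rw [e]
      exact pow_mem_pw (N.pow_mem hx p)
    · intro i V hV h1 hK
      have hle : pw (p ^ (i + 1)) N ≤ (V.ρ : G →* (V →ₗ[ℂ] V)).ker := by
        refine pw_le fun x hx => ?_
        rw [MonoidHom.mem_ker]
        apply LinearMap.ext
        intro v
        have e : x ^ p ^ (i + 1) = (x ^ p ^ i) ^ p := by rw [← pow_mul, pow_succ]
        rw [e]
        exact reg_step hG hr (x ^ p ^ i) V hV h1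
          (fun U hU hlt u => hK U hU hlt _ (pow_mem_pw hx) u) v
      intro k hk v
      have := hle hk
      rw [MonoidHom.mem_ker] at this
      rw [this]; rfl
  intro g hg
  have h1 : g ^ p ^ ((cd G).ncard - 1) ∈ pw (p ^ ((cd G).ncard - 1)) N := pow_mem_pw hg
  rw [hbot, Subgroup.mem_bot] at h1
  exact h1

theorem reg_derived_le (hG : IsPGroup p G) (hr : IsRegularP p G) (d : ℕ)
    (hd : derivedSeries G d ≤ pw p ⁅(⊤ : Subgroup G), (⊤ : Subgroup G)⁆) (s : ℕ) :
    derivedSeries G (d + s) ≤ pw (p ^ 2 ^ s) ⁅(⊤ : Subgroup G), (⊤ : Subgroup G)⁆ := by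
  induction s with
  | zero => simpa using hd
  | succ s ih =>
    rw [← add_assoc, derivedSeries_succ]
    refine (Subgroup.commutator_mono ih ih).trans ?_
    have := reg_agemo hG hr ⁅(⊤ : Subgroup G), (⊤ : Subgroup G)⁆ (2 ^ s) (2 ^ s)
    rwa [← two_mul, ← pow_succ'] at this

theorem reg_derived_bot (hG : IsPGroup p G) (hr : IsRegularP p G) (d : ℕ)
    (hd : derivedSeries G d ≤ pw p ⁅(⊤ : Subgroup G), (⊤ : Subgroup G)⁆) :
    derivedSeries G (d + Nat.clog 2 (cd G).ncard) = ⊥ := by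
  rw [eq_bot_iff]
  refine (reg_derived_le hG hr d hd (Nat.clog 2 (cd G).ncard)).trans (pw_le fun x hx => ?_)
  have h1 := reg_exponent hG hr x hx
  have h2 : (cd G).ncard ≤ 2 ^ Nat.clog 2 (cd G).ncard := Nat.le_pow_clog (by norm_num) _
  obtain ⟨e, he⟩ : p ^ ((cd G).ncard - 1) ∣ p ^ 2 ^ Nat.clog 2 (cd G).ncard :=
    pow_dvd_pow p (by omega)
  rw [Subgroup.mem_bot, he, pow_mul, h1, one_pow]

/-- There is a normal subgroup `N` with `G / N` of exponent dividing `p` that controls the derived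
length up to `1 + ⌈log₂ |cd(G)|⌉`. -/
theorem reg_reduction (hG : IsPGroup p G) (hr : IsRegularP p G) :
    ∃ N : Subgroup G, N.Normal ∧ (∀ g : G, g ^ p ∈ N) ∧
      ∀ d, derivedSeries G d ≤ N → derivedSeries G (d + 1 + Nat.clog 2 (cd G).ncard) = ⊥ := by
  let D := ⁅(⊤ : Subgroup G), (⊤ : Subgroup G)⁆
  let U := pw p D
  let N : Subgroup G := (Subgroup.center (G ⧸ U)).comap (QuotientGroup.mk' U)
  have hmem : ∀ x : G, x ∈ N ↔ ∀ g : G, ⁅x, g⁆ ∈ U := by
    intro x
    rw [Subgroup.mem_comap, Subgroup.mem_center_iff]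
    constructor
    · intro h g
      rw [← QuotientGroup.eq_one_iff]
      show ⁅(x : G ⧸ U), (g : G ⧸ U)⁆ = 1
      rw [commutatorElement_eq_one_iff_mul_comm]
      exact (h (g : G ⧸ U)).symm
    · intro h q
      obtain ⟨g, rfl⟩ := QuotientGroup.mk_surjective q
      have h1 := h g
      rw [← QuotientGroup.eq_one_iff] at h1
      have h2 : ⁅(x : G ⧸ U), (g : G ⧸ U)⁆ = 1 := h1
      rw [commutatorElement_eq_one_iff_mul_comm] at h2
      exact h2.symm
  refine ⟨N, inferInstance, ?_, ?_⟩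
  · intro x
    rw [hmem]
    intro g
    -- in the regular group `G / U` one has `[x, g]^p = 1`, hence `(x^p)^g = x^p`
    have hrq := hr.quotient U
    have hGq : IsPGroup p (G ⧸ U) := hG.to_quotient U
    rw [← QuotientGroup.eq_one_iff]
    show ⁅(x : G ⧸ U) ^ p, (g : G ⧸ U)⁆ = 1
    have h1 : (((x : G ⧸ U))⁻¹ * ((g : G ⧸ U) * (x : G ⧸ U) * (g : G ⧸ U)⁻¹)) ^ p ^ 1 = 1 := by
      rw [pow_one]
      have h2 : (x⁻¹ * (g * x * g⁻¹)) ^ p ∈ U := by
        apply pow_mem_pw
        have e : x⁻¹ * (g * x * g⁻¹) = ⁅x⁻¹, g⁆ := by rw [commutatorElement_def]; group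
        rw [e]
        exact Subgroup.commutator_mem_commutator (Subgroup.mem_top _) (Subgroup.mem_top _)
      rw [← QuotientGroup.eq_one_iff] at h2
      exact h2
    have h3 := reg_pow_eq hGq hrq 1 h1
    rw [pow_one] at h3
    rw [commutatorElement_eq_one_iff_mul_comm]
    have h4 : (g : G ⧸ U) * (x : G ⧸ U) ^ p * (g : G ⧸ U)⁻¹ = (x : G ⧸ U) ^ p := by
      rw [← conj_pow, ← h3]
    rw [mul_inv_eq_iff_eq_mul] at h4
    exact h4.symm
  · intro d hd
    refine reg_derived_bot hG hr (d + 1) ?_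
    rw [derivedSeries_succ, Subgroup.commutator_le]
    intro x hx g _
    exact (hmem x).mp (hd hx) g

end Pool.PWL
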