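import Pool.Agent.PWL.Basic

/-!
# Regular `p`-groups: subgroups, quotients, and the elements of order `p`
-/

namespace Pool.PWL

open scoped commutatorElement

private lemma RegOmega_map_pair {A B : Type*} [Group A] [Group B] (f : A →* B) (x y : A) :
    (Subgroup.closure {x, y}).map f = Subgroup.closure {f x, f y} := by
  rw [MonoidHom.map_closure, Set.image_pair]

private lemma RegOmega_map_pw {A B : Type*} [Group A] [Group B] (f : A →* B) (p : ℕ) (x y : A) :
    (pw p ⁅Subgroup.closure {x, y}, Subgroup.closure {x, y}⁆).map f =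
      pw p ⁅Subgroup.closure {f x, f y}, Subgroup.closure {f x, f y}⁆ := by
  rw [map_pw, Subgroup.map_commutator, RegOmega_map_pair]

theorem IsRegularP.subgroup {G : Type*} [Group G] {p : ℕ} (h : IsRegularP p G) (H : Subgroup G) :
    IsRegularP p H := by
  intro x y
  obtain ⟨c, hc, hxy⟩ := h x y
  have h1 := RegOmega_map_pw H.subtype p x y
  simp only [Subgroup.coe_subtype] at h1
  rw [← h1] at hc
  obtain ⟨c', hc', rfl⟩ := hc
  refine ⟨c', hc', ?_⟩
  apply Subtype.ext
  simpa using hxy

theorem IsRegularP.quotient {G : Type*} [Group G] {p : ℕ} (h : IsRegularP p G) (N : Subgroup G)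
    [N.Normal] : IsRegularP p (G ⧸ N) := by
  intro x y
  obtain ⟨a, rfl⟩ := QuotientGroup.mk'_surjective N x
  obtain ⟨b, rfl⟩ := QuotientGroup.mk'_surjective N y
  obtain ⟨c, hc, hab⟩ := h a b
  refine ⟨QuotientGroup.mk' N c, ?_, ?_⟩
  · rw [← RegOmega_map_pw]
    exact ⟨c, hc, rfl⟩
  · rw [← map_mul, ← map_pow, hab, map_mul, map_mul, map_pow, map_pow]

/-- A nilpotent group generated by an abelian subgroup and the commutator subgroup is abelian. -/
private lemma RegOmega_nilp {G : Type*} [Group G] [Group.IsNilpotent G] (A : Subgroup G)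
    (hA : ∀ a ∈ A, ∀ b ∈ A, Commute a b)
    (h : A ⊔ ⁅(⊤ : Subgroup G), (⊤ : Subgroup G)⁆ = ⊤) :
    ⁅(⊤ : Subgroup G), (⊤ : Subgroup G)⁆ = ⊥ := by
  set D : Subgroup G := ⁅(⊤ : Subgroup G), (⊤ : Subgroup G)⁆ with hD
  have h1 : D ≤ ⁅D, (⊤ : Subgroup G)⁆ := by
    have hcd : ∀ d ∈ D, ∀ s : G, Commute (QuotientGroup.mk' ⁅D, (⊤ : Subgroup G)⁆ d)
        (QuotientGroup.mk' ⁅D, (⊤ : Subgroup G)⁆ s) := by
      intro d hd s
      rw [← commutatorElement_eq_one_iff_commute, ← map_commutatorElement]
      exact (QuotientGroup.eq_one_iff _).2 (Subgroup.commutator_mem_commutator hd trivial)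
    have hall : ∀ s t : G, Commute (QuotientGroup.mk' ⁅D, (⊤ : Subgroup G)⁆ s)
        (QuotientGroup.mk' ⁅D, (⊤ : Subgroup G)⁆ t) := by
      intro s t
      have hs : s ∈ A ⊔ D := by rw [h]; trivial
      have ht : t ∈ A ⊔ D := by rw [h]; trivial
      rw [Subgroup.mem_sup_of_normal_right] at hs ht
      obtain ⟨a, ha, d, hd, rfl⟩ := hs
      obtain ⟨b, hb, e, he, rfl⟩ := ht
      rw [map_mul]
      refine Commute.mul_left ?_ (hcd d hd _)
      rw [map_mul]
      exact Commute.mul_right ((hA a ha b hb).map _) (hcd e he a).symm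
    conv_lhs => rw [hD]
    rw [Subgroup.commutator_le]
    intro s _ t _
    rw [← QuotientGroup.eq_one_iff]
    have := hall s t
    rw [← commutatorElement_eq_one_iff_commute, ← map_commutatorElement] at this
    exact this
  have h2 : ∀ k : ℕ, D ≤ Subgroup.lowerCentralSeries (⊤ : Subgroup G) k := by
    intro k
    induction k with
    | zero => exact le_top
    | succ k ih =>
      exact h1.trans (Subgroup.commutator_mono ih le_rfl)
  obtain ⟨n, hn⟩ := Subgroup.nilpotent_iff_lowerCentralSeries.1 ‹Group.IsNilpotent G›
  exact le_bot_iff.1 (hn ▸ h2 n)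

/-- The step of the induction. -/
private lemma RegOmega_step {G : Type*} [Group G] [Finite G] {p : ℕ} [Fact p.Prime]
    (hG : IsPGroup p G) (hr : IsRegularP p G) (x y : G) (hgen : Subgroup.closure {x, y} = ⊤)
    (hind : ∀ a b : G, Subgroup.closure {a, b} ≠ ⊤ → a ^ p = 1 → b ^ p = 1 → (a * b) ^ p = 1)
    (hx : x ^ p = 1) (hy : y ^ p = 1) : (x * y) ^ p = 1 := by
  have hnil : Group.IsNilpotent G := hG.isNilpotent
  set D : Subgroup G := ⁅(⊤ : Subgroup G), (⊤ : Subgroup G)⁆ with hD
  have key : ∀ d ∈ D, d ^ p = 1 := by
    by_cases hbot : D = ⊥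
    · intro d hd
      rw [hbot, Subgroup.mem_bot] at hd
      rw [hd, one_pow]
    · have hDtop : D ≠ ⊤ := by
        intro h
        apply hbot
        refine RegOmega_nilp ⊥ ?_ ?_
        · intro a ha b hb
          rw [Subgroup.mem_bot] at ha
          rw [ha]
          exact Commute.one_left b
        · rw [← hD, h]
          simp
      have hxyD : ⁅x, y⁆ ∈ D := Subgroup.commutator_mem_commutator trivial trivial
      have hcl : Subgroup.closure {x, y * x⁻¹ * y⁻¹} ≠ ⊤ := by
        intro h
        apply hbot
        refine RegOmega_nilp (Subgroup.zpowers x) ?_ ?_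
        · rintro a ⟨i, rfl⟩ b ⟨j, rfl⟩
          exact Commute.zpow_zpow_self x i j
        · rw [← hD, eq_top_iff, ← h, Subgroup.closure_le]
          rintro g (rfl | rfl)
          · exact Subgroup.mem_sup_left (Subgroup.mem_zpowers _)
          · have h3 : y * x⁻¹ * y⁻¹ = x⁻¹ * ⁅x, y⁆ := by
              rw [commutatorElement_def]; group
            rw [h3]
            exact Subgroup.mul_mem_sup (Subgroup.inv_mem _ (Subgroup.mem_zpowers _)) hxyD
      have hc : ⁅x, y⁆ ^ p = 1 := by
        have h4 := hind x (y * x⁻¹ * y⁻¹) hcl hx (by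
          rw [conj_pow, inv_pow, hx, inv_one, mul_one, mul_inv_cancel])
        have h5 : x * (y * x⁻¹ * y⁻¹) = ⁅x, y⁆ := by
          rw [commutatorElement_def]; group
        rw [← h5]
        exact h4
      let N : Subgroup G :=
        { carrier := {d | d ∈ D ∧ d ^ p = 1}
          mul_mem' := by
            rintro a b ⟨ha, ha'⟩ ⟨hb, hb'⟩
            refine ⟨D.mul_mem ha hb, hind a b ?_ ha' hb'⟩
            intro h
            apply hDtop
            rw [eq_top_iff, ← h, Subgroup.closure_le]
            rintro g (rfl | rfl)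
            · exact ha
            · exact hb
          one_mem' := ⟨D.one_mem, one_pow p⟩
          inv_mem' := by
            rintro a ⟨ha, ha'⟩
            refine ⟨D.inv_mem ha, ?_⟩
            rw [inv_pow, ha', inv_one] }
      have hN : N.Normal := by
        refine ⟨fun d hd g => ⟨?_, ?_⟩⟩
        · exact (inferInstance : D.Normal).conj_mem d hd.1 g
        · rw [conj_pow, hd.2, mul_one, mul_inv_cancel]
      have hxyN : ⁅x, y⁆ ∈ N := ⟨hxyD, hc⟩
      have hcomm : Commute (QuotientGroup.mk' N x) (QuotientGroup.mk' N y) := by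
        rw [← commutatorElement_eq_one_iff_commute, ← map_commutatorElement]
        exact (QuotientGroup.eq_one_iff _).2 hxyN
      have hmem : ∀ (K : Subgroup G), x ∈ K → y ∈ K → ∀ s : G, s ∈ K := by
        intro K hxK hyK s
        have : Subgroup.closure {x, y} ≤ K := by
          rw [Subgroup.closure_le]
          rintro g (rfl | rfl)
          · exact hxK
          · exact hyK
        rw [hgen] at this
        exact this trivial
      have hx1 : ∀ s : G, Commute (QuotientGroup.mk' N s) (QuotientGroup.mk' N x) := by
        intro s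
        have := hmem ((Subgroup.centralizer {QuotientGroup.mk' N x}).comap (QuotientGroup.mk' N))
          (by
            rw [Subgroup.mem_comap, Subgroup.mem_centralizer_singleton_iff])
          (by
            rw [Subgroup.mem_comap, Subgroup.mem_centralizer_singleton_iff]
            exact hcomm.symm) s
        rw [Subgroup.mem_comap, Subgroup.mem_centralizer_singleton_iff] at this
        exact this
      have hy1 : ∀ s : G, Commute (QuotientGroup.mk' N s) (QuotientGroup.mk' N y) := by
        intro s
        have := hmem ((Subgroup.centralizer {QuotientGroup.mk' N y}).comap (QuotientGroup.mk' N))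
          (by
            rw [Subgroup.mem_comap, Subgroup.mem_centralizer_singleton_iff]
            exact hcomm)
          (by
            rw [Subgroup.mem_comap, Subgroup.mem_centralizer_singleton_iff]) s
        rw [Subgroup.mem_comap, Subgroup.mem_centralizer_singleton_iff] at this
        exact this
      have hall : ∀ s t : G, Commute (QuotientGroup.mk' N s) (QuotientGroup.mk' N t) := by
        intro s t
        have := hmem ((Subgroup.centralizer {QuotientGroup.mk' N s}).comap (QuotientGroup.mk' N))
          (by
            rw [Subgroup.mem_comap, Subgroup.mem_centralizer_singleton_iff]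
            exact (hx1 s).symm)
          (by
            rw [Subgroup.mem_comap, Subgroup.mem_centralizer_singleton_iff]
            exact (hy1 s).symm) t
        rw [Subgroup.mem_comap, Subgroup.mem_centralizer_singleton_iff] at this
        exact (show Commute _ _ from this).symm
      have hDN : D ≤ N := by
        rw [hD, Subgroup.commutator_le]
        intro s _ t _
        rw [← QuotientGroup.eq_one_iff]
        have := hall s t
        rw [← commutatorElement_eq_one_iff_commute, ← map_commutatorElement] at this
        exact this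
      intro d hd
      exact (hDN hd).2
  obtain ⟨c, hc, hxy⟩ := hr x y
  rw [hgen] at hc
  have hc1 : c = 1 := by
    have : pw p D ≤ ⊥ := pw_le fun d hd => by rw [Subgroup.mem_bot]; exact key d hd
    exact Subgroup.mem_bot.1 (this hc)
  rw [hxy, hx, hy, hc1, one_mul, one_mul]

private lemma RegOmega_aux {p : ℕ} [Fact p.Prime] (n : ℕ) :
    ∀ (G : Type*) [Group G] [Finite G], IsPGroup p G → IsRegularP p G → ∀ x y : G,
      Nat.card (Subgroup.closure {x, y} : Subgroup G) < n → x ^ p = 1 → y ^ p = 1 →
        (x * y) ^ p = 1 := by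
  induction n with
  | zero =>
    intro G _ _ _ _ x y h
    exact absurd h (Nat.not_lt_zero _)
  | succ n ih =>
    intro G _ _ hG hr x y hcard hx hy
    set S : Subgroup G := Subgroup.closure {x, y} with hS
    have hxS : x ∈ S := Subgroup.subset_closure (by simp)
    have hyS : y ∈ S := Subgroup.subset_closure (by simp)
    have hgen : Subgroup.closure {(⟨x, hxS⟩ : S), ⟨y, hyS⟩} = ⊤ := by
      apply Subgroup.map_injective S.subtype_injective
      rw [RegOmega_map_pair]
      change Subgroup.closure {x, y} = _
      rw [← hS, ← MonoidHom.range_eq_map, Subgroup.range_subtype]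
    have h1 := RegOmega_step (hG.to_subgroup S) (hr.subgroup S) ⟨x, hxS⟩ ⟨y, hyS⟩ hgen (by
      intro a b hab ha hb
      refine ih S (hG.to_subgroup S) (hr.subgroup S) a b ?_ ha hb
      have h2 : Nat.card (Subgroup.closure {a, b} : Subgroup S) < Nat.card S := by
        refine lt_of_le_of_ne (Subgroup.card_le_card_group _) ?_
        intro h
        exact hab (Subgroup.eq_top_of_card_eq _ h)
      omega) (Subtype.ext hx) (Subtype.ext hy)
    exact congrArg Subtype.val h1

theorem reg_omega {G : Type*} [Group G] [Finite G] {p : ℕ} [Fact p.Prime] (hG : IsPGroup p G)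
    (hr : IsRegularP p G) {x y : G} (hx : x ^ p = 1) (hy : y ^ p = 1) : (x * y) ^ p = 1 :=
  RegOmega_aux _ G hG hr x y (Nat.lt_succ_self _) hx hy

end Pool.PWL
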