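import Pool.Agent.PWL.RegStep
import Pool.Agent.PWL.SetupW
import Pool.Agent.PWL.DefsW

/-!
# The step of the induction for regular normal subgroups of `p`-groups
-/

namespace Pool.PWL

open scoped commutatorElement

/-- The character `ν ^ p` is invariant under `x`, if `x` lies in a regular normal subgroup. -/
private lemma regStepW_inv {G : Type*} [Group G] [Finite G] {p : ℕ} [Fact p.Prime]
    (hG : IsPGroup p G) (W : Subgroup G) [hWn : W.Normal] (hr : IsRegularP p W) (H : Subgroup G)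
    {M : Type*} [CommGroup M] (ν : H →* M) (x : G) (hxW : x ∈ W)
    (hxH : ∀ h : G, h ∈ H ↔ x⁻¹ * h * x ∈ H) (hxp : x ^ p ∈ H)
    (h h' : H) (hh : (h' : G) = x⁻¹ * h * x) : ν h' ^ p = ν h ^ p := by
  let N : Subgroup G := Subgroup.normalizer (H : Set G)
  have hHN : H ≤ N := Subgroup.le_normalizer
  have hxN : x ∈ N := by
    have h1 : x⁻¹ ∈ N := by
      refine Subgroup.mem_normalizer_iff.2 fun g => ?_
      rw [inv_inv]
      exact hxH g
    rw [← inv_inv x]
    exact N.inv_mem h1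
  let K : Subgroup N := (ν.ker.map H.subtype).subgroupOf N
  let L : Subgroup N := K.normalCore
  have hKmem : ∀ n : N, n ∈ K ↔ ∃ hn : (n : G) ∈ H, ν ⟨n, hn⟩ = 1 := by
    intro n
    show (n : G) ∈ ν.ker.map H.subtype ↔ _
    constructor
    · rintro ⟨y, hy, hyn⟩
      have hy2 : (y : G) = n := hyn
      refine ⟨hy2 ▸ y.2, ?_⟩
      have h3 : (⟨(n : G), hy2 ▸ y.2⟩ : H) = y := Subtype.ext hy2.symm
      rw [h3]
      exact hy
    · rintro ⟨hn, hn1⟩
      exact ⟨⟨n, hn⟩, hn1, rfl⟩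
  have hLn : L.Normal := inferInstance
  have hcommL : ∀ a b : N, (a : G) ∈ H → (b : G) ∈ H → a⁻¹ * b⁻¹ * a * b ∈ L := by
    intro a b ha hb g
    have hga : ((g * a * g⁻¹ : N) : G) ∈ H := (Subgroup.mem_normalizer_iff.1 g.2 a).1 ha
    have hgb : ((g * b * g⁻¹ : N) : G) ∈ H := (Subgroup.mem_normalizer_iff.1 g.2 b).1 hb
    rw [hKmem]
    set a' : H := ⟨_, hga⟩ with ha'
    set b' : H := ⟨_, hgb⟩ with hb'
    have h4 : ((g * (a⁻¹ * b⁻¹ * a * b) * g⁻¹ : N) : G) = ((a'⁻¹ * b'⁻¹ * a' * b' : H) : G) := by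
      rw [ha', hb']
      push_cast
      group
    refine ⟨h4 ▸ (a'⁻¹ * b'⁻¹ * a' * b').2, ?_⟩
    have h5 : (⟨((g * (a⁻¹ * b⁻¹ * a * b) * g⁻¹ : N) : G), h4 ▸ (a'⁻¹ * b'⁻¹ * a' * b').2⟩ : H) =
        a'⁻¹ * b'⁻¹ * a' * b' := Subtype.ext h4
    rw [h5, map_mul, map_mul, map_mul, map_inv, map_inv]
    rw [mul_right_comm, inv_mul_cancel_right, inv_mul_cancel]
  let a : N := ⟨h, hHN h.2⟩
  let b : N := ⟨x, hxN⟩
  let M' : Subgroup W := N.subgroupOf W
  let φ : M' →* N :=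
    { toFun := fun m => ⟨((m : W) : G), m.2⟩
      map_one' := rfl
      map_mul' := fun _ _ => rfl }
  let L' : Subgroup M' := L.comap φ
  have hL'n : L'.Normal := inferInstance
  have hyW : (h : G)⁻¹ * x * h ∈ W := by
    have h1 := hWn.conj_mem x hxW (h : G)⁻¹
    rwa [inv_inv] at h1
  have hyN : (h : G)⁻¹ * x * h ∈ N :=
    N.mul_mem (N.mul_mem (N.inv_mem (hHN h.2)) hxN) (hHN h.2)
  let xm : M' := ⟨⟨x, hxW⟩, hxN⟩
  let ym : M' := ⟨⟨(h : G)⁻¹ * x * h, hyW⟩, hyN⟩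
  have hQ : IsPGroup p (M' ⧸ L') := ((hG.to_subgroup W).to_subgroup M').to_quotient L'
  have hQr : IsRegularP p (M' ⧸ L') := (hr.subgroup M').quotient L'
  have hyp : (ym : M') ^ p = ⟨⟨(h : G)⁻¹ * x ^ p * h, by
      have h1 := hWn.conj_mem (x ^ p) (W.pow_mem hxW p) (h : G)⁻¹
      rwa [inv_inv] at h1⟩,
      N.mul_mem (N.mul_mem (N.inv_mem (hHN h.2)) (N.pow_mem hxN p)) (hHN h.2)⟩ := by
    apply Subtype.ext
    apply Subtype.ext
    show ((h : G)⁻¹ * x * h) ^ p = (h : G)⁻¹ * x ^ p * h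
    have h2 := conj_pow (i := p) (a := (h : G)⁻¹) (b := x)
    rw [inv_inv] at h2
    exact h2
  have h6 : (QuotientGroup.mk' L' ym) ^ p = (QuotientGroup.mk' L' xm) ^ p := by
    rw [← map_pow, ← map_pow]
    show (QuotientGroup.mk (ym ^ p) : M' ⧸ L') = QuotientGroup.mk (xm ^ p)
    rw [QuotientGroup.eq]
    show φ ((ym ^ p)⁻¹ * xm ^ p) ∈ L
    have h7 := hcommL a (b ^ p) h.2 hxp
    have h8 : φ ((ym ^ p)⁻¹ * xm ^ p) = a⁻¹ * (b ^ p)⁻¹ * a * b ^ p := by
      rw [hyp]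
      apply Subtype.ext
      show ((h : G)⁻¹ * x ^ p * h)⁻¹ * x ^ p = (h : G)⁻¹ * (x ^ p)⁻¹ * h * x ^ p
      group
    rw [h8]
    exact h7
  have h10 := reg_eq_pow hQ hQr h6
  rw [← map_inv, ← map_mul, ← map_pow] at h10
  have h11 : (ym⁻¹ * xm) ^ p ∈ L' := (QuotientGroup.eq_one_iff _).1 h10
  have h12 : φ ((ym⁻¹ * xm) ^ p) ∈ K := Subgroup.normalCore_le K h11
  obtain ⟨h13, h14⟩ := (hKmem _).1 h12
  have h15 : (⟨_, h13⟩ : H) = (h⁻¹ * h') ^ p := by
    apply Subtype.ext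
    show (((h : G)⁻¹ * x * h)⁻¹ * x) ^ p = ((h : G)⁻¹ * (h' : G)) ^ p
    rw [hh]
    congr 1
    group
  rw [h15, map_pow, map_mul, map_inv, mul_pow, inv_pow] at h14
  exact (inv_mul_eq_one.1 h14).symm

/-! row RegStepW -/
theorem reg_stepW {G : Type} [Group G] [Finite G] {p : ℕ} [Fact p.Prime]
    (hG : IsPGroup p G) (N : Subgroup G) [N.Normal] (hr : IsRegularP p N) (k : G)
    (hk : k ∈ ⁅N, N⁆) (V : FDRep ℂ G) (hV : CategoryTheory.Simple V)
    (hK : ∀ U : FDRep ℂ G, CategoryTheory.Simple U → Module.finrank ℂ U < Module.finrank ℂ V →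
      ∀ u : U, U.ρ k u = u) : ∀ v : V, V.ρ (k ^ p) v = v := by
  obtain ⟨H, v, ν, hv, hidx, hν, hcase⟩ := exists_setupW hG N V hV
  have hconj : ∀ g : G, V.ρ ((g * k * g⁻¹) ^ p) v = v := by
    intro g
    rcases hcase with hNH | ⟨x, hxN, hxH, hxn, hxp⟩
    · have hn : (⁅N, N⁆ : Subgroup G).Normal := inferInstance
      have h1 : g * k * g⁻¹ ∈ ⁅H, H⁆ := Subgroup.commutator_mono hNH hNH (hn.conj_mem k hk g)
      have h2 : ∀ y ∈ ⁅H, H⁆, V.ρ y v = v := by
        intro y hy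
        have h3 : ⁅H, H⁆ ≤ (ν.ker.map H.subtype : Subgroup G) := by
          rw [Subgroup.commutator_le]
          intro a ha b hb
          refine ⟨⁅(⟨a, ha⟩ : H), ⟨b, hb⟩⁆, ?_, rfl⟩
          show ν _ = 1
          rw [map_commutatorElement, commutatorElement_eq_one_iff_commute]
          exact Commute.all _ _
        obtain ⟨z, hz, hzy⟩ := h3 hy
        have h4 : (z : G) = y := hzy
        rw [← h4, hν z, show ν z = 1 from hz, Units.val_one, one_smul]
      exact h2 _ (Subgroup.pow_mem _ h1 p)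
    · obtain ⟨hmem, hω⟩ := trivial_on_ind H ((powMonoidHom p).comp ν) x hxH hxn
        (fun h h' hh => regStepW_inv hG N hr H ν x hxN hxn hxp h h' hh) (g * k * g⁻¹) (by
          intro U hU hUd u
          have h2 := hK U hU (hUd.trans_le hidx) (U.ρ g⁻¹ u)
          rw [map_mul, map_mul]
          show U.ρ g (U.ρ k (U.ρ g⁻¹ u)) = u
          rw [h2, ← Module.End.mul_apply, ← map_mul, mul_inv_cancel, map_one]
          rfl)
      have h3 : ν (⟨g * k * g⁻¹, hmem⟩ ^ p) = 1 := by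
        rw [map_pow]
        exact hω
      have h4 := hν (⟨g * k * g⁻¹, hmem⟩ ^ p)
      rw [h3, Units.val_one, one_smul] at h4
      exact h4
  let F : Subgroup G :=
    { carrier := {g | V.ρ g v = v}
      mul_mem' := by
        intro a b ha hb
        show V.ρ (a * b) v = v
        rw [map_mul, Module.End.mul_apply, show V.ρ b v = v from hb, show V.ρ a v = v from ha]
      one_mem' := by
        show V.ρ 1 v = v
        rw [map_one]
        rfl
      inv_mem' := by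
        intro a ha
        show V.ρ a⁻¹ v = v
        have h5 : V.ρ a v = v := ha
        conv_lhs => rw [← h5]
        rw [← Module.End.mul_apply, ← map_mul, inv_mul_cancel, map_one]
        rfl }
  have hle : Subgroup.normalClosure {k ^ p} ≤ F := by
    rw [Subgroup.normalClosure, Subgroup.closure_le]
    intro y hy
    rw [Group.mem_conjugatesOfSet_iff] at hy
    obtain ⟨z, hz, hzy⟩ := hy
    rw [Set.mem_singleton_iff] at hz
    subst hz
    obtain ⟨g, hg⟩ := isConj_iff.1 hzy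
    rw [← hg]
    show V.ρ (g * k ^ p * g⁻¹) v = v
    rw [← conj_pow]
    exact hconj g
  exact trivial_of_fixed V hV (Subgroup.normalClosure {k ^ p}) v hv (fun n hn => hle hn) (k ^ p)
    (Subgroup.subset_normalClosure rfl)

end Pool.PWL
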