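import Pool.Agent.PWL.Any
import Pool.Agent.PWL.RegStepW
import Pool.Agent.PWL.RegFinal
import Pool.Agent.PWL.RegOmega

/-!
# Regular normal subgroups of arbitrary finite groups
-/

namespace Pool.PWL

open scoped commutatorElement
open Pool.TKB

/-- Regularity is invariant under isomorphism. -/
theorem IsRegularP.of_equiv {A B : Type*} [Group A] [Group B] {p : ℕ} (e : A ≃* B)
    (h : IsRegularP p A) : IsRegularP p B := by
  intro x y
  obtain ⟨c, hc, hxy⟩ := h (e.symm x) (e.symm y)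
  have h1 : (Subgroup.closure {e.symm x, e.symm y}).map e.toMonoidHom =
      Subgroup.closure {x, y} := by
    rw [MonoidHom.map_closure, Set.image_pair]
    show Subgroup.closure {e (e.symm x), e (e.symm y)} = _
    rw [e.apply_symm_apply, e.apply_symm_apply]
  refine ⟨e c, ?_, ?_⟩
  · have h2 : e c ∈ (pw p ⁅Subgroup.closure {e.symm x, e.symm y},
        Subgroup.closure {e.symm x, e.symm y}⁆).map e.toMonoidHom := ⟨c, hc, rfl⟩
    rw [map_pw, Subgroup.map_commutator, h1] at h2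
    exact h2
  · have h2 := congrArg e hxy
    rw [map_pow, map_mul, map_mul, map_mul, map_pow, map_pow, e.apply_symm_apply,
      e.apply_symm_apply] at h2
    exact h2

/-- The step for regular normal subgroups of an arbitrary finite group. -/
theorem reg_chain_bot {G : Type} [Group G] [Finite G] {p : ℕ} [hp : Fact p.Prime]
    (N : Subgroup G) [N.Normal] (hN : IsPGroup p N) (hr : IsRegularP p N) :
    pw (p ^ ((padicValNat p '' cd G).ncard - 1)) ⁅N, N⁆ = ⊥ := by
  obtain ⟨S⟩ : Nonempty (Sylow p G) := inferInstance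
  have hNS : N ≤ S := normal_le_sylow S N hN
  have hcS : ⁅N, N⁆ ≤ (S : Subgroup G) := (Subgroup.commutator_le_left N N).trans hNS
  refine chain_trivialP p (fun i => pw (p ^ i) ⁅N, N⁆) ?_ ?_ ?_
  · refine antitone_nat_of_succ_le fun i => pw_le fun x hx => ?_
    show x ^ p ^ (i + 1) ∈ pw (p ^ i) ⁅N, N⁆
    have e : x ^ p ^ (i + 1) = (x ^ p) ^ p ^ i := by rw [← pow_mul, pow_succ']
    rw [e]
    exact pow_mem_pw (Subgroup.pow_mem _ hx p)
  · intro V hV hd k hk
    exact transfer_base S (pw (p ^ 0) ⁅N, N⁆)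
      ((pw_le_self _ _).trans (Subgroup.commutator_mono hNS hNS)) V hV hd k hk
  · intro i V hV _ hK k hk
    refine transfer_step S (pw (p ^ i) ⁅N, N⁆) (pw (p ^ (i + 1)) ⁅N, N⁆)
      ((pw_le_self _ _).trans hcS) ((pw_le_self _ _).trans hcS) ?_ V hV hK k hk
    intro Θ hΘ hK' k hk u
    have hNn : (N.subgroupOf (S : Subgroup G)).Normal := inferInstance
    have hr' : IsRegularP p (N.subgroupOf (S : Subgroup G)) :=
      hr.of_equiv (Subgroup.subgroupOfEquivOfLe hNS).symm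
    have hcomm := map_subgroupOf_commutator (S : Subgroup G) N N hNS hNS
    have hmem : ∀ (j : ℕ) (y : (S : Subgroup G)), (y : G) ∈ pw (p ^ j) ⁅N, N⁆ →
        y ∈ pw (p ^ j) ⁅N.subgroupOf (S : Subgroup G), N.subgroupOf (S : Subgroup G)⁆ := by
      intro j y hy
      rw [← hcomm, ← map_pw] at hy
      obtain ⟨y', hy', hyy⟩ := hy
      have h2 : y' = y := Subtype.ext hyy
      rwa [← h2]
    have hle : pw (p ^ (i + 1)) ⁅N.subgroupOf (S : Subgroup G), N.subgroupOf (S : Subgroup G)⁆ ≤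
        (Θ.ρ : (S : Subgroup G) →* (Θ →ₗ[ℂ] Θ)).ker := by
      refine pw_le fun x hx => ?_
      rw [MonoidHom.mem_ker]
      apply LinearMap.ext
      intro v
      have e : x ^ p ^ (i + 1) = (x ^ p ^ i) ^ p := by rw [← pow_mul, pow_succ]
      rw [e]
      refine reg_stepW S.isPGroup' (N.subgroupOf (S : Subgroup G)) hr' (x ^ p ^ i)
        (Subgroup.pow_mem _ hx _) Θ hΘ (fun U hU hlt u => ?_) v
      refine hK' U hU hlt _ ?_ u
      rw [Subgroup.mem_subgroupOf]
      have h3 : (x : G) ∈ ⁅N, N⁆ := by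
        rw [← hcomm]
        exact ⟨x, hx, rfl⟩
      show ((x ^ p ^ i : (S : Subgroup G)) : G) ∈ pw (p ^ i) ⁅N, N⁆
      rw [Subgroup.coe_pow]
      exact pow_mem_pw h3
    have h4 := hle (hmem (i + 1) k (Subgroup.mem_subgroupOf.1 hk))
    rw [MonoidHom.mem_ker] at h4
    rw [h4]; rfl

theorem reg_any_exponent {G : Type} [Group G] [Finite G] {p : ℕ} [hp : Fact p.Prime]
    (N : Subgroup G) [N.Normal] (hN : IsPGroup p N) (hr : IsRegularP p N) :
    ∀ g ∈ ⁅N, N⁆, g ^ p ^ ((padicValNat p '' cd G).ncard - 1) = 1 := by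
  intro g hg
  have h1 : g ^ p ^ ((padicValNat p '' cd G).ncard - 1) ∈
      pw (p ^ ((padicValNat p '' cd G).ncard - 1)) ⁅N, N⁆ := pow_mem_pw hg
  rw [reg_chain_bot N hN hr, Subgroup.mem_bot] at h1
  exact h1

theorem reg_any_derived {G : Type} [Group G] [Finite G] {p : ℕ} [hp : Fact p.Prime]
    (N : Subgroup G) [N.Normal] (hN : IsPGroup p N) (hr : IsRegularP p N) (d : ℕ)
    (hd : derivedSeries N d ≤ pw p ⁅(⊤ : Subgroup N), (⊤ : Subgroup N)⁆) :
    derivedSeries N (d + Nat.clog 2 (padicValNat p '' cd G).ncard) = ⊥ := by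
  rw [eq_bot_iff]
  refine (reg_derived_le hN hr d hd (Nat.clog 2 (padicValNat p '' cd G).ncard)).trans
    (pw_le fun x hx => ?_)
  have hx' : (x : G) ∈ ⁅N, N⁆ := by
    have h0 : (⁅(⊤ : Subgroup N), (⊤ : Subgroup N)⁆).map N.subtype = ⁅N, N⁆ := by
      rw [Subgroup.map_commutator, ← MonoidHom.range_eq_map, Subgroup.range_subtype]
    rw [← h0]
    exact ⟨x, hx, rfl⟩
  have h1 := reg_any_exponent N hN hr x hx'
  have h2 : (padicValNat p '' cd G).ncard ≤ 2 ^ Nat.clog 2 (padicValNat p '' cd G).ncard :=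
    Nat.le_pow_clog (by norm_num) _
  obtain ⟨e, he⟩ : p ^ ((padicValNat p '' cd G).ncard - 1) ∣
      p ^ 2 ^ Nat.clog 2 (padicValNat p '' cd G).ncard := pow_dvd_pow p (by omega)
  rw [Subgroup.mem_bot]
  apply Subtype.ext
  rw [Subgroup.coe_pow, he, pow_mul, h1, one_pow, Subgroup.coe_one]

/-- In a regular `p`-group `N`, `p`-th powers are central modulo `℧(N')`. -/
theorem reg_pow_comm_mem {N : Type*} [Group N] [Finite N] {p : ℕ} [hp : Fact p.Prime]
    (hN : IsPGroup p N) (hr : IsRegularP p N) (x g : N) :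
    ⁅x ^ p, g⁆ ∈ pw p ⁅(⊤ : Subgroup N), (⊤ : Subgroup N)⁆ := by
  let U : Subgroup N := pw p ⁅(⊤ : Subgroup N), (⊤ : Subgroup N)⁆
  show ⁅x ^ p, g⁆ ∈ U
  have hrq := hr.quotient U
  have hGq : IsPGroup p (N ⧸ U) := hN.to_quotient U
  rw [← QuotientGroup.eq_one_iff]
  show ⁅(x : N ⧸ U) ^ p, (g : N ⧸ U)⁆ = 1
  have h1 : (((x : N ⧸ U))⁻¹ * ((g : N ⧸ U) * (x : N ⧸ U) * (g : N ⧸ U)⁻¹)) ^ p ^ 1 = 1 := by
    rw [pow_one]
    have h2 : (x⁻¹ * (g * x * g⁻¹)) ^ p ∈ U := by
      apply pow_mem_pw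
      have e : x⁻¹ * (g * x * g⁻¹) = ⁅x⁻¹, g⁆ := by rw [commutatorElement_def]; group
      rw [e]
      exact Subgroup.commutator_mem_commutator (Subgroup.mem_top _) (Subgroup.mem_top _)
    rw [← QuotientGroup.eq_one_iff] at h2
    exact h2
  have h3 := reg_pow_eq hGq hrq 1 h1
  rw [pow_one] at h3
  rw [commutatorElement_eq_one_iff_mul_comm]
  have h4 : (g : N ⧸ U) * (x : N ⧸ U) ^ p * (g : N ⧸ U)⁻¹ = (x : N ⧸ U) ^ p := by
    rw [← conj_pow, ← h3]
  rw [mul_inv_eq_iff_eq_mul] at h4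
  exact h4.symm

/-- The derived subgroup of `N` and its powers, in `G`. -/
theorem map_pw_commutator {G : Type*} [Group G] (N : Subgroup G) (n : ℕ) :
    (pw n ⁅(⊤ : Subgroup N), (⊤ : Subgroup N)⁆).map N.subtype = pw n ⁅N, N⁆ := by
  rw [map_pw, Subgroup.map_commutator, ← MonoidHom.range_eq_map, Subgroup.range_subtype]

/-- The second part, in `G`. -/
theorem reg_any_derived' {G : Type} [Group G] [Finite G] {p : ℕ} [hp : Fact p.Prime]
    (N : Subgroup G) [N.Normal] (hN : IsPGroup p N) (hr : IsRegularP p N) (d : ℕ)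
    (hd : (derivedSeries N d).map N.subtype ≤ pw p ⁅N, N⁆) :
    derivedSeries N (d + Nat.clog 2 (padicValNat p '' cd G).ncard) = ⊥ := by
  refine reg_any_derived N hN hr d ?_
  rw [← Subgroup.map_le_map_iff_of_injective N.subtype_injective, map_pw_commutator]
  exact hd

/-- A reduction to sections of exponent `p`. -/
theorem reg_any_reduction {G : Type} [Group G] [Finite G] {p : ℕ} [hp : Fact p.Prime]
    (N : Subgroup G) [N.Normal] (hN : IsPGroup p N) (hr : IsRegularP p N) :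
    ∃ M : Subgroup G, M.Normal ∧ M ≤ N ∧ (∀ g ∈ N, g ^ p ∈ M) ∧
      ∀ d, dser N d ≤ M →
        derivedSeries N (d + 1 + Nat.clog 2 (padicValNat p '' cd G).ncard) = ⊥ := by
  let U : Subgroup G := pw p ⁅N, N⁆
  have hNq : (N.map (QuotientGroup.mk' U)).Normal :=
    Subgroup.Normal.map inferInstance _ (QuotientGroup.mk'_surjective U)
  let M : Subgroup G := N ⊓ (Subgroup.centralizer
    (N.map (QuotientGroup.mk' U) : Set (G ⧸ U))).comap (QuotientGroup.mk' U)
  have hmem : ∀ x : G, x ∈ M ↔ x ∈ N ∧ ∀ g ∈ N, ⁅x, g⁆ ∈ U := by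
    intro x
    rw [Subgroup.mem_inf, Subgroup.mem_comap, Subgroup.mem_centralizer_iff]
    refine and_congr_right fun _ => ?_
    constructor
    · intro h g hg
      rw [← QuotientGroup.eq_one_iff]
      show ⁅(x : G ⧸ U), (g : G ⧸ U)⁆ = 1
      rw [commutatorElement_eq_one_iff_mul_comm]
      exact (h (g : G ⧸ U) ⟨g, hg, rfl⟩).symm
    · rintro h _ ⟨g, hg, rfl⟩
      have h1 := h g hg
      rw [← QuotientGroup.eq_one_iff] at h1
      have h2 : ⁅(x : G ⧸ U), (g : G ⧸ U)⁆ = 1 := h1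
      rw [commutatorElement_eq_one_iff_mul_comm] at h2
      exact h2.symm
  have hMn : M.Normal := inferInstance
  refine ⟨M, hMn, inf_le_left, ?_, ?_⟩
  · intro x hx
    rw [hmem]
    refine ⟨Subgroup.pow_mem _ hx p, fun g hg => ?_⟩
    have h1 := reg_pow_comm_mem hN hr ⟨x, hx⟩ ⟨g, hg⟩
    show ⁅x ^ p, g⁆ ∈ pw p ⁅N, N⁆
    rw [← map_pw_commutator]
    exact ⟨_, h1, rfl⟩
  · intro d hd
    refine reg_any_derived N hN hr (d + 1) ?_
    rw [derivedSeries_succ, Subgroup.commutator_le]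
    intro x hx g _
    have h1 := ((hmem (x : G)).mp (hd ⟨x, hx, rfl⟩)).2 g g.2
    have h2 : ((⁅x, g⁆ : N) : G) ∈ pw p ⁅N, N⁆ := h1
    rw [← map_pw_commutator] at h2
    obtain ⟨y, hy, hyy⟩ := h2
    have h3 : y = ⁅x, g⁆ := Subtype.ext hyy
    rwa [← h3]

/-- Nilpotent normal subgroups with regular Sylow subgroups. -/
theorem fit_regular {G : Type} [Group G] [Finite G] (F : Subgroup G) [F.Normal]
    (hF : Group.IsNilpotent F) (d m : ℕ)
    (hm : ∀ p, p.Prime → p ∣ Nat.card F → (padicValNat p '' cd G).ncard ≤ m)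
    (h : ∀ (p : ℕ) (_ : Fact p.Prime), p ∣ Nat.card F → ∀ S : Sylow p F,
      IsRegularP p (S : Subgroup F) ∧ derivedSeries (S : Subgroup F) d ≤
        pw p ⁅(⊤ : Subgroup (S : Subgroup F)), (⊤ : Subgroup (S : Subgroup F))⁆) :
    derivedSeries F (d + Nat.clog 2 m) = ⊥ := by
  refine fit_sylow F hF _ fun p hp hdvd S hN => ?_
  obtain ⟨hr, hd⟩ := h p hp hdvd S
  have hSp : IsPGroup p ((S : Subgroup F).map F.subtype) := S.2.map _
  let e : (S : Subgroup F) ≃* ((S : Subgroup F).map F.subtype) :=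
    (S : Subgroup F).equivMapOfInjective F.subtype F.subtype_injective
  have h1 := reg_any_derived _ hSp (hr.of_equiv e) d (by
    have h2 : (derivedSeries (S : Subgroup F) d).map e.toMonoidHom = derivedSeries _ d :=
      map_derivedSeries_eq e.surjective d
    rw [← h2]
    refine (Subgroup.map_mono hd).trans ?_
    rw [map_pw, Subgroup.map_commutator]
    exact pw_mono (Subgroup.commutator_mono le_top le_top))
  refine derivedSeries_bot_mono ?_ h1
  have := Nat.clog_mono_right 2 (hm p hp.out hdvd)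
  omega

end Pool.PWL
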