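import Pool.Agent.PWL.Basic
import Pool.Agent.PWL.Ind
import Pool.Agent.PWL.Setup
import Pool.Agent.PWL.Alg
import Pool.Agent.TKB.RepB
import Pool.Agent.TKB.Defs

/-!
# The step for powerfully embedded subgroups
-/

namespace Pool.PWL

open scoped commutatorElement

section StepP

private theorem sp_conj_mem {G : Type} [Group G] {H : Subgroup G} {x : G}
    (hxH : ∀ h : G, h ∈ H ↔ x⁻¹ * h * x ∈ H) (j : ℕ) (h : G) :
    h ∈ H ↔ (x ^ j)⁻¹ * h * x ^ j ∈ H := by
  induction j with
  | zero => simp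
  | succ j ih =>
    rw [ih, hxH]
    have : x⁻¹ * ((x ^ j)⁻¹ * h * x ^ j) * x = (x ^ (j + 1))⁻¹ * h * x ^ (j + 1) := by
      rw [pow_succ]; group
    rw [this]

private def spc {G : Type} [Group G] {H : Subgroup G} {x : G}
    (hxH : ∀ h : G, h ∈ H ↔ x⁻¹ * h * x ∈ H) (j : ℕ) : H →* H where
  toFun h := ⟨(x ^ j)⁻¹ * h * x ^ j, (sp_conj_mem hxH j h).1 h.2⟩
  map_one' := by
    apply Subtype.ext
    simp
  map_mul' a b := by
    apply Subtype.ext
    show (x ^ j)⁻¹ * (↑(a * b) : G) * x ^ j =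
      ((x ^ j)⁻¹ * (a : G) * x ^ j) * ((x ^ j)⁻¹ * (b : G) * x ^ j)
    rw [Subgroup.coe_mul]
    group

private theorem spc_coe {G : Type} [Group G] {H : Subgroup G} {x : G}
    (hxH : ∀ h : G, h ∈ H ↔ x⁻¹ * h * x ∈ H) (j : ℕ) (h : H) :
    ((spc hxH j h : H) : G) = (x ^ j)⁻¹ * h * x ^ j := rfl

private theorem sp_omega {G : Type} [Group G] {H : Subgroup G} {x : G} (p : ℕ)
    (hxH : ∀ h : G, h ∈ H ↔ x⁻¹ * h * x ∈ H) (hxp : x ^ p ∈ H) (ν : H →* ℂˣ) (h h' : H)
    (hh : (h' : G) = x⁻¹ * h * x) :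
    (∏ j ∈ Finset.range p, ν (spc hxH j h')) = ∏ j ∈ Finset.range p, ν (spc hxH j h) := by
  have h1 : ∀ j, spc hxH j h' = spc hxH (j + 1) h := by
    intro j
    apply Subtype.ext
    rw [spc_coe, spc_coe, hh, pow_succ']
    group
  have h2 : ν (spc hxH p h) = ν (spc hxH 0 h) := by
    have e1 : spc hxH p h = (⟨x ^ p, hxp⟩ : H)⁻¹ * h * ⟨x ^ p, hxp⟩ := by
      apply Subtype.ext
      rw [spc_coe]
      rfl
    have e2 : spc hxH 0 h = h := by
      apply Subtype.ext
      rw [spc_coe]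
      simp
    rw [e1, e2, map_mul, map_mul, map_inv, mul_comm, ← mul_assoc, mul_inv_cancel, one_mul]
  have h3 := Finset.prod_range_succ' (fun j => ν (spc hxH j h)) p
  have h4 := Finset.prod_range_succ (fun j => ν (spc hxH j h)) p
  rw [h4, h2] at h3
  have h5 := mul_right_cancel h3
  rw [h5]
  exact Finset.prod_congr rfl (fun j _ => by rw [h1])

/-- conjugation by `x` on a normal subgroup -/
private def sppsi {G : Type} [Group G] (P : Subgroup G) [hPn : P.Normal] (x : G) : P →* P where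
  toFun g := ⟨x⁻¹ * g * x, by
    have := hPn.conj_mem g g.2 x⁻¹
    rwa [inv_inv] at this⟩
  map_one' := by
    apply Subtype.ext
    simp
  map_mul' a b := by
    apply Subtype.ext
    show x⁻¹ * (↑(a * b) : G) * x = (x⁻¹ * (a : G) * x) * (x⁻¹ * (b : G) * x)
    rw [Subgroup.coe_mul]
    group

private theorem sppsi_iter {G : Type} [Group G] (P : Subgroup G) [P.Normal] (x : G) (j : ℕ)
    (g : P) : (((sppsi P x)^[j] g : P) : G) = (x ^ j)⁻¹ * g * x ^ j := by
  induction j with
  | zero => simp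
  | succ j ih =>
    rw [Function.iterate_succ_apply']
    show x⁻¹ * (((sppsi P x)^[j] g : P) : G) * x = _
    rw [ih, pow_succ]
    group

private theorem sp_pow_ab {G : Type} [Group G] (P : Subgroup G) (n : ℕ) (c : P)
    (hc : (c : G) ∈ pw n P) : ∃ b : Abelianization P, Abelianization.of c = b ^ n := by
  have key : ∀ y : G, y ∈ pw n P → ∀ hy : y ∈ P, ∃ b : Abelianization P,
      Abelianization.of (⟨y, hy⟩ : P) = b ^ n := by
    intro y hy
    unfold pw at hy
    induction hy using Subgroup.closure_induction with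
    | mem y hy =>
      obtain ⟨h, hh, rfl⟩ := hy
      intro hy'
      refine ⟨Abelianization.of (⟨h, hh⟩ : P), ?_⟩
      rw [← map_pow]
      rfl
    | one =>
      intro hy'
      refine ⟨1, ?_⟩
      rw [one_pow]
      exact map_one _
    | mul a b ha hb iha ihb =>
      intro hy'
      have ha' : a ∈ P := pw_le_self n P ha
      have hb' : b ∈ P := pw_le_self n P hb
      obtain ⟨u, hu⟩ := iha ha'
      obtain ⟨v, hv⟩ := ihb hb'
      refine ⟨u * v, ?_⟩
      have : (⟨a * b, hy'⟩ : P) = ⟨a, ha'⟩ * ⟨b, hb'⟩ := rfl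
      rw [this, map_mul, hu, hv, mul_pow]
    | inv a ha iha =>
      intro hy'
      have ha' : a ∈ P := pw_le_self n P ha
      obtain ⟨u, hu⟩ := iha ha'
      refine ⟨u⁻¹, ?_⟩
      have : (⟨a⁻¹, hy'⟩ : P) = (⟨a, ha'⟩ : P)⁻¹ := rfl
      rw [this, map_inv, hu, inv_pow]
  exact key c hc c.2

theorem step {G : Type} [Group G] [Finite G] {p : ℕ} [Fact p.Prime] (hp2 : p ≠ 2)
    (hG : IsPGroup p G) (P : Subgroup G) [P.Normal] (hP : ⁅P, (⊤ : Subgroup G)⁆ ≤ pw p P)
    (V : FDRep ℂ G) (hV : CategoryTheory.Simple V) (h1 : 1 < Module.finrank ℂ V)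
    (hK : ∀ U : FDRep ℂ G, CategoryTheory.Simple U → Module.finrank ℂ U < Module.finrank ℂ V →
      ∀ k ∈ P, ∀ u : U, U.ρ k u = u) : ∀ k ∈ pw p P, ∀ v : V, V.ρ k v = v := by
  obtain ⟨H, v, ν, x, hv, hHi, hHv, hx, hxH, hxp⟩ := exists_setup hG V hV h1
  let ω : H →* ℂˣ := ∏ j ∈ Finset.range p, ν.comp (spc hxH j)
  have hωa : ∀ h : H, ω h = ∏ j ∈ Finset.range p, ν (spc hxH j h) := by
    intro h
    simp only [ω, MonoidHom.finsetProd_apply, MonoidHom.comp_apply]
  have hω : ∀ h h' : H, (h' : G) = x⁻¹ * h * x → ω h' = ω h := by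
    intro h h' hh
    rw [hωa, hωa]
    exact sp_omega p hxH hxp ν h h' hh
  have hPk : ∀ k ∈ P, ∃ h : k ∈ H, ω ⟨k, h⟩ = 1 := by
    intro k hk
    exact trivial_on_ind H ω x hx hxH hω k
      (fun U hU hd u => hK U hU (lt_of_lt_of_le hd hHi) k hk u)
  have hPH : P ≤ H := fun k hk => (hPk k hk).1
  -- the abelian group
  have hsurj : Function.Surjective (Abelianization.of : P →* Abelianization P) :=
    QuotientGroup.mk_surjective
  have hfin : Finite (Abelianization P) := Finite.of_surjective _ hsurj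
  have hA : IsPGroup p (Abelianization P) := (hG.to_subgroup P).of_surjective _ hsurj
  let φ : Abelianization P →* Abelianization P := Abelianization.map (sppsi P x)
  let μ : Abelianization P →* ℂˣ := Abelianization.lift (ν.comp (Subgroup.inclusion hPH))
  have hφof : ∀ g : P, φ (Abelianization.of g) = Abelianization.of (sppsi P x g) := by
    intro g
    exact Abelianization.map_of _ _
  have hφit : ∀ (j : ℕ) (g : P), φ^[j] (Abelianization.of g) =
      Abelianization.of ((sppsi P x)^[j] g) := by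
    intro j g
    induction j with
    | zero => rfl
    | succ j ih => rw [Function.iterate_succ_apply', Function.iterate_succ_apply', ih, hφof]
  have hμof : ∀ g : P, μ (Abelianization.of g) = ν (Subgroup.inclusion hPH g) := by
    intro g
    exact Abelianization.lift_apply_of _ _
  have hφ : ∀ a, ∃ b, φ a = a * b ^ p := by
    intro a
    obtain ⟨g, rfl⟩ := hsurj a
    have hc : ⁅(g : G)⁻¹, x⁻¹⁆ ∈ pw p P :=
      hP (Subgroup.commutator_mem_commutator (P.inv_mem g.2) (Subgroup.mem_top _))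
    obtain ⟨b, hb⟩ := sp_pow_ab P p ⟨⁅(g : G)⁻¹, x⁻¹⁆, pw_le_self p P hc⟩ hc
    refine ⟨b, ?_⟩
    rw [hφof, ← hb, ← map_mul]
    congr 1
    apply Subtype.ext
    show x⁻¹ * (g : G) * x = (g : G) * ⁅(g : G)⁻¹, x⁻¹⁆
    rw [commutatorElement_def]
    group
  have hμ : ∀ a, μ (∏ j ∈ Finset.range p, (φ^[j]) a) = 1 := by
    intro a
    obtain ⟨g, rfl⟩ := hsurj a
    obtain ⟨hgH, hg1⟩ := hPk g g.2
    rw [map_prod, ← hg1, hωa]
    refine Finset.prod_congr rfl (fun j _ => ?_)
    rw [hφit, hμof]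
    congr 1
    apply Subtype.ext
    rw [spc_coe, Subgroup.coe_inclusion, sppsi_iter]
  have hnorm := norm_trick hp2 hA φ hφ μ hμ
  -- the powers fix the vector
  let S : Subgroup G :=
    { carrier := {g | V.ρ g v = v}
      mul_mem' := by
        intro a b ha hb
        show V.ρ (a * b) v = v
        rw [map_mul, Module.End.mul_apply, hb, ha]
      one_mem' := by
        show V.ρ 1 v = v
        rw [map_one, Module.End.one_apply]
      inv_mem' := by
        intro a ha
        show V.ρ a⁻¹ v = v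
        have h2 : V.ρ a v = v := ha
        calc V.ρ a⁻¹ v = V.ρ a⁻¹ (V.ρ a v) := by rw [h2]
          _ = (V.ρ a⁻¹ * V.ρ a) v := rfl
          _ = v := by rw [← map_mul, inv_mul_cancel, map_one, Module.End.one_apply] }
  have hS : pw p P ≤ S := by
    refine pw_le (fun g hg => ?_)
    show V.ρ (g ^ p) v = v
    have h2 := hnorm (Abelianization.of (⟨g, hg⟩ : P))
    rw [← map_pow, hμof] at h2
    have h3 := hHv (Subgroup.inclusion hPH ((⟨g, hg⟩ : P) ^ p))
    rw [h2] at h3
    simpa using h3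
  exact trivial_of_fixed V hV (pw p P) v hv (fun n hn => hS hn)

end StepP

end Pool.PWL
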