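import Pool.Agent.PWL.DefsM

/-!
# Maximal subgroups of supersolvable groups have prime index
-/

namespace Pool.PWL

private theorem supidx_core {H : Type} [Group H] [Finite H] (T : Subgroup H) (hne : T ≠ ⊤)
    (hmax : ∀ K : Subgroup H, T ≤ K → K = T ∨ K = ⊤) (n : ℕ) (S : ℕ → Subgroup H)
    (h0 : S 0 = ⊥) (hn : S n = ⊤) (hnorm : ∀ i, (S i).Normal) (hle : ∀ i, S i ≤ S (i + 1))
    (hcyc : ∀ i, ∃ d ∈ S (i + 1), ∀ y ∈ S (i + 1), ∃ k : ℤ, y * (d ^ k)⁻¹ ∈ S i) :
    T.index.Prime := by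
  -- the least term not contained in T
  have hex : ∃ i, S i ≤ T ∧ ¬ S (i + 1) ≤ T := by
    by_contra hcon
    push Not at hcon
    have h1 : ∀ i, S i ≤ T := by
      intro i
      induction i with
      | zero => rw [h0]; exact bot_le
      | succ i ih => exact hcon i ih
    exact hne (top_le_iff.1 (hn ▸ h1 n))
  obtain ⟨i, hi1, hi2⟩ := hex
  obtain ⟨d, hd, hdy⟩ := hcyc i
  have hN := hnorm i
  have hD := hnorm (i + 1)
  have hND := hle i
  generalize S i = N at hi1 hdy hN hND
  generalize S (i + 1) = D at hi2 hd hdy hD hND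
  -- subgroups between N and D are normal
  have hK : ∀ K : Subgroup H, N ≤ K → K ≤ D → K.Normal := by
    intro K hNK hKD
    refine ⟨fun k hk h => ?_⟩
    obtain ⟨a, ha⟩ := hdy k (hKD hk)
    obtain ⟨c, hc⟩ := hdy (h * d * h⁻¹) (hD.conj_mem d hd h)
    have q1 : ∀ x y : H, x * y⁻¹ ∈ N → (QuotientGroup.mk' N) x = (QuotientGroup.mk' N) y := by
      intro x y hxy
      have h1 : (QuotientGroup.mk' N) (x * y⁻¹) = 1 := (QuotientGroup.eq_one_iff _).2 hxy
      rw [map_mul, map_inv] at h1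
      exact mul_inv_eq_one.1 h1
    have e1 := q1 _ _ ha
    have e2 := q1 _ _ hc
    have e6 : (QuotientGroup.mk' N) h * (QuotientGroup.mk' N) d * ((QuotientGroup.mk' N) h)⁻¹ =
        (QuotientGroup.mk' N) d ^ c := by
      rw [← map_zpow, ← e2, map_mul, map_mul, map_inv]
    have e3 : (QuotientGroup.mk' N) (h * k * h⁻¹) = (QuotientGroup.mk' N) (k ^ c) := by
      rw [map_mul, map_mul, e1, map_zpow, map_zpow, e1, map_inv, ← conj_zpow, map_zpow,
        ← zpow_mul, mul_comm a c, zpow_mul]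
      rw [e6]
    have e4 : h * k * h⁻¹ * (k ^ c)⁻¹ ∈ N := by
      rw [← QuotientGroup.eq_one_iff]
      have : (QuotientGroup.mk' N) (h * k * h⁻¹ * (k ^ c)⁻¹) = 1 := by
        rw [map_mul, map_inv, e3, mul_inv_cancel]
      exact this
    have e5 : h * k * h⁻¹ = (h * k * h⁻¹ * (k ^ c)⁻¹) * k ^ c := by group
    rw [e5]
    exact K.mul_mem (hNK e4) (K.zpow_mem hk c)
  set E : Subgroup H := T ⊓ D with hE
  have hNE : N ≤ E := le_inf hi1 hND
  have hEn : E.Normal := hK E hNE inf_le_right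
  have hED : E ≠ D := fun h => hi2 (h ▸ inf_le_left)
  -- E is maximal in D
  have hEmax : ∀ K : Subgroup H, E ≤ K → K ≤ D → K = E ∨ K = D := by
    intro K hEK hKD
    have hKn : K.Normal := hK K (hNE.trans hEK) hKD
    rcases hmax (T ⊔ K) le_sup_left with h | h
    · left
      apply le_antisymm _ hEK
      exact le_inf (h ▸ le_sup_right) hKD
    · right
      apply le_antisymm hKD
      intro y hy
      have h1 : y ∈ T ⊔ K := by rw [h]; exact Subgroup.mem_top y
      rw [Subgroup.mem_sup_of_normal_right] at h1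
      obtain ⟨t, ht, k, hk, hty⟩ := h1
      have h2 : t = y * k⁻¹ := by rw [← hty]; group
      have h3 : t ∈ D := by rw [h2]; exact D.mul_mem hy (D.inv_mem (hKD hk))
      rw [← hty]
      exact K.mul_mem (hEK ⟨ht, h3⟩) hk
  have hTD : T ⊔ D = ⊤ := by
    rcases hmax (T ⊔ D) le_sup_left with h | h
    · exact absurd (h ▸ le_sup_right : D ≤ T) hi2
    · exact h
  -- the index
  have hidx : T.index = E.relIndex D := by
    have h1 : D.index = E.relIndex T := by
      have h2 : D.relIndex (T ⊔ D) = D.relIndex T := Subgroup.relIndex_sup_right T D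
      rw [hTD, Subgroup.relIndex_top_right] at h2
      rw [h2, hE, inf_comm, Subgroup.inf_relIndex_right]
    have h3 : E.relIndex T * T.index = E.index := Subgroup.relIndex_mul_index inf_le_left
    have h4 : E.relIndex D * D.index = E.index := Subgroup.relIndex_mul_index inf_le_right
    rw [← h1] at h3
    have h5 : D.index ≠ 0 := Subgroup.index_ne_zero_of_finite
    have h6 : T.index * D.index = E.relIndex D * D.index := by rw [h4, ← h3, mul_comm]
    exact Nat.eq_of_mul_eq_mul_right (Nat.pos_of_ne_zero h5) h6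
  rw [hidx]
  have hEn' : (E.subgroupOf D).Normal := hEn.subgroupOf D
  have hcard : E.relIndex D = Nat.card (D ⧸ E.subgroupOf D) := rfl
  have h1 : Nat.card (D ⧸ E.subgroupOf D) ≠ 1 := by
    intro h
    rw [← hcard, Subgroup.relIndex_eq_one] at h
    exact hED (le_antisymm inf_le_right h)
  obtain ⟨p, hp, hpd⟩ := Nat.exists_prime_and_dvd h1
  have hpf : Fact p.Prime := ⟨hp⟩
  obtain ⟨x, hx⟩ := exists_prime_orderOf_dvd_card' p hpd
  set K : Subgroup H := ((Subgroup.zpowers x).comap (QuotientGroup.mk' (E.subgroupOf D))).map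
    D.subtype with hKdef
  have hKD : K ≤ D := by
    rintro _ ⟨y, _, rfl⟩
    exact y.2
  have hEK : E ≤ K := by
    intro y hy
    have hyD : y ∈ D := hy.2
    refine ⟨⟨y, hyD⟩, ?_, rfl⟩
    show (QuotientGroup.mk' (E.subgroupOf D)) ⟨y, hyD⟩ ∈ Subgroup.zpowers x
    have : (QuotientGroup.mk' (E.subgroupOf D)) ⟨y, hyD⟩ = 1 :=
      (QuotientGroup.eq_one_iff _).2 (Subgroup.mem_subgroupOf.2 hy)
    rw [this]
    exact Subgroup.one_mem _
  obtain ⟨y, hy⟩ := QuotientGroup.mk'_surjective (E.subgroupOf D) x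
  rcases hEmax K hEK hKD with h | h
  · exfalso
    have h2 : (y : H) ∈ K := by
      refine ⟨y, ?_, rfl⟩
      show (QuotientGroup.mk' (E.subgroupOf D)) y ∈ Subgroup.zpowers x
      rw [hy]
      exact Subgroup.mem_zpowers x
    rw [h] at h2
    have h3 : x = 1 := by
      rw [← hy]
      exact (QuotientGroup.eq_one_iff _).2 (Subgroup.mem_subgroupOf.2 h2)
    rw [h3, orderOf_one] at hx
    exact hp.one_lt.ne hx
  · have h2 : Subgroup.zpowers x = ⊤ := by
      rw [eq_top_iff]
      intro w _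
      obtain ⟨v, rfl⟩ := QuotientGroup.mk'_surjective (E.subgroupOf D) w
      have h3 : (v : H) ∈ K := by rw [h]; exact v.2
      obtain ⟨v', hv', hvv⟩ := h3
      have h4 : v' = v := Subtype.ext hvv
      rw [← h4]
      exact hv'
    have h3 : Nat.card (D ⧸ E.subgroupOf D) = p := by
      rw [← hx, ← Nat.card_zpowers, h2]
      exact (Nat.card_congr Subgroup.topEquiv.toEquiv).symm
    rw [hcard, h3]
    exact hp

/-! row SupIdx -/
theorem supersolvable_relIndex {G : Type} [Group G] [Finite G] (hG : IsSupersolvable G)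
    (T M : Subgroup G) (hTM : T ≤ M) (hne : T ≠ M)
    (hmax : ∀ K : Subgroup G, T ≤ K → K ≤ M → K = T ∨ K = M) : (T.relIndex M).Prime := by
  obtain ⟨n, S, h0, hn, hS⟩ := hG
  have hle : ∀ i, S i ≤ S (i + 1) := by
    intro i
    obtain ⟨x, hx⟩ := (hS i).2
    rw [hx]
    exact le_sup_left
  refine supidx_core (T.subgroupOf M) ?_ ?_ n (fun i => (S i).subgroupOf M) ?_ ?_ ?_ ?_ ?_
  · intro h
    rw [Subgroup.subgroupOf_eq_top] at h
    exact hne (le_antisymm hTM h)
  · intro K hK
    have h1 : T ≤ K.map M.subtype := by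
      intro t ht
      exact ⟨⟨t, hTM ht⟩, hK (Subgroup.mem_subgroupOf.2 ht), rfl⟩
    have h2 : K.map M.subtype ≤ M := by
      rintro _ ⟨y, _, rfl⟩
      exact y.2
    have h3 : (K.map M.subtype).subgroupOf M = K :=
      Subgroup.comap_map_eq_self_of_injective (Subgroup.subtype_injective M) K
    rcases hmax _ h1 h2 with h | h
    · left
      rw [← h3, h]
    · right
      rw [← h3, h, Subgroup.subgroupOf_self]
  · show (S 0).subgroupOf M = ⊥
    rw [h0, Subgroup.bot_subgroupOf]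
  · show (S n).subgroupOf M = ⊤
    rw [hn, Subgroup.top_subgroupOf]
  · intro i
    exact (hS i).1.subgroupOf M
  · intro i
    exact Subgroup.subgroupOf_mono _ (hle i)
  · intro i
    obtain ⟨x, hx⟩ := (hS i).2
    have hSn := (hS i).1
    set R : Subgroup (G ⧸ S i) := (M ⊓ S (i + 1)).map (QuotientGroup.mk' (S i)) with hR
    have h1 : R ≤ Subgroup.zpowers (QuotientGroup.mk' (S i) x) := by
      rw [hR, hx]
      refine (Subgroup.map_mono inf_le_right).trans ?_
      rw [Subgroup.map_sup, QuotientGroup.map_mk'_self, bot_sup_eq, MonoidHom.map_zpowers]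
    have hcyc : IsCyclic R := Subgroup.isCyclic_of_le h1
    obtain ⟨⟨r, hr⟩, hgen⟩ := hcyc.exists_generator
    obtain ⟨d, ⟨hdM, hdS⟩, hdr⟩ := hr
    refine ⟨⟨d, hdM⟩, Subgroup.mem_subgroupOf.2 hdS, ?_⟩
    rintro ⟨y, hyM⟩ hy
    have hyS : y ∈ S (i + 1) := Subgroup.mem_subgroupOf.1 hy
    have h2 : QuotientGroup.mk' (S i) y ∈ R := ⟨y, ⟨hyM, hyS⟩, rfl⟩
    obtain ⟨k, hk⟩ := hgen ⟨_, h2⟩
    refine ⟨k, ?_⟩
    rw [Subgroup.mem_subgroupOf]
    have h3 : r ^ k = QuotientGroup.mk' (S i) y := congrArg Subtype.val hk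
    show y * (d ^ k)⁻¹ ∈ S i
    rw [← QuotientGroup.eq_one_iff]
    have h4 : (QuotientGroup.mk' (S i)) (y * (d ^ k)⁻¹) = 1 := by
      rw [map_mul, map_inv, map_zpow, ← h3, hdr, mul_inv_cancel]
    exact h4

end Pool.PWL
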