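import Pool.Agent.PWL.GoodP
import Pool.Agent.TKB.Main

/-!
# Supersolvable groups are M-groups
-/

namespace Pool.PWL

open scoped commutatorElement

/-- elements of a subgroup which lie in a cyclic extension of a normal subgroup `N` are, modulo
`N`, powers of one of them -/
private theorem supM_gen {G : Type} [Group G] (N A : Subgroup G) [N.Normal] (x : G)
    (hA : A ≤ N ⊔ Subgroup.zpowers x) :
    ∃ y ∈ A, ∀ a ∈ A, ∃ n : ℤ, (y ^ n)⁻¹ * a ∈ N := by
  let f : A →* G ⧸ N := (QuotientGroup.mk' N).comp A.subtype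
  have hle : f.range ≤ Subgroup.zpowers (QuotientGroup.mk' N x) := by
    rintro _ ⟨a, rfl⟩
    have ha := hA a.2
    rw [← SetLike.mem_coe, Subgroup.normal_mul] at ha
    obtain ⟨s, hs, t, ht, hst⟩ := ha
    obtain ⟨n, rfl⟩ := Subgroup.mem_zpowers_iff.1 ht
    refine Subgroup.mem_zpowers_iff.2 ⟨n, ?_⟩
    show _ = QuotientGroup.mk' N (a : G)
    rw [← hst, map_mul, map_zpow]
    have h1 : QuotientGroup.mk' N s = 1 := (QuotientGroup.eq_one_iff s).2 hs
    rw [h1, one_mul]
  have : IsCyclic f.range := Subgroup.isCyclic_of_le hle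
  obtain ⟨⟨g, y, rfl⟩, hg⟩ := IsCyclic.exists_generator (α := f.range)
  refine ⟨y, y.2, fun a ha => ?_⟩
  obtain ⟨n, hn⟩ := Subgroup.mem_zpowers_iff.1 (hg ⟨f ⟨a, ha⟩, ⟨a, ha⟩, rfl⟩)
  refine ⟨n, ?_⟩
  have h2 : (f y) ^ n = f ⟨a, ha⟩ := congrArg Subtype.val hn
  have h3 : f ((y ^ n)⁻¹ * ⟨a, ha⟩) = 1 := by
    rw [map_mul, map_inv, map_zpow, h2, inv_mul_cancel]
  exact (QuotientGroup.eq_one_iff _).1 h3

/-- an irreducible representation with a line stable under `T` has dimension at most `T.index` -/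
private theorem supM_dim {G : Type} [Group G] [Finite G] (V : FDRep ℂ G)
    (hV : CategoryTheory.Simple V) (T : Subgroup G) (v : V) (hv : v ≠ 0)
    (h : ∀ t ∈ T, ∃ z : ℂ, V.ρ t v = z • v) : Module.finrank ℂ V ≤ T.index := by
  classical
  have : Fintype (G ⧸ T) := Fintype.ofFinite _
  let W : Submodule ℂ V := Submodule.span ℂ (Set.range fun q : G ⧸ T => V.ρ q.out v)
  have hmem : ∀ g : G, V.ρ g v ∈ W := by
    intro g
    obtain ⟨t, ht⟩ := QuotientGroup.mk_out_eq_mul T g
    obtain ⟨z, hz⟩ := h _ (T.inv_mem t.2)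
    have h1 : V.ρ g v = z • V.ρ ((QuotientGroup.mk g : G ⧸ T).out) v := by
      rw [← map_smul, ← hz, ht, ← Module.End.mul_apply, ← map_mul]
      congr 2
      group
    rw [h1]
    exact W.smul_mem _ (Submodule.subset_span ⟨_, rfl⟩)
  have hst : ∀ g, ∀ w ∈ W, V.ρ g w ∈ W := by
    intro g w hw
    have : W ≤ W.comap (V.ρ g) := by
      refine Submodule.span_le.2 ?_
      rintro _ ⟨q, rfl⟩
      show V.ρ g (V.ρ q.out v) ∈ W
      rw [← Module.End.mul_apply, ← map_mul]
      exact hmem _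
    exact this hw
  have hW : W = ⊤ := by
    rcases Pool.TKB.simple_inv V W hst with hb | hb
    · exfalso
      apply hv
      have h1 := hmem 1
      rw [hb, Submodule.mem_bot, map_one] at h1
      exact h1
    · exact hb
  have h2 : Module.finrank ℂ W ≤ Fintype.card (G ⧸ T) :=
    finrank_range_le_card (R := ℂ) (fun q : G ⧸ T => V.ρ q.out v)
  rw [hW, finrank_top] at h2
  rwa [Subgroup.index, Nat.card_eq_fintype_card]

theorem IsSupersolvable.isMGroup {G : Type} [Group G] [Finite G] (hG : IsSupersolvable G) :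
    IsMGroup G := by
  intro V hV
  obtain ⟨T, U, hTU⟩ := exists_goodPair V hV
  obtain ⟨n, S, hS0, hSn, hS⟩ := hG
  have key : ∀ i, ∀ a ∈ T ⊓ S i, ∃ z : ℂ, ∀ u ∈ U, V.ρ a u = z • u := by
    intro i
    induction i with
    | zero =>
      intro a ha
      have h1 : a = 1 := by
        have := ha.2
        rw [hS0] at this
        exact Subgroup.mem_bot.1 this
      refine ⟨1, fun u _ => ?_⟩
      rw [h1, map_one, one_smul]
      rfl
    | succ i ih =>
      obtain ⟨hn, x, hx⟩ := hS i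
      have := hn
      have hn' := (hS (i + 1)).1
      obtain ⟨y, hy, hyA⟩ := supM_gen (S i) (T ⊓ S (i + 1)) x (by rw [← hx]; exact inf_le_right)
      refine hTU.scal (T ⊓ S (i + 1)) inf_le_left ?_ ?_
      · intro t ht a ha
        exact ⟨T.mul_mem (T.mul_mem ht ha.1) (T.inv_mem ht), hn'.conj_mem a ha.2 t⟩
      · -- each element acts as a scalar times a power of `y`
        have hrep : ∀ a ∈ T ⊓ S (i + 1), ∃ (m : ℤ) (z : ℂ), ∀ u ∈ U,
            V.ρ a u = z • V.ρ (y ^ m) u := by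
          intro a ha
          obtain ⟨m, hm⟩ := hyA a ha
          have hm' : (y ^ m)⁻¹ * a ∈ T ⊓ S i :=
            ⟨T.mul_mem (T.inv_mem (T.zpow_mem hy.1 m)) ha.1, hm⟩
          obtain ⟨z, hz⟩ := ih _ hm'
          refine ⟨m, z, fun u hu => ?_⟩
          rw [← map_smul, ← hz u hu, ← Module.End.mul_apply, ← map_mul]
          congr 2
          group
        intro a ha b hb u hu
        obtain ⟨m, z, hz⟩ := hrep a ha
        obtain ⟨m', z', hz'⟩ := hrep b hb
        have hym : ∀ m : ℤ, V.ρ (y ^ m) u ∈ U := fun m =>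
          hTU.stable _ (T.zpow_mem hy.1 m) u hu
        have h1 : V.ρ (a * b) u = (z * z') • V.ρ (y ^ (m + m')) u := by
          have h2 : V.ρ (a * b) u = V.ρ a (V.ρ b u) := by rw [map_mul]; rfl
          rw [h2, hz' u hu, map_smul, hz _ (hym m'), zpow_add, map_mul, smul_smul, mul_comm z' z]
          rfl
        have h3 : V.ρ (b * a) u = (z * z') • V.ρ (y ^ (m + m')) u := by
          have h2 : V.ρ (b * a) u = V.ρ b (V.ρ a u) := by rw [map_mul]; rfl
          rw [h2, hz u hu, map_smul, hz' _ (hym m), add_comm m m', zpow_add, map_mul, smul_smul]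
          rfl
        rw [h1, h3]
  have hT : ∀ t ∈ T, ∃ z : ℂ, ∀ u ∈ U, V.ρ t u = z • u := by
    intro t ht
    refine key n t ⟨ht, ?_⟩
    rw [hSn]
    exact Subgroup.mem_top t
  obtain ⟨v, hvU, hv⟩ := (Submodule.ne_bot_iff U).1 hTU.ne_bot
  have hline : ∀ t ∈ T, ∃ z : ℂ, V.ρ t v = z • v := fun t ht =>
    let ⟨z, hz⟩ := hT t ht
    ⟨z, hz v hvU⟩
  refine ⟨T, v, hv, le_antisymm ?_ (supM_dim V hV T v hv hline), hline⟩
  have h1 : 1 ≤ Module.finrank ℂ U := by
    have : Nontrivial U := Submodule.nontrivial_iff_ne_bot.2 hTU.ne_bot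
    exact Module.finrank_pos
  calc T.index = T.index * 1 := (mul_one _).symm
    _ ≤ T.index * Module.finrank ℂ U := Nat.mul_le_mul_left _ h1
    _ ≤ Module.finrank ℂ V := hTU.dim_le

end Pool.PWL
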