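import Pool.Agent.PWL.DefsM
import Pool.Agent.PWL.Symp

/-!
# Symplectic action on a good pair
-/

set_option autoImplicit false

namespace Pool.PWL

open scoped commutatorElement

open Module

section

variable {G : Type} [Group G] {X : Type} [AddCommGroup X] [Module ℂ X]
  (ρ : Representation ℂ G X) (T : Subgroup G) (U : Submodule ℂ X)

private theorem SympV_mul (a b : G) (u : X) : ρ (a * b) u = ρ a (ρ b u) := by
  rw [map_mul]
  rfl

private theorem SympV_one (u : X) : ρ 1 u = u := by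
  rw [map_one]
  rfl

private theorem SympV_inv_of {a : G} {z : ℂ} (hz : z ≠ 0) {u : X} (h : ρ a u = z • u) :
    ρ a⁻¹ u = z⁻¹ • u := by
  have h1 : ρ a⁻¹ (ρ a u) = u := by
    rw [← SympV_mul, inv_mul_cancel, SympV_one]
  rw [h, map_smul] at h1
  rw [← h1, smul_smul, inv_mul_cancel₀ hz, one_smul, h1]

private theorem SympV_ne {U : Submodule ℂ X} (hU : U ≠ ⊥) {a : G} {z : ℂ}
    (h : ∀ u ∈ U, ρ a u = z • u) : z ≠ 0 := by
  rintro rfl
  obtain ⟨u, hu, hu0⟩ := (Submodule.ne_bot_iff U).1 hU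
  apply hu0
  have h1 : ρ a⁻¹ (ρ a u) = u := by
    rw [← SympV_mul, inv_mul_cancel, SympV_one]
  rw [h u hu, zero_smul, map_zero] at h1
  exact h1.symm

/-- the elements of `T` that act trivially -/
private def SympV_K : Subgroup T where
  carrier := {t | ∀ u ∈ U, ρ (t : G) u = u}
  mul_mem' := by
    intro a b ha hb u hu
    rw [Subgroup.coe_mul, SympV_mul, hb u hu, ha u hu]
  one_mem' := by
    intro u _
    rw [Subgroup.coe_one, SympV_one]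
  inv_mem' := by
    intro a ha u hu
    have h1 : ρ (a : G)⁻¹ (ρ (a : G) u) = u := by
      rw [← SympV_mul, inv_mul_cancel, SympV_one]
    rw [ha u hu] at h1
    rw [Subgroup.coe_inv]
    exact h1

/-- the elements of `T` that act by scalars -/
private def SympV_Z (hU : U ≠ ⊥) : Subgroup T where
  carrier := {t | ∃ z : ℂ, ∀ u ∈ U, ρ (t : G) u = z • u}
  mul_mem' := by
    rintro a b ⟨z, hz⟩ ⟨w, hw⟩
    refine ⟨w * z, fun u hu => ?_⟩
    rw [Subgroup.coe_mul, SympV_mul, hw u hu, map_smul, hz u hu, smul_smul]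
  one_mem' := ⟨1, fun u _ => by rw [Subgroup.coe_one, SympV_one, one_smul]⟩
  inv_mem' := by
    rintro a ⟨z, hz⟩
    refine ⟨z⁻¹, fun u hu => ?_⟩
    rw [Subgroup.coe_inv]
    exact SympV_inv_of ρ (SympV_ne ρ hU hz) (hz u hu)

/-- the elements of `T` that act by scalars with trivial `n`-th power -/
private def SympV_S (n : ℕ) : Subgroup G where
  carrier := {t | t ∈ T ∧ ∃ z : ℂ, z ^ n = 1 ∧ z ≠ 0 ∧ ∀ u ∈ U, ρ t u = z • u}
  mul_mem' := by
    rintro a b ⟨ha, z, hz1, hz0, hz⟩ ⟨hb, w, hw1, hw0, hw⟩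
    refine ⟨T.mul_mem ha hb, w * z, by rw [mul_pow, hw1, hz1, one_mul], mul_ne_zero hw0 hz0,
      fun u hu => ?_⟩
    rw [SympV_mul, hw u hu, map_smul, hz u hu, smul_smul]
  one_mem' := ⟨T.one_mem, 1, one_pow _, one_ne_zero, fun u _ => by rw [SympV_one, one_smul]⟩
  inv_mem' := by
    rintro a ⟨ha, z, hz1, hz0, hz⟩
    exact ⟨T.inv_mem ha, z⁻¹, by rw [inv_pow, hz1, inv_one], inv_ne_zero hz0,
      fun u hu => SympV_inv_of ρ hz0 (hz u hu)⟩

private theorem SympV_main [Finite G] {p : ℕ} [Fact p.Prime] (hU : U ≠ ⊥)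
    (hst : ∀ t ∈ T, ∀ u ∈ U, ρ t u ∈ U)
    (hscal : ∀ A : Subgroup G, A ≤ T → (∀ t ∈ T, ∀ a ∈ A, t * a * t⁻¹ ∈ A) →
      (∀ a ∈ A, ∀ b ∈ A, ∀ u ∈ U, ρ (a * b) u = ρ (b * a) u) →
      ∀ a ∈ A, ∃ z : ℂ, ∀ u ∈ U, ρ a u = z • u)
    (Y : Subgroup G) (hYT : Y ≤ T) (hY : ∀ t ∈ T, ∀ x ∈ Y, t * x * t⁻¹ ∈ Y)
    (hYp : IsPGroup p Y) :
    (∀ x ∈ Y, ∃ z : ℂ, ∀ u ∈ U, ρ (x ^ p) u = z • u) ∧
    (∀ x ∈ ⁅Y, Y⁆, ∃ z : ℂ, z ^ p = 1 ∧ ∀ u ∈ U, ρ x u = z • u) ∧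
    (∀ x ∈ Y, ∀ y ∈ Y, ∀ u ∈ U, ρ ((x * y) ^ (if p = 2 then 4 else p)) u =
      ρ (x ^ (if p = 2 then 4 else p)) (ρ (y ^ (if p = 2 then 4 else p)) u)) := by
  classical
  set K : Subgroup T := SympV_K ρ T U with hK
  have hKn : K.Normal := by
    constructor
    intro k hk g u hu
    rw [Subgroup.coe_mul, Subgroup.coe_mul, SympV_mul, SympV_mul,
      hk _ (hst _ (g⁻¹).2 u hu), ← SympV_mul, ← Subgroup.coe_mul, mul_inv_cancel,
      Subgroup.coe_one, SympV_one]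
  haveI : K.Normal := hKn
  let π : T →* T ⧸ K := QuotientGroup.mk' K
  have hπs : Function.Surjective π := QuotientGroup.mk'_surjective K
  have hπ : ∀ a b : T, π a = π b → ∀ u ∈ U, ρ (a : G) u = ρ (b : G) u := by
    intro a b hab u hu
    have h1 : a⁻¹ * b ∈ K := QuotientGroup.eq.1 hab
    have h2 : ρ (a : G) (ρ ((a⁻¹ * b : T) : G) u) = ρ (a : G) u := by rw [h1 u hu]
    rw [← h2, ← SympV_mul, ← Subgroup.coe_mul, mul_inv_cancel_left]
  have hπ' : ∀ a b : T, (∀ u ∈ U, ρ (a : G) u = ρ (b : G) u) → π a = π b := by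
    intro a b hab
    apply QuotientGroup.eq.2
    intro u hu
    rw [Subgroup.coe_mul, SympV_mul, ← hab u hu, ← SympV_mul, ← Subgroup.coe_mul,
      inv_mul_cancel, Subgroup.coe_one, SympV_one]
  set Z : Subgroup (T ⧸ K) := (SympV_Z ρ T U hU).map π with hZdef
  set Y' : Subgroup (T ⧸ K) := (Y.subgroupOf T).map π with hY'def
  have hZmem : ∀ a : T, π a ∈ Z → ∃ z : ℂ, ∀ u ∈ U, ρ (a : G) u = z • u := by
    rintro a ⟨b, ⟨z, hz⟩, hb⟩
    exact ⟨z, fun u hu => by rw [← hπ b a hb u hu, hz u hu]⟩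
  have hZc : Z ≤ Subgroup.center (T ⧸ K) := by
    rintro _ ⟨b, ⟨z, hz⟩, rfl⟩
    rw [Subgroup.mem_center_iff]
    intro g
    obtain ⟨a, rfl⟩ := hπs g
    rw [← map_mul, ← map_mul]
    apply hπ'
    intro u hu
    rw [Subgroup.coe_mul, Subgroup.coe_mul, SympV_mul, SympV_mul, hz u hu, map_smul,
      hz _ (hst _ a.2 u hu)]
  haveI hYn : (Y.subgroupOf T).Normal := by
    constructor
    intro x hx t
    rw [Subgroup.mem_subgroupOf] at hx ⊢
    exact hY t t.2 x hx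
  haveI hYn' : Y'.Normal := hYn.map π hπs
  have hYp' : IsPGroup p Y' := by
    apply IsPGroup.map
    exact hYp.comap_of_injective T.subtype T.subtype_injective
  have hab : ∀ A : Subgroup (T ⧸ K), A.Normal → A ≤ Y' → (∀ a ∈ A, ∀ b ∈ A, a * b = b * a) →
      A ≤ Z := by
    intro A hA _ hcomm
    have h1 := hscal ((A.comap π).map T.subtype) (by
      rintro _ ⟨a, _, rfl⟩
      exact a.2) (by
      rintro t ht _ ⟨a, ha, rfl⟩
      refine ⟨⟨t, ht⟩ * a * ⟨t, ht⟩⁻¹, ?_, rfl⟩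
      show π (⟨t, ht⟩ * a * ⟨t, ht⟩⁻¹) ∈ A
      rw [map_mul, map_mul, map_inv]
      exact hA.conj_mem (π a) ha (π ⟨t, ht⟩)) (by
      rintro _ ⟨a, ha, rfl⟩ _ ⟨b, hb, rfl⟩ u hu
      have h2 := hcomm _ ha _ hb
      rw [← map_mul, ← map_mul] at h2
      exact hπ _ _ h2 u hu)
    intro q hq
    obtain ⟨a, rfl⟩ := hπs q
    obtain ⟨z, hz⟩ := h1 (a : G) ⟨a, hq, rfl⟩
    exact ⟨a, ⟨z, hz⟩, rfl⟩
  obtain ⟨s1, s2, s3⟩ := symp (p := p) Z Y' hYp' hZc hab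
  have hmem : ∀ x (hx : x ∈ Y), π ⟨x, hYT hx⟩ ∈ Y' := fun x hx =>
    ⟨⟨x, hYT hx⟩, hx, rfl⟩
  refine ⟨?_, ?_, ?_⟩
  · intro x hx
    have h1 := s1 _ (hmem x hx)
    rw [← map_pow] at h1
    exact hZmem _ h1
  · have hle : ⁅Y, Y⁆ ≤ SympV_S ρ T U p := by
      rw [Subgroup.commutator_le]
      intro x hx y hy
      obtain ⟨h1, h2⟩ := s2 _ (hmem x hx) _ (hmem y hy)
      rw [← map_commutatorElement] at h1 h2
      obtain ⟨z, hz⟩ := hZmem _ h1
      have hz0 : z ≠ 0 := SympV_ne ρ hU hz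
      refine ⟨?_, z, ?_, hz0, hz⟩
      · exact (⁅(⟨x, hYT hx⟩ : T), (⟨y, hYT hy⟩ : T)⁆ : T).2
      · rw [← map_pow, ← map_one π] at h2
        obtain ⟨u, hu, hu0⟩ := (Submodule.ne_bot_iff U).1 hU
        have h3 := hπ _ _ h2 u hu
        have h4 : ∀ n : ℕ, ρ (((⁅(⟨x, hYT hx⟩ : T), (⟨y, hYT hy⟩ : T)⁆ ^ n : T)) : G) u =
            z ^ n • u := by
          intro n
          induction n with
          | zero => rw [pow_zero, Subgroup.coe_one, SympV_one, pow_zero, one_smul]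
          | succ n ih =>
            rw [pow_succ, Subgroup.coe_mul, SympV_mul, hz u hu, map_smul, ih, smul_smul,
              pow_succ']
        rw [h4, Subgroup.coe_one, SympV_one] at h3
        have h5 : (z ^ p - 1) • u = 0 := by rw [sub_smul, h3, one_smul, sub_self]
        rcases smul_eq_zero.1 h5 with h6 | h6
        · exact sub_eq_zero.1 h6
        · exact absurd h6 hu0
    intro x hx
    obtain ⟨_, z, h1, _, h2⟩ := hle hx
    exact ⟨z, h1, h2⟩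
  · intro x hx y hy u hu
    have h1 := s3 _ (hmem x hx) _ (hmem y hy)
    rw [← map_mul, ← map_pow, ← map_pow, ← map_pow, ← map_mul] at h1
    have h2 := hπ _ _ h1 u hu
    rw [← SympV_mul]
    exact h2

end

theorem symp_rep {G : Type} [Group G] [Finite G] {p : ℕ} [Fact p.Prime] (V : FDRep ℂ G)
    (T : Subgroup G) (U : Submodule ℂ V) (h : GoodPair V T U) (X : Subgroup G) (hXT : X ≤ T)
    (hX : ∀ t ∈ T, ∀ x ∈ X, t * x * t⁻¹ ∈ X) (hXp : IsPGroup p X) :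
    (∀ x ∈ X, ∃ z : ℂ, ∀ u ∈ U, V.ρ (x ^ p) u = z • u) ∧
    (∀ x ∈ ⁅X, X⁆, ∃ z : ℂ, z ^ p = 1 ∧ ∀ u ∈ U, V.ρ x u = z • u) ∧
    (∀ x ∈ X, ∀ y ∈ X, ∀ u ∈ U, V.ρ ((x * y) ^ (if p = 2 then 4 else p)) u =
      V.ρ (x ^ (if p = 2 then 4 else p)) (V.ρ (y ^ (if p = 2 then 4 else p)) u)) :=
  SympV_main V.ρ T U h.ne_bot h.stable h.scal X hXT hX hXp

end Pool.PWL
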