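import Pool.Agent.PWL.DefsM

/-!
# The transfer of a linear character
-/

namespace Pool.PWL

theorem exists_transfer {G A : Type*} [Group G] [Finite G] [CommGroup A] (T M : Subgroup G)
    (hTM : T ≤ M) (τ : T →* A) :
    ∃ μ : M →* A, ∀ (k : G) (hk : k ∈ M), (∀ g ∈ M, g⁻¹ * k * g ∈ T) →
      μ ⟨k, hk⟩ = cprod T M (cch τ k) := by
  classical
  have hfi : (T.subgroupOf M).FiniteIndex := inferInstance
  refine ⟨MonoidHom.transfer (τ.comp (Subgroup.subgroupOfEquivOfLe hTM).toMonoidHom), ?_⟩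
  intro k hk hT
  have hmk : ∀ q : M ⧸ T.subgroupOf M, ((q.out : M) : M ⧸ T.subgroupOf M) = q :=
    fun q => Quotient.out_eq' q
  have htriv : ∀ q : M ⧸ T.subgroupOf M, (⟨k, hk⟩ : M)⁻¹ • q = q := by
    intro q
    rw [inv_smul_eq_iff]
    conv_lhs => rw [← hmk q]
    conv_rhs => rw [← hmk q]
    change _ = (((⟨k, hk⟩ : M) * q.out : M) : M ⧸ T.subgroupOf M)
    rw [QuotientGroup.eq, Subgroup.mem_subgroupOf]
    have h1 := hT (q.out : M) (q.out : M).2
    simpa [mul_assoc] using h1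
  rw [MonoidHom.transfer_def _ (⟨Set.range (fun q : M ⧸ T.subgroupOf M => (q.out : M)),
    Subgroup.isComplement_range_left hmk⟩ : (T.subgroupOf M).LeftTransversal)]
  unfold Subgroup.leftTransversals.diff cprod
  let _ := (T.subgroupOf M).fintypeQuotientOfFiniteIndex
  rw [finprod_eq_prod_of_fintype]
  refine Finset.prod_congr rfl fun q _ => ?_
  have e1 := Subgroup.IsComplement.leftQuotientEquiv_apply hmk q
  have e2 : (((⟨k, hk⟩ : M) • (⟨Set.range (fun q : M ⧸ T.subgroupOf M => (q.out : M)),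
    Subgroup.isComplement_range_left hmk⟩ : (T.subgroupOf M).LeftTransversal)).2.leftQuotientEquiv
      q : M) = ⟨k, hk⟩ * q.out := by
    rw [Subgroup.smul_apply_eq_smul_apply_inv_smul, htriv q, smul_eq_mul]
    congr 1
  have hmem := hT (q.out : M) (q.out : M).2
  unfold cch
  rw [dif_pos hmem, MonoidHom.comp_apply]
  refine congrArg τ (Subtype.ext ?_)
  change (((_ : M)⁻¹ * (_ : M) : M) : G) = _
  rw [e2]
  erw [e1]
  simp [mul_assoc]

end Pool.PWL
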