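import Pool.Agent.PWL.SympV
import Pool.Agent.PWL.Trans
import Pool.Agent.PWL.Cprod

/-!
# PWL, row Tau: a character of `T` from the scalars of the normal `p`-subgroup
-/

namespace Pool.PWL

open scoped commutatorElement

private theorem tau_scal_unique {G : Type} [Group G] (V : FDRep ℂ G) (U : Submodule ℂ V)
    (hU : U ≠ ⊥) (f : V → V) (a b : ℂ) (ha : ∀ u ∈ U, f u = a • u) (hb : ∀ u ∈ U, f u = b • u) :
    a = b := by
  obtain ⟨u, hu, hu0⟩ := Submodule.exists_mem_ne_zero_of_ne_bot hU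
  have h := (ha u hu).symm.trans (hb u hu)
  exact smul_left_injective ℂ hu0 h

private theorem tau_pow {G : Type} [Group G] (V : FDRep ℂ G) (U : Submodule ℂ V) (z : G) (a : ℂ)
    (ha : ∀ u ∈ U, V.ρ z u = a • u) (n : ℕ) : ∀ u ∈ U, V.ρ (z ^ n) u = a ^ n • u := by
  induction n with
  | zero => intro u _; simp
  | succ n ih =>
    intro u hu
    rw [pow_succ, map_mul, Module.End.mul_apply, ha u hu, map_smul, ih u hu, smul_smul, pow_succ,
      mul_comm]

/-- ROW Tau -/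
theorem exists_tau {G : Type} [Group G] [Finite G] {p : ℕ} [Fact p.Prime] (V : FDRep ℂ G)
    (T : Subgroup G) (U : Submodule ℂ V) (h : GoodPair V T U) (S : Subgroup G) [S.Normal]
    (hS : IsPGroup p S) :
    ∃ τ : T →* ℂˣ, ∀ (z : G) (hz : z ∈ T) (a : ℂ), z ∈ S → (∀ u ∈ U, V.ρ z u = a • u) →
      ((τ ⟨z, hz⟩ : ℂˣ) : ℂ) = a ^ ((if p = 2 then 4 else p) * S.relIndex T) := by
  have hS' : S.Normal := inferInstance
  obtain ⟨h1, -, h3⟩ := symp_rep V T U h (T ⊓ S) inf_le_left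
    (fun t ht x hx => ⟨T.mul_mem (T.mul_mem ht hx.1) (T.inv_mem ht), hS'.conj_mem x hx.2 t⟩)
    (hS.to_le inf_le_right)
  set q : ℕ := if p = 2 then 4 else p with hq
  have hpq : ∃ m, q = p * m := by
    by_cases hp : p = 2
    · exact ⟨2, by rw [hq, if_pos hp, hp]⟩
    · exact ⟨1, by rw [hq, if_neg hp, mul_one]⟩
  obtain ⟨m, hm⟩ := hpq
  have hex : ∀ x : (T ⊓ S : Subgroup G), ∃ z : ℂ, ∀ u ∈ U, V.ρ ((x : G) ^ q) u = z • u := by
    intro x
    obtain ⟨z, hz⟩ := h1 x x.2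
    refine ⟨z ^ m, ?_⟩
    rw [hm, pow_mul]
    exact tau_pow V U _ z hz m
  choose s hs using hex
  have hU := h.ne_bot
  have hmul : ∀ x y, s (x * y) = s x * s y := by
    intro x y
    apply tau_scal_unique V U hU (fun u => V.ρ (((x * y : (T ⊓ S : Subgroup G)) : G) ^ q) u) _ _
      (hs (x * y))
    intro u hu
    have e := h3 x x.2 y y.2 u hu
    rw [hs y u hu, map_smul, hs x u hu, smul_smul, mul_comm] at e
    exact e
  have hone : s 1 = 1 := by
    apply tau_scal_unique V U hU (fun u => V.ρ (((1 : (T ⊓ S : Subgroup G)) : G) ^ q) u) _ _ (hs 1)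
    intro u _
    simp
  let σ : (T ⊓ S : Subgroup G) →* ℂˣ := MonoidHom.toHomUnits
    { toFun := s, map_one' := hone, map_mul' := hmul }
  have hσ : ∀ x, ((σ x : ℂˣ) : ℂ) = s x := fun x => rfl
  obtain ⟨μ, hμ⟩ := exists_transfer (T ⊓ S) T inf_le_left σ
  refine ⟨μ, ?_⟩
  intro z hz a hzS ha
  have hconj : ∀ g ∈ T, g⁻¹ * z * g ∈ T ⊓ S := by
    intro g hg
    refine ⟨T.mul_mem (T.mul_mem (T.inv_mem hg) hz) hg, ?_⟩
    have := hS'.conj_mem z hzS g⁻¹
    rwa [inv_inv] at this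
  have ha0 : a ≠ 0 := by
    intro h0
    obtain ⟨u, hu, hu0⟩ := Submodule.exists_mem_ne_zero_of_ne_bot hU
    apply hu0
    have e := ha u hu
    rw [h0, zero_smul] at e
    have e2 : V.ρ z⁻¹ (V.ρ z u) = u := by
      rw [← Module.End.mul_apply, ← map_mul, inv_mul_cancel, map_one, Module.End.one_apply]
    rw [e, map_zero] at e2
    exact e2.symm
  have hF : ∀ g ∈ T, cch σ z g = Units.mk0 (a ^ q) (pow_ne_zero q ha0) := by
    intro g hg
    have hc := hconj g hg
    unfold cch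
    rw [dif_pos hc]
    apply Units.ext
    rw [hσ, Units.val_mk0]
    apply tau_scal_unique V U hU (fun u => V.ρ ((g⁻¹ * z * g) ^ q) u) _ _ (hs ⟨_, hc⟩)
    intro u hu
    have e1 : (g⁻¹ * z * g) ^ q = g⁻¹ * z ^ q * g := by
      have := conj_pow (i := q) (a := g⁻¹) (b := z)
      rw [inv_inv] at this
      exact this
    show V.ρ ((g⁻¹ * z * g) ^ q) u = a ^ q • u
    rw [e1, map_mul, map_mul, Module.End.mul_apply, Module.End.mul_apply,
      tau_pow V U z a ha q _ (h.stable g hg u hu), map_smul, ← Module.End.mul_apply, ← map_mul,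
      inv_mul_cancel, map_one, Module.End.one_apply]
  rw [hμ z hz hconj, cprod_const (T ⊓ S) T _ _ hF, Units.val_pow_eq_pow_val, Units.val_mk0,
    Subgroup.inf_relIndex_left, ← pow_mul]

end Pool.PWL
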