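import Pool.Agent.PWL.Cprod
import Pool.Agent.PWL.Cch
import Pool.Agent.PWL.NormStep

/-!
# The tower: products over cosets along a chain of subgroups of index `p`
-/

namespace Pool.PWL

open scoped commutatorElement

private theorem tower_chain_le {G : Type*} [Group G] (p : ℕ) (P : Subgroup G) (i : ℕ) :
    chain p P i ≤ P := by
  induction i with
  | zero => exact le_rfl
  | succ i ih => exact (pw_le_self p _).trans ih

/-- a proper subgroup of a finite `p`-group lies in a subgroup of index `p` -/
private theorem tower_exists_index {F : Type*} [Group F] [Finite F] {p : ℕ} [Fact p.Prime]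
    (hF : IsPGroup p F) (E : Subgroup F) (hE : E ≠ ⊤) :
    ∃ K : Subgroup F, E ≤ K ∧ K.index = p ∧ K.Normal := by
  obtain ⟨N, hN⟩ := hF.exists_card_eq
  obtain ⟨n, hn⟩ := (hF.to_subgroup E).exists_card_eq
  have hp : 1 < p := (Fact.out : p.Prime).one_lt
  have hlt : n < N := by
    have h1 : Nat.card E ≤ Nat.card F := Subgroup.card_le_card_group E
    have h2 : Nat.card E ≠ Nat.card F := fun h => hE (Subgroup.eq_top_of_card_eq E h)
    have h3 : p ^ n < p ^ N := by rw [← hn, ← hN]; omega
    exact (Nat.pow_lt_pow_iff_right hp).1 h3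
  obtain ⟨K, hK, hEK⟩ := Sylow.exists_subgroup_card_pow_prime_le (G := F) p (n := n) (m := N - 1)
    (by rw [hN]; exact pow_dvd_pow p (by omega)) E hn (by omega)
  have hidx : K.index = p := by
    have h4 := K.card_mul_index
    rw [hK, hN] at h4
    have h5 : p ^ N = p ^ (N - 1) * p := by rw [← pow_succ]; congr 1; omega
    rw [h5] at h4
    exact Nat.eq_of_mul_eq_mul_left (pow_pos (by omega) _) h4
  refine ⟨K, hEK, hidx, ?_⟩
  apply Subgroup.normal_of_index_eq_minFac_card
  rw [hidx, hN, Nat.Prime.pow_minFac Fact.out (by omega)]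

/-- powers of an element outside a normal subgroup of index `p` represent the cosets -/
private theorem tower_powers {F : Type*} [Group F] [Finite F] {p : ℕ} [Fact p.Prime]
    (K : Subgroup F) (hK : K.index = p) (hKn : K.Normal) (x : F) (hx : x ∉ K) :
    (∀ i < p, ∀ j < p, (x ^ i)⁻¹ * x ^ j ∈ K → i = j) ∧ ∀ y : F, ∃ i < p, (x ^ i)⁻¹ * y ∈ K := by
  have hp : p.Prime := Fact.out
  have hcard : Nat.card (F ⧸ K) = p := hK
  have hx1 : (x : F ⧸ K) ≠ 1 := fun h => hx ((QuotientGroup.eq_one_iff x).1 h)
  have hord : orderOf (x : F ⧸ K) = p := by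
    apply orderOf_eq_prime _ hx1
    rw [← hcard]
    exact pow_card_eq_one'
  constructor
  · intro i hi j hj h
    have h1 : ((x ^ i : F) : F ⧸ K) = ((x ^ j : F) : F ⧸ K) := QuotientGroup.eq.2 h
    rw [QuotientGroup.mk_pow, QuotientGroup.mk_pow] at h1
    exact pow_injOn_Iio_orderOf (by rw [hord]; exact hi) (by rw [hord]; exact hj) h1
  · intro y
    obtain ⟨n, hn⟩ := mem_powers_of_prime_card hcard (g := (x : F ⧸ K)) (g' := (y : F ⧸ K)) hx1
    refine ⟨n % p, Nat.mod_lt _ hp.pos, ?_⟩
    rw [← QuotientGroup.eq, QuotientGroup.mk_pow, ← hord, pow_mod_orderOf]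
    exact hn

theorem tower {G : Type*} [Group G] [Finite G] {p : ℕ} [Fact p.Prime] (W P T : Subgroup G)
    [P.Normal] (hW : IsPGroup p W) (hPW : P ≤ W) (hPT : P ≤ T)
    (hPE : ∀ i, PE p (chain p P i) W) (τ : T →* ℂˣ) (t : ℕ) :
    ∀ (X : Subgroup G) (j : ℕ), X ≤ W → T ⊓ W ≤ X → (T ⊓ W).relIndex X = p ^ t →
      (∀ k ∈ chain p P j, cprod T X (cch τ k) = 1) →
      ∀ k ∈ chain p P (j + t), ∀ hk : k ∈ T, τ ⟨k, hk⟩ = 1 := by
  have hp : p.Prime := Fact.out
  induction t with
  | zero =>
    intro X j hXW hTX hidx h k hkP hk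
    rw [pow_zero, Subgroup.relIndex_eq_one] at hidx
    have h1 := h k hkP
    rw [cprod_of_le T X (hidx.trans inf_le_left) (cch τ k)
      (fun g t ht => cch_mul_right τ k g t ht), cch_one_right τ k hk] at h1
    exact h1
  | succ t ih =>
    intro X j hXW hTX hidx h k hkP hk
    have hXp : IsPGroup p X := hW.to_le hXW
    have hne : (T ⊓ W).subgroupOf X ≠ ⊤ := by
      intro htop
      rw [Subgroup.relIndex, htop, Subgroup.index_top] at hidx
      exact (Nat.one_lt_pow (Nat.succ_ne_zero t) hp.one_lt).ne hidx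
    obtain ⟨K, hEK, hKi, hKn⟩ := tower_exists_index hXp _ hne
    have hYX : K.map X.subtype ≤ X := Subgroup.map_subtype_le K
    have hmem : ∀ g (hg : g ∈ X), g ∈ K.map X.subtype ↔ (⟨g, hg⟩ : X) ∈ K := by
      intro g hg
      constructor
      · rintro ⟨y, hy, rfl⟩
        exact hy
      · intro h'
        exact ⟨⟨g, hg⟩, h', rfl⟩
    have hTY : T ⊓ W ≤ K.map X.subtype := by
      intro g hg
      rw [hmem g (hTX hg)]
      exact hEK (Subgroup.mem_subgroupOf.2 hg)
    have hYi : (K.map X.subtype).relIndex X = p := by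
      rw [Subgroup.relIndex, Subgroup.subgroupOf, Subgroup.comap_map_eq_self_of_injective
        X.subtype_injective, hKi]
    have hxe : ∃ x : X, x ∉ K := by
      by_contra hcon
      push Not at hcon
      have : K = ⊤ := by rw [Subgroup.eq_top_iff']; exact hcon
      rw [this, Subgroup.index_top] at hKi
      exact hp.one_lt.ne hKi
    obtain ⟨x, hx⟩ := hxe
    obtain ⟨hinj, hsurj⟩ := tower_powers K hKi hKn x hx
    -- the function
    set Q := chain p P j with hQ
    have hQP : Q ≤ P := tower_chain_le p P j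
    have hQn : Q.Normal := chain_normal p P j
    have key : ∀ k ∈ pw p Q, cprod T (K.map X.subtype) (cch τ k) = 1 := by
      refine norm_step W Q (hW.to_le (hQP.trans hPW)) (hPE j) (x : G) (hXW x.2)
        (fun k => cprod T (K.map X.subtype) (cch τ k)) ?_ ?_
      · intro a ha b hb
        rw [← cprod_mul]
        congr 1
        funext g
        exact cch_mul τ Q (hQP.trans hPT) a ha b hb g
      · intro a ha
        have h1 := h a ha
        rw [cprod_step T X (K.map X.subtype) hYX (fun g hg hgT => hTY ⟨hgT, hXW hg⟩) p (x : G) x.2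
          ?_ ?_ (cch τ a) (fun g t ht => cch_mul_right τ a g t ht)] at h1
        · rw [← h1]
          refine Finset.prod_congr rfl fun i _ => ?_
          congr 1
          funext g
          exact (cch_mul_left τ a ((x : G) ^ i) g).symm
        · intro i hi j hj hij
          refine hinj i hi j hj ?_
          have h2 : ((x : G) ^ i)⁻¹ * (x : G) ^ j ∈ X :=
            X.mul_mem (X.inv_mem (X.pow_mem x.2 i)) (X.pow_mem x.2 j)
          exact (hmem _ h2).1 hij
        · intro y hy
          obtain ⟨i, hi, hi'⟩ := hsurj ⟨y, hy⟩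
          refine ⟨i, hi, ?_⟩
          have h2 : ((x : G) ^ i)⁻¹ * y ∈ X := X.mul_mem (X.inv_mem (X.pow_mem x.2 i)) hy
          exact (hmem _ h2).2 hi'
    refine ih (K.map X.subtype) (j + 1) (hYX.trans hXW) hTY ?_ key k ?_ hk
    · have h3 := Subgroup.relIndex_mul_relIndex (T ⊓ W) (K.map X.subtype) X hTY hYX
      rw [hYi, hidx, pow_succ] at h3
      exact Nat.eq_of_mul_eq_mul_right hp.pos h3
    · have h4 : j + (t + 1) = j + 1 + t := by omega
      rw [← h4]
      exact hkP

end Pool.PWL
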