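import Pool.Agent.PWL.DefsS

/-!
# Traces of the elements of the ring generated by `L` and the scalars of `K`
-/

namespace Pool.PWL

theorem trace_mem_kAlg {T : Type*} [Group T] {U : Type*} [AddCommGroup U] [Module ℂ U]
    [FiniteDimensional ℂ U] (ρ : Representation ℂ T U) (L : Subgroup T) (K : Subfield ℂ)
    (h : ∀ l ∈ L, LinearMap.trace ℂ U (ρ l) ∈ K) :
    ∀ X ∈ kAlg ρ L K, LinearMap.trace ℂ U X ∈ K := by
  intro X hX
  have key : ∀ Y ∈ Submonoid.closure (Set.range (fun l : L => ρ (l : T)) ∪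
      {X | ∃ k ∈ K, X = k • (1 : Module.End ℂ U)}), ∃ k ∈ K, ∃ l ∈ L, Y = k • ρ l := by
    intro Y hY
    induction hY using Submonoid.closure_induction with
    | mem Y hY =>
      rcases hY with ⟨l, rfl⟩ | ⟨k, hk, rfl⟩
      · exact ⟨1, K.one_mem, l, l.2, (one_smul _ _).symm⟩
      · exact ⟨k, hk, 1, L.one_mem, by rw [map_one]⟩
    | one => exact ⟨1, K.one_mem, 1, L.one_mem, by rw [map_one, one_smul]⟩
    | mul Y Z _ _ h1 h2 =>
      obtain ⟨k, hk, l, hl, rfl⟩ := h1
      obtain ⟨k', hk', l', hl', rfl⟩ := h2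
      exact ⟨k * k', K.mul_mem hk hk', l * l', L.mul_mem hl hl',
        by rw [map_mul, smul_mul_smul_comm]⟩
  have hX' := Subring.mem_closure_iff.mp hX
  induction hX' using AddSubgroup.closure_induction with
  | mem Y hY =>
    obtain ⟨k, hk, l, hl, rfl⟩ := key Y hY
    rw [map_smul, smul_eq_mul]
    exact K.mul_mem hk (h l hl)
  | zero =>
    rw [map_zero]
    exact K.zero_mem
  | add Y Z hY hZ h1 h2 =>
    rw [map_add]
    exact K.add_mem (h1 (Subring.mem_closure_iff.mpr hY)) (h2 (Subring.mem_closure_iff.mpr hZ))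
  | neg Y hY h1 =>
    rw [map_neg]
    exact K.neg_mem (h1 (Subring.mem_closure_iff.mpr hY))

end Pool.PWL
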